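import Pool.Agent.H698R3.AmRound

set_option autoImplicit false

/-! Stability with respect to a class of metric groups: definitions and the abstract argument. -/

namespace Pool.Agent.H698R3.Amalg

open Filter Topology

/-- A class of metric groups, indexed by natural numbers. -/
structure Cls where
  C : ℕ → Type
  grp : ∀ k, Group (C k)
  d : ∀ k, C k → C k → ℝ

instance (𝒞 : Cls) (k : ℕ) : Group (𝒞.C k) := 𝒞.grp k

/-- `G` is `𝒞`-stable: every asymptotic homomorphism to groups of the class is asymptotically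
close to a sequence of homomorphisms into the same groups. -/
def Cls.Stable (𝒞 : Cls) (G : Type) [Group G] : Prop :=
  ∀ (k : ℕ → ℕ) (φ : ∀ n, G → 𝒞.C (k n)),
    (∀ a b : G, Tendsto (fun n => 𝒞.d (k n) (φ n a * φ n b) (φ n (a * b))) atTop (𝓝 0)) →
    ∃ ψ : ∀ n, G →* 𝒞.C (k n),
      ∀ a : G, Tendsto (fun n => 𝒞.d (k n) (φ n a) (ψ n a)) atTop (𝓝 0)

/-- The distances are bi-invariant pseudometrics. -/
structure Cls.IsMetric (𝒞 : Cls) : Prop where
  self : ∀ k (x : 𝒞.C k), 𝒞.d k x x = 0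
  symm : ∀ k (x y : 𝒞.C k), 𝒞.d k x y = 𝒞.d k y x
  tri : ∀ k (x y z : 𝒞.C k), 𝒞.d k x z ≤ 𝒞.d k x y + 𝒞.d k y z
  left : ∀ k (x y z : 𝒞.C k), 𝒞.d k (x * y) (x * z) = 𝒞.d k y z
  right : ∀ k (x y z : 𝒞.C k), 𝒞.d k (y * x) (z * x) = 𝒞.d k y z

namespace Cls.IsMetric

variable {𝒞 : Cls} (hm : 𝒞.IsMetric)
include hm

theorem nonneg (k : ℕ) (x y : 𝒞.C k) : 0 ≤ 𝒞.d k x y := by
  have h1 := hm.tri k x y x
  rw [hm.self, hm.symm k y x] at h1
  linarith

theorem mul_mul (k : ℕ) (a a' b b' : 𝒞.C k) :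
    𝒞.d k (a * b) (a' * b') ≤ 𝒞.d k a a' + 𝒞.d k b b' := by
  have h1 := hm.tri k (a * b) (a * b') (a' * b')
  rw [hm.left, hm.right] at h1
  linarith

theorem inv (k : ℕ) (x y : 𝒞.C k) : 𝒞.d k x⁻¹ y⁻¹ = 𝒞.d k x y := by
  have h1 := hm.left k x x⁻¹ y⁻¹
  have h2 := hm.right k y (x * x⁻¹) (x * y⁻¹)
  rw [← h1, ← h2]
  have e1 : x * x⁻¹ * y = y := by group
  have e2 : x * y⁻¹ * y = x := by group
  rw [e1, e2, hm.symm]

theorem conj (k : ℕ) (u x : 𝒞.C k) : 𝒞.d k (u * x * u⁻¹) x ≤ 2 * 𝒞.d k u 1 := by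
  have h1 := hm.mul_mul k (u * x) (1 * x) u⁻¹ 1⁻¹
  rw [hm.right, hm.inv, one_mul, inv_one, mul_one] at h1
  linarith

end Cls.IsMetric

/-- Data about the representations of the finite group `H`. -/
structure HData (𝒞 : Cls) (H : Type) [Group H] where
  E : Type
  finE : Fintype E
  hv : ∀ k, (H →* 𝒞.C k) → E → ℝ
  close : ∀ ε : ℝ, 0 < ε → ∃ δ : ℝ, 0 < δ ∧ ∀ k (π π' : H →* 𝒞.C k),
    (∀ h, 𝒞.d k (π h) (π' h) ≤ δ) → ∀ e, |hv k π e - hv k π' e| ≤ ε * k
  c : ℝ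
  hc : 0 < c
  disc : ∀ k (π π' : H →* 𝒞.C k), (∀ e, |hv k π e - hv k π' e| < c) → hv k π = hv k π'
  mtch : ∀ ε : ℝ, 0 < ε → ∃ δ : ℝ, 0 < δ ∧ ∀ k (π π' : H →* 𝒞.C k), hv k π = hv k π' →
    (∀ h, 𝒞.d k (π h) (π' h) ≤ δ) → ∃ u : 𝒞.C k, 𝒞.d k u 1 ≤ ε ∧ ∀ h, u * π' h * u⁻¹ = π h

/-- Data about the representations of a group `G` containing the image of `H` in a finite normal
subgroup. -/
structure GData (𝒞 : Cls) {H G : Type} [Group H] [Group G] (f : H →* G) (D : HData 𝒞 H) where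
  T : Type
  finT : Fintype T
  decT : DecidableEq T
  s : ∀ k, (G →* 𝒞.C k) → T → ℕ
  Siz : T → AddSubmonoid ℕ
  mem : ∀ k ψ t, s k ψ t ∈ Siz t
  sum : ∀ k ψ, ∑ t, s k ψ t = k
  triv : T
  triv_mem : 1 ∈ Siz triv
  ρ : T → D.E → ℝ
  triv_rho : ∀ e, ρ triv e = D.hv 1 1 e
  hv_eq : ∀ k (ψ : G →* 𝒞.C k) e, D.hv k (ψ.comp f) e = ∑ t, (s k ψ t : ℝ) * ρ t e
  real : ∀ (k : ℕ) (p : T → ℕ), (∀ t, p t ∈ Siz t) → ∑ t, p t = k → ∃ ψ : G →* 𝒞.C k, s k ψ = p
  adjust : ∀ (F : Finset G) (ε : ℝ), 0 < ε → ∃ η : ℝ, 0 < η ∧ ∃ L0 : ℕ, ∀ k ≥ L0,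
    ∀ ψ : G →* 𝒞.C k, ∀ t : T → ℕ, (∀ i, t i ∈ Siz i) → ∑ i, t i = k →
      (∀ i, |(t i : ℝ) - s k ψ i| ≤ η * k) →
      ∃ ψ' : G →* 𝒞.C k, s k ψ' = t ∧ ∀ g ∈ F, 𝒞.d k (ψ' g) (ψ g) ≤ ε

attribute [instance] HData.finE GData.finT GData.decT

section matching

variable {𝒞 : Cls} (hm : 𝒞.IsMetric) {H G₁ G₂ : Type} [Group H] [Fintype H] [Group G₁] [Group G₂]
  {f₁ : H →* G₁} {f₂ : H →* G₂} (D : HData 𝒞 H) (A₁ : GData 𝒞 f₁ D) (A₂ : GData 𝒞 f₂ D)

include hm A₁ A₂ in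
/-- Homomorphisms of the two groups that are close on `H` are close to homomorphisms that agree
on `H`. -/
theorem matching (F₁ : Finset G₁) (F₂ : Finset G₂) (ε : ℝ) (hε : 0 < ε) :
    ∃ δ : ℝ, 0 < δ ∧ ∀ k (ψ₁ : G₁ →* 𝒞.C k) (ψ₂ : G₂ →* 𝒞.C k),
      (∀ h, 𝒞.d k (ψ₁ (f₁ h)) (ψ₂ (f₂ h)) ≤ δ) →
      ∃ (θ₁ : G₁ →* 𝒞.C k) (θ₂ : G₂ →* 𝒞.C k), (∀ h, θ₁ (f₁ h) = θ₂ (f₂ h)) ∧
        (∀ g ∈ F₁, 𝒞.d k (θ₁ g) (ψ₁ g) ≤ ε) ∧ (∀ g ∈ F₂, 𝒞.d k (θ₂ g) (ψ₂ g) ≤ ε) := by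
  classical
  obtain ⟨δm, hδm, hmt⟩ := D.mtch (ε / 4) (by linarith)
  set εa : ℝ := min (ε / 2) (δm / 3) with hεa
  have hεapos : 0 < εa := lt_min (by linarith) (by linarith)
  have hεa1 : εa ≤ ε / 2 := min_le_left _ _
  have hεa2 : εa ≤ δm / 3 := min_le_right _ _
  obtain ⟨η₁, hη₁, L₁, had₁⟩ := A₁.adjust (F₁ ∪ Finset.univ.image f₁) εa hεapos
  obtain ⟨η₂, hη₂, L₂, had₂⟩ := A₂.adjust (F₂ ∪ Finset.univ.image f₂) εa hεapos
  -- rounding
  obtain ⟨δr, hδr, N0, hround⟩ := rounding (T := A₁.T ⊕ A₂.T) (E := Option D.E)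
    (Sum.elim A₁.Siz A₂.Siz) (Sum.elim (fun _ => 1) (fun _ => 0))
    (fun e i => match e with
      | none => Sum.elim (fun _ => (1 : ℝ)) (fun _ => -1) i
      | some e => Sum.elim (fun t => A₁.ρ t e) (fun t => -A₂.ρ t e) i)
    (min D.c 1) (lt_min D.hc one_pos)
    (by
      intro p hp hlt
      have hp1 : ∀ t, p (Sum.inl t) ∈ A₁.Siz t := fun t => hp (Sum.inl t)
      have hp2 : ∀ t, p (Sum.inr t) ∈ A₂.Siz t := fun t => hp (Sum.inr t)
      have h0 := hlt none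
      simp only [Fintype.sum_sum_type, Sum.elim_inl, Sum.elim_inr, one_mul, neg_mul,
        Finset.sum_neg_distrib] at h0
      have h1 : ∑ t, p (Sum.inl t) = ∑ t, p (Sum.inr t) := by
        have h2 : |(((∑ t, p (Sum.inl t) : ℕ) : ℤ) - ((∑ t, p (Sum.inr t) : ℕ) : ℤ) : ℤ)| < 1 := by
          have : |((((∑ t, p (Sum.inl t) : ℕ) : ℤ) - ((∑ t, p (Sum.inr t) : ℕ) : ℤ) : ℤ) : ℝ)| < 1 := by
            push_cast
            rw [sub_eq_add_neg]
            exact h0.trans_le (min_le_right _ _)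
          exact_mod_cast this
        have h3 := Int.abs_lt_one_iff.mp h2
        omega
      obtain ⟨ψ₁, hψ₁⟩ := A₁.real (∑ t, p (Sum.inl t)) (fun t => p (Sum.inl t)) hp1 rfl
      obtain ⟨ψ₂, hψ₂⟩ := A₂.real (∑ t, p (Sum.inl t)) (fun t => p (Sum.inr t)) hp2 h1.symm
      have hrow : ∀ e, ∑ i : A₁.T ⊕ A₂.T,
          (Sum.elim (fun t => A₁.ρ t e) (fun t => -A₂.ρ t e) i) * (p i : ℝ) =
          D.hv _ (ψ₁.comp f₁) e - D.hv _ (ψ₂.comp f₂) e := by
        intro e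
        rw [A₁.hv_eq, A₂.hv_eq, hψ₁, hψ₂]
        simp only [Fintype.sum_sum_type, Sum.elim_inl, Sum.elim_inr, neg_mul,
          Finset.sum_neg_distrib]
        rw [← sub_eq_add_neg]
        congr 1 <;> exact Finset.sum_congr rfl (fun t _ => mul_comm _ _)
      have heq := D.disc _ (ψ₁.comp f₁) (ψ₂.comp f₂) (fun e => by
        rw [← hrow e]
        exact (hlt (some e)).trans_le (min_le_left _ _))
      intro e
      cases e with
      | none =>
        simp only [Fintype.sum_sum_type, Sum.elim_inl, Sum.elim_inr, one_mul, neg_mul,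
          Finset.sum_neg_distrib]
        have : (∑ t, (p (Sum.inl t) : ℝ)) = ∑ t, (p (Sum.inr t) : ℝ) := by exact_mod_cast h1
        rw [this]; ring
      | some e =>
        show ∑ i : A₁.T ⊕ A₂.T,
          (Sum.elim (fun t => A₁.ρ t e) (fun t => -A₂.ρ t e) i) * (p i : ℝ) = 0
        rw [hrow e, heq]; ring)
    (Sum.elim (Pi.single A₁.triv 1) (Pi.single A₂.triv 1))
    (by
      intro i
      cases i with
      | inl t =>
        simp only [Sum.elim_inl]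
        by_cases ht : t = A₁.triv
        · subst ht; simpa using A₁.triv_mem
        · rw [Pi.single_eq_of_ne ht]; exact (A₁.Siz t).zero_mem
      | inr t =>
        simp only [Sum.elim_inr]
        by_cases ht : t = A₂.triv
        · subst ht; simpa using A₂.triv_mem
        · rw [Pi.single_eq_of_ne ht]; exact (A₂.Siz t).zero_mem)
    (by
      have hs1 : ∀ g : A₁.T → ℝ, ∑ t, g t * ((Pi.single A₁.triv 1 : A₁.T → ℕ) t : ℝ) = g A₁.triv := by
        intro g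
        rw [Finset.sum_eq_single A₁.triv]
        · simp
        · intro t _ ht; rw [Pi.single_eq_of_ne ht]; simp
        · intro h; exact absurd (Finset.mem_univ _) h
      have hs2 : ∀ g : A₂.T → ℝ, ∑ t, g t * ((Pi.single A₂.triv 1 : A₂.T → ℕ) t : ℝ) = g A₂.triv := by
        intro g
        rw [Finset.sum_eq_single A₂.triv]
        · simp
        · intro t _ ht; rw [Pi.single_eq_of_ne ht]; simp
        · intro h; exact absurd (Finset.mem_univ _) h
      intro e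
      cases e with
      | none =>
        simp only [Fintype.sum_sum_type, Sum.elim_inl, Sum.elim_inr]
        rw [hs1 (fun _ => 1), hs2 (fun _ => -1)]; ring
      | some e =>
        simp only [Fintype.sum_sum_type, Sum.elim_inl, Sum.elim_inr]
        rw [hs1 (fun t => A₁.ρ t e), hs2 (fun t => -A₂.ρ t e), A₁.triv_rho, A₂.triv_rho]; ring)
    (by
      simp only [Fintype.sum_sum_type, Sum.elim_inl, Sum.elim_inr, one_mul, zero_mul,
        Finset.sum_const_zero, add_zero]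
      rw [Finset.sum_eq_single A₁.triv]
      · simp
      · intro t _ ht; rw [Pi.single_eq_of_ne ht]
      · intro h; exact absurd (Finset.mem_univ _) h)
    (min η₁ η₂) (lt_min hη₁ hη₂)
  set K : ℕ := max (max L₁ L₂) N0 with hK
  obtain ⟨δc, hδc, hclose⟩ := D.close δr hδr
  obtain ⟨δs, hδs, hsmall⟩ := D.close (D.c / (2 * (K + 1))) (by have := D.hc; positivity)
  refine ⟨min (min δc δs) (δm / 3), lt_min (lt_min hδc hδs) (by linarith), ?_⟩
  intro k ψ₁ ψ₂ hψ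
  have hψc : ∀ h, 𝒞.d k ((ψ₁.comp f₁) h) ((ψ₂.comp f₂) h) ≤ δc :=
    fun h => (hψ h).trans ((min_le_left _ _).trans (min_le_left _ _))
  have hψs : ∀ h, 𝒞.d k ((ψ₁.comp f₁) h) ((ψ₂.comp f₂) h) ≤ δs :=
    fun h => (hψ h).trans ((min_le_left _ _).trans (min_le_right _ _))
  have hψm : ∀ h, 𝒞.d k ((ψ₁.comp f₁) h) ((ψ₂.comp f₂) h) ≤ δm / 3 :=
    fun h => (hψ h).trans (min_le_right _ _)
  by_cases hkK : k < K
  · -- small sizes: the two restrictions are already equivalent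
    have heq := D.disc k (ψ₁.comp f₁) (ψ₂.comp f₂) (fun e => by
      refine (hsmall k _ _ hψs e).trans_lt ?_
      have hc := D.hc
      have hkK' : (k : ℝ) < K := by exact_mod_cast hkK
      have hK0 : (0 : ℝ) ≤ K := Nat.cast_nonneg _
      rw [div_mul_eq_mul_div, div_lt_iff₀ (by positivity)]
      nlinarith)
    obtain ⟨u, hu, huH⟩ := hmt k (ψ₁.comp f₁) (ψ₂.comp f₂) heq (fun h => (hψm h).trans (by linarith))
    refine ⟨ψ₁, (MulAut.conj u).toMonoidHom.comp ψ₂, fun h => ?_, fun g _ => ?_, fun g _ => ?_⟩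
    · exact (huH h).symm
    · rw [hm.self]; exact hε.le
    · exact (hm.conj k u (ψ₂ g)).trans (by linarith)
  · have hkK' : K ≤ k := not_lt.mp hkK
    have hk1 : L₁ ≤ k := le_trans (le_max_left _ _) (le_trans (le_max_left _ _) hkK')
    have hk2 : L₂ ≤ k := le_trans (le_max_right _ _) (le_trans (le_max_left _ _) hkK')
    have hk3 : N0 ≤ k := le_trans (le_max_right _ _) hkK'
    obtain ⟨y, hy1, hy2, hy3, hy4⟩ := hround k hk3
      (Sum.elim (A₁.s k ψ₁) (A₂.s k ψ₂))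
      (by
        intro i
        cases i with
        | inl t => exact A₁.mem k ψ₁ t
        | inr t => exact A₂.mem k ψ₂ t)
      (by
        simp only [Fintype.sum_sum_type, Sum.elim_inl, Sum.elim_inr, one_mul, zero_mul,
          Finset.sum_const_zero, add_zero]
        exact A₁.sum k ψ₁)
      (by
        intro i
        cases i with
        | inl t =>
          have h1 := A₁.sum k ψ₁
          have h2 : A₁.s k ψ₁ t ≤ ∑ t, A₁.s k ψ₁ t :=
            Finset.single_le_sum (fun _ _ => Nat.zero_le _) (Finset.mem_univ t)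
          simp only [Sum.elim_inl]; omega
        | inr t =>
          have h1 := A₂.sum k ψ₂
          have h2 : A₂.s k ψ₂ t ≤ ∑ t, A₂.s k ψ₂ t :=
            Finset.single_le_sum (fun _ _ => Nat.zero_le _) (Finset.mem_univ t)
          simp only [Sum.elim_inr]; omega)
      (by
        intro e
        cases e with
        | none =>
          simp only [Fintype.sum_sum_type, Sum.elim_inl, Sum.elim_inr, one_mul, neg_mul,
            Finset.sum_neg_distrib]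
          have h1 : (∑ t, (A₁.s k ψ₁ t : ℝ)) = k := by exact_mod_cast A₁.sum k ψ₁
          have h2 : (∑ t, (A₂.s k ψ₂ t : ℝ)) = k := by exact_mod_cast A₂.sum k ψ₂
          rw [h1, h2, add_neg_cancel, abs_zero]
          positivity
        | some e =>
          have h1 := hclose k (ψ₁.comp f₁) (ψ₂.comp f₂) hψc e
          rw [A₁.hv_eq, A₂.hv_eq] at h1
          simp only [Fintype.sum_sum_type, Sum.elim_inl, Sum.elim_inr, neg_mul,
            Finset.sum_neg_distrib]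
          rw [← sub_eq_add_neg]
          refine le_of_eq_of_le ?_ h1
          congr 2 <;> exact Finset.sum_congr rfl (fun t _ => mul_comm _ _))
    have hsum1 : ∑ t, y (Sum.inl t) = k := by
      simpa only [Fintype.sum_sum_type, Sum.elim_inl, Sum.elim_inr, one_mul, zero_mul,
        Finset.sum_const_zero, add_zero] using hy2
    have hsum2 : ∑ t, y (Sum.inr t) = k := by
      have h1 := hy3 none
      simp only [Fintype.sum_sum_type, Sum.elim_inl, Sum.elim_inr, one_mul, neg_mul,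
        Finset.sum_neg_distrib] at h1
      have h2 : (∑ t, (y (Sum.inl t) : ℝ)) = k := by exact_mod_cast hsum1
      have h3 : (∑ t, (y (Sum.inr t) : ℝ)) = k := by linarith
      exact_mod_cast h3
    obtain ⟨ψ₁', h11, h12⟩ := had₁ k hk1 ψ₁ (fun t => y (Sum.inl t)) (fun t => hy1 (Sum.inl t)) hsum1
      (fun t => (hy4 (Sum.inl t)).trans
        (mul_le_mul_of_nonneg_right (min_le_left _ _) (Nat.cast_nonneg _)))
    obtain ⟨ψ₂', h21, h22⟩ := had₂ k hk2 ψ₂ (fun t => y (Sum.inr t)) (fun t => hy1 (Sum.inr t)) hsum2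
      (fun t => (hy4 (Sum.inr t)).trans
        (mul_le_mul_of_nonneg_right (min_le_right _ _) (Nat.cast_nonneg _)))
    have heq : D.hv k (ψ₁'.comp f₁) = D.hv k (ψ₂'.comp f₂) := by
      funext e
      rw [A₁.hv_eq, A₂.hv_eq, h11, h21]
      have h1 := hy3 (some e)
      simp only [Fintype.sum_sum_type, Sum.elim_inl, Sum.elim_inr, neg_mul,
        Finset.sum_neg_distrib] at h1
      have h2 : ∀ t, (y (Sum.inl t) : ℝ) * A₁.ρ t e = A₁.ρ t e * y (Sum.inl t) :=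
        fun t => mul_comm _ _
      have h3 : ∀ t, (y (Sum.inr t) : ℝ) * A₂.ρ t e = A₂.ρ t e * y (Sum.inr t) :=
        fun t => mul_comm _ _
      simp only [h2, h3]
      linarith
    obtain ⟨u, hu, huH⟩ := hmt k (ψ₁'.comp f₁) (ψ₂'.comp f₂) heq (fun h => by
      have e1 : 𝒞.d k (ψ₁' (f₁ h)) (ψ₁ (f₁ h)) ≤ εa := h12 _ (by simp)
      have e2 : 𝒞.d k (ψ₂' (f₂ h)) (ψ₂ (f₂ h)) ≤ εa := h22 _ (by simp)
      have e3 := hψm h
      have e4 := hm.tri k (ψ₁' (f₁ h)) (ψ₁ (f₁ h)) (ψ₂' (f₂ h))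
      have e5 := hm.tri k (ψ₁ (f₁ h)) (ψ₂ (f₂ h)) (ψ₂' (f₂ h))
      rw [hm.symm k (ψ₂ (f₂ h)) (ψ₂' (f₂ h))] at e5
      simp only [MonoidHom.comp_apply] at e3 ⊢
      linarith)
    refine ⟨ψ₁', (MulAut.conj u).toMonoidHom.comp ψ₂', fun h => ?_, fun g hg => ?_, fun g hg => ?_⟩
    · exact (huH h).symm
    · exact (h12 g (Finset.mem_union_left _ hg)).trans (by linarith)
    · have e1 := hm.conj k u (ψ₂' g)
      have e2 := h22 g (Finset.mem_union_left _ hg)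
      have e3 := hm.tri k (u * ψ₂' g * u⁻¹) (ψ₂' g) (ψ₂ g)
      refine le_trans e3 ?_
      linarith

end matching

end Pool.Agent.H698R3.Amalg
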