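import Pool.Agent.H698R3.AmAbs

set_option autoImplicit false

namespace Pool.Agent.H698R3.Amalg

open Filter Topology

/-- The amalgamated free product `G₁ *_H G₂` for `f₁ : H → G₁` and `f₂ : H → G₂`: the quotient of
the free product by the relations `f₁ h = f₂ h`. -/
abbrev AmalgProd {H G₁ G₂ : Type} [Group H] [Group G₁] [Group G₂] (f₁ : H →* G₁) (f₂ : H →* G₂) :
    Type :=
  Monoid.Coprod G₁ G₂ ⧸ Subgroup.normalClosure
    (Set.range (fun h : H => (Monoid.Coprod.inl (f₁ h) : Monoid.Coprod G₁ G₂) *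
      (Monoid.Coprod.inr (f₂ h))⁻¹))

theorem diag (A : ℕ → ℕ → Prop) (h0 : ∀ n, A 0 n) (h : ∀ k, ∀ᶠ n in atTop, A k n) :
    ∃ κ : ℕ → ℕ, Tendsto κ atTop atTop ∧ ∀ n, A (κ n) n := by
  classical
  refine ⟨fun n => Nat.findGreatest (fun k => A k n) n, ?_, fun n => ?_⟩
  · rw [tendsto_atTop]
    intro K
    filter_upwards [h K, eventually_ge_atTop K] with n h1 h2
    exact Nat.le_findGreatest h2 h1
  · exact Nat.findGreatest_spec (P := fun k => A k n) (Nat.zero_le n) (h0 n)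

section
variable {𝒞 : Cls} (hm : 𝒞.IsMetric) {H G₁ G₂ : Type} [Group H] [Fintype H] [Group G₁] [Group G₂]
  [Countable G₁] [Countable G₂]
  {f₁ : H →* G₁} {f₂ : H →* G₂} (D : HData 𝒞 H) (A₁ : GData 𝒞 f₁ D) (A₂ : GData 𝒞 f₂ D)

include hm A₁ A₂ in
theorem stable_amalg (hs₁ : 𝒞.Stable G₁) (hs₂ : 𝒞.Stable G₂) : 𝒞.Stable (AmalgProd f₁ f₂) := by
  classical
  intro k φ hφ
  let N := Subgroup.normalClosure
    (Set.range (fun h : H => (Monoid.Coprod.inl (f₁ h) : Monoid.Coprod G₁ G₂) *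
      (Monoid.Coprod.inr (f₂ h))⁻¹))
  let ι₁ : G₁ →* AmalgProd f₁ f₂ := (QuotientGroup.mk' N).comp Monoid.Coprod.inl
  let ι₂ : G₂ →* AmalgProd f₁ f₂ := (QuotientGroup.mk' N).comp Monoid.Coprod.inr
  have hι : ∀ h, ι₁ (f₁ h) = ι₂ (f₂ h) := by
    intro h
    show (QuotientGroup.mk' N) (Monoid.Coprod.inl (f₁ h)) =
      (QuotientGroup.mk' N) (Monoid.Coprod.inr (f₂ h))
    have h1 : (Monoid.Coprod.inl (f₁ h) : Monoid.Coprod G₁ G₂) *
      (Monoid.Coprod.inr (f₂ h))⁻¹ ∈ N := Subgroup.subset_normalClosure ⟨h, rfl⟩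
    have h2 : (QuotientGroup.mk' N) ((Monoid.Coprod.inl (f₁ h) : Monoid.Coprod G₁ G₂) *
      (Monoid.Coprod.inr (f₂ h))⁻¹) = 1 := (QuotientGroup.eq_one_iff _).mpr h1
    rw [map_mul, map_inv] at h2
    exact mul_inv_eq_one.mp h2
  obtain ⟨ψ₁, hψ₁⟩ := hs₁ k (fun n g => φ n (ι₁ g)) (fun a b => by
    simpa only [map_mul] using hφ (ι₁ a) (ι₁ b))
  obtain ⟨ψ₂, hψ₂⟩ := hs₂ k (fun n g => φ n (ι₂ g)) (fun a b => by
    simpa only [map_mul] using hφ (ι₂ a) (ι₂ b))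
  obtain ⟨e₁, he₁⟩ := exists_surjective_nat G₁
  obtain ⟨e₂, he₂⟩ := exists_surjective_nat G₂
  let A : ℕ → ℕ → Prop := fun m n => ∃ (θ₁ : G₁ →* 𝒞.C (k n)) (θ₂ : G₂ →* 𝒞.C (k n)),
    (∀ h, θ₁ (f₁ h) = θ₂ (f₂ h)) ∧
    (∀ j < m, 𝒞.d (k n) (θ₁ (e₁ j)) (ψ₁ n (e₁ j)) ≤ 1 / ((m : ℝ) + 1)) ∧
    (∀ j < m, 𝒞.d (k n) (θ₂ (e₂ j)) (ψ₂ n (e₂ j)) ≤ 1 / ((m : ℝ) + 1))
  obtain ⟨κ, hκ1, hκ2⟩ := diag A
    (fun n => ⟨1, 1, fun _ => rfl, fun j hj => absurd hj (Nat.not_lt_zero j),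
      fun j hj => absurd hj (Nat.not_lt_zero j)⟩)
    (by
      intro m
      obtain ⟨δ, hδ, hmat⟩ := matching hm D A₁ A₂ ((Finset.range m).image e₁)
        ((Finset.range m).image e₂) (1 / ((m : ℝ) + 1)) (by positivity)
      have hclose : ∀ h : H, Tendsto (fun n => 𝒞.d (k n) (ψ₁ n (f₁ h)) (ψ₂ n (f₂ h)))
          atTop (𝓝 0) := by
        intro h
        refine squeeze_zero (fun n => hm.nonneg _ _ _) (fun n => ?_)
          (by simpa using (hψ₁ (f₁ h)).add (hψ₂ (f₂ h)))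
        have h1 := hm.tri (k n) (ψ₁ n (f₁ h)) (φ n (ι₁ (f₁ h))) (ψ₂ n (f₂ h))
        rw [hm.symm (k n) (ψ₁ n (f₁ h)) (φ n (ι₁ (f₁ h)))] at h1
        refine h1.trans ?_
        rw [hι h]
      have hev : ∀ᶠ n in atTop, ∀ h : H, 𝒞.d (k n) (ψ₁ n (f₁ h)) (ψ₂ n (f₂ h)) ≤ δ := by
        rw [Filter.eventually_all]
        intro h
        exact ((hclose h).eventually (gt_mem_nhds hδ)).mono (fun n hn => le_of_lt hn)
      filter_upwards [hev] with n hn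
      obtain ⟨θ₁, θ₂, h1, h2, h3⟩ := hmat (k n) (ψ₁ n) (ψ₂ n) hn
      exact ⟨θ₁, θ₂, h1, fun j hj => h2 _ (Finset.mem_image_of_mem _ (Finset.mem_range.mpr hj)),
        fun j hj => h3 _ (Finset.mem_image_of_mem _ (Finset.mem_range.mpr hj))⟩)
  choose θ₁ θ₂ hθ hθ₁ hθ₂ using hκ2
  have hinv : Tendsto (fun n => 1 / ((κ n : ℝ) + 1)) atTop (𝓝 0) :=
    tendsto_one_div_add_atTop_nhds_zero_nat.comp hκ1
  have hc₁ : ∀ g : G₁, Tendsto (fun n => 𝒞.d (k n) (θ₁ n g) (ψ₁ n g)) atTop (𝓝 0) := by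
    intro g
    obtain ⟨j, rfl⟩ := he₁ g
    refine squeeze_zero' (Eventually.of_forall fun n => hm.nonneg _ _ _) ?_ hinv
    filter_upwards [hκ1.eventually (eventually_gt_atTop j)] with n hn
    exact hθ₁ n j hn
  have hc₂ : ∀ g : G₂, Tendsto (fun n => 𝒞.d (k n) (θ₂ n g) (ψ₂ n g)) atTop (𝓝 0) := by
    intro g
    obtain ⟨j, rfl⟩ := he₂ g
    refine squeeze_zero' (Eventually.of_forall fun n => hm.nonneg _ _ _) ?_ hinv
    filter_upwards [hκ1.eventually (eventually_gt_atTop j)] with n hn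
    exact hθ₂ n j hn
  -- the homomorphisms on the amalgam
  have hN : ∀ n, N ≤ (Monoid.Coprod.lift (θ₁ n) (θ₂ n)).ker := by
    intro n
    refine Subgroup.normalClosure_le_normal ?_
    rintro _ ⟨h, rfl⟩
    show Monoid.Coprod.lift (θ₁ n) (θ₂ n) _ = 1
    rw [map_mul, map_inv, Monoid.Coprod.lift_apply_inl, Monoid.Coprod.lift_apply_inr, hθ,
      mul_inv_cancel]
  let Θ : ∀ n, AmalgProd f₁ f₂ →* 𝒞.C (k n) := fun n =>
    QuotientGroup.lift N (Monoid.Coprod.lift (θ₁ n) (θ₂ n)) (fun x hx => hN n hx)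
  refine ⟨Θ, ?_⟩
  intro a
  obtain ⟨x, rfl⟩ := QuotientGroup.mk_surjective a
  have key : ∀ x : Monoid.Coprod G₁ G₂, Tendsto (fun n => 𝒞.d (k n)
      (φ n ((QuotientGroup.mk' N) x)) (Θ n ((QuotientGroup.mk' N) x))) atTop (𝓝 0) := by
    intro x
    induction x using Monoid.Coprod.induction_on with
    | inl g =>
      refine squeeze_zero (fun n => hm.nonneg _ _ _) (fun n => ?_)
        (by simpa using (hψ₁ g).add (hc₁ g))
      have h1 := hm.tri (k n) (φ n (ι₁ g)) (ψ₁ n g) (θ₁ n g)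
      rw [hm.symm (k n) (ψ₁ n g) (θ₁ n g)] at h1
      have h2 : Θ n ((QuotientGroup.mk' N) (Monoid.Coprod.inl g)) = θ₁ n g := by
        show Monoid.Coprod.lift (θ₁ n) (θ₂ n) (Monoid.Coprod.inl g) = θ₁ n g
        rw [Monoid.Coprod.lift_apply_inl]
      rw [h2]
      exact h1
    | inr g =>
      refine squeeze_zero (fun n => hm.nonneg _ _ _) (fun n => ?_)
        (by simpa using (hψ₂ g).add (hc₂ g))
      have h1 := hm.tri (k n) (φ n (ι₂ g)) (ψ₂ n g) (θ₂ n g)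
      rw [hm.symm (k n) (ψ₂ n g) (θ₂ n g)] at h1
      have h2 : Θ n ((QuotientGroup.mk' N) (Monoid.Coprod.inr g)) = θ₂ n g := by
        show Monoid.Coprod.lift (θ₁ n) (θ₂ n) (Monoid.Coprod.inr g) = θ₂ n g
        rw [Monoid.Coprod.lift_apply_inr]
      rw [h2]
      exact h1
    | mul x y hx hy =>
      have h0 := hφ ((QuotientGroup.mk' N) x) ((QuotientGroup.mk' N) y)
      have t := h0.add (hx.add hy)
      rw [add_zero, add_zero] at t
      refine squeeze_zero (fun n => hm.nonneg _ _ _) (fun n => ?_) t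
      rw [map_mul (QuotientGroup.mk' N) x y, map_mul (Θ n)]
      have h1 := hm.tri (k n) (φ n ((QuotientGroup.mk' N) x * (QuotientGroup.mk' N) y))
        (φ n ((QuotientGroup.mk' N) x) * φ n ((QuotientGroup.mk' N) y))
        (Θ n ((QuotientGroup.mk' N) x) * Θ n ((QuotientGroup.mk' N) y))
      have h2 := hm.mul_mul (k n) (φ n ((QuotientGroup.mk' N) x)) (Θ n ((QuotientGroup.mk' N) x))
        (φ n ((QuotientGroup.mk' N) y)) (Θ n ((QuotientGroup.mk' N) y))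
      rw [hm.symm (k n) (φ n ((QuotientGroup.mk' N) x * (QuotientGroup.mk' N) y))
        (φ n ((QuotientGroup.mk' N) x) * φ n ((QuotientGroup.mk' N) y))] at h1
      linarith
  exact key x

end

end Pool.Agent.H698R3.Amalg
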