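import Mathlib

set_option autoImplicit false

/-! A rounding lemma: approximately balanced vectors of sizes are close to exactly balanced ones. -/

namespace Pool.Agent.H698R3.Amalg

open Filter Topology

theorem dirichlet {I : Type} [Finite I] (θ : I → ℝ) (δ : ℝ) (hδ : 0 < δ) :
    ∃ k : ℕ, 0 < k ∧ ∃ q : I → ℤ, ∀ i, |k * θ i - q i| < δ := by
  obtain ⟨L, hL⟩ := exists_nat_gt (1 / δ)
  have hLpos : (0 : ℝ) < L := lt_trans (by positivity) hL
  have hL0 : 0 < L := by exact_mod_cast hLpos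
  let F : ℕ → I → Fin L := fun k i => ⟨⌊(L : ℝ) * Int.fract (k * θ i)⌋₊, by
    rw [Nat.floor_lt (by positivity)]
    have := Int.fract_lt_one (k * θ i)
    nlinarith [Int.fract_nonneg (k * θ i)]⟩
  obtain ⟨a, b, hab, hF⟩ := Finite.exists_ne_map_eq_of_infinite F
  wlog hlt : a < b generalizing a b
  · exact this b a (Ne.symm hab) hF.symm (lt_of_le_of_ne (not_lt.mp hlt) (Ne.symm hab))
  refine ⟨b - a, by omega, fun i => ⌊(b : ℝ) * θ i⌋ - ⌊(a : ℝ) * θ i⌋, ?_⟩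
  intro i
  have h1 : ⌊(L : ℝ) * Int.fract (a * θ i)⌋₊ = ⌊(L : ℝ) * Int.fract (b * θ i)⌋₊ := by
    have := congrFun hF i
    simpa [F] using this
  have ha1 := Nat.floor_le (a := (L : ℝ) * Int.fract (a * θ i)) (by positivity)
  have ha2 := Nat.lt_floor_add_one ((L : ℝ) * Int.fract (a * θ i))
  have hb1 := Nat.floor_le (a := (L : ℝ) * Int.fract (b * θ i)) (by positivity)
  have hb2 := Nat.lt_floor_add_one ((L : ℝ) * Int.fract (b * θ i))
  rw [h1] at ha1 ha2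
  have h2 : |(L : ℝ) * Int.fract (b * θ i) - (L : ℝ) * Int.fract (a * θ i)| < 1 := by
    rw [abs_lt]; constructor <;> linarith
  rw [← mul_sub, abs_mul, abs_of_pos hLpos] at h2
  have h3 : ((b - a : ℕ) : ℝ) * θ i - ((⌊(b : ℝ) * θ i⌋ - ⌊(a : ℝ) * θ i⌋ : ℤ) : ℝ) =
      Int.fract (b * θ i) - Int.fract (a * θ i) := by
    rw [Nat.cast_sub hlt.le, Int.fract, Int.fract]
    push_cast
    ring
  rw [h3]
  have h4 : |Int.fract ((b : ℝ) * θ i) - Int.fract (a * θ i)| < 1 / L := by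
    rw [lt_div_iff₀ hLpos]
    linarith
  refine h4.trans ?_
  rw [div_lt_iff₀ hLpos]
  rw [div_lt_iff₀ hδ] at hL
  linarith

/-- differences of large elements of a submonoid of `ℕ` -/
theorem sub_mem_of_large (S : AddSubmonoid ℕ) :
    ∃ n0 : ℕ, ∀ a ∈ S, ∀ b ∈ S, b + n0 ≤ a → a - b ∈ S := by
  obtain ⟨n0, hn0⟩ := Nat.exists_mem_closure_of_ge (S : Set ℕ)
  refine ⟨n0, fun a ha b hb hab => ?_⟩
  have h1 : Nat.setGcd (S : Set ℕ) ∣ a - b :=
    (Nat.dvd_sub (Nat.setGcd_dvd_of_mem ha) (Nat.setGcd_dvd_of_mem hb))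
  have h2 := hn0 (a - b) (by omega) h1
  rwa [AddSubmonoid.closure_eq] at h2

end Pool.Agent.H698R3.Amalg
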