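import Pool.Agent.H698R3.AmMain

set_option autoImplicit false

/-! Types of points of a `G`-set with respect to a finite normal subgroup. -/

namespace Pool.Agent.H698R3.Amalg

open Equiv

section types

variable {G : Type} [Group G] (N : Subgroup G)

/-- stabiliser in `N` -/
def st {X : Type} (ψ : G →* Perm X) (x : X) : Subgroup N where
  carrier := {n | ψ n x = x}
  mul_mem' := by
    intro a b ha hb
    show ψ ((a : G) * (b : G)) x = x
    rw [map_mul, Perm.mul_apply, show ψ b x = x from hb, show ψ a x = x from ha]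
  one_mem' := by
    show ψ ((1 : N) : G) x = x
    rw [Subgroup.coe_one, map_one]; rfl
  inv_mem' := by
    intro a ha
    show ψ ((a⁻¹ : N) : G) x = x
    rw [Subgroup.coe_inv, map_inv, Perm.inv_eq_iff_eq]
    exact (show ψ a x = x from ha).symm

theorem mem_st {X : Type} (ψ : G →* Perm X) (x : X) (n : N) : n ∈ st N ψ x ↔ ψ n x = x := Iff.rfl

/-- the type of a point: the set of stabilisers in `N` of the points of its orbit -/
def typ {X : Type} (ψ : G →* Perm X) (x : X) : Set (Subgroup N) :=
  Set.range (fun g : G => st N ψ (ψ g x))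

theorem st_mem_typ {X : Type} (ψ : G →* Perm X) (x : X) : st N ψ x ∈ typ N ψ x :=
  ⟨1, by simp⟩

theorem typ_inv {X : Type} (ψ : G →* Perm X) (x : X) (g : G) :
    typ N ψ (ψ g x) = typ N ψ x := by
  ext K
  constructor
  · rintro ⟨a, rfl⟩
    refine ⟨a * g, ?_⟩
    show st N ψ (ψ (a * g) x) = st N ψ (ψ a (ψ g x))
    rw [map_mul, Perm.mul_apply]
  · rintro ⟨a, rfl⟩
    refine ⟨a * g⁻¹, ?_⟩
    show st N ψ (ψ (a * g⁻¹) (ψ g x)) = st N ψ (ψ a x)
    rw [← Perm.mul_apply, ← map_mul, inv_mul_cancel_right]

variable [hN : N.Normal]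

/-- conjugation of subgroups of `N` -/
def cj (g : G) (K : Subgroup N) : Subgroup N :=
  K.comap (MulAut.conjNormal g⁻¹ : MulAut N).toMonoidHom

theorem mem_cj (g : G) (K : Subgroup N) (n : N) :
    n ∈ cj N g K ↔ (MulAut.conjNormal g⁻¹ : MulAut N) n ∈ K := Iff.rfl

theorem cj_one (K : Subgroup N) : cj N 1 K = K := by
  ext n
  rw [mem_cj, inv_one, map_one]; rfl

theorem cj_mul (a b : G) (K : Subgroup N) : cj N (a * b) K = cj N a (cj N b K) := by
  ext n
  rw [mem_cj, mem_cj, mem_cj, mul_inv_rev, map_mul]; rfl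

theorem st_smul {X : Type} (ψ : G →* Perm X) (g : G) (x : X) :
    st N ψ (ψ g x) = cj N g (st N ψ x) := by
  ext n
  rw [mem_cj, mem_st, mem_st, MulAut.conjNormal_apply, inv_inv, map_mul, map_mul,
    Perm.mul_apply, Perm.mul_apply, map_inv, Perm.inv_eq_iff_eq]

theorem typ_eq {X : Type} (ψ : G →* Perm X) (x : X) :
    typ N ψ x = Set.range (fun g : G => cj N g (st N ψ x)) := by
  unfold typ
  congr 1
  funext g
  exact st_smul N ψ g x

theorem typ_eq_of_st_eq {X Y : Type} (ψ : G →* Perm X) (ψ' : G →* Perm Y) (x : X) (y : Y)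
    (h : st N ψ x = st N ψ' y) : typ N ψ x = typ N ψ' y := by
  rw [typ_eq, typ_eq, h]

theorem typ_eq_of_mem {X Y : Type} (ψ : G →* Perm X) (ψ' : G →* Perm Y) (x : X) (y : Y)
    (h : st N ψ x ∈ typ N ψ' y) : typ N ψ x = typ N ψ' y := by
  obtain ⟨g, hg⟩ := h
  rw [typ_eq_of_st_eq N ψ ψ' x (ψ' g y) hg.symm, typ_inv]

theorem typ_embed {X Y : Type} (ψ : G →* Perm X) (ψ' : G →* Perm Y) (j : Y → X)
    (hj : Function.Injective j) (he : ∀ g y, ψ g (j y) = j (ψ' g y)) (y : Y) :
    typ N ψ (j y) = typ N ψ' y := by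
  apply typ_eq_of_st_eq
  ext n
  rw [mem_st, mem_st, he]
  exact hj.eq_iff

open Classical in
theorem card_st {X : Type} [Fintype X] (ψ : G →* Perm X) (g : G) (K : Subgroup N) :
    (Finset.univ.filter (fun x => st N ψ x = K)).card =
      (Finset.univ.filter (fun x => st N ψ x = cj N g K)).card := by
  refine Finset.card_bij (fun x _ => ψ g x) ?_ ?_ ?_
  · intro x hx
    rw [Finset.mem_filter] at hx ⊢
    refine ⟨Finset.mem_univ _, ?_⟩
    rw [st_smul, hx.2]
  · intro x _ y _ h
    exact (ψ g).injective h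
  · intro y hy
    rw [Finset.mem_filter] at hy
    refine ⟨ψ g⁻¹ y, ?_, ?_⟩
    · rw [Finset.mem_filter]
      refine ⟨Finset.mem_univ _, ?_⟩
      rw [st_smul, hy.2, ← cj_mul, inv_mul_cancel, cj_one]
    · rw [← Perm.mul_apply, ← map_mul, mul_inv_cancel, map_one]; rfl

open Classical in
/-- The basic count: the number of points of type `C` whose `N`-stabiliser satisfies a property
is proportional to the number of points of type `C`. -/
theorem card_typ {X : Type} [Fintype X] [Finite N] (ψ : G →* Perm X) (C : Set (Subgroup N))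
    (P : Subgroup N → Prop) :
    (Finset.univ.filter (fun x => typ N ψ x = C ∧ P (st N ψ x))).card * C.ncard =
      {K | K ∈ C ∧ P K}.ncard * (Finset.univ.filter (fun x => typ N ψ x = C)).card := by
  have : Fintype (Subgroup N) := Fintype.ofFinite _
  by_cases hex : ∃ x0, typ N ψ x0 = C
  · obtain ⟨x0, hx0⟩ := hex
    obtain ⟨m, hm⟩ : ∃ m, m = (Finset.univ.filter (fun x => st N ψ x = st N ψ x0)).card :=
      ⟨_, rfl⟩
    have hcount : ∀ K ∈ C, (Finset.univ.filter (fun x => st N ψ x = K)).card = m := by
      intro K hK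
      rw [← hx0, typ_eq] at hK
      obtain ⟨g, rfl⟩ := hK
      rw [hm]
      exact (card_st N ψ g (st N ψ x0)).symm
    have hkey : ∀ Q : Subgroup N → Prop,
        (Finset.univ.filter (fun x => typ N ψ x = C ∧ Q (st N ψ x))).card =
          {K | K ∈ C ∧ Q K}.ncard * m := by
      intro Q
      have h1 : (Finset.univ.filter (fun x => typ N ψ x = C ∧ Q (st N ψ x))).card =
          ∑ K ∈ Finset.univ.filter (fun K => K ∈ C ∧ Q K),
            ((Finset.univ.filter (fun x => typ N ψ x = C ∧ Q (st N ψ x))).filter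
              (fun x => st N ψ x = K)).card := by
        refine Finset.card_eq_sum_card_fiberwise (fun x hx => ?_)
        have hx' := (Finset.mem_filter.mp hx).2
        show st N ψ x ∈ ((Finset.univ.filter (fun K => K ∈ C ∧ Q K) : Finset (Subgroup N)) : Set _)
        rw [Finset.mem_coe, Finset.mem_filter]
        exact ⟨Finset.mem_univ _, hx'.1 ▸ st_mem_typ N ψ x, hx'.2⟩
      rw [h1]
      have h2 : ∀ K ∈ Finset.univ.filter (fun K => K ∈ C ∧ Q K),
          ((Finset.univ.filter (fun x => typ N ψ x = C ∧ Q (st N ψ x))).filter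
              (fun x => st N ψ x = K)).card = m := by
        intro K hK
        have hK' := (Finset.mem_filter.mp hK).2
        rw [← hcount K hK'.1]
        congr 1
        ext x
        simp only [Finset.mem_filter, Finset.mem_univ, true_and]
        constructor
        · exact fun h => h.2
        · intro h
          refine ⟨⟨?_, by rw [h]; exact hK'.2⟩, h⟩
          rw [← hx0]
          apply typ_eq_of_mem
          rw [h, hx0]; exact hK'.1
      rw [Finset.sum_congr rfl h2, Finset.sum_const, smul_eq_mul]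
      congr 1
      rw [← Set.ncard_coe_finset]
      congr 1
      ext K
      simp
    have h3 := hkey P
    have h4 := hkey (fun _ => True)
    simp only [and_true] at h4
    rw [h3, h4, Set.ofPred_mem_eq]
    ring
  · push Not at hex
    have e1 : (Finset.univ.filter (fun x => typ N ψ x = C ∧ P (st N ψ x))) = ∅ := by
      apply Finset.filter_false_of_mem
      intro x _ h
      exact hex x h.1
    have e2 : (Finset.univ.filter (fun x => typ N ψ x = C)) = ∅ := by
      apply Finset.filter_false_of_mem
      intro x _ h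
      exact hex x h
    rw [e1, e2]; simp

end types

end Pool.Agent.H698R3.Amalg
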