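import Mathlib

set_option autoImplicit false

/-!
# Permutation stability, LERF and amenability of countable groups
-/

namespace Pool.Agent.H698R3.Stab

open Filter Topology

/-- The normalised Hamming distance `|{x | σ x ≠ τ x}| / |X|` of two permutations of a finite set. -/
noncomputable def hammingDist {X : Type} [Fintype X] [DecidableEq X] (σ τ : Equiv.Perm X) : ℝ :=
  ((Finset.univ.filter (fun x => σ x ≠ τ x)).card : ℝ) / (Fintype.card X : ℝ)

/-- Permutation stability of the presentation `G = F_S / N`, where `π : F_S → G` is the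
quotient map with kernel `N`: whenever `X n` are finite sets and `φ n : F_S → Sym (X n)` are
homomorphisms with `d (φ n w, 1) → 0` for all `w ∈ N`, there are homomorphisms
`ψ n : F_S → Sym (X n)` killing `N` with `d (φ n s, ψ n s) → 0` for all `s ∈ S`. -/
def StablePresentation {G S : Type} [Group G] (π : FreeGroup S →* G) : Prop :=
  ∀ (X : ℕ → Type) [∀ n, Fintype (X n)] [∀ n, DecidableEq (X n)]
    (φ : ∀ n, FreeGroup S →* Equiv.Perm (X n)),
    (∀ w ∈ π.ker, Tendsto (fun n => hammingDist (φ n w) 1) atTop (𝓝 0)) →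
    ∃ ψ : ∀ n, FreeGroup S →* Equiv.Perm (X n),
      (∀ n, π.ker ≤ (ψ n).ker) ∧
      ∀ s : S, Tendsto (fun n => hammingDist (φ n (FreeGroup.of s)) (ψ n (FreeGroup.of s)))
        atTop (𝓝 0)

/-- A countable group is permutation stable if some (equivalently, every) presentation
`G = F_S / N` with `S` countable is stable. -/
def PermStable (G : Type) [Group G] : Prop :=
  ∃ (S : Type) (_ : Countable S) (π : FreeGroup S →* G),
    Function.Surjective π ∧ StablePresentation π

/-- LERF: every finitely generated subgroup is an intersection of subgroups of finite index. -/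
def LERF (G : Type) [Group G] : Prop :=
  ∀ H : Subgroup G, H.FG → ∀ g : G, g ∉ H →
    ∃ K : Subgroup G, K.FiniteIndex ∧ H ≤ K ∧ g ∉ K

/-- Amenability: there is a left-invariant finitely additive probability measure on all subsets. -/
def Amenable (G : Type) [Group G] : Prop :=
  ∃ μ : Set G → ℝ, (∀ A, 0 ≤ μ A) ∧ μ Set.univ = 1 ∧
    (∀ A B : Set G, Disjoint A B → μ (A ∪ B) = μ A + μ B) ∧
    ∀ (g : G) (A : Set G), μ ((fun x => g * x) '' A) = μ A

section basic

variable {X : Type} [Fintype X] [DecidableEq X]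

theorem hammingDist_nonneg (σ τ : Equiv.Perm X) : 0 ≤ hammingDist σ τ := by
  unfold hammingDist; positivity

theorem hammingDist_self (σ : Equiv.Perm X) : hammingDist σ σ = 0 := by
  simp [hammingDist]

theorem hammingDist_comm (σ τ : Equiv.Perm X) : hammingDist σ τ = hammingDist τ σ := by
  unfold hammingDist
  congr 2
  simp only [ne_comm]

theorem hammingDist_triangle (σ τ ρ : Equiv.Perm X) :
    hammingDist σ ρ ≤ hammingDist σ τ + hammingDist τ ρ := by
  unfold hammingDist
  rw [← add_div]
  refine div_le_div_of_nonneg_right ?_ (Nat.cast_nonneg _)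
  have h : (Finset.univ.filter (fun x => σ x ≠ ρ x)) ⊆
      (Finset.univ.filter (fun x => σ x ≠ τ x)) ∪ (Finset.univ.filter (fun x => τ x ≠ ρ x)) := by
    intro x hx
    simp only [Finset.mem_filter, Finset.mem_univ, true_and, Finset.mem_union] at hx ⊢
    by_contra hcon
    push Not at hcon
    exact hx (hcon.1.trans hcon.2)
  exact_mod_cast (Finset.card_le_card h).trans (Finset.card_union_le _ _)

theorem hammingDist_mul_left (ρ σ τ : Equiv.Perm X) :
    hammingDist (ρ * σ) (ρ * τ) = hammingDist σ τ := by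
  unfold hammingDist
  congr 2
  simp [Equiv.Perm.mul_apply]

theorem hammingDist_mul_right (ρ σ τ : Equiv.Perm X) :
    hammingDist (σ * ρ) (τ * ρ) = hammingDist σ τ := by
  unfold hammingDist
  congr 1
  norm_cast
  refine Finset.card_bij (fun x _ => ρ x) ?_ ?_ ?_
  · intro x hx
    rw [Finset.mem_filter] at hx ⊢
    exact ⟨Finset.mem_univ _, hx.2⟩
  · intro x _ y _ h
    exact ρ.injective h
  · intro y hy
    refine ⟨ρ.symm y, ?_, by simp⟩
    rw [Finset.mem_filter] at hy ⊢
    refine ⟨Finset.mem_univ _, ?_⟩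
    rw [Equiv.Perm.mul_apply, Equiv.Perm.mul_apply, Equiv.apply_symm_apply]
    exact hy.2

theorem hammingDist_inv (σ : Equiv.Perm X) : hammingDist σ⁻¹ 1 = hammingDist σ 1 := by
  have h := hammingDist_mul_left σ σ⁻¹ 1
  rw [mul_inv_cancel, mul_one] at h
  rw [← h, hammingDist_comm]

theorem hammingDist_mul_le (σ τ : Equiv.Perm X) :
    hammingDist (σ * τ) 1 ≤ hammingDist σ 1 + hammingDist τ 1 := by
  have h1 := hammingDist_triangle (σ * τ) (σ * 1) 1
  rw [hammingDist_mul_left, mul_one] at h1
  linarith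

theorem hammingDist_conj (ρ σ : Equiv.Perm X) :
    hammingDist (ρ * σ * ρ⁻¹) 1 = hammingDist σ 1 := by
  have h1 : hammingDist (ρ * σ * ρ⁻¹) (ρ * 1 * ρ⁻¹) = hammingDist σ 1 := by
    rw [hammingDist_mul_right, hammingDist_mul_left]
  rwa [mul_one, mul_inv_cancel] at h1

/-- closeness is compatible with products -/
theorem hammingDist_mul_mul (σ σ' τ τ' : Equiv.Perm X) :
    hammingDist (σ * τ) (σ' * τ') ≤ hammingDist σ σ' + hammingDist τ τ' := by
  have h1 := hammingDist_triangle (σ * τ) (σ * τ') (σ' * τ')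
  rw [hammingDist_mul_left, hammingDist_mul_right] at h1
  linarith

theorem hammingDist_inv_inv (σ τ : Equiv.Perm X) :
    hammingDist σ⁻¹ τ⁻¹ = hammingDist σ τ := by
  have h1 := hammingDist_mul_left σ σ⁻¹ τ⁻¹
  have h2 := hammingDist_mul_right τ (σ * σ⁻¹) (σ * τ⁻¹)
  rw [← h1, ← h2]
  have e1 : σ * σ⁻¹ * τ = τ := by group
  have e2 : σ * τ⁻¹ * τ = σ := by group
  rw [e1, e2, hammingDist_comm]

end basic

end Pool.Agent.H698R3.Stab
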