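import Pool.Agent.H698R3.AmPerm1
import Pool.Agent.H698R3.StabDefs

set_option autoImplicit false

/-! Gluing, restricting and shrinking finite `G`-sets. -/

namespace Pool.Agent.H698R3.Amalg

open Equiv Filter Topology

/-- The class of finite symmetric groups with the normalised Hamming distances. -/
noncomputable def permCls : Cls where
  C k := Perm (Fin k)
  grp k := (inferInstance : Group (Perm (Fin k)))
  d _ σ τ := Stab.hammingDist σ τ

theorem permCls_metric : permCls.IsMetric where
  self _ x := Stab.hammingDist_self x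
  symm _ x y := Stab.hammingDist_comm x y
  tri _ x y z := Stab.hammingDist_triangle x y z
  left k x y z := by
    have h := Stab.hammingDist_mul_left (X := Fin k) x y z
    exact h
  right k x y z := by
    have h := Stab.hammingDist_mul_right (X := Fin k) x y z
    exact h

section glue

variable {G : Type} [Group G]

/-- glue actions on the fibres of a map -/
def glueFun {X ι : Type} (p : X → ι) (a : ∀ i, G →* Perm {x // p x = i}) (g : G) (x : X) : X :=
  (a (p x) g ⟨x, rfl⟩).1

theorem glueFun_eq {X ι : Type} (p : X → ι) (a : ∀ i, G →* Perm {x // p x = i}) (g : G) (x : X)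
    (i : ι) (h : p x = i) : glueFun p a g x = (a i g ⟨x, h⟩).1 := by
  subst h; rfl

theorem p_glueFun {X ι : Type} (p : X → ι) (a : ∀ i, G →* Perm {x // p x = i}) (g : G) (x : X) :
    p (glueFun p a g x) = p x := (a (p x) g ⟨x, rfl⟩).2

theorem glueFun_mul {X ι : Type} (p : X → ι) (a : ∀ i, G →* Perm {x // p x = i}) (g h : G)
    (x : X) : glueFun p a (g * h) x = glueFun p a g (glueFun p a h x) := by
  rw [glueFun_eq p a g _ (p x) (p_glueFun p a h x)]
  show (a (p x) (g * h) ⟨x, rfl⟩).1 = _
  rw [map_mul, Perm.mul_apply]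
  rfl

theorem glueFun_one {X ι : Type} (p : X → ι) (a : ∀ i, G →* Perm {x // p x = i}) (x : X) :
    glueFun p a 1 x = x := by
  show (a (p x) 1 ⟨x, rfl⟩).1 = x
  rw [map_one]; rfl

def glue {X ι : Type} (p : X → ι) (a : ∀ i, G →* Perm {x // p x = i}) : G →* Perm X where
  toFun g := ⟨glueFun p a g, glueFun p a g⁻¹,
    fun x => by rw [← glueFun_mul, inv_mul_cancel, glueFun_one],
    fun x => by rw [← glueFun_mul, mul_inv_cancel, glueFun_one]⟩
  map_one' := by
    ext x
    exact glueFun_one p a x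
  map_mul' g h := by
    ext x
    exact glueFun_mul p a g h x

theorem glue_apply {X ι : Type} (p : X → ι) (a : ∀ i, G →* Perm {x // p x = i}) (g : G) (x : X)
    (i : ι) (h : p x = i) : glue p a g x = (a i g ⟨x, h⟩).1 := glueFun_eq p a g x i h

/-- restrict an action to a fibre of an invariant map -/
def restr {X ι : Type} (ψ : G →* Perm X) (p : X → ι) (hp : ∀ g x, p (ψ g x) = p x) (i : ι) :
    G →* Perm {x // p x = i} where
  toFun g := (ψ g).subtypePerm (fun x => by rw [hp])
  map_one' := by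
    ext x
    simp
  map_mul' g h := by
    ext x
    simp [Perm.mul_apply]

theorem restr_apply {X ι : Type} (ψ : G →* Perm X) (p : X → ι) (hp : ∀ g x, p (ψ g x) = p x)
    (i : ι) (g : G) (x : {x // p x = i}) : (restr ψ p hp i g x).1 = ψ g x.1 := rfl

/-- transport along a bijection -/
def transp {X Y : Type} (e : X ≃ Y) (ψ : G →* Perm X) : G →* Perm Y :=
  e.permCongrHom.toMonoidHom.comp ψ

theorem transp_apply {X Y : Type} (e : X ≃ Y) (ψ : G →* Perm X) (g : G) (x : X) :
    transp e ψ g (e x) = e (ψ g x) := by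
  show e (ψ g (e.symm (e x))) = e (ψ g x)
  rw [Equiv.symm_apply_apply]

variable (N : Subgroup G) [N.Normal]

theorem typ_glue {X ι : Type} (p : X → ι) (a : ∀ i, G →* Perm {x // p x = i}) (x : X)
    (i : ι) (h : p x = i) : typ N (glue p a) x = typ N (a i) ⟨x, h⟩ :=
  typ_embed N (glue p a) (a i) Subtype.val Subtype.val_injective
    (fun g y => glue_apply p a g y.1 i y.2) ⟨x, h⟩

theorem typ_restr {X ι : Type} (ψ : G →* Perm X) (p : X → ι) (hp : ∀ g x, p (ψ g x) = p x)
    (i : ι) (x : {x // p x = i}) : typ N (restr ψ p hp i) x = typ N ψ x.1 :=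
  (typ_embed N ψ (restr ψ p hp i) Subtype.val Subtype.val_injective
    (fun g y => (restr_apply ψ p hp i g y).symm) x).symm

theorem typ_transp {X Y : Type} (e : X ≃ Y) (ψ : G →* Perm X) (y : Y) :
    typ N (transp e ψ) y = typ N ψ (e.symm y) := by
  have := typ_embed N (transp e ψ) ψ e e.injective (fun g x => transp_apply e ψ g x) (e.symm y)
  rwa [Equiv.apply_symm_apply] at this

/-- the sizes of finite `G`-sets of pure type `C` -/
def Siz (C : Set (Subgroup N)) : AddSubmonoid ℕ where
  carrier := {m | ∃ ψ : G →* Perm (Fin m), ∀ x, typ N ψ x = C}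
  zero_mem' := ⟨1, fun x => Fin.elim0 x⟩
  add_mem' := by
    rintro a b ⟨ψ, hψ⟩ ⟨ψ', hψ'⟩
    refine ⟨transp finSumFinEquiv
      ((Equiv.Perm.sumCongrHom (Fin a) (Fin b)).comp (ψ.prod ψ')), ?_⟩
    intro x
    rw [typ_transp]
    generalize finSumFinEquiv.symm x = y
    cases y with
    | inl z =>
      rw [typ_embed N ((Equiv.Perm.sumCongrHom (Fin a) (Fin b)).comp (ψ.prod ψ')) ψ Sum.inl
        Sum.inl_injective (fun g y => rfl) z]
      exact hψ z
    | inr z =>
      rw [typ_embed N ((Equiv.Perm.sumCongrHom (Fin a) (Fin b)).comp (ψ.prod ψ')) ψ' Sum.inr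
        Sum.inr_injective (fun g y => rfl) z]
      exact hψ' z

theorem exists_of_mem_Siz {C : Set (Subgroup N)} {X : Type} [Fintype X]
    (h : Fintype.card X ∈ Siz N C) : ∃ ψ : G →* Perm X, ∀ x, typ N ψ x = C := by
  obtain ⟨ψ, hψ⟩ := h
  let e : Fin (Fintype.card X) ≃ X := (Fintype.equivFin X).symm
  exact ⟨transp e ψ, fun x => by rw [typ_transp]; exact hψ _⟩

theorem mem_Siz_of {C : Set (Subgroup N)} {X : Type} [Fintype X] (ψ : G →* Perm X)
    (h : ∀ x, typ N ψ x = C) : Fintype.card X ∈ Siz N C :=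
  ⟨transp (Fintype.equivFin X) ψ, fun x => by rw [typ_transp]; exact h _⟩

/-- a labelling with prescribed fibre sizes -/
theorem exists_label {X T : Type} [Fintype X] [Fintype T] [DecidableEq T] (p : T → ℕ)
    (hp : ∑ t, p t = Fintype.card X) :
    ∃ q : X → T, ∀ t, Fintype.card {x // q x = t} = p t := by
  have hcard : Fintype.card (Σ t, Fin (p t)) = Fintype.card X := by
    rw [Fintype.card_sigma]; simpa using hp
  let e : (Σ t, Fin (p t)) ≃ X := Fintype.equivOfCardEq hcard
  refine ⟨fun x => (e.symm x).1, fun t => ?_⟩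
  rw [← Fintype.card_fin (p t)]
  refine Fintype.card_congr ?_
  refine ((e.symm.subtypeEquiv (fun x => Iff.rfl) : {x // (e.symm x).1 = t} ≃
    {y : Σ t, Fin (p t) // y.1 = t})).trans ?_
  exact
    { toFun := fun y => y.2 ▸ y.1.2
      invFun := fun z => ⟨⟨t, z⟩, rfl⟩
      left_inv := by rintro ⟨⟨_, z⟩, rfl⟩; rfl
      right_inv := fun z => rfl }

end glue

/-- A permutation of `Y` induces a permutation of the complement of `R` that agrees with it
where possible. -/
theorem exists_ext {Y : Type} [Finite Y] (σ : Perm Y) (R : Y → Prop) :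
    ∃ τ : Perm {y // ¬ R y}, ∀ y, ¬ R (σ y.1) → (τ y).1 = σ y.1 := by
  classical
  let e : {y : {y // ¬ R y} // ¬ R (σ y.1)} ≃ {y : {y // ¬ R y} // ¬ R (σ.symm y.1)} :=
    { toFun := fun y => ⟨⟨σ y.1.1, y.2⟩, by
        show ¬ R (σ.symm (σ y.1.1)); rw [Equiv.symm_apply_apply]; exact y.1.2⟩
      invFun := fun y => ⟨⟨σ.symm y.1.1, y.2⟩, by
        show ¬ R (σ (σ.symm y.1.1)); rw [Equiv.apply_symm_apply]; exact y.1.2⟩
      left_inv := by rintro ⟨⟨y, hy⟩, hy'⟩; simp
      right_inv := by rintro ⟨⟨y, hy⟩, hy'⟩; simp }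
  refine ⟨e.extendSubtype, fun y hy => ?_⟩
  rw [Equiv.extendSubtype_apply_of_mem e y hy]
  rfl

section stab

variable {G : Type} [Group G]

theorem hammingDist_permCongr {X Y : Type} [Fintype X] [DecidableEq X] [Fintype Y] [DecidableEq Y]
    (e : X ≃ Y) (σ τ : Perm X) :
    Stab.hammingDist (e.permCongrHom σ) (e.permCongrHom τ) = Stab.hammingDist σ τ := by
  unfold Stab.hammingDist
  rw [Fintype.card_congr e]
  congr 2
  refine (Finset.card_bij (fun x _ => e x) ?_ ?_ ?_).symm
  · intro x hx
    rw [Finset.mem_filter] at hx ⊢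
    refine ⟨Finset.mem_univ _, ?_⟩
    show e (σ (e.symm (e x))) ≠ e (τ (e.symm (e x)))
    rw [Equiv.symm_apply_apply]
    exact fun h => hx.2 (e.injective h)
  · intro x _ y _ h
    exact e.injective h
  · intro y hy
    rw [Finset.mem_filter] at hy
    refine ⟨e.symm y, ?_, by simp⟩
    rw [Finset.mem_filter]
    refine ⟨Finset.mem_univ _, fun h => hy.2 ?_⟩
    show e (σ (e.symm y)) = e (τ (e.symm y))
    rw [h]

/-- stability for arbitrary finite sets -/
theorem stable_types (hst : permCls.Stable G) (X : ℕ → Type) [∀ n, Fintype (X n)]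
    [∀ n, DecidableEq (X n)] (φ : ∀ n, G → Perm (X n))
    (hφ : ∀ a b : G, Tendsto (fun n => Stab.hammingDist (φ n a * φ n b) (φ n (a * b))) atTop (𝓝 0)) :
    ∃ ψ : ∀ n, G →* Perm (X n), ∀ a : G,
      Tendsto (fun n => Stab.hammingDist (φ n a) (ψ n a)) atTop (𝓝 0) := by
  let e : ∀ n, X n ≃ Fin (Fintype.card (X n)) := fun n => Fintype.equivFin (X n)
  obtain ⟨ψ, hψ⟩ := hst (fun n => Fintype.card (X n)) (fun n g => (e n).permCongrHom (φ n g)) (by
    intro a b
    refine (hφ a b).congr (fun n => ?_)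
    show _ = Stab.hammingDist ((e n).permCongrHom (φ n a) * (e n).permCongrHom (φ n b))
      ((e n).permCongrHom (φ n (a * b)))
    rw [← map_mul, hammingDist_permCongr])
  refine ⟨fun n => ((e n).permCongrHom.symm.toMonoidHom).comp (ψ n), fun a => ?_⟩
  refine (hψ a).congr (fun n => ?_)
  show Stab.hammingDist ((e n).permCongrHom (φ n a)) (ψ n a) =
    Stab.hammingDist (φ n a) ((e n).permCongrHom.symm (ψ n a))
  rw [← hammingDist_permCongr (e n) (φ n a), MulEquiv.apply_symm_apply]

end stab

end Pool.Agent.H698R3.Amalg
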