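import Pool.Agent.H698R3.AmPerm2

set_option autoImplicit false

/-! Shrinking a finite `G`-set of pure type, for a permutation stable group `G`. -/

namespace Pool.Agent.H698R3.Amalg

open Equiv Filter Topology

variable {G : Type} [Group G] (N : Subgroup G) [N.Normal] [Finite N]

open Classical in
theorem shrink (hst : permCls.Stable G) (F : Finset G) (ε : ℝ) (hε : 0 < ε) :
    ∃ η : ℝ, 0 < η ∧ ∀ (Y : Type) [Fintype Y] (ψ : G →* Perm Y)
      (C : Set (Subgroup N)), (∀ y, typ N ψ y = C) → ∀ R : Finset Y,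
      (R.card : ℝ) ≤ η * Fintype.card Y →
      ∃ (A : Finset Y) (θ : G →* Perm {y // y ∈ A}), (∀ y, typ N θ y = C) ∧ Disjoint A R ∧
        ∀ g ∈ F, ((Finset.univ.filter (fun y : Y => ¬ ∃ h : y ∈ A, (θ g ⟨y, h⟩).1 = ψ g y)).card : ℝ)
          ≤ ε * Fintype.card Y := by
  classical
  have _ : Fintype N := Fintype.ofFinite _
  by_contra hcon
  push Not at hcon
  have hseq := fun m : ℕ => hcon (min (1 / 2) (1 / ((m : ℝ) + 1))) (by positivity)
  choose Y instF ψ C hC R hR hbad using hseq
  -- partial completions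
  have hτ : ∀ m g, ∃ τ : Perm {y : Y m // ¬ (y ∈ R m)}, ∀ y, ¬ (ψ m g y.1 ∈ R m) →
      (τ y).1 = ψ m g y.1 := fun m g => exists_ext (ψ m g) (fun y => y ∈ R m)
  choose φ hφ using hτ
  -- cardinalities
  have hcardX : ∀ m, (Fintype.card {y : Y m // ¬ (y ∈ R m)} : ℝ) =
      Fintype.card (Y m) - (R m).card := by
    intro m
    rw [Fintype.card_subtype_compl, Nat.cast_sub (Fintype.card_subtype_le _)]
    congr 2
    rw [Fintype.card_subtype]
    congr 1
    ext y
    simp
  have hhalf : ∀ m, (Fintype.card (Y m) : ℝ) ≤ 2 * Fintype.card {y : Y m // ¬ (y ∈ R m)} := by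
    intro m
    rw [hcardX]
    have h1 : ((R m).card : ℝ) ≤ 1 / 2 * Fintype.card (Y m) :=
      (hR m).trans (mul_le_mul_of_nonneg_right (min_le_left _ _) (Nat.cast_nonneg _))
    linarith
  have hRm : ∀ m, ((R m).card : ℝ) ≤ (1 / ((m : ℝ) + 1)) * Fintype.card (Y m) := fun m =>
    (hR m).trans (mul_le_mul_of_nonneg_right (min_le_right _ _) (Nat.cast_nonneg _))
  -- number of points mapped into `R`
  have hpre : ∀ m g, ((Finset.univ.filter
      (fun y : {y : Y m // ¬ (y ∈ R m)} => ψ m g y.1 ∈ R m)).card) ≤ (R m).card := by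
    intro m g
    refine Finset.card_le_card_of_injOn (fun y => ψ m g y.1) ?_ ?_
    · intro y hy
      exact (Finset.mem_filter.mp hy).2
    · intro y _ z _ h
      exact Subtype.ext ((ψ m g).injective h)
  have halm : ∀ a b : G, Tendsto (fun m => Stab.hammingDist (φ m a * φ m b) (φ m (a * b)))
      atTop (𝓝 0) := by
    intro a b
    have hlim : Tendsto (fun m : ℕ => 4 * (1 / ((m : ℝ) + 1))) atTop (𝓝 0) := by
      simpa using tendsto_one_div_add_atTop_nhds_zero_nat.const_mul (4 : ℝ)
    refine squeeze_zero (fun m => Stab.hammingDist_nonneg _ _) (fun m => ?_) hlim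
    unfold Stab.hammingDist
    have hsub : (Finset.univ.filter (fun x => (φ m a * φ m b) x ≠ (φ m (a * b)) x)) ⊆
        (Finset.univ.filter (fun y : {y : Y m // ¬ (y ∈ R m)} => ψ m b y.1 ∈ R m)) ∪
        (Finset.univ.filter (fun y : {y : Y m // ¬ (y ∈ R m)} => ψ m (a * b) y.1 ∈ R m)) := by
      intro x hx
      by_contra hnot
      rw [Finset.mem_union, not_or] at hnot
      simp only [Finset.mem_filter, Finset.mem_univ, true_and] at hnot hx
      apply hx
      apply Subtype.ext
      have e1 := hφ m b x hnot.1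
      have e2 := hφ m (a * b) x hnot.2
      have e3 : (φ m a (φ m b x)).1 = ψ m a (φ m b x).1 := by
        apply hφ
        rw [e1, ← Perm.mul_apply, ← map_mul]
        exact hnot.2
      rw [Perm.mul_apply, e3, e1, e2, map_mul, Perm.mul_apply]
    have h1 : ((Finset.univ.filter (fun x => (φ m a * φ m b) x ≠ (φ m (a * b)) x)).card : ℝ) ≤
        2 * (R m).card := by
      have := (Finset.card_le_card hsub).trans (Finset.card_union_le _ _)
      have h2 := hpre m b
      have h3 := hpre m (a * b)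
      exact_mod_cast (by omega : (Finset.univ.filter
        (fun x => (φ m a * φ m b) x ≠ (φ m (a * b)) x)).card ≤ 2 * (R m).card)
    rcases Nat.eq_zero_or_pos (Fintype.card {y : Y m // ¬ (y ∈ R m)}) with h0 | hpos
    · rw [h0]; simp; positivity
    · have hpos' : (0 : ℝ) < Fintype.card {y : Y m // ¬ (y ∈ R m)} := by exact_mod_cast hpos
      rw [div_le_iff₀ hpos']
      have h4 := hRm m
      have h5 := hhalf m
      have h6 : (0 : ℝ) ≤ 1 / ((m : ℝ) + 1) := by positivity
      have h7 : (1 / ((m : ℝ) + 1)) * (Fintype.card (Y m) : ℝ) ≤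
        (1 / ((m : ℝ) + 1)) * (2 * Fintype.card {y : Y m // ¬ (y ∈ R m)}) :=
        mul_le_mul_of_nonneg_left h5 h6
      linarith
  obtain ⟨θ, hθ⟩ := stable_types hst (fun m => {y : Y m // ¬ (y ∈ R m)}) φ halm
  -- constants
  set ε1 : ℝ := ε / (2 * ((Fintype.card N : ℝ) + 2)) with hε1
  have hε1pos : 0 < ε1 := by positivity
  have hev : ∀ᶠ m in atTop, (∀ g ∈ F, Stab.hammingDist (φ m g) (θ m g) < ε1) ∧
      (∀ n : N, Stab.hammingDist (φ m n) (θ m n) < ε1) ∧ 1 / ((m : ℝ) + 1) < ε1 := by
    refine (((Filter.eventually_all_finset F).mpr fun g _ =>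
      (hθ g).eventually (gt_mem_nhds hε1pos))).and ((Filter.eventually_all.mpr fun n : N =>
      (hθ n).eventually (gt_mem_nhds hε1pos)).and ?_)
    exact tendsto_one_div_add_atTop_nhds_zero_nat.eventually (gt_mem_nhds hε1pos)
  obtain ⟨m, hm1, hm2, hm3⟩ := hev.exists
  -- the subset
  let A : Finset (Y m) := Finset.univ.filter (fun y => ∃ h : ¬ (y ∈ R m), typ N (θ m) ⟨y, h⟩ = C m)
  let p : {y : Y m // ¬ (y ∈ R m)} → Prop := fun y => typ N (θ m) y = C m
  have hpinv : ∀ g x, p (θ m g x) = p x := by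
    intro g x
    show (typ N (θ m) (θ m g x) = C m) = (typ N (θ m) x = C m)
    rw [typ_inv]
  let e : {x // p x = True} ≃ {y // y ∈ A} :=
    { toFun := fun x => ⟨x.1.1, by
        rw [Finset.mem_filter]
        exact ⟨Finset.mem_univ _, x.1.2, of_eq_true x.2⟩⟩
      invFun := fun y => ⟨⟨y.1, (Finset.mem_filter.mp y.2).2.1⟩,
        eq_true (Finset.mem_filter.mp y.2).2.2⟩
      left_inv := fun x => rfl
      right_inv := fun y => rfl }
  let θ' : G →* Perm {y // y ∈ A} := transp e (restr (θ m) p hpinv True)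
  have hθ'apply : ∀ g (y : Y m) (h : y ∈ A),
      (θ' g ⟨y, h⟩).1 = (θ m g ⟨y, (Finset.mem_filter.mp h).2.1⟩).1 := by
    intro g y h
    rfl
  obtain ⟨g, hgF, hg⟩ := hbad m A θ' (by
      intro y
      rw [typ_transp, typ_restr]
      exact of_eq_true (e.symm y).2)
    (by
      rw [Finset.disjoint_left]
      intro y hy hyR
      exact (Finset.mem_filter.mp hy).2.1 hyR)
  -- estimate
  set B : G → Finset (Y m) := fun g =>
    (Finset.univ.filter (fun x => (φ m g) x ≠ (θ m g) x)).map
      ⟨Subtype.val, Subtype.val_injective⟩ with hB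
  set B' : G → Finset (Y m) := fun g =>
    (Finset.univ.filter (fun y : {y : Y m // ¬ (y ∈ R m)} => ψ m g y.1 ∈ R m)).map
      ⟨Subtype.val, Subtype.val_injective⟩ with hB'
  have hBcard : ∀ g, Stab.hammingDist (φ m g) (θ m g) < ε1 →
      ((B g).card : ℝ) ≤ ε1 * Fintype.card (Y m) := by
    intro g hg
    rw [hB]
    simp only [Finset.card_map]
    unfold Stab.hammingDist at hg
    have hle : (Fintype.card {y : Y m // ¬ (y ∈ R m)} : ℝ) ≤ Fintype.card (Y m) := by
      exact_mod_cast Fintype.card_subtype_le _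
    rcases Nat.eq_zero_or_pos (Fintype.card {y : Y m // ¬ (y ∈ R m)}) with h0 | hpos
    · have : IsEmpty {y : Y m // ¬ (y ∈ R m)} := Fintype.card_eq_zero_iff.mp h0
      rw [Finset.univ_eq_empty, Finset.filter_empty, Finset.card_empty]
      simp; positivity
    · have hpos' : (0 : ℝ) < Fintype.card {y : Y m // ¬ (y ∈ R m)} := by exact_mod_cast hpos
      rw [div_lt_iff₀ hpos'] at hg
      exact hg.le.trans (mul_le_mul_of_nonneg_left hle hε1pos.le)
  have hB'card : ∀ g, ((B' g).card : ℝ) ≤ ε1 * Fintype.card (Y m) := by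
    intro g
    rw [hB']
    simp only [Finset.card_map]
    refine (Nat.cast_le.mpr (hpre m g)).trans ((hRm m).trans ?_)
    exact mul_le_mul_of_nonneg_right hm3.le (Nat.cast_nonneg _)
  have hsub : (Finset.univ.filter (fun y : Y m => ¬ ∃ h : y ∈ A, (θ' g ⟨y, h⟩).1 = ψ m g y)) ⊆
      ((R m ∪ B g) ∪ B' g) ∪ (Finset.univ.biUnion (fun n : N => B n ∪ B' n)) := by
    intro y hy
    by_contra hnot
    simp only [Finset.mem_union, not_or, Finset.mem_biUnion, Finset.mem_univ, true_and,
      not_exists] at hnot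
    obtain ⟨⟨⟨hyR, hyB⟩, hyB'⟩, hyN⟩ := hnot
    have hnB : ∀ g, y ∉ B g → φ m g ⟨y, hyR⟩ = θ m g ⟨y, hyR⟩ := by
      intro g hgB
      by_contra hne
      apply hgB
      rw [hB]
      simp only [Finset.mem_map, Finset.mem_filter, Finset.mem_univ, true_and]
      exact ⟨⟨y, hyR⟩, hne, rfl⟩
    have hnB' : ∀ g, y ∉ B' g → ¬ (ψ m g y ∈ R m) := by
      intro g hgB hcon
      apply hgB
      rw [hB']
      simp only [Finset.mem_map, Finset.mem_filter, Finset.mem_univ, true_and]
      exact ⟨⟨y, hyR⟩, hcon, rfl⟩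
    have hval : ∀ g, y ∉ B g → y ∉ B' g → (θ m g ⟨y, hyR⟩).1 = ψ m g y := by
      intro g h1 h2
      rw [← hnB g h1]
      exact hφ m g ⟨y, hyR⟩ (hnB' g h2)
    have htyp : typ N (θ m) ⟨y, hyR⟩ = C m := by
      rw [← hC m y]
      apply typ_eq_of_st_eq
      ext n
      rw [mem_st, mem_st]
      have h1 := hval n (hyN n).1 (hyN n).2
      constructor
      · intro h2
        rw [h2] at h1
        exact h1.symm
      · intro h2
        apply Subtype.ext
        rw [h1, h2]
    have hyA : y ∈ A := by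
      rw [Finset.mem_filter]
      exact ⟨Finset.mem_univ _, hyR, htyp⟩
    have hy' := (Finset.mem_filter.mp hy).2
    apply hy'
    refine ⟨hyA, ?_⟩
    rw [hθ'apply]
    exact hval g hyB hyB'
  have hcard := Finset.card_le_card hsub
  simp only [not_exists] at hcard
  have hc1 : (((R m ∪ B g) ∪ B' g) ∪ (Finset.univ.biUnion (fun n : N => B n ∪ B' n))).card ≤
      (R m).card + (B g).card + (B' g).card + ∑ n : N, ((B n).card + (B' n).card) := by
    refine (Finset.card_union_le _ _).trans ?_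
    refine add_le_add ?_ ?_
    · refine (Finset.card_union_le _ _).trans ?_
      exact Nat.add_le_add_right (Finset.card_union_le _ _) _
    · refine Finset.card_biUnion_le.trans (Finset.sum_le_sum fun n _ => Finset.card_union_le _ _)
  have hc2 : (((R m).card + (B g).card + (B' g).card + ∑ n : N, ((B n).card + (B' n).card) : ℕ) : ℝ)
      ≤ (3 + 2 * Fintype.card N) * (ε1 * Fintype.card (Y m)) := by
    push_cast
    have h1 : ((R m).card : ℝ) ≤ ε1 * Fintype.card (Y m) :=
      (hRm m).trans (mul_le_mul_of_nonneg_right hm3.le (Nat.cast_nonneg _))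
    have h2 := hBcard g (hm1 g hgF)
    have h3 := hB'card g
    have h4 : ∑ n : N, (((B n).card : ℝ) + ((B' n).card : ℝ)) ≤
        ∑ n : N, (2 * (ε1 * Fintype.card (Y m))) :=
      Finset.sum_le_sum fun n _ => by
        have := hBcard n (hm2 n)
        have := hB'card n
        linarith
    rw [Finset.sum_const, Finset.card_univ, nsmul_eq_mul] at h4
    nlinarith
  have hfinal : (3 + 2 * (Fintype.card N : ℝ)) * (ε1 * Fintype.card (Y m)) ≤
      ε * Fintype.card (Y m) := by
    rw [← mul_assoc]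
    refine mul_le_mul_of_nonneg_right ?_ (Nat.cast_nonneg _)
    rw [hε1, mul_div_assoc', div_le_iff₀ (by positivity)]
    nlinarith [Nat.cast_nonneg (α := ℝ) (Fintype.card N)]
  have : ε * (Fintype.card (Y m) : ℝ) < ε * Fintype.card (Y m) := by
    refine lt_of_lt_of_le hg ?_
    refine le_trans ?_ hfinal
    refine le_trans ?_ hc2
    exact_mod_cast hcard.trans hc1
  exact lt_irrefl _ this

end Pool.Agent.H698R3.Amalg
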