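import Pool.Agent.H698R3.AmPerm3

set_option autoImplicit false

/-! Adjusting the sizes of the pure type parts of a finite `G`-set. -/

namespace Pool.Agent.H698R3.Amalg

open Equiv Filter Topology

variable {G : Type} [Group G] (N : Subgroup G) [N.Normal] [Finite N]

open Classical in
/-- number of points of type `C` -/
noncomputable def sP (k : ℕ) (ψ : G →* Perm (Fin k)) (C : Set (Subgroup N)) : ℕ :=
  (Finset.univ.filter (fun x : Fin k => typ N ψ x = C)).card

noncomputable instance : Fintype (Set (Subgroup N)) := Fintype.ofFinite _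

open Classical in
theorem adjustP (hst : permCls.Stable G) (F : Finset G) (ε : ℝ) (hε : 0 < ε) :
    ∃ η : ℝ, 0 < η ∧ ∃ L0 : ℕ, ∀ k ≥ L0, ∀ ψ : G →* Perm (Fin k), ∀ t : Set (Subgroup N) → ℕ,
      (∀ C, t C ∈ Siz N C) → ∑ C, t C = k → (∀ C, |(t C : ℝ) - sP N k ψ C| ≤ η * k) →
      ∃ ψ' : G →* Perm (Fin k), sP N k ψ' = t ∧ ∀ g ∈ F, permCls.d k (ψ' g) (ψ g) ≤ ε := by
  classical
  obtain ⟨η0, hη0, hshrink⟩ := shrink N hst F (ε / 4) (by linarith)
  set η1 : ℝ := min η0 (1 / 2) with hη1
  have hη1pos : 0 < η1 := lt_min hη0 (by norm_num)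
  have hη1a : η1 ≤ η0 := min_le_left _ _
  have hη1b : η1 ≤ 1 / 2 := min_le_right _ _
  set Tn : ℝ := (Fintype.card (Set (Subgroup N)) : ℝ) with hTn
  have hTnpos : 0 < Tn := by
    rw [hTn]
    have : Nonempty (Set (Subgroup N)) := inferInstance
    exact_mod_cast Fintype.card_pos
  set ϑ : ℝ := ε / (4 * Tn) with hϑ
  have hϑpos : 0 < ϑ := by positivity
  have hn0 := fun C : Set (Subgroup N) => sub_mem_of_large (Siz N C)
  choose n0 hn0 using hn0
  obtain ⟨L0, hL0⟩ := exists_nat_gt (((∑ C, (n0 C : ℝ)) + 2) / (η1 * ϑ / 2))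
  refine ⟨η1 * ϑ / 2, by positivity, L0, ?_⟩
  intro k hk ψ t htS hsum hclose
  have hkL : ((∑ C, (n0 C : ℝ)) + 2) ≤ (η1 * ϑ / 2) * k := by
    have h1 : (L0 : ℝ) ≤ k := by exact_mod_cast hk
    rw [div_lt_iff₀ (by positivity)] at hL0
    nlinarith [mul_le_mul_of_nonneg_left h1 (by positivity : 0 ≤ η1 * ϑ / 2)]
  have hinv : ∀ g x, typ N ψ (ψ g x) = typ N ψ x := fun g x => typ_inv N ψ x g
  have hcardC : ∀ C, Fintype.card {x // typ N ψ x = C} = sP N k ψ C := by
    intro C
    rw [Fintype.card_subtype]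
    rfl
  -- the shrunken parts
  have hper : ∀ C, ∃ (A : Finset {x // typ N ψ x = C}) (θ : G →* Perm {y // y ∈ A}),
      (∀ y, typ N θ y = C) ∧ A.card ≤ t C ∧ t C - A.card ∈ Siz N C ∧
      ∀ g ∈ F, ((Finset.univ.filter (fun y : {x // typ N ψ x = C} =>
        ¬ ∃ h : y ∈ A, (θ g ⟨y, h⟩).1.1 = ψ g y.1)).card : ℝ) ≤ ε / 4 * sP N k ψ C + ϑ * k := by
    intro C
    by_cases hbig : ϑ * k ≤ sP N k ψ C
    · have hle : ⌊η1 * (sP N k ψ C : ℝ)⌋₊ ≤ (Finset.univ : Finset {x // typ N ψ x = C}).card := by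
        rw [Finset.card_univ, hcardC]
        have h1 : η1 * (sP N k ψ C : ℝ) ≤ sP N k ψ C := by
          nlinarith [Nat.cast_nonneg (α := ℝ) (sP N k ψ C)]
        calc ⌊η1 * (sP N k ψ C : ℝ)⌋₊ ≤ ⌊(sP N k ψ C : ℝ)⌋₊ := Nat.floor_le_floor h1
          _ = sP N k ψ C := Nat.floor_natCast _
      obtain ⟨R, -, hR⟩ := Finset.exists_subset_card_eq hle
      obtain ⟨A, θ, h1, h2, h3⟩ := hshrink {x // typ N ψ x = C}
        (restr ψ (typ N ψ) hinv C) C (fun y => by rw [typ_restr]; exact y.2) R (by
          rw [hR, hcardC]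
          calc ((⌊η1 * (sP N k ψ C : ℝ)⌋₊ : ℕ) : ℝ) ≤ η1 * (sP N k ψ C : ℝ) :=
                Nat.floor_le (by positivity)
            _ ≤ η0 * (sP N k ψ C : ℝ) := mul_le_mul_of_nonneg_right hη1a (Nat.cast_nonneg _))
      have hAcard : A.card + R.card ≤ sP N k ψ C := by
        rw [← Finset.card_union_of_disjoint h2, ← hcardC]
        exact Finset.card_le_univ _
      have hfl := Nat.lt_floor_add_one (η1 * (sP N k ψ C : ℝ))
      rw [← hR] at hfl
      have hA' : (A.card : ℝ) + R.card ≤ sP N k ψ C := by exact_mod_cast hAcard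
      have hcl := hclose C
      rw [abs_le] at hcl
      have hn0C : (n0 C : ℝ) ≤ ∑ C, (n0 C : ℝ) :=
        Finset.single_le_sum (f := fun C => (n0 C : ℝ)) (fun _ _ => Nat.cast_nonneg _)
          (Finset.mem_univ C)
      have hmain : (A.card : ℝ) + n0 C ≤ t C := by
        have h5 : η1 * (ϑ * k) ≤ η1 * sP N k ψ C := mul_le_mul_of_nonneg_left hbig hη1pos.le
        nlinarith
      have hmain' : A.card + n0 C ≤ t C := by exact_mod_cast hmain
      refine ⟨A, θ, h1, by omega, ?_, ?_⟩
      · refine hn0 C (t C) (htS C) A.card ?_ hmain'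
        have := mem_Siz_of N θ h1
        rwa [Fintype.card_coe] at this
      · intro g hg
        have h4 := h3 g hg
        rw [hcardC] at h4
        refine le_trans (le_of_eq ?_) (h4.trans ?_)
        · congr 2
          ext y
          simp only [Finset.mem_filter, Finset.mem_univ, true_and]
          refine not_congr (exists_congr fun h => ?_)
          rw [← restr_apply ψ (typ N ψ) hinv C g y]
          exact Subtype.ext_iff.symm
        · have : 0 ≤ ϑ * (k : ℝ) := by positivity
          linarith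
    · refine ⟨∅, 1, fun y => absurd y.2 (Finset.notMem_empty _), by simp,
        by simpa using htS C, ?_⟩
      intro g _
      have h1 : ((Finset.univ.filter (fun y : {x // typ N ψ x = C} =>
        ¬ ∃ h : y ∈ (∅ : Finset {x // typ N ψ x = C}),
          ((1 : G →* Perm {y // y ∈ (∅ : Finset {x // typ N ψ x = C})}) g ⟨y, h⟩).1.1
            = ψ g y.1)).card : ℝ) ≤ sP N k ψ C := by
        rw [← hcardC]
        exact_mod_cast Finset.card_le_univ _
      have h2 : 0 ≤ ε / 4 * (sP N k ψ C : ℝ) := by positivity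
      linarith
  choose A θ hpure hAle hASiz hbad using hper
  -- membership predicate
  let Am : Fin k → Prop := fun x => (⟨x, rfl⟩ : {z // typ N ψ z = typ N ψ x}) ∈ A (typ N ψ x)
  have hAm : ∀ (C) (x : Fin k) (h : typ N ψ x = C), Am x ↔ (⟨x, h⟩ : {z // typ N ψ z = C}) ∈ A C := by
    intro C x h
    subst h
    rfl
  have hAmcard : ∀ C, (Finset.univ.filter (fun x : Fin k => typ N ψ x = C ∧ Am x)).card =
      (A C).card := by
    intro C
    symm
    refine Finset.card_bij (fun y _ => y.1) ?_ ?_ ?_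
    · intro y hy
      rw [Finset.mem_filter]
      exact ⟨Finset.mem_univ _, y.2, (hAm C y.1 y.2).mpr hy⟩
    · intro y _ z _ h
      exact Subtype.ext h
    · intro x hx
      obtain ⟨-, h1, h2⟩ := Finset.mem_filter.mp hx
      exact ⟨⟨x, h1⟩, (hAm C x h1).mp h2, rfl⟩
  have htot : ∑ C, (A C).card = (Finset.univ.filter (fun x : Fin k => Am x)).card := by
    rw [Finset.card_eq_sum_card_fiberwise (f := fun x => typ N ψ x) (t := Finset.univ)
      (fun x _ => Finset.mem_coe.mpr (Finset.mem_univ _))]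
    refine Finset.sum_congr rfl fun C _ => ?_
    rw [← hAmcard C]
    congr 1
    ext x
    simp only [Finset.mem_filter, Finset.mem_univ, true_and]
    tauto
  have hrest : ∑ C, (t C - (A C).card) = Fintype.card {x : Fin k // ¬ Am x} := by
    have h1 : ∑ C, (t C - (A C).card) + ∑ C, (A C).card = k := by
      rw [← Finset.sum_add_distrib]
      exact (Finset.sum_congr rfl fun C _ => Nat.sub_add_cancel (hAle C)).trans hsum
    have h2 : (Finset.univ.filter (fun x : Fin k => Am x)).card +
        (Finset.univ.filter (fun x : Fin k => ¬ Am x)).card = k := by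
      rw [Finset.card_filter_add_card_filter_not]
      simp
    rw [Fintype.card_subtype]
    omega
  obtain ⟨q, hq⟩ := exists_label (X := {x : Fin k // ¬ Am x}) (fun C => t C - (A C).card) hrest
  -- the global labelling
  let p : Fin k → Set (Subgroup N) × Bool := fun x =>
    if h : Am x then (typ N ψ x, true) else (q ⟨x, h⟩, false)
  have hp1 : ∀ x C, p x = (C, true) ↔ typ N ψ x = C ∧ Am x := by
    intro x C
    by_cases h : Am x
    · simp only [p, dif_pos h, Prod.mk.injEq, and_true, h]
    · simp only [p, dif_neg h, Prod.mk.injEq, h]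
      simp
  have hp2 : ∀ x C, p x = (C, false) ↔ ∃ h : ¬ Am x, q ⟨x, h⟩ = C := by
    intro x C
    by_cases h : Am x
    · simp only [p, dif_pos h, Prod.mk.injEq]
      simp [h]
    · simp only [p, dif_neg h, Prod.mk.injEq, and_true]
      exact ⟨fun h' => ⟨h, h'⟩, fun ⟨_, h'⟩ => h'⟩
  -- actions on the fibres
  let e1 : ∀ C, {y // y ∈ A C} ≃ {x // p x = (C, true)} := fun C =>
    { toFun := fun y => ⟨y.1.1, (hp1 _ _).mpr ⟨y.1.2, (hAm C y.1.1 y.1.2).mpr y.2⟩⟩
      invFun := fun x => ⟨⟨x.1, ((hp1 _ _).mp x.2).1⟩,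
        (hAm C x.1 ((hp1 _ _).mp x.2).1).mp ((hp1 _ _).mp x.2).2⟩
      left_inv := fun y => rfl
      right_inv := fun x => rfl }
  have hcard2 : ∀ C, Fintype.card {x // p x = (C, false)} = t C - (A C).card := by
    intro C
    rw [← hq C]
    refine Fintype.card_congr ?_
    exact
      { toFun := fun x => ⟨⟨x.1, ((hp2 _ _).mp x.2).choose⟩, ((hp2 _ _).mp x.2).choose_spec⟩
        invFun := fun z => ⟨z.1.1, (hp2 _ _).mpr ⟨z.1.2, z.2⟩⟩
        left_inv := fun x => rfl
        right_inv := fun z => rfl }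
  have hact2 : ∀ C, ∃ α : G →* Perm {x // p x = (C, false)}, ∀ x, typ N α x = C := by
    intro C
    apply exists_of_mem_Siz
    rw [hcard2 C]
    exact hASiz C
  choose α hα using hact2
  let a : ∀ i : Set (Subgroup N) × Bool, G →* Perm {x // p x = i} := fun i =>
    match i with
    | (C, true) => transp (e1 C) (θ C)
    | (C, false) => α C
  have htyp : ∀ x, typ N (glue p a) x = (p x).1 := by
    intro x
    rw [typ_glue N p a x (p x) rfl]
    obtain ⟨⟨C, b⟩, hCb⟩ : ∃ i, i = p x := ⟨_, rfl⟩
    have : ∀ i (h : p x = i), typ N (a i) ⟨x, h⟩ = i.1 := by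
      rintro ⟨C, b⟩ h
      cases b with
      | true =>
        show typ N (transp (e1 C) (θ C)) _ = C
        rw [typ_transp]
        exact hpure C _
      | false => exact hα C _
    exact this (p x) rfl
  refine ⟨glue p a, ?_, ?_⟩
  · funext C
    unfold sP
    have h1 : (Finset.univ.filter (fun x : Fin k => typ N (glue p a) x = C)) =
        (Finset.univ.filter (fun x : Fin k => p x = (C, true))) ∪
        (Finset.univ.filter (fun x : Fin k => p x = (C, false))) := by
      ext x
      simp only [Finset.mem_filter, Finset.mem_univ, true_and, Finset.mem_union]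
      rw [htyp]
      constructor
      · intro h
        rcases hb : (p x).2 with _ | _
        · right; exact Prod.ext h hb
        · left; exact Prod.ext h hb
      · rintro (h | h) <;> rw [h]
    rw [h1, Finset.card_union_of_disjoint]
    · rw [← Fintype.card_subtype, ← Fintype.card_subtype, hcard2 C,
        ← Fintype.card_congr (e1 C), Fintype.card_coe]
      have := hAle C
      omega
    · rw [Finset.disjoint_filter]
      intro x _ h2 h3
      rw [h2] at h3
      simp at h3
  · intro g hg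
    show ((Finset.univ.filter (fun x => (glue p a g) x ≠ (ψ g) x)).card : ℝ) /
      (Fintype.card (Fin k) : ℝ) ≤ ε
    rw [Fintype.card_fin]
    have hsub : (Finset.univ.filter (fun x => (glue p a g) x ≠ (ψ g) x)) ⊆
        Finset.univ.biUnion (fun C => (Finset.univ.filter (fun y : {x // typ N ψ x = C} =>
        ¬ ∃ h : y ∈ A C, (θ C g ⟨y, h⟩).1.1 = ψ g y.1)).map
          ⟨Subtype.val, Subtype.val_injective⟩) := by
      intro x hx
      have hx' := (Finset.mem_filter.mp hx).2
      rw [Finset.mem_biUnion]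
      refine ⟨typ N ψ x, Finset.mem_univ _, ?_⟩
      rw [Finset.mem_map]
      refine ⟨⟨x, rfl⟩, ?_, rfl⟩
      rw [Finset.mem_filter]
      refine ⟨Finset.mem_univ _, ?_⟩
      rintro ⟨h, heq⟩
      apply hx'
      have hpx : p x = (typ N ψ x, true) := (hp1 x _).mpr ⟨rfl, h⟩
      rw [glue_apply p a g x _ hpx]
      show (transp (e1 (typ N ψ x)) (θ (typ N ψ x)) g ((e1 (typ N ψ x)) ⟨⟨x, rfl⟩, h⟩)).1 = _
      rw [transp_apply]
      exact heq
    have hle : ((Finset.univ.filter (fun x => (glue p a g) x ≠ (ψ g) x)).card : ℝ) ≤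
        ∑ C, (ε / 4 * (sP N k ψ C : ℝ) + ϑ * k) := by
      have h1 := (Finset.card_le_card hsub).trans Finset.card_biUnion_le
      refine le_trans (Nat.cast_le.mpr h1) ?_
      push_cast
      refine Finset.sum_le_sum fun C _ => ?_
      rw [Finset.card_map]
      exact hbad C g hg
    have hsumS : ∑ C, (sP N k ψ C : ℝ) = k := by
      have h1 : ∑ C, sP N k ψ C = k := by
        unfold sP
        rw [← Finset.card_eq_sum_card_fiberwise (f := fun x => typ N ψ x) (t := Finset.univ)
          (fun x _ => Finset.mem_coe.mpr (Finset.mem_univ _))]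
        simp
      exact_mod_cast h1
    rw [Finset.sum_add_distrib, ← Finset.mul_sum, hsumS, Finset.sum_const, Finset.card_univ,
      nsmul_eq_mul] at hle
    have hϑ' : (Fintype.card (Set (Subgroup N)) : ℝ) * (ϑ * k) = ε / 4 * k := by
      rw [hϑ, ← hTn]
      field_simp
    rw [hϑ'] at hle
    rcases Nat.eq_zero_or_pos k with h0 | hpos
    · subst h0; simp; exact hε.le
    · have hpos' : (0 : ℝ) < k := by exact_mod_cast hpos
      rw [div_le_iff₀ hpos']
      nlinarith

end Pool.Agent.H698R3.Amalg
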