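import Pool.Agent.H698R3.AmPerm4

set_option autoImplicit false

/-! Finite `H`-sets: the data `HData` for the class of symmetric groups. -/

namespace Pool.Agent.H698R3.Amalg

open Equiv

section

variable {H : Type} [Group H]

/-- stabiliser of a point -/
def stH {X : Type} (π : H →* Perm X) (x : X) : Subgroup H where
  carrier := {h | π h x = x}
  mul_mem' := by
    intro a b ha hb
    show π (a * b) x = x
    rw [map_mul, Perm.mul_apply, show π b x = x from hb, show π a x = x from ha]
  one_mem' := by
    show π 1 x = x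
    rw [map_one]; rfl
  inv_mem' := by
    intro a ha
    show π (a⁻¹) x = x
    rw [map_inv, Perm.inv_eq_iff_eq]
    exact (show π a x = x from ha).symm

theorem mem_stH {X : Type} (π : H →* Perm X) (x : X) (h : H) : h ∈ stH π x ↔ π h x = x := Iff.rfl

/-- partial isomorphisms -/
structure PIso {X : Type} (π π' : H →* Perm X) (A : Set X) (e : X → X) : Prop where
  inv : ∀ h x, x ∈ A → π' h x ∈ A
  equiv : ∀ h x, x ∈ A → e (π' h x) = π h (e x)
  inj : Set.InjOn e A

theorem PIso.stH_eq {X : Type} {π π' : H →* Perm X} {A : Set X} {e : X → X}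
    (hp : PIso π π' A e) (x : X) (hx : x ∈ A) : stH π (e x) = stH π' x := by
  ext h
  rw [mem_stH, mem_stH, ← hp.equiv h x hx]
  constructor
  · intro h1
    exact hp.inj (hp.inv h x hx) hx h1
  · intro h1
    rw [h1]

open Classical in
theorem PIso.extend {X : Type} [Fintype X] {π π' : H →* Perm X} {A : Set X} {e : X → X}
    (hp : PIso π π' A e)
    (hcount : ∀ K : Subgroup H, (Finset.univ.filter (fun x => stH π x = K)).card =
      (Finset.univ.filter (fun x => stH π' x = K)).card)
    (x : X) (hx : x ∉ A) :
    ∃ (A' : Set X) (e' : X → X), PIso π π' A' e' ∧ A ⊆ A' ∧ x ∈ A' ∧ ∀ z ∈ A, e' z = e z := by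
  -- a partner of `x`
  obtain ⟨y, hyK, hyA⟩ : ∃ y, stH π y = stH π' x ∧ y ∉ e '' A := by
    by_contra hcon
    push Not at hcon
    have h1 : (Finset.univ.filter (fun y => stH π y = stH π' x)).card ≤
        (Finset.univ.filter (fun z => stH π' z = stH π' x ∧ z ∈ A)).card := by
      refine Finset.card_le_card_of_surjOn e ?_
      intro y hy
      rw [Finset.mem_coe, Finset.mem_filter] at hy
      obtain ⟨z, hzA, rfl⟩ := hcon y hy.2
      refine ⟨z, ?_, rfl⟩
      rw [Finset.mem_coe, Finset.mem_filter]
      exact ⟨Finset.mem_univ _, by rw [← hp.stH_eq z hzA]; exact hy.2, hzA⟩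
    have h2 : (Finset.univ.filter (fun z => stH π' z = stH π' x ∧ z ∈ A)).card <
        (Finset.univ.filter (fun z => stH π' z = stH π' x)).card := by
      apply Finset.card_lt_card
      refine ⟨fun z hz => ?_, fun hsub => ?_⟩
      · rw [Finset.mem_filter] at hz ⊢
        exact ⟨hz.1, hz.2.1⟩
      · have := hsub (Finset.mem_filter.mpr ⟨Finset.mem_univ x, rfl⟩)
        exact hx (Finset.mem_filter.mp this).2.2
    rw [hcount] at h1
    omega
  have hiff : ∀ h h' : H, π' h x = π' h' x ↔ π h y = π h' y := by
    intro h h'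
    have e1 : π' h x = π' h' x ↔ h'⁻¹ * h ∈ stH π' x := by
      rw [mem_stH, map_mul, map_inv, Perm.mul_apply, Perm.inv_eq_iff_eq]
    have e2 : π h y = π h' y ↔ h'⁻¹ * h ∈ stH π y := by
      rw [mem_stH, map_mul, map_inv, Perm.mul_apply, Perm.inv_eq_iff_eq]
    rw [e1, e2, hyK]
  let O : Set X := {z | ∃ h, π' h x = z}
  have hAO : ∀ z ∈ A, z ∉ O := by
    rintro z hz ⟨h, rfl⟩
    apply hx
    have := hp.inv h⁻¹ _ hz
    rwa [← Perm.mul_apply, ← map_mul, inv_mul_cancel, map_one, Perm.one_apply] at this
  let e' : X → X := fun z => if hz : ∃ h, π' h x = z then π hz.choose y else e z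
  have he'A : ∀ z ∈ A, e' z = e z := fun z hz => dif_neg (hAO z hz)
  have he'O : ∀ h, e' (π' h x) = π h y := by
    intro h
    have hz : ∃ h', π' h' x = π' h x := ⟨h, rfl⟩
    show (if hz : ∃ h', π' h' x = π' h x then π hz.choose y else e (π' h x)) = π h y
    rw [dif_pos hz]
    exact (hiff _ _).mp hz.choose_spec
  have hdis : ∀ z ∈ A, ∀ h, e z ≠ π h y := by
    intro z hz h heq
    apply hyA
    refine ⟨π' h⁻¹ z, hp.inv _ _ hz, ?_⟩
    rw [hp.equiv _ _ hz, heq, ← Perm.mul_apply, ← map_mul, inv_mul_cancel, map_one, Perm.one_apply]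
  refine ⟨A ∪ O, e', ⟨?_, ?_, ?_⟩, Set.subset_union_left,
    Set.mem_union_right _ ⟨1, by rw [map_one]; rfl⟩, he'A⟩
  · rintro h z (hz | ⟨h', rfl⟩)
    · exact Set.mem_union_left _ (hp.inv h z hz)
    · refine Set.mem_union_right _ ⟨h * h', ?_⟩
      rw [map_mul, Perm.mul_apply]
  · rintro h z (hz | ⟨h', rfl⟩)
    · rw [he'A z hz, he'A _ (hp.inv h z hz), hp.equiv h z hz]
    · rw [← Perm.mul_apply, ← map_mul, he'O, he'O, map_mul, Perm.mul_apply]
  · rintro z (hz | ⟨h, rfl⟩) z' (hz' | ⟨h', rfl⟩) heq
    · rw [he'A z hz, he'A z' hz'] at heq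
      exact hp.inj hz hz' heq
    · rw [he'A z hz, he'O] at heq
      exact absurd heq (hdis z hz h')
    · rw [he'A z' hz', he'O] at heq
      exact absurd heq.symm (hdis z' hz' h)
    · rw [he'O, he'O] at heq
      exact (hiff _ _).mpr heq

open Classical in
/-- Two actions of `H` on a finite set with the same numbers of points with a given stabiliser
are conjugate, by a permutation that fixes all points where the two actions agree. -/
theorem exists_conj {X : Type} [Fintype X] (π π' : H →* Perm X)
    (hcount : ∀ K : Subgroup H, (Finset.univ.filter (fun x => stH π x = K)).card =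
      (Finset.univ.filter (fun x => stH π' x = K)).card) :
    ∃ u : Perm X, (∀ h, u * π' h * u⁻¹ = π h) ∧ ∀ x, (∀ h, π h x = π' h x) → u x = x := by
  let Y : Set X := {x | ∀ h, π h x = π' h x}
  have hY : PIso π π' Y id := by
    refine ⟨fun h x hx => ?_, fun h x hx => (hx h).symm, Function.injective_id.injOn⟩
    intro g
    have h1 : π h x = π' h x := hx h
    rw [← h1, ← Perm.mul_apply, ← map_mul, hx (g * h), h1, ← Perm.mul_apply, ← map_mul]
  have key : ∀ n : ℕ, ∀ (A : Set X) (e : X → X), PIso π π' A e → Y ⊆ A → (∀ z ∈ Y, e z = z) →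
      (Finset.univ.filter (fun x => x ∉ A)).card = n →
      ∃ e' : X → X, PIso π π' Set.univ e' ∧ ∀ z ∈ Y, e' z = z := by
    intro n
    induction n using Nat.strong_induction_on with
    | _ n ih =>
      intro A e hp hYA hYe hn
      by_cases hA : ∀ x, x ∈ A
      · have : A = Set.univ := Set.eq_univ_of_forall hA
        subst this
        exact ⟨e, hp, hYe⟩
      · push Not at hA
        obtain ⟨x, hx⟩ := hA
        obtain ⟨A', e', hp', hAA', hxA', he'⟩ := hp.extend hcount x hx
        refine ih _ ?_ A' e' hp' (hYA.trans hAA')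
          (fun z hz => (he' z (hYA hz)).trans (hYe z hz)) rfl
        rw [← hn]
        apply Finset.card_lt_card
        refine ⟨fun z hz => ?_, fun hsub => ?_⟩
        · rw [Finset.mem_filter] at hz ⊢
          exact ⟨hz.1, fun h => hz.2 (hAA' h)⟩
        · have := hsub (Finset.mem_filter.mpr ⟨Finset.mem_univ x, hx⟩)
          exact (Finset.mem_filter.mp this).2 hxA'
  obtain ⟨e, hp, he⟩ := key _ Y id hY subset_rfl (fun _ _ => rfl) rfl
  have hinj : Function.Injective e := Set.injOn_univ.mp hp.inj
  have hbij : Function.Bijective e := Finite.injective_iff_bijective.mp hinj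
  refine ⟨Equiv.ofBijective e hbij, fun h => ?_, fun x hx => he x hx⟩
  rw [mul_inv_eq_iff_eq_mul]
  ext x
  exact hp.equiv h x (Set.mem_univ _)

variable [Fintype H]

open Classical in
theorem card_disagree (k : ℕ) (δ : ℝ) (π π' : H →* Perm (Fin k))
    (h : ∀ h, Stab.hammingDist (π h) (π' h) ≤ δ) :
    ((Finset.univ.filter (fun x : Fin k => ¬ ∀ h, π h x = π' h x)).card : ℝ) ≤
      (Fintype.card H : ℝ) * δ * k := by
  rcases Nat.eq_zero_or_pos k with h0 | hk
  · subst h0; simp
  have hk' : (0 : ℝ) < k := by exact_mod_cast hk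
  have hsub : (Finset.univ.filter (fun x : Fin k => ¬ ∀ h, π h x = π' h x)) ⊆
      Finset.univ.biUnion (fun h => Finset.univ.filter (fun x => π h x ≠ π' h x)) := by
    intro x hx
    have hx' := (Finset.mem_filter.mp hx).2
    push Not at hx'
    obtain ⟨h, hh⟩ := hx'
    exact Finset.mem_biUnion.mpr ⟨h, Finset.mem_univ _, Finset.mem_filter.mpr ⟨Finset.mem_univ _, hh⟩⟩
  have h1 := (Finset.card_le_card hsub).trans Finset.card_biUnion_le
  refine (Nat.cast_le.mpr h1).trans ?_
  push_cast
  have h2 : ∀ g ∈ (Finset.univ : Finset H),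
      ((Finset.univ.filter (fun x => π g x ≠ π' g x)).card : ℝ) ≤ δ * k := by
    intro g _
    have h3 : ((Finset.univ.filter (fun x => π g x ≠ π' g x)).card : ℝ) /
      (Fintype.card (Fin k) : ℝ) ≤ δ := h g
    rw [Fintype.card_fin, div_le_iff₀ hk'] at h3
    exact h3
  refine (Finset.sum_le_sum h2).trans ?_
  rw [Finset.sum_const, Finset.card_univ, nsmul_eq_mul, mul_assoc]

variable (H)

noncomputable instance : Fintype (Subgroup H) := Fintype.ofFinite _

open Classical in
/-- The data for the class of symmetric groups. -/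
noncomputable def HP : HData permCls H where
  E := Subgroup H
  finE := inferInstance
  hv k π K := ((Finset.univ.filter (fun x : Fin k => stH (X := Fin k) π x = K)).card : ℝ)
  close := by
    intro ε hε
    have hH : (0 : ℝ) < Fintype.card H := by exact_mod_cast Fintype.card_pos
    refine ⟨ε / Fintype.card H, by positivity, ?_⟩
    intro k π π' h K
    have h1 := card_disagree k _ (π : H →* Perm (Fin k)) π' h
    rw [mul_div_cancel₀ _ hH.ne'] at h1
    have key : ∀ π π' : H →* Perm (Fin k),
        ((Finset.univ.filter (fun x : Fin k => ¬ ∀ h, π h x = π' h x)).card : ℝ) ≤ ε * k →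
        ((Finset.univ.filter (fun x : Fin k => stH π x = K)).card : ℝ) -
          ((Finset.univ.filter (fun x : Fin k => stH π' x = K)).card : ℝ) ≤ ε * k := by
      intro π π' h1
      have hsub : (Finset.univ.filter (fun x : Fin k => stH π x = K)) ⊆
          (Finset.univ.filter (fun x : Fin k => stH π' x = K)) ∪
          (Finset.univ.filter (fun x : Fin k => ¬ ∀ h, π h x = π' h x)) := by
        intro x hx
        rw [Finset.mem_filter] at hx
        rw [Finset.mem_union, Finset.mem_filter, Finset.mem_filter]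
        by_cases hx2 : ∀ h, π h x = π' h x
        · left
          refine ⟨Finset.mem_univ _, ?_⟩
          rw [← hx.2]
          ext h
          rw [mem_stH, mem_stH, hx2]
        · right
          exact ⟨Finset.mem_univ _, hx2⟩
      have h2 := (Finset.card_le_card hsub).trans (Finset.card_union_le _ _)
      have h3 : ((Finset.univ.filter (fun x : Fin k => stH π x = K)).card : ℝ) ≤
          ((Finset.univ.filter (fun x : Fin k => stH π' x = K)).card : ℝ) +
          ((Finset.univ.filter (fun x : Fin k => ¬ ∀ h, π h x = π' h x)).card : ℝ) := by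
        exact_mod_cast h2
      linarith
    rw [abs_le]
    constructor
    · have h2 := key π' π (by
        refine le_trans (le_of_eq ?_) h1
        congr 2
        ext x
        simp only [eq_comm])
      linarith
    · exact key π π' h1
  c := 1
  hc := one_pos
  disc := by
    intro k π π' h
    funext K
    have h1 := h K
    have h2 : |((((Finset.univ.filter (fun x : Fin k => stH (X := Fin k) π x = K)).card : ℕ) : ℤ) -
      (((Finset.univ.filter (fun x : Fin k => stH (X := Fin k) π' x = K)).card : ℕ) : ℤ) : ℤ)| < 1 := by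
      exact_mod_cast h1
    have h3 := Int.abs_lt_one_iff.mp h2
    have h4 : (Finset.univ.filter (fun x : Fin k => stH (X := Fin k) π x = K)).card =
      (Finset.univ.filter (fun x : Fin k => stH (X := Fin k) π' x = K)).card := by omega
    exact_mod_cast h4
  mtch := by
    intro ε hε
    have hH : (0 : ℝ) < Fintype.card H := by exact_mod_cast Fintype.card_pos
    refine ⟨ε / Fintype.card H, by positivity, ?_⟩
    intro k π π' hv h
    have h1 := card_disagree k _ (π : H →* Perm (Fin k)) π' h
    rw [mul_div_cancel₀ _ hH.ne'] at h1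
    obtain ⟨u, hu1, hu2⟩ := exists_conj (π : H →* Perm (Fin k)) π' (fun K => by
      have := congrFun hv K
      exact_mod_cast this)
    refine ⟨u, ?_, hu1⟩
    show ((Finset.univ.filter (fun x => u x ≠ (1 : Perm (Fin k)) x)).card : ℝ) /
      (Fintype.card (Fin k) : ℝ) ≤ ε
    rw [Fintype.card_fin]
    rcases Nat.eq_zero_or_pos k with h0 | hk
    · subst h0; simp; exact hε.le
    have hk' : (0 : ℝ) < k := by exact_mod_cast hk
    rw [div_le_iff₀ hk']
    refine le_trans (Nat.cast_le.mpr (Finset.card_le_card ?_)) h1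
    intro x hx
    rw [Finset.mem_filter] at hx ⊢
    exact ⟨Finset.mem_univ _, fun h' => hx.2 (hu2 x h')⟩

end

end Pool.Agent.H698R3.Amalg
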