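import Pool.Agent.H698R3.AmPerm5

set_option autoImplicit false

/-! The data `GData` for the class of symmetric groups. -/

namespace Pool.Agent.H698R3.Amalg

open Equiv

section

variable {H G : Type} [Group H] [Fintype H] [Group G] (f : H →* G) (N : Subgroup G)

/-- the map into `N` -/
def fN (hf : ∀ h, f h ∈ N) : H →* N := f.codRestrict N hf

theorem stH_comp (hf : ∀ h, f h ∈ N) {X : Type} (ψ : G →* Perm X) (x : X) :
    stH (ψ.comp f) x = (st N ψ x).comap (fN f N hf) := by
  ext h
  rfl

variable [N.Normal] [Finite N]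

open Classical in
/-- proportion of the stabilisers -/
noncomputable def rhoP (hf : ∀ h, f h ∈ N) (C : Set (Subgroup N)) (K : Subgroup H) : ℝ :=
  ({L | L ∈ C ∧ L.comap (fN f N hf) = K}.ncard : ℝ) / C.ncard

open Classical in
theorem hv_eqP (hf : ∀ h, f h ∈ N) (k : ℕ) (ψ : G →* Perm (Fin k)) (K : Subgroup H) :
    ((Finset.univ.filter (fun x : Fin k => stH (ψ.comp f) x = K)).card : ℝ) =
      ∑ C, (sP N k ψ C : ℝ) * rhoP f N hf C K := by
  have h1 : (Finset.univ.filter (fun x : Fin k => stH (ψ.comp f) x = K)).card =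
      ∑ C, (Finset.univ.filter (fun x : Fin k => typ N ψ x = C ∧
        (st N ψ x).comap (fN f N hf) = K)).card := by
    rw [Finset.card_eq_sum_card_fiberwise (f := fun x => typ N ψ x) (t := Finset.univ)
      (fun x _ => Finset.mem_coe.mpr (Finset.mem_univ _))]
    refine Finset.sum_congr rfl fun C _ => ?_
    congr 1
    ext x
    simp only [Finset.mem_filter, Finset.mem_univ, true_and]
    rw [stH_comp f N hf]
    tauto
  rw [h1]
  push_cast
  refine Finset.sum_congr rfl fun C _ => ?_
  have h2 := card_typ N ψ C (fun L => L.comap (fN f N hf) = K)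
  have h3 : (((Finset.univ.filter (fun x : Fin k => typ N ψ x = C ∧
        (st N ψ x).comap (fN f N hf) = K)).card : ℕ) : ℝ) * (C.ncard : ℝ) =
      ({L | L ∈ C ∧ L.comap (fN f N hf) = K}.ncard : ℝ) * (sP N k ψ C : ℝ) := by
    exact_mod_cast h2
  by_cases hC : C.ncard = 0
  · -- an empty type
    have hCe : C = ∅ := (Set.ncard_eq_zero (Set.toFinite C)).mp hC
    have e1 : (Finset.univ.filter (fun x : Fin k => typ N ψ x = C ∧
        (st N ψ x).comap (fN f N hf) = K)) = ∅ := by
      apply Finset.filter_false_of_mem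
      rintro x _ ⟨h, -⟩
      have := st_mem_typ N ψ x
      rw [h, hCe] at this
      exact this
    rw [e1]
    unfold rhoP
    rw [hC]
    simp
  · have hC' : (C.ncard : ℝ) ≠ 0 := by exact_mod_cast hC
    unfold rhoP
    rw [← mul_div_assoc, eq_div_iff hC', h3]
    ring

/-- the type of the trivial action on one point -/
theorem typ_trivial {X : Type} (x : X) :
    typ N (1 : G →* Perm X) x = {⊤} := by
  have h : ∀ y : X, st N (1 : G →* Perm X) y = ⊤ := by
    intro y
    rw [eq_top_iff]
    intro n _
    rfl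
  ext K
  constructor
  · rintro ⟨g, rfl⟩
    exact h _
  · rintro rfl
    exact ⟨1, h _⟩

open Classical in
theorem sumP (k : ℕ) (ψ : G →* Perm (Fin k)) : ∑ C, sP N k ψ C = k := by
  unfold sP
  rw [← Finset.card_eq_sum_card_fiberwise (f := fun x => typ N ψ x) (t := Finset.univ)
    (fun x _ => Finset.mem_coe.mpr (Finset.mem_univ _))]
  simp

open Classical in
theorem sP_triv (C : Set (Subgroup N)) :
    sP N 1 (1 : G →* Perm (Fin 1)) C = if C = {⊤} then 1 else 0 := by
  unfold sP
  by_cases h : C = {⊤}
  · rw [if_pos h, Finset.filter_true_of_mem]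
    · simp
    · intro x _
      rw [typ_trivial, h]
  · rw [if_neg h, Finset.filter_false_of_mem]
    · simp
    · intro x _ h'
      rw [typ_trivial] at h'
      exact h h'.symm

open Classical in
theorem realP (k : ℕ) (p : Set (Subgroup N) → ℕ) (hp : ∀ C, p C ∈ Siz N C) (hs : ∑ C, p C = k) :
    ∃ ψ : G →* Perm (Fin k), sP N k ψ = p := by
  obtain ⟨q, hq⟩ := exists_label (X := Fin k) p (by rw [hs, Fintype.card_fin])
  have hact : ∀ C, ∃ α : G →* Perm {x // q x = C}, ∀ x, typ N α x = C := by
    intro C
    apply exists_of_mem_Siz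
    have := hp C
    rw [← hq C] at this
    convert this
  choose α hα using hact
  refine ⟨glue q α, ?_⟩
  funext C
  unfold sP
  rw [← hq C, Fintype.card_subtype]
  congr 1
  ext x
  simp only [Finset.mem_filter, Finset.mem_univ, true_and]
  rw [typ_glue N q α x (q x) rfl, hα]

open Classical in
/-- The data for the class of symmetric groups. -/
noncomputable def GP (hst : permCls.Stable G) (hf : ∀ h, f h ∈ N) : GData permCls f (HP H) where
  T := Set (Subgroup N)
  finT := inferInstance
  decT := inferInstance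
  s k ψ C := sP N k ψ C
  Siz := Siz N
  mem := by
    intro k ψ C
    have h := mem_Siz_of N (restr (X := Fin k) ψ (typ N ψ) (fun g x => typ_inv N ψ x g) C)
      (fun y => by rw [typ_restr]; exact y.2)
    rw [Fintype.card_subtype] at h
    exact h
  sum := fun k ψ => sumP N k ψ
  triv := {⊤}
  triv_mem := ⟨1, fun x => typ_trivial N x⟩
  ρ C K := rhoP f N hf C K
  triv_rho := by
    intro K
    have h := hv_eqP f N hf 1 (1 : G →* Perm (Fin 1)) K
    have h1 : ∀ C : Set (Subgroup N), ((sP N 1 (1 : G →* Perm (Fin 1)) C : ℕ) : ℝ) * rhoP f N hf C K =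
        if C = {⊤} then rhoP f N hf {⊤} K else 0 := by
      intro C
      rw [sP_triv]
      by_cases hC : C = {⊤}
      · subst hC; simp
      · simp [hC]
    simp only [h1] at h
    rw [Finset.sum_ite_eq' Finset.univ ({⊤} : Set (Subgroup N)) (fun _ => rhoP f N hf {⊤} K),
      if_pos (Finset.mem_univ _)] at h
    exact h.symm
  hv_eq := by
    intro k ψ K
    exact hv_eqP f N hf k ψ K
  real := fun k p hp hs => realP N k p hp hs
  adjust := by
    intro F ε hε
    obtain ⟨η, hη, L0, h⟩ := adjustP N hst F ε hε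
    exact ⟨η, hη, L0, fun k hk ψ t h1 h2 h3 => h k hk ψ t h1 h2 h3⟩

end

end Pool.Agent.H698R3.Amalg
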