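import Mathlib

set_option autoImplicit false

/-! Dietzmann's lemma. -/

namespace Pool.Agent.H698R3.Amalg

open scoped commutatorElement

variable {G : Type} [Group G]

theorem finite_closure_of_conj (S : Set G) (hS : S.Finite)
    (hconj : ∀ g, ∀ s ∈ S, g * s * g⁻¹ ∈ S) (htor : ∀ s ∈ S, IsOfFinOrder s) :
    Finite (Subgroup.closure S) := by
  classical
  set N := Subgroup.closure S with hN
  have hSf : Finite S := hS
  -- conjugation
  let c : N → (S → S) := fun n s => ⟨(n : G) * s * (n : G)⁻¹, hconj n s s.2⟩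
  have hc : ∀ n m : N, c n = c m → m⁻¹ * n ∈ Subgroup.center N := by
    intro n m h
    have h1 : ∀ s ∈ S, ((m⁻¹ * n : N) : G) * s = s * ((m⁻¹ * n : N) : G) := by
      intro s hs
      have h2 : (n : G) * s * (n : G)⁻¹ = (m : G) * s * (m : G)⁻¹ :=
        congrArg Subtype.val (congrFun h ⟨s, hs⟩)
      have h3 : (n : G) * s = (m : G) * s * (m : G)⁻¹ * n := by
        rw [← h2]; group
      rw [Subgroup.coe_mul, Subgroup.coe_inv, mul_assoc, h3]
      group
    rw [Subgroup.mem_center_iff]
    intro x
    apply Subtype.ext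
    rw [Subgroup.coe_mul, Subgroup.coe_mul]
    have h4 : ∀ y ∈ Subgroup.closure S, y * ((m⁻¹ * n : N) : G) = ((m⁻¹ * n : N) : G) * y := by
      intro y hy
      have h5 : Subgroup.closure S ≤ Subgroup.centralizer {((m⁻¹ * n : N) : G)} := by
        rw [Subgroup.closure_le]
        intro s hs
        rw [SetLike.mem_coe, Subgroup.mem_centralizer_iff]
        intro z hz
        rw [Set.mem_singleton_iff] at hz
        subst hz
        exact h1 s hs
      have h6 := h5 hy
      rw [Subgroup.mem_centralizer_iff] at h6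
      exact (h6 _ rfl).symm
    exact h4 x x.2
  have hfq : Finite (N ⧸ Subgroup.center N) := by
    refine Finite.of_injective (fun q : N ⧸ Subgroup.center N => c q.out) ?_
    intro q q' h
    have h1 := hc q.out q'.out h
    rw [← QuotientGroup.out_eq' q, ← QuotientGroup.out_eq' q']
    exact (QuotientGroup.eq.mpr h1).symm
  have hcs : Finite (commutatorSet N) := by
    have hsub : commutatorSet N ⊆ Set.range
        (fun p : (N ⧸ Subgroup.center N) × (N ⧸ Subgroup.center N) => ⁅p.1.out, p.2.out⁆) := by
      rintro _ ⟨a, b, rfl⟩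
      refine ⟨(QuotientGroup.mk a, QuotientGroup.mk b), ?_⟩
      have key : ∀ a : N, ∃ z ∈ Subgroup.center N, a = (QuotientGroup.mk a : N ⧸ Subgroup.center N).out * z := by
        intro a
        refine ⟨((QuotientGroup.mk a : N ⧸ Subgroup.center N).out)⁻¹ * a, ?_, by group⟩
        rw [← QuotientGroup.eq, QuotientGroup.out_eq']
      obtain ⟨z, hz, haz⟩ := key a
      obtain ⟨w, hw, hbw⟩ := key b
      show ⁅(QuotientGroup.mk a : N ⧸ Subgroup.center N).out,
        (QuotientGroup.mk b : N ⧸ Subgroup.center N).out⁆ = ⁅a, b⁆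
      generalize (QuotientGroup.mk a : N ⧸ Subgroup.center N).out = a' at haz ⊢
      generalize (QuotientGroup.mk b : N ⧸ Subgroup.center N).out = b' at hbw ⊢
      subst haz hbw
      rw [Subgroup.mem_center_iff] at hz hw
      rw [commutatorElement_def, commutatorElement_def]
      have e1 : a' * z * (b' * w) * (a' * z)⁻¹ * (b' * w)⁻¹ =
          a' * (z * (b' * w)) * (z⁻¹ * a'⁻¹) * (w⁻¹ * b'⁻¹) := by group
      have e2 : a' * (z * (b' * w)) * (z⁻¹ * a'⁻¹) * (w⁻¹ * b'⁻¹) =
          a' * b' * (w * a'⁻¹) * (w⁻¹ * b'⁻¹) := by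
        rw [← hz (b' * w)]; group
      rw [e1, e2, ← hw a'⁻¹]
      group
    exact (Set.finite_range _).subset hsub
  have hcom : Finite (commutator N) := inferInstance
  have hfg : Group.FG N := by
    rw [Group.fg_iff_subgroup_fg]
    exact (Subgroup.fg_iff _).mpr ⟨S, rfl, hS⟩
  have hab : Finite (Abelianization N) := by
    have hfg' : Group.FG (Abelianization N) :=
      Group.fg_of_surjective (f := Abelianization.of) (QuotientGroup.mk'_surjective _)
    refine CommGroup.finite_of_fg_isMulTorsion (Abelianization N) ?_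
    have htop : ∀ x : N, Abelianization.of x ∈ CommGroup.torsion (Abelianization N) := by
      rintro ⟨x, hx⟩
      induction hx using Subgroup.closure_induction with
      | mem s hs =>
        show IsOfFinOrder _
        have h1 : IsOfFinOrder (⟨s, Subgroup.subset_closure hs⟩ : N) := by
          exact (Submonoid.isOfFinOrder_coe (H := N.toSubmonoid)).mp (htor s hs)
        exact MonoidHom.isOfFinOrder _ h1
      | one => exact one_mem (CommGroup.torsion (Abelianization N))
      | mul x y hx hy ihx ihy => exact mul_mem ihx ihy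
      | inv x hx ihx => exact inv_mem ihx
    intro y
    obtain ⟨x, rfl⟩ := QuotientGroup.mk'_surjective _ y
    exact htop x
  -- conclude
  have hquot : Finite (N ⧸ commutator N) := hab
  exact Finite.of_equiv _ (Subgroup.groupEquivQuotientProdSubgroup (s := commutator N)).symm

/-- A subgroup is almost normal if it has finitely many conjugates. -/
def AlmostNormal (K : Subgroup G) : Prop :=
  (Set.range (fun g : G => K.map (MulAut.conj g).toMonoidHom)).Finite

/-- A finite almost normal subgroup is contained in a finite normal subgroup. -/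
theorem exists_finite_normal (K : Subgroup G) [Finite K] (hK : AlmostNormal K) :
    ∃ N : Subgroup G, N.Normal ∧ Finite N ∧ K ≤ N := by
  let S : Set G := {x | ∃ g : G, x ∈ K.map (MulAut.conj g).toMonoidHom}
  have hKmap : ∀ g : G, ((K.map (MulAut.conj g).toMonoidHom : Subgroup G) : Set G).Finite := by
    intro g
    rw [Subgroup.coe_map]
    exact (Set.toFinite (K : Set G)).image _
  have hSfin : S.Finite := by
    have : S = ⋃ L ∈ Set.range (fun g : G => K.map (MulAut.conj g).toMonoidHom), (L : Set G) := by
      ext x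
      simp only [S, Set.mem_iUnion, Set.mem_range, Set.mem_ofPred_eq, exists_prop]
      constructor
      · rintro ⟨g, hg⟩
        exact ⟨_, ⟨g, rfl⟩, hg⟩
      · rintro ⟨_, ⟨g, rfl⟩, hg⟩
        exact ⟨g, hg⟩
    rw [this]
    refine Set.Finite.biUnion hK ?_
    rintro _ ⟨g, rfl⟩
    exact hKmap g
  have hconj : ∀ g, ∀ s ∈ S, g * s * g⁻¹ ∈ S := by
    rintro g s ⟨a, k, hk, rfl⟩
    refine ⟨g * a, k, hk, ?_⟩
    show g * a * k * (g * a)⁻¹ = g * (a * k * a⁻¹) * g⁻¹
    group
  have htor : ∀ s ∈ S, IsOfFinOrder s := by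
    rintro s ⟨a, k, hk, rfl⟩
    have h1 : IsOfFinOrder (⟨k, hk⟩ : K) := isOfFinOrder_of_finite _
    have h2 : IsOfFinOrder k :=
      (Submonoid.isOfFinOrder_coe (H := K.toSubmonoid) (x := ⟨k, hk⟩)).mpr h1
    exact MonoidHom.isOfFinOrder _ h2
  refine ⟨Subgroup.closure S, ⟨?_⟩, finite_closure_of_conj S hSfin hconj htor, ?_⟩
  · intro n hn g
    induction hn using Subgroup.closure_induction with
    | mem s hs => exact Subgroup.subset_closure (hconj g s hs)
    | one => simp
    | mul x y hx hy ihx ihy =>
      have : g * (x * y) * g⁻¹ = (g * x * g⁻¹) * (g * y * g⁻¹) := by group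
      rw [this]
      exact mul_mem ihx ihy
    | inv x hx ihx =>
      have : g * x⁻¹ * g⁻¹ = (g * x * g⁻¹)⁻¹ := by group
      rw [this]
      exact inv_mem ihx
  · intro x hx
    refine Subgroup.subset_closure ⟨1, x, hx, ?_⟩
    simp

end Pool.Agent.H698R3.Amalg
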