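import Pool.Agent.H698R3.AmPerm6
import Pool.Agent.H698R3.Dietz

set_option autoImplicit false

namespace Pool.Agent.H698R3.Amalg

open Filter Topology

/-- `G` is stable with respect to the class of finite symmetric groups with the normalised
Hamming distance. -/
def PermutationStable (G : Type) [Group G] : Prop :=
  ∀ (X : ℕ → Type) [∀ n, Fintype (X n)] [∀ n, DecidableEq (X n)] (φ : ∀ n, G → Equiv.Perm (X n)),
    (∀ a b : G, Tendsto (fun n => Stab.hammingDist (φ n a * φ n b) (φ n (a * b))) atTop (𝓝 0)) →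
    ∃ ψ : ∀ n, G →* Equiv.Perm (X n),
      ∀ a : G, Tendsto (fun n => Stab.hammingDist (φ n a) (ψ n a)) atTop (𝓝 0)

theorem permStable_iff (G : Type) [Group G] : PermutationStable G ↔ permCls.Stable G := by
  constructor
  · intro h k φ hφ
    exact h (fun n => Fin (k n)) φ hφ
  · intro h X _ _ φ hφ
    exact stable_types h X φ hφ

theorem permStable_amalg {G₁ G₂ H : Type} [Group G₁] [Group G₂] [Group H] [Countable G₁]
    [Countable G₂] [Finite H] (f₁ : H →* G₁) (f₂ : H →* G₂)
    (hn₁ : AlmostNormal f₁.range) (hn₂ : AlmostNormal f₂.range)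
    (hs₁ : PermutationStable G₁) (hs₂ : PermutationStable G₂) :
    PermutationStable (AmalgProd f₁ f₂) := by
  rw [permStable_iff] at hs₁ hs₂ ⊢
  have := Fintype.ofFinite H
  have hr₁ : Finite f₁.range := Finite.of_surjective f₁.rangeRestrict f₁.rangeRestrict_surjective
  have hr₂ : Finite f₂.range := Finite.of_surjective f₂.rangeRestrict f₂.rangeRestrict_surjective
  obtain ⟨N₁, _, _, hN₁⟩ := exists_finite_normal f₁.range hn₁
  obtain ⟨N₂, _, _, hN₂⟩ := exists_finite_normal f₂.range hn₂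
  exact stable_amalg permCls_metric (HP H)
    (GP f₁ N₁ hs₁ (fun h => hN₁ ⟨h, rfl⟩)) (GP f₂ N₂ hs₂ (fun h => hN₂ ⟨h, rfl⟩)) hs₁ hs₂

end Pool.Agent.H698R3.Amalg
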