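import Pool.Agent.H698R3.AmNum

set_option autoImplicit false

namespace Pool.Agent.H698R3.Amalg

open Filter Topology

theorem rounding {T E : Type} [Fintype T] [Fintype E] (Siz : T → AddSubmonoid ℕ) (w : T → ℕ)
    (M : E → T → ℝ) (c : ℝ) (hc : 0 < c)
    (hdisc : ∀ p : T → ℕ, (∀ i, p i ∈ Siz i) → (∀ e, |∑ i, M e i * p i| < c) →
      ∀ e, ∑ i, M e i * p i = 0)
    (e0 : T → ℕ) (he0 : ∀ i, e0 i ∈ Siz i) (hMe0 : ∀ e, ∑ i, M e i * (e0 i : ℝ) = 0)
    (hwe0 : ∑ i, w i * e0 i = 1) (ε : ℝ) (hε : 0 < ε) :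
    ∃ δ > 0, ∃ N0 : ℕ, ∀ N ≥ N0, ∀ x : T → ℕ, (∀ i, x i ∈ Siz i) → ∑ i, w i * x i = N →
      (∀ i, x i ≤ 2 * N) → (∀ e, |∑ i, M e i * (x i : ℝ)| ≤ δ * N) →
      ∃ y : T → ℕ, (∀ i, y i ∈ Siz i) ∧ ∑ i, w i * y i = N ∧ (∀ e, ∑ i, M e i * (y i : ℝ) = 0) ∧
        ∀ i, |(y i : ℝ) - x i| ≤ ε * N := by
  classical
  by_contra hcon
  push Not at hcon
  have hch : ∀ n : ℕ, ∃ N : ℕ, n + 1 ≤ N ∧ ∃ x : T → ℕ, (∀ i, x i ∈ Siz i) ∧ ∑ i, w i * x i = N ∧
      (∀ i, x i ≤ 2 * N) ∧ (∀ e, |∑ i, M e i * (x i : ℝ)| ≤ (1 / ((n : ℝ) + 1)) * N) ∧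
      ∀ y : T → ℕ, (∀ i, y i ∈ Siz i) → ∑ i, w i * y i = N → (∀ e, ∑ i, M e i * (y i : ℝ) = 0) →
        ∃ i, ε * N < |(y i : ℝ) - x i| := by
    intro n
    obtain ⟨N, hN, x, h1, h2, h3, h4, h5⟩ := hcon (1 / ((n : ℝ) + 1)) (by positivity) (n + 1)
    exact ⟨N, hN, x, h1, h2, h3, h4, h5⟩
  choose N hN x h1 h2 h3 h4 h5 using hch
  have hNpos : ∀ n, (0 : ℝ) < N n := fun n => by
    have := hN n
    exact_mod_cast (by omega : 0 < N n)
  -- limits of the normalised vectors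
  have hlim : ∀ i : T, ∃ a ∈ Set.Icc (0 : ℝ) 2,
      Tendsto (fun n => (x n i : ℝ) / N n) (hyperfilter ℕ) (𝓝 a) := by
    intro i
    have hcp : IsCompact (Set.Icc (0 : ℝ) 2) := isCompact_Icc
    obtain ⟨a, ha, hle⟩ := hcp.ultrafilter_le_nhds
      ((hyperfilter ℕ).map (fun n => (x n i : ℝ) / N n)) (by
      rw [Filter.le_principal_iff]
      show (fun n => (x n i : ℝ) / N n) ⁻¹' (Set.Icc (0 : ℝ) 2) ∈ (hyperfilter ℕ : Filter ℕ)
      refine Filter.univ_mem' (fun n => ⟨by positivity, ?_⟩)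
      show (x n i : ℝ) / N n ≤ 2
      rw [div_le_iff₀ (hNpos n)]
      exact_mod_cast h3 n i)
    exact ⟨a, ha, hle⟩
  choose ξ hξ1 hξ2 using hlim
  have hU : (hyperfilter ℕ : Filter ℕ) ≤ atTop := Nat.hyperfilter_le_atTop
  have hw1 : ∑ i, (w i : ℝ) * ξ i = 1 := by
    have t1 : Tendsto (fun n => ∑ i, (w i : ℝ) * ((x n i : ℝ) / N n)) (hyperfilter ℕ)
        (𝓝 (∑ i, (w i : ℝ) * ξ i)) := tendsto_finsetSum _ (fun i _ => (hξ2 i).const_mul _)
    refine tendsto_nhds_unique t1 (tendsto_const_nhds.congr ?_)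
    intro n
    have : ∑ i, (w i : ℝ) * ((x n i : ℝ) / N n) = (∑ i, (w i : ℝ) * (x n i : ℝ)) / N n := by
      rw [Finset.sum_div]; exact Finset.sum_congr rfl (fun i _ => by ring)
    rw [this]
    have h2' : (∑ i, (w i : ℝ) * (x n i : ℝ)) = N n := by exact_mod_cast h2 n
    rw [h2', div_self (hNpos n).ne']
  have hM0 : ∀ e, ∑ i, M e i * ξ i = 0 := by
    intro e
    have t1 : Tendsto (fun n => ∑ i, M e i * ((x n i : ℝ) / N n)) (hyperfilter ℕ)
        (𝓝 (∑ i, M e i * ξ i)) := tendsto_finsetSum _ (fun i _ => (hξ2 i).const_mul _)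
    refine tendsto_nhds_unique t1 ?_
    have t2 : Tendsto (fun n : ℕ => 1 / ((n : ℝ) + 1)) (hyperfilter ℕ) (𝓝 0) :=
      tendsto_one_div_add_atTop_nhds_zero_nat.mono_left hU
    refine squeeze_zero_norm (fun n => ?_) t2
    have : ∑ i, M e i * ((x n i : ℝ) / N n) = (∑ i, M e i * (x n i : ℝ)) / N n := by
      rw [Finset.sum_div]; exact Finset.sum_congr rfl (fun i _ => by ring)
    rw [this, Real.norm_eq_abs, abs_div, abs_of_pos (hNpos n), div_le_iff₀ (hNpos n)]
    exact h4 n e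
  -- multipliers
  have hm : ∀ i, ∃ m : ℕ, m ∈ Siz i ∧ (0 < ξ i → 0 < m) ∧ (ξ i = 0 → m = 0) := by
    intro i
    by_cases hi : ξ i = 0
    · exact ⟨0, (Siz i).zero_mem, fun h => absurd hi h.ne', fun _ => rfl⟩
    · have hpos : 0 < ξ i := lt_of_le_of_ne (hξ1 i).1 (Ne.symm hi)
      have hev : ∀ᶠ n in (hyperfilter ℕ : Filter ℕ), 0 < (x n i : ℝ) / N n :=
        (hξ2 i).eventually (lt_mem_nhds hpos)
      obtain ⟨n, hn⟩ := hev.exists
      refine ⟨x n i, h1 n i, fun _ => ?_, fun h => absurd h hi⟩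
      by_contra h0
      have : x n i = 0 := by omega
      rw [this] at hn
      simp at hn
  choose m hm1 hm2 hm3 using hm
  set A : ℝ := 1 + ∑ e, ∑ i, |M e i| * m i + ∑ i, (w i : ℝ) * m i + ∑ i, (m i : ℝ) with hA
  have hA1 : 0 ≤ ∑ e, ∑ i, |M e i| * (m i : ℝ) :=
    Finset.sum_nonneg fun e _ => Finset.sum_nonneg fun i _ => by positivity
  have hA2 : 0 ≤ ∑ i, (w i : ℝ) * (m i : ℝ) := Finset.sum_nonneg fun i _ => by positivity
  have hA3 : 0 ≤ ∑ i, (m i : ℝ) := Finset.sum_nonneg fun i _ => by positivity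
  have hApos : 0 < A := by rw [hA]; linarith
  set δ' : ℝ := min (min 1 c) (ε / 4) / (2 * A) with hδ'
  have hδpos : 0 < δ' := by
    rw [hδ']
    have : 0 < min (min 1 c) (ε / 4) := by
      refine lt_min (lt_min one_pos hc) (by linarith)
    positivity
  have hAδ : A * δ' = min (min 1 c) (ε / 4) / 2 := by
    rw [hδ']; field_simp
  have hb1 : A * δ' ≤ 1 / 2 := by
    rw [hAδ]
    have : min (min 1 c) (ε / 4) ≤ 1 := (min_le_left _ _).trans (min_le_left _ _)
    linarith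
  have hb2 : A * δ' ≤ c / 2 := by
    rw [hAδ]
    have : min (min 1 c) (ε / 4) ≤ c := (min_le_left _ _).trans (min_le_right _ _)
    linarith
  have hb3 : A * δ' ≤ ε / 8 := by
    rw [hAδ]
    have : min (min 1 c) (ε / 4) ≤ ε / 4 := min_le_right _ _
    linarith
  have hA_ge1 : 1 ≤ A := by rw [hA]; linarith
  obtain ⟨k, hk, q, hq⟩ := dirichlet (fun i => ξ i / m i) δ' hδpos
  have hkpos : (0 : ℝ) < k := by exact_mod_cast hk
  let p : T → ℕ := fun i => m i * (q i).toNat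
  have hp_mem : ∀ i, p i ∈ Siz i := by
    intro i
    have := (Siz i).nsmul_mem (hm1 i) (q i).toNat
    simpa [p, mul_comm] using this
  have hp_close : ∀ i, |(p i : ℝ) - k * ξ i| ≤ m i * δ' := by
    intro i
    by_cases hi : ξ i = 0
    · have hm0 := hm3 i hi
      simp [p, hm0, hi]
    · have hpos : 0 < ξ i := lt_of_le_of_ne (hξ1 i).1 (Ne.symm hi)
      have hmi : (0 : ℝ) < m i := by exact_mod_cast hm2 i hpos
      have hqi := hq i
      have hδ1 : δ' ≤ 1 := by nlinarith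
      have hq0 : 0 ≤ q i := by
        by_contra hneg
        have h6 : q i ≤ -1 := by omega
        have h7 : (q i : ℝ) ≤ -1 := by exact_mod_cast h6
        have h8 : 0 ≤ (k : ℝ) * (ξ i / m i) := by positivity
        rw [abs_lt] at hqi
        linarith
      have hcast : ((q i).toNat : ℝ) = (q i : ℝ) := by
        have : ((q i).toNat : ℤ) = q i := Int.toNat_of_nonneg hq0
        exact_mod_cast this
      have h9 : (p i : ℝ) - k * ξ i = -(m i * (k * (ξ i / m i) - q i)) := by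
        simp only [p]
        push_cast
        rw [hcast]
        field_simp
        ring
      rw [h9, abs_neg, abs_mul, abs_of_pos hmi]
      exact mul_le_mul_of_nonneg_left hqi.le hmi.le
  have hMp : ∀ e, ∑ i, M e i * (p i : ℝ) = 0 := by
    refine hdisc p hp_mem (fun e => ?_)
    have h10 : ∑ i, M e i * (p i : ℝ) = ∑ i, M e i * ((p i : ℝ) - k * ξ i) := by
      have : ∑ i, M e i * ((p i : ℝ) - k * ξ i) =
          ∑ i, M e i * (p i : ℝ) - k * ∑ i, M e i * ξ i := by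
        rw [Finset.mul_sum, ← Finset.sum_sub_distrib]
        exact Finset.sum_congr rfl (fun i _ => by ring)
      rw [this, hM0 e]; ring
    rw [h10]
    have h11 : |∑ i, M e i * ((p i : ℝ) - k * ξ i)| ≤ ∑ i, |M e i| * (m i * δ') := by
      refine (Finset.abs_sum_le_sum_abs _ _).trans (Finset.sum_le_sum fun i _ => ?_)
      rw [abs_mul]
      exact mul_le_mul_of_nonneg_left (hp_close i) (abs_nonneg _)
    have h12 : ∑ i, |M e i| * ((m i : ℝ) * δ') = (∑ i, |M e i| * m i) * δ' := by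
      rw [Finset.sum_mul]; exact Finset.sum_congr rfl (fun i _ => by ring)
    have h13 : ∑ i, |M e i| * (m i : ℝ) ≤ ∑ e, ∑ i, |M e i| * (m i : ℝ) :=
      Finset.single_le_sum (f := fun e => ∑ i, |M e i| * (m i : ℝ))
        (fun e _ => Finset.sum_nonneg fun i _ => by positivity) (Finset.mem_univ e)
    have h14 : ∑ i, |M e i| * (m i : ℝ) ≤ A := by rw [hA]; linarith
    calc |∑ i, M e i * ((p i : ℝ) - k * ξ i)| ≤ (∑ i, |M e i| * m i) * δ' := h11.trans_eq h12
      _ ≤ A * δ' := mul_le_mul_of_nonneg_right h14 hδpos.le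
      _ ≤ c / 2 := hb2
      _ < c := by linarith
  have hwp : ∑ i, w i * p i = k := by
    have h10 : |(∑ i, (w i : ℝ) * (p i : ℝ)) - k| ≤ 1 / 2 := by
      have h15 : (∑ i, (w i : ℝ) * (p i : ℝ)) - k = ∑ i, (w i : ℝ) * ((p i : ℝ) - k * ξ i) := by
        have : ∑ i, (w i : ℝ) * ((p i : ℝ) - k * ξ i) =
            ∑ i, (w i : ℝ) * (p i : ℝ) - k * ∑ i, (w i : ℝ) * ξ i := by
          rw [Finset.mul_sum, ← Finset.sum_sub_distrib]
          exact Finset.sum_congr rfl (fun i _ => by ring)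
        rw [this, hw1]; ring
      rw [h15]
      have h11 : |∑ i, (w i : ℝ) * ((p i : ℝ) - k * ξ i)| ≤ ∑ i, (w i : ℝ) * (m i * δ') := by
        refine (Finset.abs_sum_le_sum_abs _ _).trans (Finset.sum_le_sum fun i _ => ?_)
        rw [abs_mul, abs_of_nonneg (Nat.cast_nonneg (w i))]
        exact mul_le_mul_of_nonneg_left (hp_close i) (Nat.cast_nonneg _)
      have h12 : ∑ i, (w i : ℝ) * ((m i : ℝ) * δ') = (∑ i, (w i : ℝ) * m i) * δ' := by
        rw [Finset.sum_mul]; exact Finset.sum_congr rfl (fun i _ => by ring)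
      have h14 : ∑ i, (w i : ℝ) * (m i : ℝ) ≤ A := by rw [hA]; linarith
      calc _ ≤ (∑ i, (w i : ℝ) * m i) * δ' := h11.trans_eq h12
        _ ≤ A * δ' := mul_le_mul_of_nonneg_right h14 hδpos.le
        _ ≤ 1 / 2 := hb1
    have h16 : |((∑ i, w i * p i : ℕ) : ℤ) - (k : ℤ)| < 1 := by
      have : |(((∑ i, w i * p i : ℕ) : ℤ) - (k : ℤ) : ℝ)| < 1 := by
        push_cast
        linarith
      exact_mod_cast this
    have h17 := Int.abs_lt_one_iff.mp h16
    omega
  -- choose a good index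
  have hev : ∀ᶠ n in (hyperfilter ℕ : Filter ℕ), ∀ i, |(x n i : ℝ) / N n - ξ i| < ε / 4 := by
    rw [Filter.eventually_all]
    intro i
    have := (hξ2 i).eventually (Metric.ball_mem_nhds (ξ i) (by linarith : 0 < ε / 4))
    filter_upwards [this] with n hn
    rwa [Real.dist_eq] at hn
  obtain ⟨n1, hn1⟩ := exists_nat_gt (4 * (∑ i, ((p i : ℝ) + k * e0 i)) / ε)
  have hev2 : ∀ᶠ n in (hyperfilter ℕ : Filter ℕ), n1 ≤ n := hU (eventually_ge_atTop n1)
  obtain ⟨n, hn2, hn3⟩ := (hev.and hev2).exists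
  let y : T → ℕ := fun i => (N n / k) * p i + (N n % k) * e0 i
  obtain ⟨i, hi⟩ := h5 n y
    (fun i => (Siz i).add_mem (by simpa using (Siz i).nsmul_mem (hp_mem i) (N n / k))
      (by simpa using (Siz i).nsmul_mem (he0 i) (N n % k)))
    (by
      have : ∑ i, w i * y i = (N n / k) * ∑ i, w i * p i + (N n % k) * ∑ i, w i * e0 i := by
        rw [Finset.mul_sum, Finset.mul_sum, ← Finset.sum_add_distrib]
        exact Finset.sum_congr rfl (fun i _ => by simp only [y]; ring)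
      rw [this, hwp, hwe0, mul_one, mul_comm]
      exact Nat.div_add_mod (N n) k)
    (by
      intro e
      have : ∑ i, M e i * (y i : ℝ) = ((N n / k : ℕ) : ℝ) * ∑ i, M e i * (p i : ℝ) +
          ((N n % k : ℕ) : ℝ) * ∑ i, M e i * (e0 i : ℝ) := by
        rw [Finset.mul_sum, Finset.mul_sum, ← Finset.sum_add_distrib]
        refine Finset.sum_congr rfl (fun i _ => ?_)
        simp only [y]; push_cast; ring
      rw [this, hMp, hMe0]; ring)
  have hNn := hNpos n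
  have hdm : (N n : ℝ) = k * ((N n / k : ℕ) : ℝ) + ((N n % k : ℕ) : ℝ) := by
    exact_mod_cast (Nat.div_add_mod (N n) k).symm
  have hmod : ((N n % k : ℕ) : ℝ) ≤ k := by exact_mod_cast (Nat.mod_lt _ hk).le
  have hmod0 : (0 : ℝ) ≤ ((N n % k : ℕ) : ℝ) := Nat.cast_nonneg _
  -- the estimate
  have e1 : |(y i : ℝ) - N n * (p i / k)| ≤ p i + k * e0 i := by
    have hy : (y i : ℝ) - N n * (p i / k) = -(((N n % k : ℕ) : ℝ) * (p i / k)) +
        ((N n % k : ℕ) : ℝ) * e0 i := by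
      simp only [y]
      push_cast
      rw [show (N n : ℝ) * (p i / k) =
        (k * ((N n / k : ℕ) : ℝ) + ((N n % k : ℕ) : ℝ)) * (p i / k) by rw [← hdm]]
      field_simp
      push_cast
      ring
    rw [hy]
    refine (abs_add_le _ _).trans ?_
    rw [abs_neg, abs_of_nonneg (by positivity), abs_of_nonneg (by positivity)]
    have e2 : ((N n % k : ℕ) : ℝ) * (p i / k) ≤ p i := by
      calc ((N n % k : ℕ) : ℝ) * (p i / k) ≤ k * (p i / k) :=
            mul_le_mul_of_nonneg_right hmod (by positivity)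
        _ = p i := by field_simp
    have e3 : ((N n % k : ℕ) : ℝ) * e0 i ≤ k * e0 i :=
      mul_le_mul_of_nonneg_right hmod (Nat.cast_nonneg _)
    linarith
  have e4 : |(N n : ℝ) * (p i / k) - N n * ξ i| ≤ N n * (ε / 8) := by
    have : (N n : ℝ) * (p i / k) - N n * ξ i = N n * (((p i : ℝ) - k * ξ i) / k) := by
      field_simp
    rw [this, abs_mul, abs_of_pos hNn, abs_div, abs_of_pos hkpos]
    refine mul_le_mul_of_nonneg_left ?_ hNn.le
    rw [div_le_iff₀ hkpos]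
    have hmi : (m i : ℝ) ≤ A := by
      have : (m i : ℝ) ≤ ∑ i, (m i : ℝ) :=
        Finset.single_le_sum (f := fun i => (m i : ℝ)) (fun i _ => Nat.cast_nonneg _)
          (Finset.mem_univ i)
      rw [hA]; linarith
    have e5 : |(p i : ℝ) - k * ξ i| ≤ ε / 8 :=
      (hp_close i).trans ((mul_le_mul_of_nonneg_right hmi hδpos.le).trans hb3)
    have hk1 : (1 : ℝ) ≤ k := by exact_mod_cast hk
    nlinarith
  have e6 : |(N n : ℝ) * ξ i - x n i| ≤ N n * (ε / 4) := by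
    have : (N n : ℝ) * ξ i - x n i = -(N n * ((x n i : ℝ) / N n - ξ i)) := by
      field_simp
      ring
    rw [this, abs_neg, abs_mul, abs_of_pos hNn]
    exact mul_le_mul_of_nonneg_left (hn2 i).le hNn.le
  have e7 : (p i : ℝ) + k * e0 i ≤ (ε / 4) * N n := by
    have e8 : (p i : ℝ) + k * e0 i ≤ ∑ i, ((p i : ℝ) + k * e0 i) :=
      Finset.single_le_sum (f := fun i => (p i : ℝ) + k * e0 i) (fun i _ => by positivity)
        (Finset.mem_univ i)
    have e9 : (n1 : ℝ) ≤ N n := by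
      have := hN n
      exact_mod_cast (by omega : n1 ≤ N n)
    rw [div_lt_iff₀ hε] at hn1
    nlinarith
  have e10 : |(y i : ℝ) - x n i| ≤ |(y i : ℝ) - N n * (p i / k)| +
      |(N n : ℝ) * (p i / k) - N n * ξ i| + |(N n : ℝ) * ξ i - x n i| := by
    have : (y i : ℝ) - x n i = ((y i : ℝ) - N n * (p i / k)) +
      ((N n : ℝ) * (p i / k) - N n * ξ i) + ((N n : ℝ) * ξ i - x n i) := by ring
    rw [this]
    refine (abs_add_le _ _).trans ?_
    linarith [abs_add_le ((y i : ℝ) - N n * (p i / k)) ((N n : ℝ) * (p i / k) - N n * ξ i)]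
  have : ε * N n < ε * N n := by
    calc ε * N n < |(y i : ℝ) - x n i| := hi
      _ ≤ (ε / 4) * N n + N n * (ε / 8) + N n * (ε / 4) := by linarith
      _ ≤ ε * N n := by nlinarith
  exact lt_irrefl _ this

end Pool.Agent.H698R3.Amalg
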