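import Mathlib

set_option autoImplicit false

/-! Central extensions of abelian groups given by biadditive cocycles. -/

namespace Pool.Agent.H698R3

/-- The group of pairs `(v, z)` with `(v, z) (v', z') = (v + v', z + z' + β v v')`. -/
@[ext] structure CE {V Z : Type} [AddCommGroup V] [AddCommGroup Z] (β : V →+ V →+ Z) where
  v : V
  z : Z

namespace CE

variable {V Z : Type} [AddCommGroup V] [AddCommGroup Z] (β : V →+ V →+ Z)

instance : Mul (CE β) := ⟨fun x y => ⟨x.v + y.v, x.z + y.z + β x.v y.v⟩⟩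
instance : One (CE β) := ⟨⟨0, 0⟩⟩
instance : Inv (CE β) := ⟨fun x => ⟨-x.v, -x.z + β x.v x.v⟩⟩

theorem mul_def (x y : CE β) : x * y = ⟨x.v + y.v, x.z + y.z + β x.v y.v⟩ := rfl
theorem one_def : (1 : CE β) = ⟨0, 0⟩ := rfl
theorem inv_def (x : CE β) : x⁻¹ = ⟨-x.v, -x.z + β x.v x.v⟩ := rfl

instance : Group (CE β) :=
  Group.ofLeftAxioms
    (by
      intro x y z
      simp only [mul_def]
      ext
      · exact add_assoc _ _ _
      · simp only [map_add, AddMonoidHom.add_apply]; abel)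
    (by
      intro x
      simp only [mul_def, one_def]
      ext
      · simp
      · simp)
    (by
      intro x
      simp only [mul_def, one_def, inv_def]
      ext
      · simp
      · simp)

theorem comm_eq (x y : CE β) : x⁻¹ * y⁻¹ * x * y = ⟨0, β x.v y.v - β y.v x.v⟩ := by
  rw [mul_def, mul_def, mul_def, inv_def, inv_def]
  ext
  · simp only; abel
  · simp only [map_add, map_neg, AddMonoidHom.add_apply, AddMonoidHom.neg_apply]; abel

instance [Finite V] [Finite Z] : Finite (CE β) :=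
  Finite.of_injective (fun x : CE β => (x.v, x.z)) (by
    intro x y h
    simp only [Prod.mk.injEq] at h
    exact CE.ext h.1 h.2)

instance [Countable V] [Countable Z] : Countable (CE β) :=
  Function.Injective.countable (f := fun x : CE β => (x.v, x.z)) (by
    intro x y h
    simp only [Prod.mk.injEq] at h
    exact CE.ext h.1 h.2)

variable {V' Z' : Type} [AddCommGroup V'] [AddCommGroup Z'] (β' : V' →+ V' →+ Z')

/-- functoriality -/
def map (P : V →+ V') (Q : Z →+ Z') (h : ∀ v w, Q (β v w) = β' (P v) (P w)) : CE β →* CE β' where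
  toFun x := ⟨P x.v, Q x.z⟩
  map_one' := by
    show (⟨P 0, Q 0⟩ : CE β') = ⟨0, 0⟩
    rw [map_zero, map_zero]
  map_mul' x y := by
    show (⟨P (x.v + y.v), Q (x.z + y.z + β x.v y.v)⟩ : CE β') =
      ⟨P x.v + P y.v, Q x.z + Q y.z + β' (P x.v) (P y.v)⟩
    rw [map_add, map_add, map_add, h]

theorem map_apply (P : V →+ V') (Q : Z →+ Z') (h : ∀ v w, Q (β v w) = β' (P v) (P w))
    (x : CE β) : map β β' P Q h x = ⟨P x.v, Q x.z⟩ := rfl

/-- the subgroup of pairs with components in given subgroups -/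
def sub (A : AddSubgroup V) (B : AddSubgroup Z) (h : ∀ v ∈ A, ∀ w ∈ A, β v w ∈ B) :
    Subgroup (CE β) where
  carrier := {x | x.v ∈ A ∧ x.z ∈ B}
  mul_mem' := by
    intro x y hx hy
    exact ⟨A.add_mem hx.1 hy.1, B.add_mem (B.add_mem hx.2 hy.2) (h _ hx.1 _ hy.1)⟩
  one_mem' := ⟨A.zero_mem, B.zero_mem⟩
  inv_mem' := by
    intro x hx
    exact ⟨A.neg_mem hx.1, B.add_mem (B.neg_mem hx.2) (h _ hx.1 _ hx.1)⟩

theorem mem_sub (A : AddSubgroup V) (B : AddSubgroup Z) (h : ∀ v ∈ A, ∀ w ∈ A, β v w ∈ B)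
    (x : CE β) : x ∈ sub β A B h ↔ x.v ∈ A ∧ x.z ∈ B := Iff.rfl

end CE

end Pool.Agent.H698R3
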