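import Pool.Agent.H698R3.HsShrink

set_option autoImplicit false

/-! Adjusting the dimensions of the pure type parts of a unitary representation. -/

namespace Pool.Agent.H698R3.Amalg

open Matrix

section gen

variable {G : Type} [Group G] {X Y Z : Type} [Fintype X] [DecidableEq X] [Fintype Y]
  [DecidableEq Y] [Fintype Z] [DecidableEq Z]

theorem Jm_comp (j : Y → X) (l : Z → Y) : Jm (fun z => j (l z)) = Jm j * Jm l := by
  rw [mul_Jm]; rfl

theorem ds_inl (σ : G →* Matrix.unitaryGroup X ℂ) (τ : G →* Matrix.unitaryGroup Y ℂ) (g : G) :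
    (dsR σ τ g).1 * Jm (Sum.inl : X → X ⊕ Y) = Jm (Sum.inl : X → X ⊕ Y) * (σ g).1 := by
  rw [mul_Jm]
  ext x y
  rw [Matrix.submatrix_apply, Matrix.mul_apply, dsR_coe]
  simp only [Jm_apply, id, ite_mul, one_mul, zero_mul]
  cases x with
  | inl x =>
    rw [Finset.sum_eq_single x]
    · simp
    · intro z _ hz
      rw [if_neg (fun h => hz (Sum.inl_injective h).symm)]
    · intro h; exact absurd (Finset.mem_univ x) h
  | inr x => simp

theorem sg_mk {ι : Type} [Fintype ι] [DecidableEq ι] {X : ι → Type} [∀ i, Fintype (X i)]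
    [∀ i, DecidableEq (X i)] (a : ∀ i, G →* Matrix.unitaryGroup (X i) ℂ) (i : ι) (g : G) :
    (sgR a g).1 * Jm (Sigma.mk i : X i → Σ i, X i) =
      Jm (Sigma.mk i : X i → Σ i, X i) * (a i g).1 := by
  rw [mul_Jm]
  ext ⟨i', x⟩ y
  rw [Matrix.submatrix_apply, Matrix.mul_apply, sgR_coe, blockDiagonal'_apply]
  simp only [Jm_apply, id, ite_mul, one_mul, zero_mul]
  by_cases h : i' = i
  · subst h
    rw [Finset.sum_eq_single x]
    · simp
    · intro z _ hz
      rw [if_neg (fun h => hz (eq_of_heq (Sigma.mk.inj h).2).symm)]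
    · intro h; exact absurd (Finset.mem_univ x) h
  · rw [dif_neg h]
    symm
    refine Finset.sum_eq_zero fun z _ => ?_
    rw [if_neg (fun h' => h (Sigma.mk.inj h').1)]

theorem sg_ds_inl {ι : Type} [Fintype ι] [DecidableEq ι] {A B : ι → Type} [∀ i, Fintype (A i)]
    [∀ i, DecidableEq (A i)] [∀ i, Fintype (B i)] [∀ i, DecidableEq (B i)]
    (σ : ∀ i, G →* Matrix.unitaryGroup (A i) ℂ) (τ : ∀ i, G →* Matrix.unitaryGroup (B i) ℂ)
    (i : ι) (g : G) :
    (sgR (fun i => dsR (σ i) (τ i)) g).1 * Jm (fun a : A i => (⟨i, Sum.inl a⟩ : Σ i, A i ⊕ B i)) =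
      Jm (fun a : A i => (⟨i, Sum.inl a⟩ : Σ i, A i ⊕ B i)) * (σ i g).1 := by
  have e : Jm (fun a : A i => (⟨i, Sum.inl a⟩ : Σ i, A i ⊕ B i)) =
      Jm (Sigma.mk (β := fun i => A i ⊕ B i) i) * Jm (Sum.inl : A i → A i ⊕ B i) :=
    Jm_comp (Sigma.mk (β := fun i => A i ⊕ B i) i) Sum.inl
  rw [e, ← Matrix.mul_assoc, sg_mk, Matrix.mul_assoc, ds_inl, Matrix.mul_assoc]

/-- conjugation by a rectangular unitary -/
def cjM (V : Matrix X Z ℂ) (hV : Vᴴ * V = 1) (hV' : V * Vᴴ = 1)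
    (ψ : G →* Matrix.unitaryGroup Z ℂ) : G →* Matrix.unitaryGroup X ℂ :=
  mkRep (fun g => V * (ψ g).1 * Vᴴ)
    (by rw [rep_one, Matrix.mul_one, hV'])
    (by
      intro g h
      rw [rep_mul]
      have : V * (ψ g).1 * Vᴴ * (V * (ψ h).1 * Vᴴ) =
        V * (ψ g).1 * (Vᴴ * V) * (ψ h).1 * Vᴴ := by
        simp only [Matrix.mul_assoc]
      rw [this, hV, Matrix.mul_one]
      simp only [Matrix.mul_assoc])
    (by
      intro g
      rw [rep_inv, conjTranspose_mul, conjTranspose_mul, conjTranspose_conjTranspose,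
        Matrix.mul_assoc])

theorem cjM_inter (V : Matrix X Z ℂ) (hV : Vᴴ * V = 1) (hV' : V * Vᴴ = 1)
    (ψ : G →* Matrix.unitaryGroup Z ℂ) (g : G) :
    (cjM V hV hV' ψ g).1 * V = V * (ψ g).1 := by
  show V * (ψ g).1 * Vᴴ * V = V * (ψ g).1
  rw [Matrix.mul_assoc, hV, Matrix.mul_one]

/-- squared norm of a column -/
noncomputable def cn (A : Matrix X Y ℂ) (y : Y) : ℝ := ∑ x, ‖A x y‖ ^ 2

theorem fro_cn (A : Matrix X Y ℂ) : fro A = ∑ y, cn A y := Finset.sum_comm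

theorem cn_eq (A : Matrix X Y ℂ) (y : Y) : cn A y = fro (A * Jm (fun _ : Unit => y)) := by
  rw [mul_Jm]
  unfold cn fro
  simp

theorem fro_unit (y : Y) : fro (Jm (fun _ : Unit => y)) = 1 := by
  unfold fro
  simp only [Jm_apply, Finset.univ_unique, Finset.sum_singleton]
  rw [Finset.sum_eq_single y]
  · simp
  · intro x _ hx
    rw [if_neg hx]; simp
  · intro h; exact absurd (Finset.mem_univ y) h

theorem cn_sub_le (A B : Matrix X Y ℂ) (hA : Aᴴ * A = 1) (hB : Bᴴ * B = 1) (y : Y) :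
    cn (A - B) y ≤ 4 := by
  rw [cn_eq, ← fn_sq, Matrix.sub_mul]
  have h1 : fn (A * Jm (fun _ : Unit => y)) = 1 := by
    unfold fn; rw [fro_mul_left _ hA, fro_unit, Real.sqrt_one]
  have h2 : fn (B * Jm (fun _ : Unit => y)) = 1 := by
    unfold fn; rw [fro_mul_left _ hB, fro_unit, Real.sqrt_one]
  have h3 := fn_sub_le (A * Jm (fun _ : Unit => y)) 0 (B * Jm (fun _ : Unit => y))
  rw [sub_zero, zero_sub] at h3
  have h4 : fn (-(B * Jm (fun _ : Unit => y))) = fn (B * Jm (fun _ : Unit => y)) := by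
    unfold fn; rw [fro_neg]
  rw [h4, h1, h2] at h3
  have h5 := fn_nonneg (A * Jm (fun _ : Unit => y) - B * Jm (fun _ : Unit => y))
  nlinarith

end gen

section adj

variable {G : Type} [Group G] (N : Subgroup G) [N.Normal] [Finite N]

theorem adjustH (hst : hsCls.Stable G) (F : Finset G) (ε : ℝ) (hε : 0 < ε) :
    ∃ η : ℝ, 0 < η ∧ ∃ L0 : ℕ, ∀ k ≥ L0, ∀ ψ : G →* Matrix.unitaryGroup (Fin k) ℂ,
      ∀ t : {v // v ∈ Ty N} → ℕ,
      (∀ i, t i ∈ SizH N i.1) → ∑ i, t i = k → (∀ i, |(t i : ℝ) - sH N ψ i.1| ≤ η * k) →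
      ∃ ψ' : G →* Matrix.unitaryGroup (Fin k) ℂ, (∀ i : {v // v ∈ Ty N}, sH N ψ' i.1 = t i) ∧
        ∀ g ∈ F, hsDist (ψ' g).1 (ψ g).1 ≤ ε := by
  classical
  set ε1 : ℝ := ε ^ 2 / 9 with hε1
  have hε1pos : 0 < ε1 := by positivity
  obtain ⟨η0, hη0, hshrink⟩ := shrinkH N hst F ε1 hε1pos
  set η1 : ℝ := min η0 (1 / 2) with hη1
  have hη1pos : 0 < η1 := lt_min hη0 (by norm_num)
  have hη1a : η1 ≤ η0 := min_le_left _ _
  have hη1b : η1 ≤ 1 / 2 := min_le_right _ _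
  set Tn : ℝ := (Fintype.card {v // v ∈ Ty N} : ℝ) + 1 with hTn
  have hTnpos : 0 < Tn := by positivity
  set ϑ : ℝ := ε1 / Tn with hϑ
  have hϑpos : 0 < ϑ := by positivity
  have hn0 := fun i : {v // v ∈ Ty N} => sub_mem_of_large (SizH N i.1)
  choose n0 hn0 using hn0
  obtain ⟨L0, hL0⟩ := exists_nat_gt (((∑ i, (n0 i : ℝ)) + 2) / (η1 * ϑ / 2))
  refine ⟨η1 * ϑ / 2, by positivity, L0, ?_⟩
  intro k hk ψ t htS hsum hclose
  have hkL : ((∑ i, (n0 i : ℝ)) + 2) ≤ (η1 * ϑ / 2) * k := by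
    have h1 : (L0 : ℝ) ≤ k := by exact_mod_cast hk
    rw [div_lt_iff₀ (by positivity)] at hL0
    nlinarith [mul_le_mul_of_nonneg_left h1 (by positivity : 0 ≤ η1 * ϑ / 2)]
  obtain ⟨W, p, hp⟩ := exists_lab N ψ
  let Xi : {v // v ∈ Ty N} → Type := fun i => {x : Fin k // p x = i.1}
  have hcardX : ∀ i : {v // v ∈ Ty N}, Fintype.card {x : Fin k // p x = i.1} = sH N ψ i.1 := by
    intro i
    rw [← sH_cj N W ψ i.1]
    exact (Ee_lab N hp i.1).symm
  have hsumS : ∑ i : {v // v ∈ Ty N}, (sH N ψ i.1 : ℝ) = k := by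
    have h1 : ∑ i : {v // v ∈ Ty N}, sH N ψ i.1 = k := by
      rw [Finset.sum_congr rfl fun i _ => (hcardX i).symm]
      have h2 : Fintype.card (Σ i : {v // v ∈ Ty N}, {x : Fin k // p x = i.1}) = k := by
        have e : (Σ i : {v // v ∈ Ty N}, {x : Fin k // p x = i.1}) ≃ Fin k :=
          { toFun := fun z => z.2.1
            invFun := fun x => ⟨⟨p x, hp.mem N x⟩, ⟨x, rfl⟩⟩
            left_inv := by
              rintro ⟨⟨v, hv⟩, ⟨x, hx⟩⟩
              have hx' : p x = v := hx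
              subst hx'
              rfl
            right_inv := fun x => rfl }
        rw [Fintype.card_congr e, Fintype.card_fin]
      rw [Fintype.card_sigma] at h2
      exact h2
    exact_mod_cast h1
  let ψ₁ := cjR W ψ
  let ψi : ∀ i : {v // v ∈ Ty N}, G →* Matrix.unitaryGroup {x : Fin k // p x = i.1} ℂ :=
    fun i => blk ψ₁ p (fun g x y hxy => hp.off N g x y hxy) i.1
  have hψi : ∀ i, IsLab N (ψi i) (fun _ => i.1) := fun i => hp.blk N i.1
  -- the shrunken parts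
  have hper : ∀ i : {v // v ∈ Ty N}, ∃ (A : Type) (_ : Fintype A) (_ : DecidableEq A)
      (θ : G →* Matrix.unitaryGroup A ℂ) (J : Matrix {x : Fin k // p x = i.1} A ℂ),
      Jᴴ * J = 1 ∧ IsLab N θ (fun _ => i.1) ∧ Fintype.card A ≤ t i ∧
      t i - Fintype.card A ∈ SizH N i.1 ∧
      (sH N ψ i.1 : ℝ) ≤ Fintype.card A + ε1 * sH N ψ i.1 + ϑ * k ∧
      ∀ g ∈ F, fro ((ψi i g).1 * J - J * (θ g).1) ≤ ε1 * sH N ψ i.1 := by
    intro i
    by_cases hbig : ϑ * k ≤ sH N ψ i.1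
    · obtain ⟨A, _, _, θ, J, h1, h2, h3, h4, h5⟩ := hshrink {x : Fin k // p x = i.1} (ψi i) i.1
        (hψi i) ⌊η1 * (sH N ψ i.1 : ℝ)⌋₊ (by
          rw [hcardX]
          calc ((⌊η1 * (sH N ψ i.1 : ℝ)⌋₊ : ℕ) : ℝ) ≤ η1 * (sH N ψ i.1 : ℝ) :=
                Nat.floor_le (by positivity)
            _ ≤ η0 * (sH N ψ i.1 : ℝ) := mul_le_mul_of_nonneg_right hη1a (Nat.cast_nonneg _))
      rw [hcardX] at h3 h4 h5
      have hfl := Nat.lt_floor_add_one (η1 * (sH N ψ i.1 : ℝ))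
      have hA' : (Fintype.card A : ℝ) + ⌊η1 * (sH N ψ i.1 : ℝ)⌋₊ ≤ sH N ψ i.1 := by
        exact_mod_cast h3
      have hcl := hclose i
      rw [abs_le] at hcl
      have hn0i : (n0 i : ℝ) ≤ ∑ i, (n0 i : ℝ) :=
        Finset.single_le_sum (f := fun i => (n0 i : ℝ)) (fun _ _ => Nat.cast_nonneg _)
          (Finset.mem_univ i)
      have hmain : (Fintype.card A : ℝ) + n0 i ≤ t i := by
        have h5 : η1 * (ϑ * k) ≤ η1 * sH N ψ i.1 := mul_le_mul_of_nonneg_left hbig hη1pos.le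
        nlinarith
      have hmain' : Fintype.card A + n0 i ≤ t i := by exact_mod_cast hmain
      refine ⟨A, inferInstance, inferInstance, θ, J, h1, h2, by omega, ?_, ?_, h5⟩
      · exact hn0 i (t i) (htS i) (Fintype.card A) (mem_SizH N θ h2) hmain'
      · have : 0 ≤ ϑ * (k : ℝ) := by positivity
        linarith
    · refine ⟨Empty, inferInstance, inferInstance, mkRep (fun _ => 1) rfl (by simp) (by simp), 0,
        by ext x; exact x.elim, by intro n; ext x; exact x.elim, by simp,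
        by simpa using htS i, ?_, ?_⟩
      · push Not at hbig
        have h2 : 0 ≤ ε1 * (sH N ψ i.1 : ℝ) := by positivity
        simp only [Fintype.card_empty, Nat.cast_zero, zero_add]
        linarith
      · intro g _
        have h2 : 0 ≤ ε1 * (sH N ψ i.1 : ℝ) := by positivity
        refine le_trans (le_of_eq ?_) h2
        unfold fro
        simp
  choose A instA1 instA2 θ J hJi hθ hAle hASiz hAcard hAfro using hper
  -- fillers
  have hfill : ∀ i, ∃ α : G →* Matrix.unitaryGroup (Fin (t i - Fintype.card (A i))) ℂ,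
      IsLab N α (fun _ => i.1) := hASiz
  choose α hα using hfill
  -- the big isometry
  let vi : ∀ i : {v // v ∈ Ty N}, {x : Fin k // p x = i.1} → Fin k := fun i => Subtype.val
  let Jb : Matrix (Fin k) (Σ i, A i) ℂ := Matrix.of fun x z => (Jm (vi z.1) * J z.1) x z.2
  have hvv : ∀ i i', i ≠ i' → (Jm (vi i))ᴴ * Jm (vi i') = 0 := by
    intro i i' hii
    rw [mul_Jm]
    ext x y
    rw [Matrix.submatrix_apply, Matrix.conjTranspose_apply, Jm_apply, Matrix.zero_apply, if_neg,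
      star_zero]
    intro h
    apply hii
    apply Subtype.ext
    have h1 : p (vi i x) = i.1 := x.2
    have h2 : p (vi i' y) = i'.1 := y.2
    have h3 : vi i' y = vi i x := h
    rw [← h1, ← h2, h3]
  have hJb : Jbᴴ * Jb = 1 := by
    ext ⟨i, a⟩ ⟨i', a'⟩
    have h1 : (Jbᴴ * Jb) ⟨i, a⟩ ⟨i', a'⟩ = ((Jm (vi i) * J i)ᴴ * (Jm (vi i') * J i')) a a' := rfl
    rw [h1, conjTranspose_mul, Matrix.mul_assoc, ← Matrix.mul_assoc (Jm (vi i))ᴴ]
    by_cases hii : i = i'
    · subst hii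
      rw [Jm_isometry _ Subtype.val_injective, Matrix.one_mul, hJi, Matrix.one_apply,
        Matrix.one_apply]
      by_cases h : a = a'
      · subst h; simp
      · rw [if_neg h, if_neg (fun h' => h (eq_of_heq (Sigma.mk.inj h').2))]
    · rw [hvv i i' hii, Matrix.zero_mul, Matrix.mul_zero, Matrix.zero_apply, Matrix.one_apply,
        if_neg (fun h' => hii (Sigma.mk.inj h').1)]
  have hcardZ : Fintype.card (Σ i, A i ⊕ Fin (t i - Fintype.card (A i))) =
      Fintype.card (Fin k) := by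
    rw [Fintype.card_sigma, Fintype.card_fin]
    refine Eq.trans (Finset.sum_congr rfl fun i _ => ?_) hsum
    rw [Fintype.card_sum, Fintype.card_fin]
    have := hAle i
    omega
  obtain ⟨V, hV1, hV2, hV3⟩ := complete Jb hJb
    (fun z => (⟨z.1, Sum.inl z.2⟩ : Σ i, A i ⊕ Fin (t i - Fintype.card (A i))))
    (by
      rintro ⟨i, a⟩ ⟨i', a'⟩ h
      obtain ⟨h1, h2⟩ := Sigma.mk.inj h
      subst h1
      have := Sum.inl_injective (eq_of_heq h2)
      subst this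
      rfl) hcardZ
  let Ψ : G →* Matrix.unitaryGroup (Σ i, A i ⊕ Fin (t i - Fintype.card (A i))) ℂ :=
    sgR (fun i => dsR (θ i) (α i))
  have hΨlab : IsLab N Ψ (fun z => z.1.1) := by
    have h1 := IsLab.sg N (fun i => (hθ i).ds N (hα i))
    have h2 : (fun x : Σ i, A i ⊕ Fin (t i - Fintype.card (A i)) =>
        (Sum.elim (fun _ => x.1.1) (fun _ => x.1.1) :
          A x.1 ⊕ Fin (t x.1 - Fintype.card (A x.1)) → N → ℂ) x.2) = fun z => z.1.1 := by
      funext ⟨i, z⟩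
      cases z <;> rfl
    rw [← h2]
    exact h1
  set V' : Matrix (Fin k) (Σ i, A i ⊕ Fin (t i - Fintype.card (A i))) ℂ := W.1 * V with hV'
  have hV'1 : V'ᴴ * V' = 1 := by
    rw [hV', conjTranspose_mul, Matrix.mul_assoc, ← Matrix.mul_assoc (W.1)ᴴ, uh_mul,
      Matrix.one_mul, hV1]
  have hV'2 : V' * V'ᴴ = 1 := by
    rw [hV', conjTranspose_mul, Matrix.mul_assoc, ← Matrix.mul_assoc V, hV2, Matrix.one_mul,
      mul_uh]
  have hVi : ∀ i, V * Jm (fun a : A i => (⟨i, Sum.inl a⟩ :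
      Σ i, A i ⊕ Fin (t i - Fintype.card (A i)))) = Jm (vi i) * J i := by
    intro i
    rw [mul_Jm]
    ext x a
    have h1 := congrFun (congrFun hV3 x) ⟨i, a⟩
    exact h1
  refine ⟨cjM V' hV'1 hV'2 Ψ, ?_, ?_⟩
  · intro i
    have h1 := sH_equiv N (cjM V' hV'1 hV'2 Ψ) Ψ V' hV'1 hV'2 (cjM_inter V' hV'1 hV'2 Ψ) i.1
    rw [← h1]
    unfold sH
    rw [Ee_lab N hΨlab i.1]
    have e : {z : Σ i, A i ⊕ Fin (t i - Fintype.card (A i)) // z.1.1 = i.1} ≃
        A i ⊕ Fin (t i - Fintype.card (A i)) :=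
      { toFun := fun z => (Subtype.ext z.2 : z.1.1 = i) ▸ z.1.2
        invFun := fun a => ⟨⟨i, a⟩, rfl⟩
        left_inv := by
          rintro ⟨⟨i', a⟩, h⟩
          have h' : i' = i := Subtype.ext h
          subst h'
          rfl
        right_inv := fun a => rfl }
    rw [Fintype.card_congr e, Fintype.card_sum, Fintype.card_fin]
    have := hAle i
    omega
  · intro g hg
    have hD : fro ((cjM V' hV'1 hV'2 Ψ g).1 - (ψ g).1) =
        fro (V * (Ψ g).1 - (ψ₁ g).1 * V) := by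
      rw [← fro_mul_right V' hV'2, Matrix.sub_mul, cjM_inter, hV', ← Matrix.mul_assoc (ψ g).1,
        ← cjR_inter, Matrix.mul_assoc, Matrix.mul_assoc, ← Matrix.mul_sub,
        fro_mul_left _ (uh_mul W)]
    have hVΨ : (V * (Ψ g).1)ᴴ * (V * (Ψ g).1) = 1 := by
      rw [conjTranspose_mul, Matrix.mul_assoc, ← Matrix.mul_assoc Vᴴ, hV1, Matrix.one_mul, uh_mul]
    have hψV : ((ψ₁ g).1 * V)ᴴ * ((ψ₁ g).1 * V) = 1 := by
      rw [conjTranspose_mul, Matrix.mul_assoc, ← Matrix.mul_assoc ((ψ₁ g).1)ᴴ, uh_mul,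
        Matrix.one_mul, hV1]
    have hinl : ∀ i, ∑ a : A i, cn (V * (Ψ g).1 - (ψ₁ g).1 * V) ⟨i, Sum.inl a⟩ ≤
        ε1 * sH N ψ i.1 := by
      intro i
      have h1 : ∑ a : A i, cn (V * (Ψ g).1 - (ψ₁ g).1 * V) ⟨i, Sum.inl a⟩ =
          fro ((V * (Ψ g).1 - (ψ₁ g).1 * V) * Jm (fun a : A i => (⟨i, Sum.inl a⟩ :
            Σ i, A i ⊕ Fin (t i - Fintype.card (A i))))) := by
        rw [fro_cn, mul_Jm]
        rfl
      have h2 : (V * (Ψ g).1 - (ψ₁ g).1 * V) * Jm (fun a : A i => (⟨i, Sum.inl a⟩ :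
            Σ i, A i ⊕ Fin (t i - Fintype.card (A i)))) =
          Jm (vi i) * -((ψi i g).1 * J i - J i * (θ i g).1) := by
        have h3 : (Ψ g).1 * Jm (fun a : A i => (⟨i, Sum.inl a⟩ :
            Σ i, A i ⊕ Fin (t i - Fintype.card (A i)))) =
            Jm (fun a : A i => (⟨i, Sum.inl a⟩ :
            Σ i, A i ⊕ Fin (t i - Fintype.card (A i)))) * (θ i g).1 := sg_ds_inl θ α i g
        rw [Matrix.sub_mul, Matrix.mul_assoc, h3, ← Matrix.mul_assoc, hVi, Matrix.mul_assoc (ψ₁ g).1,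
          hVi, ← Matrix.mul_assoc (ψ₁ g).1, blk_inter, Matrix.mul_neg, Matrix.mul_sub, neg_sub]
        simp only [Matrix.mul_assoc]
        rfl
      rw [h1, h2, fro_mul_left _ (Jm_isometry _ Subtype.val_injective), fro_neg]
      exact hAfro i g hg
    have hinr : ∀ i, ∑ b : Fin (t i - Fintype.card (A i)),
        cn (V * (Ψ g).1 - (ψ₁ g).1 * V) ⟨i, Sum.inr b⟩ ≤ 4 * ((t i : ℝ) - Fintype.card (A i)) := by
      intro i
      refine (Finset.sum_le_sum fun b _ => cn_sub_le _ _ hVΨ hψV _).trans ?_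
      rw [Finset.sum_const, Finset.card_univ, Fintype.card_fin, nsmul_eq_mul,
        Nat.cast_sub (hAle i)]
      linarith
    have htot : fro (V * (Ψ g).1 - (ψ₁ g).1 * V) ≤
        ∑ i : {v // v ∈ Ty N}, (ε1 * sH N ψ i.1 + 4 * ((t i : ℝ) - Fintype.card (A i))) := by
      rw [fro_cn, Fintype.sum_sigma]
      refine Finset.sum_le_sum fun i _ => ?_
      rw [Fintype.sum_sum_type]
      exact add_le_add (hinl i) (hinr i)
    have hsumt : ∑ i, (t i : ℝ) = k := by exact_mod_cast hsum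
    have hsumA : (k : ℝ) ≤ (∑ i, (Fintype.card (A i) : ℝ)) + ε1 * k + ε1 * k := by
      have h1 := Finset.sum_le_sum fun (i : {v // v ∈ Ty N}) (_ : i ∈ Finset.univ) => hAcard i
      rw [hsumS, Finset.sum_add_distrib, Finset.sum_add_distrib, ← Finset.mul_sum, hsumS,
        Finset.sum_const, Finset.card_univ, nsmul_eq_mul] at h1
      have h2 : (Fintype.card {v // v ∈ Ty N} : ℝ) * (ϑ * k) ≤ ε1 * k := by
        have h3 : (Fintype.card {v // v ∈ Ty N} : ℝ) * ϑ ≤ ε1 := by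
          rw [hϑ, mul_div_assoc', div_le_iff₀ hTnpos, hTn]
          nlinarith
        calc (Fintype.card {v // v ∈ Ty N} : ℝ) * (ϑ * k) =
              (Fintype.card {v // v ∈ Ty N} : ℝ) * ϑ * k := by ring
          _ ≤ ε1 * k := mul_le_mul_of_nonneg_right h3 (Nat.cast_nonneg _)
      linarith
    have htot2 : fro (V * (Ψ g).1 - (ψ₁ g).1 * V) ≤ 9 * ε1 * k := by
      rw [Finset.sum_add_distrib, ← Finset.mul_sum, ← Finset.mul_sum, Finset.sum_sub_distrib,
        hsumS, hsumt] at htot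
      linarith
    rw [hsDist_eq]
    refine div_le_of_le_mul₀ (Real.sqrt_nonneg _) hε.le ?_
    unfold fn
    rw [hD, Fintype.card_fin]
    have h9 : 9 * ε1 = ε ^ 2 := by rw [hε1]; ring
    rw [h9] at htot2
    calc Real.sqrt (fro (V * (Ψ g).1 - (ψ₁ g).1 * V)) ≤ Real.sqrt (ε ^ 2 * k) :=
          Real.sqrt_le_sqrt htot2
      _ = ε * Real.sqrt k := by rw [Real.sqrt_mul (by positivity), Real.sqrt_sq hε.le]

end adj

end Pool.Agent.H698R3.Amalg
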