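import Pool.Agent.H698R3.AmMain

set_option autoImplicit false

/-! Frobenius norms. -/

namespace Pool.Agent.H698R3.Amalg

open Matrix

section fro

variable {X Y Z : Type} [Fintype X] [Fintype Y] [Fintype Z]

/-- squared Frobenius norm -/
noncomputable def fro (A : Matrix X Y ℂ) : ℝ := ∑ x, ∑ y, ‖A x y‖ ^ 2

theorem fro_nonneg (A : Matrix X Y ℂ) : 0 ≤ fro A := by
  unfold fro; positivity

theorem fro_eq (A : Matrix X Y ℂ) : (fro A : ℂ) = trace (Aᴴ * A) := by
  unfold fro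
  rw [Matrix.trace, Finset.sum_comm]
  push_cast
  refine Finset.sum_congr rfl fun y _ => ?_
  rw [Matrix.diag_apply, Matrix.mul_apply]
  refine Finset.sum_congr rfl fun x _ => ?_
  rw [Matrix.conjTranspose_apply, Complex.star_def, ← Complex.normSq_eq_conj_mul_self,
    Complex.normSq_eq_norm_sq]
  push_cast
  rfl

theorem fro_eq_re (A : Matrix X Y ℂ) : fro A = (trace (Aᴴ * A)).re := by
  rw [← fro_eq, Complex.ofReal_re]

theorem fro_zero : fro (0 : Matrix X Y ℂ) = 0 := by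
  simp [fro]

theorem fro_neg (A : Matrix X Y ℂ) : fro (-A) = fro A := by
  simp [fro]

theorem fro_sub_comm (A B : Matrix X Y ℂ) : fro (A - B) = fro (B - A) := by
  rw [← neg_sub, fro_neg]

theorem fro_smul (c : ℂ) (A : Matrix X Y ℂ) : fro (c • A) = ‖c‖ ^ 2 * fro A := by
  simp only [fro, Matrix.smul_apply, smul_eq_mul, norm_mul, mul_pow, Finset.mul_sum]

theorem fro_eq_zero {A : Matrix X Y ℂ} (h : fro A = 0) : A = 0 := by
  unfold fro at h
  ext x y
  rw [Finset.sum_eq_zero_iff_of_nonneg (fun x _ => by positivity)] at h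
  have h1 := h x (Finset.mem_univ _)
  rw [Finset.sum_eq_zero_iff_of_nonneg (fun x _ => by positivity)] at h1
  have h2 := h1 y (Finset.mem_univ _)
  simpa using h2

theorem fro_conjTranspose (A : Matrix X Y ℂ) : fro Aᴴ = fro A := by
  unfold fro
  rw [Finset.sum_comm]
  simp [Matrix.conjTranspose_apply]

theorem fro_mul_left [DecidableEq X] (U : Matrix Z X ℂ) (hU : Uᴴ * U = 1) (A : Matrix X Y ℂ) :
    fro (U * A) = fro A := by
  rw [fro_eq_re, fro_eq_re, conjTranspose_mul, Matrix.mul_assoc, ← Matrix.mul_assoc Uᴴ, hU,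
    Matrix.one_mul]

theorem fro_mul_right [DecidableEq Y] (U : Matrix Y Z ℂ) (hU : U * Uᴴ = 1) (A : Matrix X Y ℂ) :
    fro (A * U) = fro A := by
  rw [← fro_conjTranspose, conjTranspose_mul, fro_mul_left _ _ _, fro_conjTranspose]
  rw [conjTranspose_conjTranspose, hU]

theorem fro_submatrix_le (A : Matrix X Y ℂ) (j : Z → Y) (hj : Function.Injective j) :
    fro (A.submatrix id j) ≤ fro A := by
  unfold fro
  refine Finset.sum_le_sum fun x _ => ?_
  simp only [Matrix.submatrix_apply, id]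
  classical
  calc ∑ z, ‖A x (j z)‖ ^ 2 = ∑ y ∈ Finset.univ.image j, ‖A x y‖ ^ 2 :=
        (Finset.sum_image (f := fun y => ‖A x y‖ ^ 2) (fun a _ b _ h => hj h)).symm
    _ ≤ ∑ y, ‖A x y‖ ^ 2 :=
        Finset.sum_le_sum_of_subset_of_nonneg (Finset.subset_univ _) (fun _ _ _ => by positivity)

/-- Frobenius norm -/
noncomputable def fn (A : Matrix X Y ℂ) : ℝ := Real.sqrt (fro A)

theorem fn_nonneg (A : Matrix X Y ℂ) : 0 ≤ fn A := Real.sqrt_nonneg _

theorem fn_sq (A : Matrix X Y ℂ) : fn A ^ 2 = fro A := Real.sq_sqrt (fro_nonneg A)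

theorem fn_eq_norm (A : Matrix X Y ℂ) :
    fn A = ‖(WithLp.toLp 2 (fun q : X × Y => A q.1 q.2) : EuclideanSpace ℂ (X × Y))‖ := by
  rw [EuclideanSpace.norm_eq, fn, fro, ← Finset.sum_product']
  rfl

theorem fn_add_le (A B : Matrix X Y ℂ) : fn (A + B) ≤ fn A + fn B := by
  rw [fn_eq_norm, fn_eq_norm, fn_eq_norm]
  refine le_trans (le_of_eq ?_) (norm_add_le _ _)
  rfl

theorem fn_sub_comm (A B : Matrix X Y ℂ) : fn (A - B) = fn (B - A) := by
  unfold fn; rw [fro_sub_comm]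

theorem fn_sub_le (A B C : Matrix X Y ℂ) : fn (A - C) ≤ fn (A - B) + fn (B - C) := by
  have := fn_add_le (A - B) (B - C)
  rwa [sub_add_sub_cancel] at this

theorem fn_smul (c : ℂ) (A : Matrix X Y ℂ) : fn (c • A) = ‖c‖ * fn A := by
  unfold fn
  rw [fro_smul, Real.sqrt_mul (by positivity), Real.sqrt_sq (norm_nonneg _)]

theorem fn_sum_le {ι : Type} (s : Finset ι) (A : ι → Matrix X Y ℂ) :
    fn (∑ i ∈ s, A i) ≤ ∑ i ∈ s, fn (A i) := by
  classical
  induction s using Finset.induction_on with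
  | empty => simp [fn, fro_zero]
  | insert a s ha ih =>
    rw [Finset.sum_insert ha, Finset.sum_insert ha]
    exact (fn_add_le _ _).trans (by linarith)

theorem fn_zero : fn (0 : Matrix X Y ℂ) = 0 := by simp [fn, fro_zero]

theorem norm_trace_le (A : Matrix X X ℂ) : ‖trace A‖ ^ 2 ≤ (Fintype.card X : ℝ) * fro A := by
  have h1 : ‖trace A‖ ≤ ∑ x, ‖A x x‖ := norm_sum_le _ _
  have h2 : (∑ x, ‖A x x‖) ^ 2 ≤ (Fintype.card X : ℝ) * ∑ x, ‖A x x‖ ^ 2 := by
    have := sq_sum_le_card_mul_sum_sq (s := (Finset.univ : Finset X)) (f := fun x => ‖A x x‖)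
    simpa using this
  have h3 : ∑ x, ‖A x x‖ ^ 2 ≤ fro A := by
    unfold fro
    refine Finset.sum_le_sum fun x _ => ?_
    exact Finset.single_le_sum (f := fun y => ‖A x y‖ ^ 2) (fun _ _ => by positivity)
      (Finset.mem_univ x)
  have h4 : ‖trace A‖ ^ 2 ≤ (∑ x, ‖A x x‖) ^ 2 := by
    apply pow_le_pow_left₀ (norm_nonneg _) h1
  have h5 : (Fintype.card X : ℝ) * ∑ x, ‖A x x‖ ^ 2 ≤ (Fintype.card X : ℝ) * fro A :=
    mul_le_mul_of_nonneg_left h3 (Nat.cast_nonneg _)
  linarith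

end fro

section unit

variable {X : Type} [Fintype X] [DecidableEq X]

theorem uh_mul (U : Matrix.unitaryGroup X ℂ) : (U.1)ᴴ * U.1 = 1 :=
  Matrix.mem_unitaryGroup_iff'.mp U.2

theorem mul_uh (U : Matrix.unitaryGroup X ℂ) : U.1 * (U.1)ᴴ = 1 :=
  Matrix.mem_unitaryGroup_iff.mp U.2

theorem coe_inv_u (U : Matrix.unitaryGroup X ℂ) : (U⁻¹).1 = (U.1)ᴴ := rfl

/-- The normalised Hilbert-Schmidt distance. -/
noncomputable def hsDist (A B : Matrix X X ℂ) : ℝ :=
  Real.sqrt ((Matrix.trace ((A - B)ᴴ * (A - B))).re / Fintype.card X)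

theorem hsDist_eq (A B : Matrix X X ℂ) : hsDist A B = fn (A - B) / Real.sqrt (Fintype.card X) := by
  unfold hsDist fn
  rw [← fro_eq_re, Real.sqrt_div' _ (Nat.cast_nonneg _)]

theorem hsDist_self (A : Matrix X X ℂ) : hsDist A A = 0 := by
  rw [hsDist_eq, sub_self, fn_zero, zero_div]

theorem hsDist_comm (A B : Matrix X X ℂ) : hsDist A B = hsDist B A := by
  rw [hsDist_eq, hsDist_eq, fn_sub_comm]

theorem hsDist_tri (A B C : Matrix X X ℂ) : hsDist A C ≤ hsDist A B + hsDist B C := by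
  rw [hsDist_eq, hsDist_eq, hsDist_eq, ← add_div]
  exact div_le_div_of_nonneg_right (fn_sub_le A B C) (Real.sqrt_nonneg _)

theorem hsDist_left (U : Matrix.unitaryGroup X ℂ) (A B : Matrix X X ℂ) :
    hsDist (U.1 * A) (U.1 * B) = hsDist A B := by
  rw [hsDist_eq, hsDist_eq, ← Matrix.mul_sub]
  unfold fn
  rw [fro_mul_left _ (uh_mul U)]

theorem hsDist_right (U : Matrix.unitaryGroup X ℂ) (A B : Matrix X X ℂ) :
    hsDist (A * U.1) (B * U.1) = hsDist A B := by
  rw [hsDist_eq, hsDist_eq, ← Matrix.sub_mul]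
  unfold fn
  rw [fro_mul_right _ (mul_uh U)]

end unit

/-- The class of the finite-dimensional unitary groups with the normalised Hilbert-Schmidt
distances. -/
noncomputable def hsCls : Cls where
  C k := Matrix.unitaryGroup (Fin k) ℂ
  grp k := (inferInstance : Group (Matrix.unitaryGroup (Fin k) ℂ))
  d _ U V := hsDist U.1 V.1

theorem hsCls_metric : hsCls.IsMetric where
  self _ x := hsDist_self x.1
  symm _ x y := hsDist_comm x.1 y.1
  tri _ x y z := hsDist_tri x.1 y.1 z.1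
  left k x y z := hsDist_left (X := Fin k) x y.1 z.1
  right k x y z := hsDist_right (X := Fin k) x y.1 z.1

end Pool.Agent.H698R3.Amalg
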