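import Pool.Agent.H698R3.HsRep

set_option autoImplicit false

/-! Equivalence of unitary representations of finite groups with close characters. -/

namespace Pool.Agent.H698R3.Amalg

open Matrix

section

variable {H : Type} [Group H] [Fintype H] {X Y : Type} [Fintype X] [DecidableEq X] [Fintype Y]
  [DecidableEq Y] (π : H →* Matrix.unitaryGroup X ℂ) (π' : H →* Matrix.unitaryGroup Y ℂ)

/-- common subrepresentation -/
structure Com (Z : Type) [Fintype Z] [DecidableEq Z] where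
  J₁ : Matrix X Z ℂ
  J₂ : Matrix Y Z ℂ
  σ : H →* Matrix.unitaryGroup Z ℂ
  i₁ : J₁ᴴ * J₁ = 1
  i₂ : J₂ᴴ * J₂ = 1
  e₁ : ∀ h, (π h).1 * J₁ = J₁ * (σ h).1
  e₂ : ∀ h, (π' h).1 * J₂ = J₂ * (σ h).1

variable {π π'}

theorem inter_adj {Z : Type} [Fintype Z] [DecidableEq Z] {σ : H →* Matrix.unitaryGroup Z ℂ}
    {J : Matrix X Z ℂ} (e : ∀ h, (π h).1 * J = J * (σ h).1) (h : H) :
    Jᴴ * (π h).1 = (σ h).1 * Jᴴ := by
  have h1 := congrArg Matrix.conjTranspose (e h⁻¹)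
  rw [conjTranspose_mul, conjTranspose_mul, rep_inv, rep_inv, conjTranspose_conjTranspose,
    conjTranspose_conjTranspose] at h1
  exact h1

theorem card_le_of_isometry {Z : Type} [Fintype Z] [DecidableEq Z] {J : Matrix X Z ℂ}
    (hJ : Jᴴ * J = 1) : Fintype.card Z ≤ Fintype.card X := by
  have := (orthonormal_of_isometry J hJ).linearIndependent.fintype_card_le_finrank
  rwa [finrank_euclideanSpace] at this

theorem trace_split {Z : Type} [Fintype Z] [DecidableEq Z] {σ : H →* Matrix.unitaryGroup Z ℂ}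
    {J : Matrix X Z ℂ} (hJ : Jᴴ * J = 1) (e : ∀ h, (π h).1 * J = J * (σ h).1) (h : H) :
    trace ((π h).1 * (1 - J * Jᴴ)) = trace (π h).1 - trace (σ h).1 := by
  rw [Matrix.mul_sub, Matrix.mul_one, trace_sub, ← Matrix.mul_assoc, e, Matrix.trace_mul_comm,
    ← Matrix.mul_assoc, hJ, Matrix.one_mul]

theorem single_entry (A : Matrix X X ℂ) (B : Matrix Y Y ℂ) (x : X) (y : Y) :
    (A * Matrix.single x y (1 : ℂ) * B) x y = A x x * B y y := by
  rw [Matrix.mul_apply, Finset.sum_eq_single y]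
  · rw [Matrix.mul_single_apply_same, mul_one]
  · intro b _ hb
    rw [Matrix.mul_single_apply_of_ne _ _ _ _ _ hb, zero_mul]
  · intro h; exact absurd (Finset.mem_univ y) h

theorem Com.extend {Z : Type} [Fintype Z] [DecidableEq Z] (c : Com π π' Z)
    (hne : ∑ h, (trace (π h).1 - trace (c.σ h).1) *
      star (trace (π' h).1 - trace (c.σ h).1) ≠ 0) :
    ∃ (Z' : Type) (_ : Fintype Z') (_ : DecidableEq Z') (c' : Com π π' Z'),
      Fintype.card Z < Fintype.card Z' ∧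
      ∃ E : Matrix Z' Z ℂ, c'.J₁ * E = c.J₁ ∧ c'.J₂ * E = c.J₂ := by
  classical
  obtain ⟨J₁, J₂, σ, i₁, i₂, e₁, e₂⟩ := c
  dsimp only at hne ⊢
  set P₁ : Matrix X X ℂ := 1 - J₁ * J₁ᴴ with hP₁
  set P₂ : Matrix Y Y ℂ := 1 - J₂ * J₂ᴴ with hP₂
  have hP₁J : J₁ᴴ * P₁ = 0 := by
    rw [hP₁, Matrix.mul_sub, Matrix.mul_one, ← Matrix.mul_assoc, i₁, Matrix.one_mul, sub_self]
  have hP₂J : P₂ * J₂ = 0 := by
    rw [hP₂, Matrix.sub_mul, Matrix.one_mul, Matrix.mul_assoc, i₂, Matrix.mul_one, sub_self]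
  have hP₂h : P₂ᴴ = P₂ := by
    rw [hP₂, conjTranspose_sub, conjTranspose_one, conjTranspose_mul, conjTranspose_conjTranspose]
  have hcom₁ : ∀ h, J₁ᴴ * (π h).1 = (σ h).1 * J₁ᴴ := inter_adj e₁
  have hcom₂ : ∀ h, J₂ᴴ * (π' h).1 = (σ h).1 * J₂ᴴ := inter_adj e₂
  -- intertwiners
  let S : Matrix X Y ℂ → Matrix X Y ℂ := fun M => ∑ h, (π h).1 * P₁ * M * P₂ * ((π' h).1)ᴴ
  have hS : ∃ M, S M ≠ 0 := by
    by_contra hcon
    push Not at hcon
    apply hne
    have h1 : ∀ x y, ∑ h, ((π h).1 * P₁) x x * (P₂ * ((π' h).1)ᴴ) y y = 0 := by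
      intro x y
      have h2 : (∑ h, ((π h).1 * P₁ * (Matrix.single x y (1 : ℂ)) * P₂ * ((π' h).1)ᴴ) :
          Matrix X Y ℂ) x y = 0 :=
        congrFun (congrFun (hcon (Matrix.single x y 1)) x) y
      rw [Matrix.sum_apply] at h2
      refine Eq.trans (Finset.sum_congr rfl fun h _ => ?_) h2
      rw [Matrix.mul_assoc _ P₂, single_entry]
    have h2 : ∑ h, trace ((π h).1 * P₁) * trace (P₂ * ((π' h).1)ᴴ) = 0 := by
      have h3 : ∀ h, trace ((π h).1 * P₁) * trace (P₂ * ((π' h).1)ᴴ) =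
          ∑ x, ∑ y, ((π h).1 * P₁) x x * (P₂ * ((π' h).1)ᴴ) y y := by
        intro h
        rw [Matrix.trace, Matrix.trace, Finset.sum_mul_sum]
        rfl
      rw [Finset.sum_congr rfl fun h _ => h3 h, Finset.sum_comm]
      refine Finset.sum_eq_zero fun x _ => ?_
      rw [Finset.sum_comm]
      exact Finset.sum_eq_zero fun y _ => h1 x y
    refine Eq.trans (Finset.sum_congr rfl fun h _ => ?_) h2
    rw [hP₁, trace_split i₁ e₁]
    congr 1
    have h4 : P₂ * ((π' h).1)ᴴ = ((π' h).1 * P₂)ᴴ := by rw [conjTranspose_mul, hP₂h]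
    rw [h4, trace_conjTranspose, hP₂, trace_split i₂ e₂]
  obtain ⟨M, hM⟩ := hS
  set S₀ := S M with hS₀
  have hint : ∀ g, (π g).1 * S₀ = S₀ * (π' g).1 := by
    intro g
    have h1 : (π g).1 * S₀ * ((π' g).1)ᴴ = S₀ := by
      rw [hS₀]
      show (π g).1 * (∑ h, (π h).1 * P₁ * M * P₂ * ((π' h).1)ᴴ) * ((π' g).1)ᴴ =
        ∑ h, (π h).1 * P₁ * M * P₂ * ((π' h).1)ᴴ
      rw [Matrix.mul_sum, Matrix.sum_mul]
      refine Fintype.sum_equiv (Equiv.mulLeft g) _ _ fun h => ?_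
      rw [Equiv.coe_mulLeft, rep_mul, rep_mul, conjTranspose_mul]
      simp only [Matrix.mul_assoc]
    rw [← h1, Matrix.mul_assoc _ ((π' g).1)ᴴ, uh_mul, Matrix.mul_one]
    rw [h1]
  have hJS : J₁ᴴ * S₀ = 0 := by
    rw [hS₀]
    show J₁ᴴ * (∑ h, (π h).1 * P₁ * M * P₂ * ((π' h).1)ᴴ) = 0
    rw [Matrix.mul_sum]
    refine Finset.sum_eq_zero fun h _ => ?_
    have : J₁ᴴ * ((π h).1 * P₁ * M * P₂ * ((π' h).1)ᴴ) =
      (J₁ᴴ * (π h).1) * P₁ * M * P₂ * ((π' h).1)ᴴ := by simp only [Matrix.mul_assoc]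
    rw [this, hcom₁, Matrix.mul_assoc (σ h).1, hP₁J]
    simp
  have hSJ : S₀ * J₂ = 0 := by
    rw [hS₀]
    show (∑ h, (π h).1 * P₁ * M * P₂ * ((π' h).1)ᴴ) * J₂ = 0
    rw [Matrix.sum_mul]
    refine Finset.sum_eq_zero fun h _ => ?_
    have h1 : ((π' h).1)ᴴ * J₂ = J₂ * (σ h⁻¹).1 := by rw [← rep_inv, e₂]
    rw [Matrix.mul_assoc _ _ J₂, h1, ← Matrix.mul_assoc, Matrix.mul_assoc _ P₂ J₂, hP₂J]
    simp
  -- the positive operator
  set B := S₀ᴴ * S₀ with hB
  have hBh : B.IsHermitian := by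
    show Bᴴ = B
    rw [hB, conjTranspose_mul, conjTranspose_conjTranspose]
  have hBcom : ∀ g, B * (π' g).1 = (π' g).1 * B := by
    intro g
    have h1 := inter_adj (π := π) (σ := π') (J := S₀) hint g
    rw [hB, Matrix.mul_assoc, ← hint, ← Matrix.mul_assoc, h1, Matrix.mul_assoc]
  obtain ⟨W, p, hW⟩ := simdiag (fun _ : Unit => B) (fun _ => hBh) (fun _ _ => rfl)
  set q : Y → ℂ := fun y => p y () with hq
  have hW' : B * W.1 = W.1 * diagonal q := hW ()
  have hWBW : (W.1)ᴴ * B * W.1 = diagonal q := by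
    rw [Matrix.mul_assoc, hW', ← Matrix.mul_assoc, uh_mul, Matrix.one_mul]
  set τ0 := cjR W π' with hτ0
  have hblk : ∀ g x y, q x ≠ q y → (τ0 g).1 x y = 0 := by
    intro g x y hxy
    refine zero_of_commute (ι := Unit) _ q ?_ x y hxy
    rw [hτ0, cjR_coe, ← hWBW]
    calc (W.1)ᴴ * (π' g).1 * W.1 * ((W.1)ᴴ * B * W.1)
        = (W.1)ᴴ * (π' g).1 * (W.1 * (W.1)ᴴ) * B * W.1 := by simp only [Matrix.mul_assoc]
      _ = (W.1)ᴴ * ((π' g).1 * B) * W.1 := by
          rw [mul_uh, Matrix.mul_one]; simp only [Matrix.mul_assoc]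
      _ = (W.1)ᴴ * (B * (π' g).1) * W.1 := by rw [hBcom]
      _ = (W.1)ᴴ * B * (W.1 * (W.1)ᴴ) * (π' g).1 * W.1 := by
          rw [mul_uh, Matrix.mul_one]; simp only [Matrix.mul_assoc]
      _ = _ := by simp only [Matrix.mul_assoc]
  -- a nonzero eigenvalue
  have hfq : (fro S₀ : ℂ) = ∑ y, q y := by
    rw [fro_eq, ← hB]
    have h1 : trace B = trace ((W.1)ᴴ * B * W.1) := by
      rw [Matrix.trace_mul_comm ((W.1)ᴴ * B) W.1, ← Matrix.mul_assoc, mul_uh, Matrix.one_mul]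
    rw [h1, hWBW, Matrix.trace_diagonal]
  have hex : ∃ y₀, q y₀ ≠ 0 := by
    by_contra hcon
    push Not at hcon
    rw [Finset.sum_eq_zero fun y _ => hcon y] at hfq
    have h1 : fro S₀ = 0 := by exact_mod_cast hfq
    exact hM (fro_eq_zero h1)
  obtain ⟨y₀, hy₀⟩ := hex
  have hr : (q y₀ : ℂ) = ((∑ x, ‖(S₀ * W.1) x y₀‖ ^ 2 : ℝ) : ℂ) := by
    have h1 : diagonal q y₀ y₀ = ((S₀ * W.1)ᴴ * (S₀ * W.1)) y₀ y₀ := by
      rw [← hWBW, hB, conjTranspose_mul]
      simp only [Matrix.mul_assoc]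
    rw [Matrix.diagonal_apply_eq] at h1
    rw [h1, Matrix.mul_apply]
    push_cast
    refine Finset.sum_congr rfl fun x _ => ?_
    rw [Matrix.conjTranspose_apply, Complex.star_def, ← Complex.normSq_eq_conj_mul_self,
      Complex.normSq_eq_norm_sq]
    push_cast
    rfl
  set r : ℝ := ∑ x, ‖(S₀ * W.1) x y₀‖ ^ 2 with hrdef
  have hrpos : 0 < r := by
    have h0 : 0 ≤ r := by rw [hrdef]; positivity
    rcases h0.lt_or_eq with h | h
    · exact h
    · exfalso; apply hy₀; rw [hr, ← h]; simp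
  -- the new pieces
  let Yc := {y : Y // q y = q y₀}
  let τ : H →* Matrix.unitaryGroup Yc ℂ := blk τ0 q hblk (q y₀)
  let W' : Matrix Y Yc ℂ := W.1 * Jm (Subtype.val : Yc → Y)
  have hW'i : W'ᴴ * W' = 1 := by
    show (W.1 * Jm (Subtype.val : Yc → Y))ᴴ * (W.1 * Jm (Subtype.val : Yc → Y)) = 1
    rw [conjTranspose_mul, Matrix.mul_assoc, ← Matrix.mul_assoc (W.1)ᴴ, uh_mul, Matrix.one_mul,
      Jm_isometry _ Subtype.val_injective]
  have hW'e : ∀ h, (π' h).1 * W' = W' * (τ h).1 := by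
    intro h
    show (π' h).1 * (W.1 * Jm (Subtype.val : Yc → Y)) = W.1 * Jm (Subtype.val : Yc → Y) * (τ h).1
    rw [← Matrix.mul_assoc, ← cjR_inter, Matrix.mul_assoc, blk_inter, Matrix.mul_assoc]
  have hBW' : B * W' = (r : ℂ) • W' := by
    show B * (W.1 * Jm (Subtype.val : Yc → Y)) = (r : ℂ) • (W.1 * Jm (Subtype.val : Yc → Y))
    rw [← Matrix.mul_assoc, hW', Matrix.mul_assoc, ← Matrix.mul_smul]
    congr 1
    ext x y
    rw [Matrix.diagonal_mul, Matrix.smul_apply, Jm_apply, smul_eq_mul]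
    by_cases h : x = y.1
    · rw [if_pos h, h, y.2, hr]
    · rw [if_neg h, mul_zero, mul_zero]
  let c0 : ℂ := ((Real.sqrt r)⁻¹ : ℝ)
  have hc0 : star c0 * c0 * r = 1 := by
    show star (((Real.sqrt r)⁻¹ : ℝ) : ℂ) * (((Real.sqrt r)⁻¹ : ℝ) : ℂ) * r = 1
    rw [Complex.star_def, Complex.conj_ofReal]
    have h1 : (Real.sqrt r)⁻¹ * (Real.sqrt r)⁻¹ * r = 1 := by
      rw [← mul_inv, Real.mul_self_sqrt hrpos.le, inv_mul_cancel₀ hrpos.ne']
    exact_mod_cast h1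
  let K : Matrix X Yc ℂ := c0 • (S₀ * W')
  have hKi : Kᴴ * K = 1 := by
    show (c0 • (S₀ * W'))ᴴ * (c0 • (S₀ * W')) = 1
    have h1 : (S₀ * W')ᴴ * (S₀ * W') = (r : ℂ) • (1 : Matrix Yc Yc ℂ) := by
      rw [conjTranspose_mul, Matrix.mul_assoc, ← Matrix.mul_assoc S₀ᴴ, ← hB, hBW',
        Matrix.mul_smul, hW'i]
    rw [conjTranspose_smul, Matrix.smul_mul, Matrix.mul_smul, h1, smul_smul, smul_smul,
      hc0, one_smul]
  have hKe : ∀ h, (π h).1 * K = K * (τ h).1 := by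
    intro h
    show (π h).1 * (c0 • (S₀ * W')) = c0 • (S₀ * W') * (τ h).1
    rw [Matrix.mul_smul, Matrix.smul_mul]
    congr 1
    rw [← Matrix.mul_assoc, hint, Matrix.mul_assoc, hW'e, ← Matrix.mul_assoc]
  have hJK : J₁ᴴ * K = 0 := by
    show J₁ᴴ * (c0 • (S₀ * W')) = 0
    rw [Matrix.mul_smul, ← Matrix.mul_assoc, hJS, Matrix.zero_mul, smul_zero]
  have hJW : J₂ᴴ * W' = 0 := by
    have h1 : (r : ℂ) • (J₂ᴴ * W') = 0 := by
      calc (r : ℂ) • (J₂ᴴ * W') = J₂ᴴ * (B * W') := by rw [hBW', Matrix.mul_smul]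
        _ = (S₀ * J₂)ᴴ * (S₀ * W') := by
            rw [hB, conjTranspose_mul]; simp only [Matrix.mul_assoc]
        _ = 0 := by rw [hSJ]; simp
    rcases smul_eq_zero.mp h1 with h2 | h2
    · exact absurd (by exact_mod_cast h2) hrpos.ne'
    · exact h2
  have hiso : ∀ {A : Type} [Fintype A] [DecidableEq A] (J : Matrix A Z ℂ) (L : Matrix A Yc ℂ),
      Jᴴ * J = 1 → Lᴴ * L = 1 → Jᴴ * L = 0 → (fromCols J L)ᴴ * fromCols J L = 1 := by
    intro A _ _ J L h1 h2 h3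
    have h4 : Lᴴ * J = 0 := by
      have := congrArg Matrix.conjTranspose h3
      rwa [conjTranspose_mul, conjTranspose_conjTranspose, conjTranspose_zero] at this
    rw [conjTranspose_fromCols_eq_fromRows_conjTranspose, fromRows_mul_fromCols, h1, h2, h3, h4,
      fromBlocks_one]
  have hinter : ∀ {A : Type} [Fintype A] [DecidableEq A] (ρ : H →* Matrix.unitaryGroup A ℂ)
      (J : Matrix A Z ℂ) (L : Matrix A Yc ℂ), (∀ h, (ρ h).1 * J = J * (σ h).1) →
      (∀ h, (ρ h).1 * L = L * (τ h).1) →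
      ∀ h, (ρ h).1 * fromCols J L = fromCols J L * (dsR σ τ h).1 := by
    intro A _ _ ρ J L h1 h2 h
    rw [dsR_coe, mul_fromCols, fromCols_mul_fromBlocks, h1, h2]
    simp
  refine ⟨Z ⊕ Yc, inferInstance, inferInstance,
    ⟨fromCols J₁ K, fromCols J₂ W', dsR σ τ, hiso J₁ K i₁ hKi hJK, hiso J₂ W' i₂ hW'i hJW,
      hinter π J₁ K e₁ hKe, hinter π' J₂ W' e₂ hW'e⟩, ?_, fromRows 1 0, ?_, ?_⟩
  · rw [Fintype.card_sum]
    have : 0 < Fintype.card Yc := Fintype.card_pos_iff.mpr ⟨⟨y₀, rfl⟩⟩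
    omega
  · show fromCols J₁ K * fromRows 1 0 = J₁
    rw [fromCols_mul_fromRows, Matrix.mul_one, Matrix.mul_zero, add_zero]
  · show fromCols J₂ W' * fromRows 1 0 = J₂
    rw [fromCols_mul_fromRows, Matrix.mul_one, Matrix.mul_zero, add_zero]

/-- Representations with close characters are equivalent, and the equivalence may be chosen to
extend a given partial equivalence. -/
theorem equiv_of_char (hchar : ∑ h, ‖trace (π h).1 - trace (π' h).1‖ ^ 2 < 1) :
    ∀ (n : ℕ) (Z : Type) [Fintype Z] [DecidableEq Z] (c : Com π π' Z),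
      Fintype.card X - Fintype.card Z = n →
      ∃ u : Matrix X Y ℂ, uᴴ * u = 1 ∧ u * uᴴ = 1 ∧ (∀ h, (π h).1 * u = u * (π' h).1) ∧
        u * c.J₂ = c.J₁ := by
  intro n
  induction n using Nat.strong_induction_on with
  | _ n ih =>
    intro Z _ _ c hn
    by_cases hne : ∑ h, (trace (π h).1 - trace (c.σ h).1) *
      star (trace (π' h).1 - trace (c.σ h).1) = 0
    · -- nothing in common: the complements vanish
      have hZX := card_le_of_isometry c.i₁
      have hZY := card_le_of_isometry c.i₂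
      have h1 : ∀ a b : ℂ, ‖a - b‖ ^ 2 = ‖a‖ ^ 2 + ‖b‖ ^ 2 - 2 * (a * star b).re := by
        intro a b
        rw [Complex.star_def]
        have := Complex.normSq_sub a b
        simp only [Complex.normSq_eq_norm_sq] at this
        linarith
      have h2 : ∀ h, ‖trace (π h).1 - trace (π' h).1‖ ^ 2 =
          ‖trace (π h).1 - trace (c.σ h).1‖ ^ 2 + ‖trace (π' h).1 - trace (c.σ h).1‖ ^ 2 -
          2 * ((trace (π h).1 - trace (c.σ h).1) *
            star (trace (π' h).1 - trace (c.σ h).1)).re := by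
        intro h
        rw [← h1, sub_sub_sub_cancel_right]
      rw [Finset.sum_congr rfl fun h _ => h2 h, Finset.sum_sub_distrib, Finset.sum_add_distrib,
        ← Finset.mul_sum, ← Complex.re_sum, hne, Complex.zero_re, mul_zero, sub_zero] at hchar
      have h3 : ‖trace (π 1).1 - trace (c.σ 1).1‖ ^ 2 ≤
          ∑ h, ‖trace (π h).1 - trace (c.σ h).1‖ ^ 2 :=
        Finset.single_le_sum (f := fun h => ‖trace (π h).1 - trace (c.σ h).1‖ ^ 2)
          (fun _ _ => by positivity) (Finset.mem_univ 1)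
      have h4 : ‖trace (π' 1).1 - trace (c.σ 1).1‖ ^ 2 ≤
          ∑ h, ‖trace (π' h).1 - trace (c.σ h).1‖ ^ 2 :=
        Finset.single_le_sum (f := fun h => ‖trace (π' h).1 - trace (c.σ h).1‖ ^ 2)
          (fun _ _ => by positivity) (Finset.mem_univ 1)
      rw [rep_one, rep_one, Matrix.trace_one, Matrix.trace_one] at h3 h4
      have h5 : ∀ a b : ℕ, b ≤ a → ‖(a : ℂ) - (b : ℂ)‖ ^ 2 < 1 → b = a := by
        intro a b hba hlt
        rw [← Nat.cast_sub hba, Complex.norm_natCast] at hlt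
        have h6 : (a - b) ^ 2 < 1 := by exact_mod_cast hlt
        have h7 : a - b = 0 := by
          by_contra h8
          have : 1 ≤ a - b := Nat.one_le_iff_ne_zero.mpr h8
          nlinarith
        omega
      have hcX : Fintype.card Z = Fintype.card X := by
        apply h5 _ _ hZX
        have : 0 ≤ ∑ h, ‖trace (π' h).1 - trace (c.σ h).1‖ ^ 2 := by positivity
        linarith
      have hcY : Fintype.card Z = Fintype.card Y := by
        apply h5 _ _ hZY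
        have : 0 ≤ ∑ h, ‖trace (π h).1 - trace (c.σ h).1‖ ^ 2 := by positivity
        linarith
      have k₁ : c.J₁ * c.J₁ᴴ = 1 := mul_of_card _ c.i₁ hcX
      have k₂ : c.J₂ * c.J₂ᴴ = 1 := mul_of_card _ c.i₂ hcY
      refine ⟨c.J₁ * c.J₂ᴴ, ?_, ?_, ?_, ?_⟩
      · rw [conjTranspose_mul, conjTranspose_conjTranspose, Matrix.mul_assoc,
          ← Matrix.mul_assoc c.J₁ᴴ, c.i₁, Matrix.one_mul, k₂]
      · rw [conjTranspose_mul, conjTranspose_conjTranspose, Matrix.mul_assoc,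
          ← Matrix.mul_assoc c.J₂ᴴ, c.i₂, Matrix.one_mul, k₁]
      · intro h
        rw [← Matrix.mul_assoc, c.e₁, Matrix.mul_assoc, Matrix.mul_assoc, inter_adj c.e₂]
      · rw [Matrix.mul_assoc, c.i₂, Matrix.mul_one]
    · obtain ⟨Z', _, _, c', hlt, E, hE₁, hE₂⟩ := c.extend hne
      have hZX' := card_le_of_isometry c'.i₁
      obtain ⟨u, hu1, hu2, hu3, hu4⟩ := ih (Fintype.card X - Fintype.card Z') (by omega) Z' c' rfl
      refine ⟨u, hu1, hu2, hu3, ?_⟩
      rw [← hE₂, ← Matrix.mul_assoc, hu4, hE₁]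

end

end Pool.Agent.H698R3.Amalg
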