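import Pool.Agent.H698R3.HsAdjust
import Pool.Agent.H698R3.AmPermFinal

set_option autoImplicit false

/-! Stability of amalgams for the class of unitary groups. -/

namespace Pool.Agent.H698R3.Amalg

open Matrix Filter Topology

section data

variable {H G : Type} [Group H] [Fintype H] [Group G] (f : H →* G) (N : Subgroup G) [N.Normal]
  [Finite N]

theorem cardFib {k : ℕ} (ψ : G →* Matrix.unitaryGroup (Fin k) ℂ) {W : Matrix.unitaryGroup (Fin k) ℂ}
    {p : Fin k → N → ℂ} (hp : IsLab N (cjR W ψ) p) (v : N → ℂ) [DecidablePred fun x => p x = v] :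
    Fintype.card {x : Fin k // p x = v} = sH N ψ v := by
  rw [← sH_cj N W ψ v]
  exact (Ee_lab N hp v).symm

open Classical in
theorem sum_lab {k : ℕ} (ψ : G →* Matrix.unitaryGroup (Fin k) ℂ)
    {W : Matrix.unitaryGroup (Fin k) ℂ} {p : Fin k → N → ℂ} (hp : IsLab N (cjR W ψ) p)
    {M : Type} [AddCommMonoid M] (g : (N → ℂ) → M) :
    ∑ x, g (p x) = ∑ i : {v // v ∈ Ty N}, (sH N ψ i.1) • g i.1 := by
  have h1 : ∑ x, g (p x) = ∑ i : {v // v ∈ Ty N},
      ∑ x ∈ Finset.univ.filter (fun x => (⟨p x, hp.mem N x⟩ : {v // v ∈ Ty N}) = i), g (p x) :=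
    (Finset.sum_fiberwise_of_maps_to (s := Finset.univ) (t := Finset.univ)
      (g := fun x => (⟨p x, hp.mem N x⟩ : {v // v ∈ Ty N})) (fun x _ => Finset.mem_univ _)
      (fun x => g (p x))).symm
  rw [h1]
  refine Finset.sum_congr rfl fun i _ => ?_
  have h2 : ∀ x ∈ Finset.univ.filter (fun x => (⟨p x, hp.mem N x⟩ : {v // v ∈ Ty N}) = i),
      g (p x) = g i.1 := by
    intro x hx
    have := (Finset.mem_filter.mp hx).2
    rw [← this]
  rw [Finset.sum_congr rfl h2, Finset.sum_const, ← cardFib N ψ hp i.1, Fintype.card_subtype]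
  congr 2
  ext x
  simp only [Finset.mem_filter, Finset.mem_univ, true_and]
  exact Subtype.ext_iff

open Classical in
theorem sumH {k : ℕ} (ψ : G →* Matrix.unitaryGroup (Fin k) ℂ) :
    ∑ i : {v // v ∈ Ty N}, sH N ψ i.1 = k := by
  obtain ⟨W, p, hp⟩ := exists_lab N ψ
  have h := sum_lab N ψ hp (fun _ => (1 : ℕ))
  simpa using h.symm

theorem traceH {k : ℕ} (ψ : G →* Matrix.unitaryGroup (Fin k) ℂ) (n : N) :
    trace (ψ (n : G)).1 = ∑ i : {v // v ∈ Ty N}, (sH N ψ i.1 : ℂ) * i.1 n := by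
  classical
  obtain ⟨W, p, hp⟩ := exists_lab N ψ
  have h := sum_lab N ψ hp (fun v => v n)
  rw [← zz_trace N ψ n]
  have h1 : trace (zz N ψ n) = trace (zz N (cjR W ψ) n) := by
    have h2 : zz N ψ n * W.1 = W.1 * zz N (cjR W ψ) n :=
      zz_inter N ψ (cjR W ψ) W.1 (fun g => (cjR_inter W ψ g).symm) n
    have h3 : zz N ψ n = W.1 * zz N (cjR W ψ) n * (W.1)ᴴ := by
      rw [← h2, Matrix.mul_assoc, mul_uh, Matrix.mul_one]
    rw [h3, Matrix.trace_mul_comm, ← Matrix.mul_assoc, uh_mul, Matrix.one_mul]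
  rw [h1, hp n, Matrix.trace_diagonal, h]
  refine Finset.sum_congr rfl fun i _ => ?_
  rw [nsmul_eq_mul]

theorem memH {k : ℕ} (ψ : G →* Matrix.unitaryGroup (Fin k) ℂ) (v : N → ℂ) :
    sH N ψ v ∈ SizH N v := by
  classical
  obtain ⟨W, p, hp⟩ := exists_lab N ψ
  rw [← cardFib N ψ hp v]
  exact mem_SizH N _ (hp.blk N v)

theorem trivLab : IsLab N (1 : G →* Matrix.unitaryGroup (Fin 1) ℂ) (fun _ _ => 1) := by
  intro n
  unfold zz
  have h1 : ∀ q ∈ (Finset.univ : Finset (QN N)),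
      ((1 : G →* Matrix.unitaryGroup (Fin 1) ℂ) ((q.1 n : N) : G)).1 = 1 := fun q _ => rfl
  rw [Finset.sum_congr rfl h1, Finset.sum_const, Finset.card_univ, ← Nat.cast_smul_eq_nsmul ℂ,
    smul_smul, sc_mul, one_smul]
  exact diagonal_one.symm

open Classical in
theorem realH (k : ℕ) (p : {v // v ∈ Ty N} → ℕ) (hp : ∀ i, p i ∈ SizH N i.1)
    (hs : ∑ i, p i = k) :
    ∃ ψ : G →* Matrix.unitaryGroup (Fin k) ℂ, ∀ i : {v // v ∈ Ty N}, sH N ψ i.1 = p i := by
  have h : ∀ i : {v // v ∈ Ty N}, ∃ α : G →* Matrix.unitaryGroup (Fin (p i)) ℂ,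
    IsLab N α (fun _ => i.1) := hp
  choose α hα using h
  have hcard : Fintype.card (Σ i : {v // v ∈ Ty N}, Fin (p i)) = Fintype.card (Fin k) := by
    rw [Fintype.card_sigma, Fintype.card_fin]
    simpa using hs
  let e : (Σ i : {v // v ∈ Ty N}, Fin (p i)) ≃ Fin k := Fintype.equivOfCardEq hcard
  have hlab : IsLab N (trR e (sgR α)) (fun y => (e.symm y).1.1) := (IsLab.sg N hα).tr N e
  refine ⟨trR e (sgR α), fun i => ?_⟩
  unfold sH
  rw [Ee_lab N hlab i.1]
  have e2 : {y : Fin k // (e.symm y).1.1 = i.1} ≃ Fin (p i) :=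
    (e.symm.subtypeEquiv (fun x => Iff.rfl) : {y : Fin k // (e.symm y).1.1 = i.1} ≃
      {z : Σ i : {v // v ∈ Ty N}, Fin (p i) // z.1.1 = i.1}).trans
    { toFun := fun z => (Subtype.ext z.2 : z.1.1 = i) ▸ z.1.2
      invFun := fun a => ⟨⟨i, a⟩, rfl⟩
      left_inv := by
        rintro ⟨⟨i', a⟩, h⟩
        have h' : i' = i := Subtype.ext h
        subst h'
        rfl
      right_inv := fun a => rfl }
  rw [Fintype.card_congr e2, Fintype.card_fin]

/-- values of the normalised characters -/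
noncomputable def rhoH (hf : ∀ h, f h ∈ N) (v : N → ℂ) (e : H × Bool) : ℝ :=
  if e.2 then (v ⟨f e.1, hf e.1⟩).re else (v ⟨f e.1, hf e.1⟩).im

theorem hv_eqH (hf : ∀ h, f h ∈ N) (k : ℕ) (ψ : G →* Matrix.unitaryGroup (Fin k) ℂ)
    (e : H × Bool) : hvH k (ψ.comp f) e =
      ∑ i : {v // v ∈ Ty N}, (sH N ψ i.1 : ℝ) * rhoH f N hf i.1 e := by
  obtain ⟨h, b⟩ := e
  have h1 := traceH N ψ ⟨f h, hf h⟩
  have h2 : trace ((ψ.comp f) h).1 = trace (ψ ((⟨f h, hf h⟩ : N) : G)).1 := rfl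
  cases b
  · rw [hvH_false, h2, h1, Complex.im_sum]
    refine Finset.sum_congr rfl fun i _ => ?_
    rw [← Complex.ofReal_natCast, Complex.im_ofReal_mul]
    rfl
  · rw [hvH_true, h2, h1, Complex.re_sum]
    refine Finset.sum_congr rfl fun i _ => ?_
    rw [← Complex.ofReal_natCast, Complex.re_ofReal_mul]
    rfl

open Classical in
/-- The data for the class of unitary groups. -/
noncomputable def GH (hst : hsCls.Stable G) (hf : ∀ h, f h ∈ N) : GData hsCls f (HH H) where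
  T := {v // v ∈ Ty N}
  finT := inferInstance
  decT := inferInstance
  s k ψ i := sH N ψ i.1
  Siz i := SizH N i.1
  mem := fun k ψ i => memH N ψ i.1
  sum := fun k ψ => sumH N ψ
  triv := ⟨fun _ => 1, (trivLab N).mem N 0⟩
  triv_mem := ⟨1, trivLab N⟩
  ρ i e := rhoH f N hf i.1 e
  triv_rho := by
    rintro ⟨h, b⟩
    cases b
    · show (1 : ℂ).im = (trace (1 : Matrix (Fin 1) (Fin 1) ℂ)).im
      rw [Matrix.trace_one]; simp
    · show (1 : ℂ).re = (trace (1 : Matrix (Fin 1) (Fin 1) ℂ)).re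
      rw [Matrix.trace_one]; simp
  hv_eq := fun k ψ e => hv_eqH f N hf k ψ e
  real := by
    intro k p hp hs
    obtain ⟨ψ, hψ⟩ := realH N k p hp hs
    exact ⟨ψ, funext hψ⟩
  adjust := by
    intro F ε hε
    obtain ⟨η, hη, L0, h⟩ := adjustH N hst F ε hε
    refine ⟨η, hη, L0, fun k hk ψ t h1 h2 h3 => ?_⟩
    obtain ⟨ψ', h4, h5⟩ := h k hk ψ t h1 h2 h3
    exact ⟨ψ', funext h4, h5⟩

end data

/-- `G` is stable with respect to the class of finite-dimensional unitary groups with the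
normalised Hilbert-Schmidt distance. -/
def HilbertSchmidtStable (G : Type) [Group G] : Prop :=
  ∀ (X : ℕ → Type) [∀ n, Fintype (X n)] [∀ n, DecidableEq (X n)]
    (φ : ∀ n, G → Matrix.unitaryGroup (X n) ℂ),
    (∀ a b : G, Tendsto (fun n => hsDist (φ n a * φ n b).1 (φ n (a * b)).1) atTop (𝓝 0)) →
    ∃ ψ : ∀ n, G →* Matrix.unitaryGroup (X n) ℂ,
      ∀ a : G, Tendsto (fun n => hsDist (φ n a).1 (ψ n a).1) atTop (𝓝 0)

theorem hsDist_submatrix {X Y : Type} [Fintype X] [Fintype Y] [DecidableEq X] [DecidableEq Y]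
    (e : Y ≃ X) (A B : Matrix X X ℂ) :
    hsDist (A.submatrix e e) (B.submatrix e e) = hsDist A B := by
  unfold hsDist
  rw [← fro_eq_re, ← fro_eq_re, Fintype.card_congr e]
  congr 2
  unfold fro
  refine Fintype.sum_equiv e _ _ fun x => ?_
  refine Fintype.sum_equiv e _ _ fun y => ?_
  rfl

theorem hsStable_iff (G : Type) [Group G] : HilbertSchmidtStable G ↔ hsCls.Stable G := by
  constructor
  · intro h k φ hφ
    exact h (fun n => Fin (k n)) φ hφ
  · intro h X _ _ φ hφ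
    let e : ∀ n, Fin (Fintype.card (X n)) ≃ X n := fun n => (Fintype.equivFin (X n)).symm
    obtain ⟨ψ, hψ⟩ := h (fun n => Fintype.card (X n))
      (fun n g => ⟨(φ n g).1.submatrix (e n) (e n), by
        rw [Matrix.mem_unitaryGroup_iff']
        show ((φ n g).1.submatrix (e n) (e n))ᴴ * (φ n g).1.submatrix (e n) (e n) = 1
        rw [conjTranspose_submatrix, Matrix.submatrix_mul_equiv, uh_mul,
          Matrix.submatrix_one_equiv]⟩) (by
        intro a b
        refine (hφ a b).congr fun n => ?_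
        show _ = hsDist ((φ n a).1.submatrix (e n) (e n) * (φ n b).1.submatrix (e n) (e n))
          ((φ n (a * b)).1.submatrix (e n) (e n))
        rw [Matrix.submatrix_mul_equiv, hsDist_submatrix]
        rfl)
    refine ⟨fun n => trR (e n) (ψ n), fun a => ?_⟩
    refine (hψ a).congr fun n => ?_
    show hsDist ((φ n a).1.submatrix (e n) (e n)) (show Matrix.unitaryGroup
      (Fin (Fintype.card (X n))) ℂ from ψ n a).1 = hsDist (φ n a).1 (trR (e n) (ψ n) a).1
    rw [trR_coe, ← hsDist_submatrix (e n) (φ n a).1]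
    congr 1
    ext x y
    rw [Matrix.submatrix_apply, Matrix.submatrix_apply, Equiv.symm_apply_apply,
      Equiv.symm_apply_apply]
    rfl

theorem hsStable_amalg {G₁ G₂ H : Type} [Group G₁] [Group G₂] [Group H] [Countable G₁]
    [Countable G₂] [Finite H] (f₁ : H →* G₁) (f₂ : H →* G₂)
    (hn₁ : AlmostNormal f₁.range) (hn₂ : AlmostNormal f₂.range)
    (hs₁ : HilbertSchmidtStable G₁) (hs₂ : HilbertSchmidtStable G₂) :
    HilbertSchmidtStable (AmalgProd f₁ f₂) := by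
  rw [hsStable_iff] at hs₁ hs₂ ⊢
  have := Fintype.ofFinite H
  have hr₁ : Finite f₁.range := Finite.of_surjective f₁.rangeRestrict f₁.rangeRestrict_surjective
  have hr₂ : Finite f₂.range := Finite.of_surjective f₂.rangeRestrict f₂.rangeRestrict_surjective
  obtain ⟨N₁, _, _, hN₁⟩ := exists_finite_normal f₁.range hn₁
  obtain ⟨N₂, _, _, hN₂⟩ := exists_finite_normal f₂.range hn₂
  exact stable_amalg hsCls_metric (HH H)
    (GH f₁ N₁ hs₁ (fun h => hN₁ ⟨h, rfl⟩)) (GH f₂ N₂ hs₂ (fun h => hN₂ ⟨h, rfl⟩)) hs₁ hs₂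

end Pool.Agent.H698R3.Amalg
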