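import Pool.Agent.H698R3.HsEquiv

set_option autoImplicit false

/-! The data `HData` for the class of unitary groups. -/

namespace Pool.Agent.H698R3.Amalg

open Matrix

section

variable {X : Type} [Fintype X] [DecidableEq X]

theorem fn_left (U : Matrix.unitaryGroup X ℂ) {Y : Type} [Fintype Y] (A : Matrix X Y ℂ) :
    fn (U.1 * A) = fn A := by
  unfold fn; rw [fro_mul_left _ (uh_mul U)]

theorem fn_right (U : Matrix.unitaryGroup X ℂ) {Y : Type} [Fintype Y] (A : Matrix Y X ℂ) :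
    fn (A * U.1) = fn A := by
  unfold fn; rw [fro_mul_right _ (mul_uh U)]

theorem fn_one : fn (1 : Matrix X X ℂ) = Real.sqrt (Fintype.card X) := by
  unfold fn
  rw [fro_eq_re, conjTranspose_one, Matrix.mul_one, Matrix.trace_one, Complex.natCast_re]

/-- An operator `T` intertwining `π'` and `π` that is an average of unitaries is close to a
unitary intertwiner. -/
theorem near_unitary {H : Type} [Group H] [Fintype H] (π π' : H →* Matrix.unitaryGroup X ℂ)
    (hchar : ∀ h, trace (π h).1 = trace (π' h).1) (δ : ℝ) (hδ0 : 0 ≤ δ) (hδ1 : δ ≤ 1)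
    (hd : ∀ h, fn ((π h).1 - (π' h).1) ≤ δ * Real.sqrt (Fintype.card X)) :
    ∃ u : Matrix.unitaryGroup X ℂ, (∀ h, (π h).1 * u.1 = u.1 * (π' h).1) ∧
      fn (u.1 - 1) ≤ (Real.sqrt (2 * δ) + δ) * Real.sqrt (Fintype.card X) := by
  classical
  have hH : (0 : ℝ) < Fintype.card H := by exact_mod_cast Fintype.card_pos
  set s : ℂ := ((Fintype.card H : ℝ) : ℂ)⁻¹ with hs
  have hsn : ‖s‖ = (Fintype.card H : ℝ)⁻¹ := by
    rw [hs, norm_inv, Complex.norm_real, Real.norm_of_nonneg hH.le]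
  have hsH : s * (Fintype.card H : ℂ) = 1 := by
    rw [hs]
    push_cast
    exact inv_mul_cancel₀ (by exact_mod_cast hH.ne')
  set T : Matrix X X ℂ := s • ∑ h, (π h).1 * ((π' h).1)ᴴ with hT
  have hint : ∀ g, (π g).1 * T = T * (π' g).1 := by
    intro g
    have h1 : (π g).1 * T * ((π' g).1)ᴴ = T := by
      rw [hT, Matrix.mul_smul, Matrix.smul_mul, Matrix.mul_sum, Matrix.sum_mul]
      congr 1
      refine Fintype.sum_equiv (Equiv.mulLeft g) _ _ fun h => ?_
      rw [Equiv.coe_mulLeft, rep_mul, rep_mul, conjTranspose_mul]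
      simp only [Matrix.mul_assoc]
    calc (π g).1 * T = (π g).1 * T * (((π' g).1)ᴴ * (π' g).1) := by rw [uh_mul, Matrix.mul_one]
      _ = (π g).1 * T * ((π' g).1)ᴴ * (π' g).1 := by simp only [Matrix.mul_assoc]
      _ = T * (π' g).1 := by rw [h1]
  have hT1 : fn (T - 1) ≤ δ * Real.sqrt (Fintype.card X) := by
    have h1 : T - 1 = s • ∑ h, ((π h).1 * ((π' h).1)ᴴ - 1) := by
      rw [Finset.sum_sub_distrib, smul_sub, ← hT, Finset.sum_const, Finset.card_univ]
      congr 1
      rw [← Nat.cast_smul_eq_nsmul ℂ, smul_smul, hsH, one_smul]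
    rw [h1, fn_smul, hsn]
    have h2 : fn (∑ h, ((π h).1 * ((π' h).1)ᴴ - 1)) ≤
        ∑ _h : H, δ * Real.sqrt (Fintype.card X) := by
      refine (fn_sum_le _ _).trans (Finset.sum_le_sum fun h _ => ?_)
      have h3 : (π h).1 * ((π' h).1)ᴴ - 1 = ((π h).1 - (π' h).1) * ((π' h)⁻¹).1 := by
        rw [coe_inv_u, Matrix.sub_mul, mul_uh]
      rw [h3, fn_right]
      exact hd h
    rw [Finset.sum_const, Finset.card_univ, nsmul_eq_mul] at h2
    rw [inv_mul_le_iff₀ hH]
    exact h2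
  have hTc : ∀ {Y : Type} [Fintype Y] (v : Matrix X Y ℂ), fn (T * v) ≤ fn v := by
    intro Y _ v
    rw [hT, Matrix.smul_mul, fn_smul, hsn, Matrix.sum_mul, inv_mul_le_iff₀ hH]
    refine (fn_sum_le _ _).trans ?_
    have h2 : ∀ h ∈ (Finset.univ : Finset H), fn ((π h).1 * ((π' h).1)ᴴ * v) ≤ fn v := by
      intro h _
      have : (π h).1 * ((π' h).1)ᴴ * v = (π h).1 * (((π' h)⁻¹).1 * v) := by
        rw [coe_inv_u, Matrix.mul_assoc]
      rw [this, fn_left, fn_left]
    refine (Finset.sum_le_sum h2).trans ?_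
    rw [Finset.sum_const, Finset.card_univ, nsmul_eq_mul]
  -- diagonalise
  set B := Tᴴ * T with hB
  have hBh : B.IsHermitian := by
    show Bᴴ = B
    rw [hB, conjTranspose_mul, conjTranspose_conjTranspose]
  have hBcom : ∀ g, B * (π' g).1 = (π' g).1 * B := by
    intro g
    have h1 := inter_adj (π := π) (σ := π') (J := T) hint g
    rw [hB, Matrix.mul_assoc, ← hint, ← Matrix.mul_assoc, h1, Matrix.mul_assoc]
  obtain ⟨W, p, hW⟩ := simdiag (fun _ : Unit => B) (fun _ => hBh) (fun _ _ => rfl)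
  have hW' : B * W.1 = W.1 * diagonal (fun y => p y ()) := hW ()
  have hWBW0 : (W.1)ᴴ * B * W.1 = diagonal (fun y => p y ()) := by
    rw [Matrix.mul_assoc, hW', ← Matrix.mul_assoc, uh_mul, Matrix.one_mul]
  set r : X → ℝ := fun y => ∑ x, ‖(T * W.1) x y‖ ^ 2 with hr
  have hpr : ∀ y, p y () = (r y : ℂ) := by
    intro y
    have h1 : diagonal (fun y => p y ()) y y = ((T * W.1)ᴴ * (T * W.1)) y y := by
      rw [← hWBW0, hB, conjTranspose_mul]
      simp only [Matrix.mul_assoc]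
    rw [Matrix.diagonal_apply_eq] at h1
    rw [h1, Matrix.mul_apply, hr]
    push_cast
    refine Finset.sum_congr rfl fun x _ => ?_
    rw [Matrix.conjTranspose_apply, Complex.star_def, ← Complex.normSq_eq_conj_mul_self,
      Complex.normSq_eq_norm_sq]
    push_cast
    rfl
  have hWBW : (W.1)ᴴ * B * W.1 = diagonal (fun y => (r y : ℂ)) := by
    rw [hWBW0]; congr 1; funext y; exact hpr y
  have hr0 : ∀ y, 0 ≤ r y := fun y => by rw [hr]; positivity
  have hr1 : ∀ y, r y ≤ 1 := by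
    intro y
    have h1 := hTc (W.1 * Jm (fun _ : Unit => y))
    have h2 : fn (T * (W.1 * Jm (fun _ : Unit => y))) = Real.sqrt (r y) := by
      rw [← Matrix.mul_assoc, mul_Jm]
      unfold fn fro
      rw [hr]
      simp
    have h3 : fn (W.1 * Jm (fun _ : Unit => y)) = 1 := by
      rw [fn_left]
      unfold fn fro
      simp only [Jm_apply, Finset.univ_unique, Finset.sum_singleton]
      rw [Finset.sum_eq_single y]
      · simp
      · intro x _ hx
        rw [if_neg hx]; simp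
      · intro h; exact absurd (Finset.mem_univ y) h
    rw [h2, h3] at h1
    exact Real.sqrt_le_one.mp h1
  have hfroT : fro T = ∑ y, r y := by
    rw [← fro_mul_right W.1 (mul_uh W)]
    unfold fro
    rw [Finset.sum_comm]
  set τ0 := cjR W π' with hτ0
  have hblk0 : ∀ g x y, r x ≠ r y → (τ0 g).1 x y = 0 := by
    intro g x y hxy
    refine zero_of_commute (ι := Unit) _ (fun y => (r y : ℂ)) ?_ x y (by exact_mod_cast hxy)
    rw [hτ0, cjR_coe, ← hWBW]
    calc (W.1)ᴴ * (π' g).1 * W.1 * ((W.1)ᴴ * B * W.1)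
        = (W.1)ᴴ * (π' g).1 * (W.1 * (W.1)ᴴ) * B * W.1 := by simp only [Matrix.mul_assoc]
      _ = (W.1)ᴴ * ((π' g).1 * B) * W.1 := by
          rw [mul_uh, Matrix.mul_one]; simp only [Matrix.mul_assoc]
      _ = (W.1)ᴴ * (B * (π' g).1) * W.1 := by rw [hBcom]
      _ = (W.1)ᴴ * B * (W.1 * (W.1)ᴴ) * (π' g).1 * W.1 := by
          rw [mul_uh, Matrix.mul_one]; simp only [Matrix.mul_assoc]
      _ = _ := by simp only [Matrix.mul_assoc]
  let pb : X → Bool := fun y => decide (r y ≠ 0)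
  have hblk : ∀ g x y, pb x ≠ pb y → (τ0 g).1 x y = 0 := by
    intro g x y hxy
    refine hblk0 g x y fun h => hxy ?_
    show decide (r x ≠ 0) = decide (r y ≠ 0)
    rw [h]
  let σ := blk τ0 pb hblk true
  have hYg : ∀ y : {y // pb y = true}, r y.1 ≠ 0 := fun y => of_decide_eq_true y.2
  let D : Matrix {y // pb y = true} {y // pb y = true} ℂ :=
    diagonal (fun y => (((Real.sqrt (r y.1))⁻¹ : ℝ) : ℂ))
  have hDd : D = diagonal (fun y => (((Real.sqrt (r y.1))⁻¹ : ℝ) : ℂ)) := rfl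
  have hDh : Dᴴ = D := by
    rw [hDd, diagonal_conjTranspose]
    congr 1
    funext y
    exact Complex.conj_ofReal _
  have hσD : ∀ h, (σ h).1 * D = D * (σ h).1 := by
    intro h
    ext x y
    rw [hDd, Matrix.mul_diagonal, Matrix.diagonal_mul]
    by_cases hxy : r x.1 = r y.1
    · rw [hxy, mul_comm]
    · have : (σ h).1 x y = 0 := hblk0 h x.1 y.1 hxy
      rw [this, zero_mul, mul_zero]
  set J₂ : Matrix X {y // pb y = true} ℂ := W.1 * Jm (Subtype.val : {y // pb y = true} → X) with hJ₂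
  have hJ₂i : J₂ᴴ * J₂ = 1 := by
    rw [hJ₂, conjTranspose_mul, Matrix.mul_assoc, ← Matrix.mul_assoc (W.1)ᴴ, uh_mul,
      Matrix.one_mul, Jm_isometry _ Subtype.val_injective]
  have hJ₂e : ∀ h, (π' h).1 * J₂ = J₂ * (σ h).1 := by
    intro h
    rw [hJ₂, ← Matrix.mul_assoc, ← cjR_inter, Matrix.mul_assoc, blk_inter, Matrix.mul_assoc]
  have hBJ : J₂ᴴ * B * J₂ = diagonal (fun y : {y // pb y = true} => (r y.1 : ℂ)) := by
    have h1 : J₂ᴴ * B * J₂ = (Jm (Subtype.val : {y // pb y = true} → X))ᴴ *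
        ((W.1)ᴴ * B * W.1) * Jm (Subtype.val : {y // pb y = true} → X) := by
      rw [hJ₂, conjTranspose_mul]
      simp only [Matrix.mul_assoc]
    rw [h1, hWBW, mul_Jm]
    ext x y
    rw [Matrix.submatrix_apply, Matrix.mul_diagonal, Matrix.conjTranspose_apply, Jm_apply,
      Matrix.diagonal_apply]
    by_cases h : x = y
    · subst h; simp
    · rw [if_neg h]
      simp only [id]
      rw [if_neg (fun h' => h (Subtype.ext h'.symm)), star_zero, zero_mul]
  set J₁ : Matrix X {y // pb y = true} ℂ := T * J₂ * D with hJ₁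
  have hJ₁i : J₁ᴴ * J₁ = 1 := by
    have h1 : J₁ᴴ * J₁ = Dᴴ * (J₂ᴴ * B * J₂) * D := by
      rw [hJ₁, hB, conjTranspose_mul, conjTranspose_mul]
      simp only [Matrix.mul_assoc]
    rw [h1, hDh, hBJ, hDd, diagonal_mul_diagonal, diagonal_mul_diagonal, ← diagonal_one]
    congr 1
    funext y
    have h2 : (Real.sqrt (r y.1))⁻¹ * r y.1 * (Real.sqrt (r y.1))⁻¹ = 1 := by
      have h3 : Real.sqrt (r y.1) ≠ 0 := by
        rw [Real.sqrt_ne_zero (hr0 _)]; exact hYg y
      field_simp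
      exact (Real.sq_sqrt (hr0 _)).symm
    show ((((Real.sqrt (r y.1))⁻¹ : ℝ) : ℂ) * (r y.1 : ℂ)) * (((Real.sqrt (r y.1))⁻¹ : ℝ) : ℂ) = 1
    exact_mod_cast h2
  have hJ₁e : ∀ h, (π h).1 * J₁ = J₁ * (σ h).1 := by
    intro h
    rw [hJ₁]
    calc (π h).1 * (T * J₂ * D) = ((π h).1 * T) * J₂ * D := by simp only [Matrix.mul_assoc]
      _ = T * ((π' h).1 * J₂) * D := by rw [hint]; simp only [Matrix.mul_assoc]
      _ = T * J₂ * ((σ h).1 * D) := by rw [hJ₂e]; simp only [Matrix.mul_assoc]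
      _ = T * J₂ * D * (σ h).1 := by rw [hσD]; simp only [Matrix.mul_assoc]
  obtain ⟨u, hu1, hu2, hu3, hu4⟩ := equiv_of_char (π := π) (π' := π') (by
      rw [Finset.sum_eq_zero]
      · exact one_pos
      · intro h _
        rw [hchar, sub_self, norm_zero]; norm_num) _ _ ⟨J₁, J₂, σ, hJ₁i, hJ₂i, hJ₁e, hJ₂e⟩ rfl
  dsimp only at hu4
  -- `T W = u W √r`
  have hTW : T * W.1 = u * W.1 * diagonal (fun y => ((Real.sqrt (r y) : ℝ) : ℂ)) := by
    ext x y
    rw [Matrix.mul_diagonal]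
    by_cases hy : r y = 0
    · rw [hy, Real.sqrt_zero, Complex.ofReal_zero, mul_zero]
      have h1 : ∑ x, ‖(T * W.1) x y‖ ^ 2 = 0 := hy
      rw [Finset.sum_eq_zero_iff_of_nonneg (fun x _ => by positivity)] at h1
      have h2 := h1 x (Finset.mem_univ _)
      simpa using h2
    · have hpy : pb y = true := decide_eq_true hy
      have h1 := congrFun (congrFun hu4 x) ⟨y, hpy⟩
      rw [hJ₁] at h1
      have h2 : (u * J₂) x ⟨y, hpy⟩ = (u * W.1) x y := by
        rw [hJ₂, ← Matrix.mul_assoc, mul_Jm]; rfl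
      have h3 : (T * J₂ * D) x ⟨y, hpy⟩ = (T * W.1) x y * (((Real.sqrt (r y))⁻¹ : ℝ) : ℂ) := by
        rw [hDd, Matrix.mul_diagonal]
        congr 1
        rw [hJ₂, ← Matrix.mul_assoc, mul_Jm]; rfl
      rw [h2, h3] at h1
      rw [h1, mul_assoc]
      have h4 : Real.sqrt (r y) ≠ 0 := by
        rw [Real.sqrt_ne_zero (hr0 _)]; exact hy
      have h5 : ((((Real.sqrt (r y))⁻¹ : ℝ) : ℂ) * ((Real.sqrt (r y) : ℝ) : ℂ)) = 1 := by
        have : (Real.sqrt (r y))⁻¹ * Real.sqrt (r y) = 1 := inv_mul_cancel₀ h4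
        exact_mod_cast this
      rw [h5, mul_one]
  have hfuT : fro (u - T) ≤ 2 * δ * Fintype.card X := by
    have h1 : fro (u - T) = ∑ y, (1 - Real.sqrt (r y)) ^ 2 := by
      rw [← fro_mul_right W.1 (mul_uh W), Matrix.sub_mul, hTW]
      have h2 : u * W.1 - u * W.1 * diagonal (fun y => ((Real.sqrt (r y) : ℝ) : ℂ)) =
          (u * W.1) * diagonal (fun y => ((1 - Real.sqrt (r y) : ℝ) : ℂ)) := by
        ext x y
        rw [Matrix.sub_apply, Matrix.mul_diagonal, Matrix.mul_diagonal]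
        push_cast
        ring
      rw [h2, fro_mul_left]
      · unfold fro
        refine Finset.sum_congr rfl fun y _ => ?_
        rw [Finset.sum_eq_single y]
        · rw [Matrix.diagonal_apply_eq, Complex.norm_real, Real.norm_eq_abs, sq_abs]
        · intro z _ hz
          rw [Matrix.diagonal_apply_ne _ (Ne.symm hz), norm_zero]; norm_num
        · intro h; exact absurd (Finset.mem_univ y) h
      · rw [conjTranspose_mul, Matrix.mul_assoc, ← Matrix.mul_assoc uᴴ, hu1, Matrix.one_mul, uh_mul]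
    have h3 : ∑ y, (1 - Real.sqrt (r y)) ^ 2 ≤ ∑ y, (1 - r y) := by
      refine Finset.sum_le_sum fun y _ => ?_
      have h4 := Real.sq_sqrt (hr0 y)
      have h5 : Real.sqrt (r y) ≤ 1 := Real.sqrt_le_one.mpr (hr1 y)
      have h6 := Real.sqrt_nonneg (r y)
      nlinarith
    have h7 : ∑ y, (1 - r y) = Fintype.card X - fro T := by
      rw [Finset.sum_sub_distrib, ← hfroT]
      simp
    have h8 : (1 - δ) * Real.sqrt (Fintype.card X) ≤ fn T := by
      have h9 := fn_add_le T (1 - T)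
      rw [add_sub_cancel, fn_one, fn_sub_comm] at h9
      linarith
    have h10 : (1 - δ) ^ 2 * Fintype.card X ≤ fro T := by
      rw [← fn_sq]
      calc (1 - δ) ^ 2 * (Fintype.card X : ℝ) =
          ((1 - δ) * Real.sqrt (Fintype.card X)) ^ 2 := by
            rw [mul_pow, Real.sq_sqrt (Nat.cast_nonneg _)]
        _ ≤ fn T ^ 2 := pow_le_pow_left₀ (by
            have : 0 ≤ 1 - δ := by linarith
            positivity) h8 2
    have h11 : (0 : ℝ) ≤ Fintype.card X := Nat.cast_nonneg _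
    rw [h1]
    refine h3.trans ?_
    rw [h7]
    nlinarith [mul_nonneg (sq_nonneg δ) h11]
  refine ⟨⟨u, Matrix.mem_unitaryGroup_iff'.mpr hu1⟩, hu3, ?_⟩
  show fn (u - 1) ≤ _
  refine (fn_sub_le u T 1).trans ?_
  have h12 : fn (u - T) ≤ Real.sqrt (2 * δ) * Real.sqrt (Fintype.card X) := by
    rw [← Real.sqrt_mul (by positivity)]
    exact Real.sqrt_le_sqrt hfuT
  rw [add_mul]
  linarith

end

section

variable (H : Type) [Group H] [Fintype H]

theorem fn_of_d {k : ℕ} {δ : ℝ} {A B : Matrix (Fin k) (Fin k) ℂ} (h : hsDist A B ≤ δ) :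
    fn (A - B) ≤ δ * Real.sqrt (Fintype.card (Fin k)) := by
  rw [hsDist_eq] at h
  rcases Nat.eq_zero_or_pos k with h0 | hk
  · subst h0
    have h1 : fn (A - B) = 0 := by
      unfold fn fro; simp
    rw [h1]
    simp
  · have hk' : (0 : ℝ) < Real.sqrt (Fintype.card (Fin k)) := by
      rw [Real.sqrt_pos, Fintype.card_fin]; exact_mod_cast hk
    rwa [div_le_iff₀ hk'] at h

theorem trace_close {k : ℕ} {δ : ℝ} {A B : Matrix (Fin k) (Fin k) ℂ} (h : hsDist A B ≤ δ) :
    ‖trace A - trace B‖ ≤ δ * k := by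
  have h1 := fn_of_d h
  have h2 := norm_trace_le (A - B)
  rw [← fn_sq, trace_sub] at h2
  have hδ : 0 ≤ δ := le_trans (by rw [hsDist_eq]; exact div_nonneg (fn_nonneg _) (Real.sqrt_nonneg _)) h
  have h3 : ‖trace A - trace B‖ ^ 2 ≤ (δ * k) ^ 2 := by
    refine h2.trans ?_
    have h4 : fn (A - B) ^ 2 ≤ (δ * Real.sqrt (Fintype.card (Fin k))) ^ 2 :=
      pow_le_pow_left₀ (fn_nonneg _) h1 2
    rw [mul_pow, Real.sq_sqrt (Nat.cast_nonneg _)] at h4
    rw [Fintype.card_fin] at h4 ⊢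
    calc (k : ℝ) * fn (A - B) ^ 2 ≤ k * (δ ^ 2 * k) :=
          mul_le_mul_of_nonneg_left h4 (Nat.cast_nonneg _)
      _ = (δ * k) ^ 2 := by ring
  exact (abs_le_of_sq_le_sq' h3 (by positivity)).2

variable {H}

/-- real and imaginary parts of the character -/
noncomputable def hvH (k : ℕ) (π : H →* Matrix.unitaryGroup (Fin k) ℂ) (e : H × Bool) : ℝ :=
  if e.2 then (trace (π e.1).1).re else (trace (π e.1).1).im

theorem hvH_true (k : ℕ) (π : H →* Matrix.unitaryGroup (Fin k) ℂ) (g : H) :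
    hvH k π (g, true) = (trace (π g).1).re := rfl

theorem hvH_false (k : ℕ) (π : H →* Matrix.unitaryGroup (Fin k) ℂ) (g : H) :
    hvH k π (g, false) = (trace (π g).1).im := rfl

theorem closeH (ε : ℝ) (k : ℕ) (π π' : H →* Matrix.unitaryGroup (Fin k) ℂ)
    (h : ∀ g, hsDist (π g).1 (π' g).1 ≤ ε) (e : H × Bool) :
    |hvH k π e - hvH k π' e| ≤ ε * k := by
  obtain ⟨g, b⟩ := e
  have h1 := trace_close (h g)
  cases b
  · rw [hvH_false, hvH_false, ← Complex.sub_im]
    exact (Complex.abs_im_le_norm _).trans h1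
  · rw [hvH_true, hvH_true, ← Complex.sub_re]
    exact (Complex.abs_re_le_norm _).trans h1

theorem discH (k : ℕ) (π π' : H →* Matrix.unitaryGroup (Fin k) ℂ)
    (h : ∀ e, |hvH k π e - hvH k π' e| < 1 / (2 * Fintype.card H)) : hvH k π = hvH k π' := by
  have hH : (0 : ℝ) < Fintype.card H := by exact_mod_cast Fintype.card_pos
  have hH1 : (1 : ℝ) ≤ Fintype.card H := by exact_mod_cast Fintype.card_pos
  have h1 : ∀ g : H, ‖trace (π g).1 - trace (π' g).1‖ ^ 2 ≤
      1 / (2 * (Fintype.card H : ℝ) ^ 2) := by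
    intro g
    have h2 := h (g, true)
    have h3 := h (g, false)
    rw [hvH_true, hvH_true, ← Complex.sub_re] at h2
    rw [hvH_false, hvH_false, ← Complex.sub_im] at h3
    rw [← Complex.normSq_eq_norm_sq, Complex.normSq_apply]
    set z := trace (π g).1 - trace (π' g).1
    have h4 : z.re * z.re ≤ (1 / (2 * (Fintype.card H : ℝ))) ^ 2 := by
      rw [← sq]
      exact sq_le_sq' (by linarith [neg_abs_le z.re]) (by linarith [le_abs_self z.re])
    have h5 : z.im * z.im ≤ (1 / (2 * (Fintype.card H : ℝ))) ^ 2 := by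
      rw [← sq]
      exact sq_le_sq' (by linarith [neg_abs_le z.im]) (by linarith [le_abs_self z.im])
    calc z.re * z.re + z.im * z.im ≤ (1 / (2 * (Fintype.card H : ℝ))) ^ 2 +
          (1 / (2 * (Fintype.card H : ℝ))) ^ 2 := add_le_add h4 h5
      _ = 1 / (2 * (Fintype.card H : ℝ) ^ 2) := by field_simp; norm_num
  obtain ⟨u, hu1, hu2, hu3, -⟩ := equiv_of_char (π := π) (π' := π') (by
      refine lt_of_le_of_lt (Finset.sum_le_sum fun g _ => h1 g) ?_
      rw [Finset.sum_const, Finset.card_univ, nsmul_eq_mul, mul_one_div,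
        div_lt_one (by positivity)]
      nlinarith) _ Empty ⟨0, 0, mkRep (fun _ => 1) rfl (by simp) (by simp),
        by ext x; exact x.elim, by ext x; exact x.elim, by intro h; ext x y; exact y.elim,
        by intro h; ext x y; exact y.elim⟩ rfl
  have h6 : ∀ g : H, trace (π g).1 = trace (π' g).1 := by
    intro g
    calc trace (π g).1 = trace ((π g).1 * (u * uᴴ)) := by
          rw [hu2, Matrix.mul_one]
      _ = trace (u * ((π' g).1 * uᴴ)) := by
          rw [← Matrix.mul_assoc, hu3, Matrix.mul_assoc]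
      _ = trace ((π' g).1 * uᴴ * u) := Matrix.trace_mul_comm _ _
      _ = trace (π' g).1 := by rw [Matrix.mul_assoc, hu1, Matrix.mul_one]
  funext e
  unfold hvH
  rw [h6]

theorem mtchH (ε : ℝ) (hε : 0 < ε) (k : ℕ) (π π' : H →* Matrix.unitaryGroup (Fin k) ℂ)
    (hv : hvH k π = hvH k π')
    (h : ∀ g, hsDist (π g).1 (π' g).1 ≤ min (min 1 (ε / 2)) (ε ^ 2 / 8)) :
    ∃ u : Matrix.unitaryGroup (Fin k) ℂ, hsDist u.1 1 ≤ ε ∧ ∀ g, u * π' g * u⁻¹ = π g := by
  set δ := min (min 1 (ε / 2)) (ε ^ 2 / 8) with hδ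
  have hδ0 : 0 ≤ δ := by rw [hδ]; positivity
  have hδ1 : δ ≤ 1 := (min_le_left _ _).trans (min_le_left _ _)
  have hδ2 : δ ≤ ε / 2 := (min_le_left _ _).trans (min_le_right _ _)
  have hδ3 : δ ≤ ε ^ 2 / 8 := min_le_right _ _
  obtain ⟨u, hu1, hu2⟩ := near_unitary π π' (by
    intro g
    have h2 := congrFun hv (g, true)
    have h3 := congrFun hv (g, false)
    exact Complex.ext h2 h3) δ hδ0 hδ1 (fun g => fn_of_d (h g))
  refine ⟨u, ?_, fun g => ?_⟩
  · rw [hsDist_eq]
    refine div_le_of_le_mul₀ (Real.sqrt_nonneg _) hε.le (hu2.trans ?_)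
    refine mul_le_mul_of_nonneg_right ?_ (Real.sqrt_nonneg _)
    have h4 : Real.sqrt (2 * δ) ≤ ε / 2 := by
      rw [Real.sqrt_le_left (by positivity)]
      nlinarith
    linarith
  · apply Subtype.ext
    show u.1 * (π' g).1 * (u.1)ᴴ = (π g).1
    rw [← hu1, Matrix.mul_assoc, mul_uh, Matrix.mul_one]

variable (H)

/-- The data for the class of unitary groups. -/
noncomputable def HH : HData hsCls H where
  E := H × Bool
  finE := inferInstance
  hv k π e := hvH k π e
  close := fun ε hε => ⟨ε, hε, fun k π π' h e => closeH ε k π π' h e⟩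
  c := 1 / (2 * Fintype.card H)
  hc := by
    have : (0 : ℝ) < Fintype.card H := by exact_mod_cast Fintype.card_pos
    positivity
  disc := fun k π π' h => discH k π π' h
  mtch := fun ε hε => ⟨min (min 1 (ε / 2)) (ε ^ 2 / 8), by positivity,
    fun k π π' hv h => mtchH ε hε k π π' hv h⟩

end

end Pool.Agent.H698R3.Amalg
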