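import Pool.Agent.H698R3.HsBase

set_option autoImplicit false

/-! Simultaneous diagonalisation, compressions and completions of isometries, for matrices. -/

namespace Pool.Agent.H698R3.Amalg

open Matrix WithLp

section orth

variable {X Y Z : Type} [Fintype X] [Fintype Y] [Fintype Z]

/-- the matrix with given columns -/
def colm (v : Z → EuclideanSpace ℂ X) : Matrix X Z ℂ := Matrix.of fun x z => (v z) x

theorem inner_eq_sum (v w : EuclideanSpace ℂ X) : inner ℂ v w = ∑ x, star (v x) * w x := by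
  rw [EuclideanSpace.inner_eq_star_dotProduct, dotProduct]
  refine Finset.sum_congr rfl fun x _ => ?_
  rw [mul_comm]; rfl

theorem colm_gram (v : Z → EuclideanSpace ℂ X) (z z' : Z) :
    ((colm v)ᴴ * colm v) z z' = inner ℂ (v z) (v z') := by
  rw [Matrix.mul_apply, inner_eq_sum]
  rfl

theorem colm_isometry [DecidableEq Z] (v : Z → EuclideanSpace ℂ X) (hv : Orthonormal ℂ v) :
    (colm v)ᴴ * colm v = 1 := by
  ext z z'
  rw [colm_gram, orthonormal_iff_ite.mp hv, Matrix.one_apply]

theorem orthonormal_of_isometry [DecidableEq Z] (J : Matrix X Z ℂ) (hJ : Jᴴ * J = 1) :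
    Orthonormal ℂ (fun z => (toLp 2 (fun x => J x z) : EuclideanSpace ℂ X)) := by
  rw [orthonormal_iff_ite]
  intro z z'
  have h := colm_gram (fun z => (toLp 2 (fun x => J x z) : EuclideanSpace ℂ X)) z z'
  have h2 : colm (fun z => (toLp 2 (fun x => J x z) : EuclideanSpace ℂ X)) = J := by
    ext x z; rfl
  rw [h2, hJ, Matrix.one_apply] at h
  exact h.symm

theorem mul_of_card [DecidableEq X] [DecidableEq Z] (J : Matrix X Z ℂ) (hJ : Jᴴ * J = 1)
    (hc : Fintype.card Z = Fintype.card X) : J * Jᴴ = 1 :=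
  (Matrix.mul_eq_one_comm_of_equiv (Fintype.card_eq.mp hc).some).mp hJ

/-- completing an isometry to a unitary -/
theorem complete [DecidableEq X] [DecidableEq Y] [DecidableEq Z] (J : Matrix X Y ℂ)
    (hJ : Jᴴ * J = 1) (i : Y → Z) (hi : Function.Injective i)
    (hc : Fintype.card Z = Fintype.card X) :
    ∃ V : Matrix X Z ℂ, Vᴴ * V = 1 ∧ V * Vᴴ = 1 ∧ V.submatrix id i = J := by
  classical
  let w : Y → EuclideanSpace ℂ X := fun y => toLp 2 (fun x => J x y)
  let v : Z → EuclideanSpace ℂ X := fun z => if h : ∃ y, i y = z then w h.choose else 0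
  have hv : ∀ y, v (i y) = w y := by
    intro y
    have h : ∃ y', i y' = i y := ⟨y, rfl⟩
    show (if h : ∃ y', i y' = i y then w h.choose else 0) = w y
    rw [dif_pos h, hi h.choose_spec]
  have hon : Orthonormal ℂ ((Set.range i).domRestrict v) := by
    rw [orthonormal_iff_ite]
    rintro ⟨_, y, rfl⟩ ⟨_, y', rfl⟩
    show inner ℂ (v (i y)) (v (i y')) = _
    rw [hv, hv, orthonormal_iff_ite.mp (orthonormal_of_isometry J hJ)]
    by_cases h : y = y'
    · subst h; simp
    · rw [if_neg h, if_neg]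
      intro h'
      exact h (hi (Subtype.ext_iff.mp h'))
  obtain ⟨b, hb⟩ := hon.exists_orthonormalBasis_extension_of_card_eq
    (by rw [finrank_euclideanSpace]; exact hc.symm)
  have hV := colm_isometry (fun z => b z) b.orthonormal
  refine ⟨colm (fun z => b z), hV, mul_of_card _ hV hc, ?_⟩
  ext x y
  show (b (i y)) x = J x y
  rw [hb (i y) ⟨y, rfl⟩, hv]

theorem toEuclideanLin_coord [DecidableEq Y] (D : Matrix X Y ℂ) (v : EuclideanSpace ℂ Y) (x : X) :
    (toEuclideanLin D v) x = ∑ y, D x y * v y := rfl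

theorem isometry_norm [DecidableEq Y] (J : Matrix X Y ℂ) (hJ : Jᴴ * J = 1)
    (v : EuclideanSpace ℂ Y) : ‖toEuclideanLin J v‖ = ‖v‖ := by
  have h1 : inner ℂ (toEuclideanLin J v) (toEuclideanLin J v) = inner ℂ v v := by
    rw [EuclideanSpace.inner_eq_star_dotProduct, EuclideanSpace.inner_eq_star_dotProduct]
    show (J *ᵥ ofLp v) ⬝ᵥ star (J *ᵥ ofLp v) = _
    rw [star_mulVec, dotProduct_comm, ← dotProduct_mulVec, mulVec_mulVec, hJ, one_mulVec,
      dotProduct_comm]
  rw [inner_self_eq_norm_sq_to_K, inner_self_eq_norm_sq_to_K] at h1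
  have h2 : ‖toEuclideanLin J v‖ ^ 2 = ‖v‖ ^ 2 := by exact_mod_cast h1
  exact (sq_eq_sq₀ (norm_nonneg _) (norm_nonneg _)).mp h2

/-- an operator of norm at most `√c` that vanishes on `K` -/
theorem fro_le_of_ker [DecidableEq Y] (D : Matrix X Y ℂ) (K : Submodule ℂ (EuclideanSpace ℂ Y))
    (hK : ∀ v ∈ K, toEuclideanLin D v = 0) (c : ℝ)
    (hc : ∀ v, ‖toEuclideanLin D v‖ ^ 2 ≤ c * ‖v‖ ^ 2) :
    fro D ≤ c * ((Fintype.card Y : ℝ) - Module.finrank ℂ K) := by
  let d : X → EuclideanSpace ℂ Y := fun x => toLp 2 (fun y => star (D x y))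
  have hd : ∀ x v, inner ℂ (d x) v = (toEuclideanLin D v) x := by
    intro x v
    rw [inner_eq_sum, toEuclideanLin_coord]
    refine Finset.sum_congr rfl fun y _ => ?_
    show star (star (D x y)) * v y = _
    rw [star_star]
  have hdn : ∀ x, ‖d x‖ ^ 2 = ∑ y, ‖D x y‖ ^ 2 := by
    intro x
    rw [EuclideanSpace.norm_sq_eq]
    refine Finset.sum_congr rfl fun y _ => ?_
    show ‖star (D x y)‖ ^ 2 = _
    rw [norm_star]
  have hdK : ∀ x, d x ∈ Kᗮ := by
    intro x
    rw [Submodule.mem_orthogonal']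
    intro u hu
    rw [hd, hK u hu]; rfl
  let b := stdOrthonormalBasis ℂ Kᗮ
  have h1 : ∀ x, ‖d x‖ ^ 2 = ∑ j, ‖(toEuclideanLin D (b j : EuclideanSpace ℂ Y)) x‖ ^ 2 := by
    intro x
    have h2 := b.sum_sq_norm_inner_left ⟨d x, hdK x⟩
    have h3 : ‖(⟨d x, hdK x⟩ : Kᗮ)‖ = ‖d x‖ := rfl
    rw [← h3, ← h2]
    refine Finset.sum_congr rfl fun j _ => ?_
    rw [← hd]
    rfl
  have h4 : fro D = ∑ j, ‖toEuclideanLin D (b j : EuclideanSpace ℂ Y)‖ ^ 2 := by
    unfold fro
    rw [Finset.sum_congr rfl fun x _ => (hdn x).symm, Finset.sum_congr rfl fun x _ => h1 x,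
      Finset.sum_comm]
    refine Finset.sum_congr rfl fun j _ => ?_
    rw [EuclideanSpace.norm_sq_eq]
  rw [h4]
  have h5 : ∀ j ∈ Finset.univ, ‖toEuclideanLin D (b j : EuclideanSpace ℂ Y)‖ ^ 2 ≤ c := by
    intro j _
    refine (hc _).trans (le_of_eq ?_)
    have : ‖(b j : EuclideanSpace ℂ Y)‖ = 1 := b.orthonormal.1 j
    rw [this]; ring
  refine (Finset.sum_le_sum h5).trans (le_of_eq ?_)
  rw [Finset.sum_const, Finset.card_univ, Fintype.card_fin, nsmul_eq_mul, mul_comm]
  congr 1
  have h6 := K.finrank_add_finrank_orthogonal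
  rw [finrank_euclideanSpace] at h6
  rw [← h6]
  push_cast
  ring

/-- the matrix of an injection -/
def Jm [DecidableEq X] (j : Y → X) : Matrix X Y ℂ := (1 : Matrix X X ℂ).submatrix id j

theorem Jm_apply [DecidableEq X] (j : Y → X) (x : X) (y : Y) :
    Jm j x y = if x = j y then 1 else 0 := by
  rw [Jm, Matrix.submatrix_apply, Matrix.one_apply]; rfl

theorem mul_Jm [DecidableEq X] (j : Y → X) (A : Matrix Z X ℂ) :
    A * Jm j = A.submatrix id j := by
  ext z y
  rw [Matrix.mul_apply, Matrix.submatrix_apply]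
  simp only [Jm_apply, mul_ite, mul_one, mul_zero, id]
  rw [Finset.sum_ite_eq' Finset.univ (j y), if_pos (Finset.mem_univ _)]

theorem Jm_isometry [DecidableEq X] [DecidableEq Y] (j : Y → X) (hj : Function.Injective j) :
    (Jm j)ᴴ * Jm j = 1 := by
  rw [mul_Jm]
  ext y y'
  rw [Matrix.submatrix_apply, Matrix.conjTranspose_apply, Jm_apply, Matrix.one_apply]
  by_cases h : y = y'
  · subst h; simp
  · rw [if_neg h]
    simp only [id]
    rw [if_neg (fun h' => h (hj h').symm), star_zero]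

theorem Jm_mulVec [DecidableEq X] [DecidableEq Y] (j : Y → X) (hj : Function.Injective j)
    (v : EuclideanSpace ℂ Y) (y : Y) : (toEuclideanLin (Jm j) v) (j y) = v y := by
  rw [toEuclideanLin_coord]
  simp only [Jm_apply]
  rw [Finset.sum_eq_single y]
  · simp
  · intro b _ hb
    rw [if_neg (fun h => hb (hj h).symm), zero_mul]
  · intro h; exact absurd (Finset.mem_univ y) h

theorem Jm_mulVec' [DecidableEq X] [DecidableEq Y] (j : Y → X) 
    (v : EuclideanSpace ℂ Y) (x : X) (hx : x ∉ Set.range j) : (toEuclideanLin (Jm j) v) x = 0 := by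
  rw [toEuclideanLin_coord]
  refine Finset.sum_eq_zero fun y _ => ?_
  rw [Jm_apply, if_neg (fun h => hx ⟨y, h.symm⟩), zero_mul]

/-- compressing a unitary to a unitary -/
theorem compress [DecidableEq X] [DecidableEq Y] (U : Matrix.unitaryGroup X ℂ) (j : Y → X)
    (hj : Function.Injective j) :
    ∃ φ : Matrix.unitaryGroup Y ℂ,
      fro (U.1 * Jm j - Jm j * φ.1) ≤ 4 * ((Fintype.card X : ℝ) - Fintype.card Y) := by
  classical
  have hUJ : (U.1 * Jm j)ᴴ * (U.1 * Jm j) = 1 := by
    rw [conjTranspose_mul, Matrix.mul_assoc, ← Matrix.mul_assoc (U.1)ᴴ, uh_mul, Matrix.one_mul,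
      Jm_isometry j hj]
  let L0 : EuclideanSpace ℂ Y →ₗ[ℂ] EuclideanSpace ℂ X := toEuclideanLin (U.1 * Jm j)
  have hL0 : ∀ v, ‖L0 v‖ = ‖v‖ := isometry_norm _ hUJ
  let ρ : EuclideanSpace ℂ X →ₗ[ℂ] ({x // x ∉ Set.range j} → ℂ) :=
    { toFun := fun v x => v x.1
      map_add' := fun v w => rfl
      map_smul' := fun c v => rfl }
  let K : Submodule ℂ (EuclideanSpace ℂ Y) := LinearMap.ker (ρ.comp L0)
  have hKmem : ∀ v ∈ K, ∀ x, x ∉ Set.range j → (L0 v) x = 0 := by
    intro v hv x hx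
    exact congrFun (LinearMap.mem_ker.mp hv) ⟨x, hx⟩
  have hKdim : (Fintype.card Y : ℝ) - Module.finrank ℂ K ≤ (Fintype.card X : ℝ) - Fintype.card Y := by
    have h1 := LinearMap.finrank_range_add_finrank_ker (ρ.comp L0)
    rw [finrank_euclideanSpace] at h1
    have h2 : Module.finrank ℂ (LinearMap.range (ρ.comp L0)) ≤ Fintype.card {x // x ∉ Set.range j} := by
      refine (Submodule.finrank_le _).trans (le_of_eq ?_)
      exact Module.finrank_fintype_fun_eq_card ℂ
    have h3 : Fintype.card {x // x ∉ Set.range j} + Fintype.card Y = Fintype.card X := by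
      rw [Fintype.card_subtype_compl, ← Set.card_range_of_injective hj]
      apply Nat.sub_add_cancel
      exact Fintype.card_subtype_le _
    have h4 : (Module.finrank ℂ (LinearMap.range (ρ.comp L0)) : ℝ) +
        Module.finrank ℂ K = Fintype.card Y := by exact_mod_cast h1
    have h5 : (Module.finrank ℂ (LinearMap.range (ρ.comp L0)) : ℝ) ≤
      Fintype.card {x // x ∉ Set.range j} := by exact_mod_cast h2
    have h6 : (Fintype.card {x // x ∉ Set.range j} : ℝ) + Fintype.card Y = Fintype.card X := by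
      exact_mod_cast h3
    linarith
  let L1 : K →ₗ[ℂ] EuclideanSpace ℂ Y :=
    { toFun := fun v => toLp 2 (fun y => (L0 v.1) (j y))
      map_add' := fun v w => by
        ext y
        show (L0 (v.1 + w.1)) (j y) = (L0 v.1) (j y) + (L0 w.1) (j y)
        rw [map_add]; rfl
      map_smul' := fun c v => by
        ext y
        show (L0 (c • v.1)) (j y) = c * (L0 v.1) (j y)
        rw [map_smul]; rfl }
  have hL1 : ∀ v : K, toEuclideanLin (Jm j) (L1 v) = L0 v.1 := by
    intro v
    ext x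
    by_cases hx : x ∈ Set.range j
    · obtain ⟨y, rfl⟩ := hx
      rw [Jm_mulVec j hj]
      rfl
    · rw [Jm_mulVec' j _ x hx, hKmem v.1 v.2 x hx]
  let L : K →ₗᵢ[ℂ] EuclideanSpace ℂ Y :=
    { toLinearMap := L1
      norm_map' := fun v => by
        rw [← isometry_norm (Jm j) (Jm_isometry j hj) (L1 v), hL1, hL0]; rfl }
  let E := L.extend
  let b := EuclideanSpace.basisFun Y ℂ
  have hφ : (colm (fun y => E (b y)))ᴴ * colm (fun y => E (b y)) = 1 := by
    apply colm_isometry
    exact b.orthonormal.comp_linearIsometry E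
  have hφE : ∀ v, toEuclideanLin (colm (fun y => E (b y))) v = E v := by
    intro v
    have h1 : v = ∑ y, v y • b y := by
      conv_lhs => rw [← b.sum_repr v]
      rfl
    conv_rhs => rw [h1, map_sum]
    ext x
    rw [toEuclideanLin_coord, WithLp.ofLp_sum, Finset.sum_apply]
    refine Finset.sum_congr rfl fun y _ => ?_
    rw [map_smul]
    show (E (b y)) x * v y = v y * (E (b y)) x
    rw [mul_comm]
  refine ⟨⟨colm (fun y => E (b y)), Matrix.mem_unitaryGroup_iff'.mpr hφ⟩, ?_⟩
  show fro (U.1 * Jm j - Jm j * colm (fun y => E (b y))) ≤ _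
  have hD : ∀ v, toEuclideanLin (U.1 * Jm j - Jm j * colm (fun y => E (b y))) v =
      L0 v - toEuclideanLin (Jm j) (E v) := by
    intro v
    rw [map_sub, LinearMap.sub_apply, ← hφE v]
    congr 1
    show toLp 2 ((Jm j * colm (fun y => E (b y))) *ᵥ ofLp v) = 
      toLp 2 (Jm j *ᵥ (colm (fun y => E (b y)) *ᵥ ofLp v))
    rw [mulVec_mulVec]
  refine (fro_le_of_ker _ K ?_ 4 ?_).trans ?_
  · intro v hv
    rw [hD, show E v = L ⟨v, hv⟩ from LinearIsometry.extend_apply L ⟨v, hv⟩,
      show toEuclideanLin (Jm j) (L ⟨v, hv⟩) = L0 v from hL1 ⟨v, hv⟩, sub_self]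
  · intro v
    rw [hD]
    have h1 : ‖L0 v - toEuclideanLin (Jm j) (E v)‖ ≤ 2 * ‖v‖ := by
      refine (norm_sub_le _ _).trans ?_
      rw [hL0, isometry_norm (Jm j) (Jm_isometry j hj), E.norm_map]
      linarith
    calc ‖L0 v - toEuclideanLin (Jm j) (E v)‖ ^ 2 ≤ (2 * ‖v‖) ^ 2 :=
          pow_le_pow_left₀ (norm_nonneg _) h1 2
      _ = 4 * ‖v‖ ^ 2 := by ring
  · linarith

end orth

section diag

open Module.End in
/-- simultaneous diagonalisation of commuting Hermitian matrices -/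
theorem simdiag {X ι : Type} [Fintype X] [DecidableEq X] (A : ι → Matrix X X ℂ)
    (hA : ∀ i, (A i).IsHermitian) (hc : ∀ i j, A i * A j = A j * A i) :
    ∃ (W : Matrix.unitaryGroup X ℂ) (p : X → ι → ℂ),
      ∀ i, A i * W.1 = W.1 * diagonal (fun x => p x i) := by
  classical
  let T : ι → EuclideanSpace ℂ X →ₗ[ℂ] EuclideanSpace ℂ X := fun i => toEuclideanLin (A i)
  have hT : ∀ i, (T i).IsSymmetric := fun i => isSymmetric_toEuclideanLin_iff.mpr (hA i)
  have hC : Pairwise (Function.onFun Commute T) := by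
    intro i j _
    show T i * T j = T j * T i
    ext v
    show toLp 2 (A i *ᵥ (A j *ᵥ ofLp v)) _ = toLp 2 (A j *ᵥ (A i *ᵥ ofLp v)) _
    rw [mulVec_mulVec, mulVec_mulVec, hc]
  let V : (ι → ℂ) → Submodule ℂ (EuclideanSpace ℂ X) := fun α => ⨅ j, eigenspace (T j) (α j)
  have hint : DirectSum.IsInternal V :=
    LinearMap.IsSymmetric.directSum_isInternal_of_pairwise_commute hT hC
  have hint' := DirectSum.isInternal_ne_bot_iff.mpr hint
  have horth : OrthogonalFamily ℂ (fun α => V α) fun α => (V α).subtypeₗᵢ :=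
    LinearMap.IsSymmetric.orthogonalFamily_iInf_eigenspaces hT
  have horth' := horth.comp (f := (Subtype.val : {α // V α ≠ ⊥} → (ι → ℂ)))
    Subtype.val_injective
  have hfin : Finite {α // V α ≠ ⊥} :=
    Submodule.finite_ne_bot_of_iSupIndep hint.submodule_iSupIndep
  have : Fintype {α // V α ≠ ⊥} := Fintype.ofFinite _
  let b := hint'.subordinateOrthonormalBasis (finrank_euclideanSpace (ι := X) (𝕜 := ℂ)) horth'
  let e : Fin (Fintype.card X) ≃ X := (Fintype.equivFin X).symm
  let q : X → {α // V α ≠ ⊥} := fun x =>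
    hint'.subordinateOrthonormalBasisIndex (finrank_euclideanSpace (ι := X) (𝕜 := ℂ)) (e.symm x)
      horth'
  let b' := b.reindex e
  have hmem : ∀ x, b' x ∈ V (q x).1 := by
    intro x
    have := hint'.subordinateOrthonormalBasis_subordinate
      (finrank_euclideanSpace (ι := X) (𝕜 := ℂ)) (e.symm x) horth'
    show (b.reindex e) x ∈ _
    rw [OrthonormalBasis.reindex_apply]
    exact this
  refine ⟨⟨colm (fun x => b' x), Matrix.mem_unitaryGroup_iff'.mpr
    (colm_isometry _ b'.orthonormal)⟩, fun x => (q x).1, fun i => ?_⟩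
  ext x y
  have h1 := hmem y
  have h2 : b' y ∈ eigenspace (T i) ((q y).1 i) := (Submodule.mem_iInf _).mp h1 i
  rw [mem_eigenspace_iff] at h2
  have h3 := congrArg (fun v : EuclideanSpace ℂ X => v x) h2
  show (A i * colm (fun x => b' x)) x y =
    (colm (fun x => b' x) * diagonal (fun x => (q x).1 i)) x y
  rw [Matrix.mul_diagonal]
  rw [Matrix.mul_apply]
  refine h3.trans ?_
  show (q y).1 i * (b' y) x = (b' y) x * (q y).1 i
  rw [mul_comm]

end diag

end Pool.Agent.H698R3.Amalg
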