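import Pool.Agent.H698R3.HsLin

set_option autoImplicit false

/-! Unitary representations by matrices: blocks, conjugates, sums. -/

namespace Pool.Agent.H698R3.Amalg

open Matrix

section rep

variable {G : Type} [Group G] {X Y Z : Type} [Fintype X] [DecidableEq X] [Fintype Y]
  [DecidableEq Y] [Fintype Z] [DecidableEq Z]

theorem rep_mul (ψ : G →* Matrix.unitaryGroup X ℂ) (g h : G) :
    (ψ (g * h)).1 = (ψ g).1 * (ψ h).1 := by rw [map_mul]; rfl

theorem rep_one (ψ : G →* Matrix.unitaryGroup X ℂ) : (ψ 1).1 = 1 := by rw [map_one]; rfl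

theorem rep_inv (ψ : G →* Matrix.unitaryGroup X ℂ) (g : G) : (ψ g⁻¹).1 = ((ψ g).1)ᴴ := by
  rw [map_inv]; rfl

/-- make a unitary representation from a matrix valued function -/
def mkRep (a : G → Matrix X X ℂ) (h1 : a 1 = 1) (hm : ∀ g h, a (g * h) = a g * a h)
    (hs : ∀ g, a g⁻¹ = (a g)ᴴ) : G →* Matrix.unitaryGroup X ℂ where
  toFun g := ⟨a g, by
    rw [Matrix.mem_unitaryGroup_iff']
    show (a g)ᴴ * a g = 1
    rw [← hs, ← hm, inv_mul_cancel, h1]⟩
  map_one' := Subtype.ext h1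
  map_mul' g h := Subtype.ext (hm g h)

theorem mkRep_coe (a : G → Matrix X X ℂ) (h1 : a 1 = 1) (hm : ∀ g h, a (g * h) = a g * a h)
    (hs : ∀ g, a g⁻¹ = (a g)ᴴ) (g : G) : (mkRep a h1 hm hs g).1 = a g := rfl

theorem sum_fib {ι : Type} [DecidableEq ι] (p : X → ι) (i : ι) {M : Type} [AddCommMonoid M]
    (F : X → M) (hF : ∀ z, p z ≠ i → F z = 0) : ∑ z : {x // p x = i}, F z.1 = ∑ z, F z := by
  rw [← Finset.sum_subtype (Finset.univ.filter (fun x => p x = i)) (by simp) F,
    Finset.sum_filter]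
  refine Finset.sum_congr rfl fun z _ => ?_
  by_cases h : p z = i
  · rw [if_pos h]
  · rw [if_neg h, hF z h]

/-- block of a representation -/
def blk {ι : Type} [DecidableEq ι] (ψ : G →* Matrix.unitaryGroup X ℂ) (p : X → ι)
    (hp : ∀ g x y, p x ≠ p y → (ψ g).1 x y = 0) (i : ι) :
    G →* Matrix.unitaryGroup {x // p x = i} ℂ :=
  mkRep (fun g => (ψ g).1.submatrix Subtype.val Subtype.val)
    (by
      rw [rep_one]
      exact Matrix.submatrix_one _ Subtype.val_injective)
    (by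
      intro g h
      rw [rep_mul]
      ext x y
      rw [Matrix.submatrix_apply, Matrix.mul_apply, Matrix.mul_apply]
      refine (sum_fib p i (fun z => (ψ g).1 x.1 z * (ψ h).1 z y.1) fun z hz => ?_).symm
      rw [hp g x.1 z (by rw [x.2]; exact Ne.symm hz), zero_mul])
    (by
      intro g
      rw [rep_inv]
      rfl)

theorem blk_apply {ι : Type} [DecidableEq ι] (ψ : G →* Matrix.unitaryGroup X ℂ) (p : X → ι)
    (hp : ∀ g x y, p x ≠ p y → (ψ g).1 x y = 0) (i : ι) (g : G) (x y : {x // p x = i}) :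
    (blk ψ p hp i g).1 x y = (ψ g).1 x.1 y.1 := rfl

theorem blk_inter {ι : Type} [DecidableEq ι] (ψ : G →* Matrix.unitaryGroup X ℂ) (p : X → ι)
    (hp : ∀ g x y, p x ≠ p y → (ψ g).1 x y = 0) (i : ι) (g : G) :
    (ψ g).1 * Jm (Subtype.val : {x // p x = i} → X) =
      Jm (Subtype.val : {x // p x = i} → X) * (blk ψ p hp i g).1 := by
  ext x y
  rw [mul_Jm, Matrix.submatrix_apply, Matrix.mul_apply]
  simp only [Jm_apply, blk_apply, id, ite_mul, one_mul, zero_mul]
  by_cases h : p x = i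
  · rw [Finset.sum_eq_single (⟨x, h⟩ : {x // p x = i})]
    · rw [if_pos rfl]
    · intro z _ hz
      rw [if_neg]
      intro h'
      exact hz (Subtype.ext h'.symm)
    · intro h'; exact absurd (Finset.mem_univ _) h'
  · rw [hp g x y.1 (by rw [y.2]; exact h)]
    symm
    refine Finset.sum_eq_zero fun z _ => ?_
    rw [if_neg]
    intro h'
    exact h (by rw [h']; exact z.2)

/-- conjugated representation -/
def cjR (W : Matrix.unitaryGroup X ℂ) (ψ : G →* Matrix.unitaryGroup X ℂ) :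
    G →* Matrix.unitaryGroup X ℂ :=
  mkRep (fun g => (W.1)ᴴ * (ψ g).1 * W.1)
    (by rw [rep_one, Matrix.mul_one, uh_mul])
    (by
      intro g h
      rw [rep_mul]
      have : (W.1)ᴴ * (ψ g).1 * W.1 * ((W.1)ᴴ * (ψ h).1 * W.1) =
        (W.1)ᴴ * (ψ g).1 * (W.1 * (W.1)ᴴ) * (ψ h).1 * W.1 := by
        simp only [Matrix.mul_assoc]
      rw [this, mul_uh, Matrix.mul_one]
      simp only [Matrix.mul_assoc])
    (by
      intro g
      rw [rep_inv, conjTranspose_mul, conjTranspose_mul, conjTranspose_conjTranspose,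
        Matrix.mul_assoc])

theorem cjR_coe (W : Matrix.unitaryGroup X ℂ) (ψ : G →* Matrix.unitaryGroup X ℂ) (g : G) :
    (cjR W ψ g).1 = (W.1)ᴴ * (ψ g).1 * W.1 := rfl

theorem cjR_inter (W : Matrix.unitaryGroup X ℂ) (ψ : G →* Matrix.unitaryGroup X ℂ) (g : G) :
    W.1 * (cjR W ψ g).1 = (ψ g).1 * W.1 := by
  rw [cjR_coe, Matrix.mul_assoc, ← Matrix.mul_assoc, mul_uh, Matrix.one_mul]

/-- direct sum -/
def dsR (σ : G →* Matrix.unitaryGroup X ℂ) (τ : G →* Matrix.unitaryGroup Y ℂ) :
    G →* Matrix.unitaryGroup (X ⊕ Y) ℂ :=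
  mkRep (fun g => fromBlocks (σ g).1 0 0 (τ g).1)
    (by rw [rep_one, rep_one, fromBlocks_one])
    (by
      intro g h
      rw [rep_mul, rep_mul, fromBlocks_multiply]
      simp)
    (by
      intro g
      rw [rep_inv, rep_inv, fromBlocks_conjTranspose]
      simp)

theorem dsR_coe (σ : G →* Matrix.unitaryGroup X ℂ) (τ : G →* Matrix.unitaryGroup Y ℂ) (g : G) :
    (dsR σ τ g).1 = fromBlocks (σ g).1 0 0 (τ g).1 := rfl

/-- transport along a bijection -/
def trR (e : X ≃ Y) (ψ : G →* Matrix.unitaryGroup X ℂ) : G →* Matrix.unitaryGroup Y ℂ :=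
  mkRep (fun g => (ψ g).1.submatrix e.symm e.symm)
    (by rw [rep_one]; exact Matrix.submatrix_one_equiv _)
    (by intro g h; rw [rep_mul, ← Matrix.submatrix_mul_equiv _ _ _ e.symm _])
    (by intro g; rw [rep_inv]; rfl)

theorem trR_coe (e : X ≃ Y) (ψ : G →* Matrix.unitaryGroup X ℂ) (g : G) :
    (trR e ψ g).1 = (ψ g).1.submatrix e.symm e.symm := rfl

/-- general direct sum -/
def sgR {ι : Type} [Fintype ι] [DecidableEq ι] {X : ι → Type} [∀ i, Fintype (X i)]
    [∀ i, DecidableEq (X i)] (a : ∀ i, G →* Matrix.unitaryGroup (X i) ℂ) :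
    G →* Matrix.unitaryGroup (Σ i, X i) ℂ :=
  mkRep (fun g => blockDiagonal' (fun i => (a i g).1))
    (by
      have : (fun i => (a i 1).1) = 1 := by
        funext i; exact rep_one (a i)
      rw [this, blockDiagonal'_one])
    (by
      intro g h
      rw [← blockDiagonal'_mul]
      congr 1
      funext i
      exact rep_mul (a i) g h)
    (by
      intro g
      rw [blockDiagonal'_conjTranspose]
      congr 1
      funext i
      exact rep_inv (a i) g)

theorem sgR_coe {ι : Type} [Fintype ι] [DecidableEq ι] {X : ι → Type} [∀ i, Fintype (X i)]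
    [∀ i, DecidableEq (X i)] (a : ∀ i, G →* Matrix.unitaryGroup (X i) ℂ) (g : G) :
    (sgR a g).1 = blockDiagonal' (fun i => (a i g).1) := rfl

theorem zero_of_commute {ι : Type} [DecidableEq ι] (M : Matrix X X ℂ) (d : X → ℂ)
    (h : M * diagonal d = diagonal d * M) (x y : X) (hxy : d x ≠ d y) : M x y = 0 := by
  have h1 := congrFun (congrFun h x) y
  rw [Matrix.mul_diagonal, Matrix.diagonal_mul] at h1
  have h2 : (d x - d y) * M x y = 0 := by linear_combination -h1
  rcases mul_eq_zero.mp h2 with h3 | h3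
  · exact absurd (sub_eq_zero.mp h3) hxy
  · exact h3

end rep

end Pool.Agent.H698R3.Amalg
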