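import Pool.Agent.H698R3.HsTyp

set_option autoImplicit false

/-! Shrinking a representation of pure type. -/

namespace Pool.Agent.H698R3.Amalg

open Matrix Filter Topology

variable {G : Type} [Group G] (N : Subgroup G) [N.Normal] [Finite N]

theorem exists_gap [Fintype N] : ∃ c : ℝ, 0 < c ∧ ∀ s ∈ Ty N, ∀ t ∈ Ty N, s ≠ t →
    c ≤ ∑ n, ‖t n - s n‖ ^ 2 := by
  classical
  let D : (N → ℂ) × (N → ℂ) → ℝ := fun q => ∑ n, ‖q.2 n - q.1 n‖ ^ 2
  let S := (Ty N ×ˢ Ty N).filter (fun q => q.1 ≠ q.2)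
  have hD : ∀ q ∈ S, 0 < D q := by
    intro q hq
    obtain ⟨-, hne⟩ := Finset.mem_filter.mp hq
    obtain ⟨n, hn⟩ := Function.ne_iff.mp hne
    have h1 : 0 < ‖q.2 n - q.1 n‖ ^ 2 := by
      have : q.2 n - q.1 n ≠ 0 := sub_ne_zero.mpr (Ne.symm hn)
      positivity
    exact lt_of_lt_of_le h1 (Finset.single_le_sum (f := fun n => ‖q.2 n - q.1 n‖ ^ 2)
      (fun _ _ => by positivity) (Finset.mem_univ n))
  by_cases hS : S.Nonempty
  · obtain ⟨q, hq, hmin⟩ := Finset.exists_min_image S D hS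
    refine ⟨D q, hD q hq, fun s hs t ht hst => ?_⟩
    exact hmin (s, t) (Finset.mem_filter.mpr ⟨Finset.mk_mem_product hs ht, hst⟩)
  · refine ⟨1, one_pos, fun s hs t ht hst => ?_⟩
    exact absurd ⟨(s, t), Finset.mem_filter.mpr ⟨Finset.mk_mem_product hs ht, hst⟩⟩ hS

theorem shrinkH (hst : hsCls.Stable G) (F : Finset G) (ε : ℝ) (hε : 0 < ε) :
    ∃ η : ℝ, 0 < η ∧ ∀ (X : Type) [Fintype X] [DecidableEq X]
      (ψ : G →* Matrix.unitaryGroup X ℂ) (t : N → ℂ), IsLab N ψ (fun _ => t) →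
      ∀ r : ℕ, (r : ℝ) ≤ η * Fintype.card X →
      ∃ (A : Type) (_ : Fintype A) (_ : DecidableEq A) (θ : G →* Matrix.unitaryGroup A ℂ)
        (J : Matrix X A ℂ), Jᴴ * J = 1 ∧ IsLab N θ (fun _ => t) ∧
        Fintype.card A + r ≤ Fintype.card X ∧
        (Fintype.card X : ℝ) ≤ Fintype.card A + ε * Fintype.card X ∧
        ∀ g ∈ F, fro ((ψ g).1 * J - J * (θ g).1) ≤ ε * Fintype.card X := by
  classical
  have _ : Fintype N := Fintype.ofFinite _
  obtain ⟨c0, hc0, hgap⟩ := exists_gap N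
  by_contra hcon
  push Not at hcon
  have hseq := fun m : ℕ => hcon (1 / ((m : ℝ) + 2)) (by positivity)
  choose X inst1 inst2 ψ t hlab r hr hbad using hseq
  -- sizes
  have hm2 : ∀ m : ℕ, (0 : ℝ) < (m : ℝ) + 2 := fun m => by positivity
  have hrK : ∀ m, (r m : ℝ) ≤ Fintype.card (X m) / 2 := by
    intro m
    refine (hr m).trans ?_
    have h1 : 1 / ((m : ℝ) + 2) ≤ 1 / 2 := by
      apply one_div_le_one_div_of_le (by norm_num)
      have : (0 : ℝ) ≤ m := Nat.cast_nonneg m
      linarith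
    have h2 : (0 : ℝ) ≤ Fintype.card (X m) := Nat.cast_nonneg _
    nlinarith
  have hrK' : ∀ m, r m ≤ Fintype.card (X m) := by
    intro m
    have h1 := hrK m
    have h2 : (0 : ℝ) ≤ Fintype.card (X m) := Nat.cast_nonneg _
    have h3 : (r m : ℝ) ≤ Fintype.card (X m) := by linarith
    exact_mod_cast h3
  let k' : ℕ → ℕ := fun m => Fintype.card (X m) - r m
  have hk' : ∀ m, (k' m : ℝ) = Fintype.card (X m) - r m := fun m => Nat.cast_sub (hrK' m)
  have hk'2 : ∀ m, (Fintype.card (X m) : ℝ) ≤ 2 * k' m := by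
    intro m
    rw [hk']
    have := hrK m
    linarith
  have hrk : ∀ m, (r m : ℝ) ≤ 2 / ((m : ℝ) + 2) * k' m := by
    intro m
    refine (hr m).trans ?_
    calc 1 / ((m : ℝ) + 2) * (Fintype.card (X m) : ℝ) ≤ 1 / ((m : ℝ) + 2) * (2 * k' m) :=
          mul_le_mul_of_nonneg_left (hk'2 m) (by have := hm2 m; positivity)
      _ = 2 / ((m : ℝ) + 2) * k' m := by ring
  let j : ∀ m, Fin (k' m) → X m := fun m i =>
    (Fintype.equivFin (X m)).symm (Fin.castLE (Nat.sub_le _ _) i)
  have hj : ∀ m, Function.Injective (j m) := fun m =>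
    (Fintype.equivFin (X m)).symm.injective.comp (Fin.castLE_injective _)
  have hcomp := fun m g => compress (ψ m g) (j m) (hj m)
  choose φ hφ using hcomp
  have hφ' : ∀ m g, fn ((ψ m g).1 * Jm (j m) - Jm (j m) * (φ m g).1) ≤
      2 * Real.sqrt (2 / ((m : ℝ) + 2)) * Real.sqrt (k' m) := by
    intro m g
    have h1 := hφ m g
    rw [Fintype.card_fin, hk', sub_sub_cancel] at h1
    have h2 : fro ((ψ m g).1 * Jm (j m) - Jm (j m) * (φ m g).1) ≤
        (2 * Real.sqrt (2 / ((m : ℝ) + 2)) * Real.sqrt (k' m)) ^ 2 := by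
      rw [mul_pow, mul_pow, Real.sq_sqrt (by have := hm2 m; positivity),
        Real.sq_sqrt (Nat.cast_nonneg _)]
      have := hrk m
      linarith
    unfold fn
    rw [← Real.sqrt_sq (show 0 ≤ 2 * Real.sqrt (2 / ((m : ℝ) + 2)) * Real.sqrt (k' m) by positivity)]
    exact Real.sqrt_le_sqrt h2
  have hJ : ∀ m, (Jm (j m))ᴴ * Jm (j m) = 1 := fun m => Jm_isometry (j m) (hj m)
  have hlim0 : Tendsto (fun m : ℕ => Real.sqrt (2 / ((m : ℝ) + 2))) atTop (𝓝 0) := by
    have h1 : Tendsto (fun m : ℕ => 2 / ((m : ℝ) + 2)) atTop (𝓝 0) := by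
      refine Tendsto.div_atTop tendsto_const_nhds ?_
      exact tendsto_atTop_add_const_right _ _ tendsto_natCast_atTop_atTop
    have h2 := (Real.continuous_sqrt.tendsto 0).comp h1
    rw [Real.sqrt_zero] at h2
    exact h2
  -- an asymptotic homomorphism
  obtain ⟨θ, hθ⟩ := hst k' (fun m g => φ m g) (by
    intro a b
    have hbound : ∀ m, hsCls.d (k' m) (φ m a * φ m b) (φ m (a * b)) ≤
        6 * Real.sqrt (2 / ((m : ℝ) + 2)) := by
      intro m
      show hsDist ((φ m a).1 * (φ m b).1) (φ m (a * b)).1 ≤ _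
      rw [hsDist_eq]
      refine div_le_of_le_mul₀ (Real.sqrt_nonneg _) (by positivity) ?_
      rw [Fintype.card_fin]
      have e1 : fn ((φ m a).1 * (φ m b).1 - (φ m (a * b)).1) =
          fn (Jm (j m) * ((φ m a).1 * (φ m b).1 - (φ m (a * b)).1)) := by
        unfold fn; rw [fro_mul_left _ (hJ m)]
      have e2 : Jm (j m) * ((φ m a).1 * (φ m b).1 - (φ m (a * b)).1) =
          -(((ψ m a).1 * Jm (j m) - Jm (j m) * (φ m a).1) * (φ m b).1) +
          -((ψ m a).1 * ((ψ m b).1 * Jm (j m) - Jm (j m) * (φ m b).1)) +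
          ((ψ m (a * b)).1 * Jm (j m) - Jm (j m) * (φ m (a * b)).1) := by
        rw [rep_mul]
        simp only [Matrix.mul_sub, Matrix.sub_mul, Matrix.mul_assoc]
        abel
      have hneg : ∀ (M : Matrix (X m) (Fin (k' m)) ℂ), fn (-M) = fn M := fun M => by
        unfold fn; rw [fro_neg]
      rw [e1, e2]
      refine (fn_add_le _ _).trans ?_
      have f1 := fn_add_le (-(((ψ m a).1 * Jm (j m) - Jm (j m) * (φ m a).1) * (φ m b).1))
        (-((ψ m a).1 * ((ψ m b).1 * Jm (j m) - Jm (j m) * (φ m b).1)))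
      rw [hneg, hneg, fn_right, fn_left] at f1
      have f2 := hφ' m a
      have f3 := hφ' m b
      have f4 := hφ' m (a * b)
      linarith
    refine squeeze_zero (fun m => hsCls_metric.nonneg _ _ _) hbound ?_
    simpa using hlim0.const_mul 6)
  -- closeness of the homomorphisms
  let α : ℕ → G → ℝ := fun m g => 2 * Real.sqrt (2 / ((m : ℝ) + 2)) +
    hsCls.d (k' m) (φ m g) (θ m g)
  have hα0 : ∀ m g, 0 ≤ α m g := fun m g => by
    have := hsCls_metric.nonneg (k' m) (φ m g) (θ m g)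
    have h2 : 0 ≤ 2 * Real.sqrt (2 / ((m : ℝ) + 2)) := by positivity
    show 0 ≤ 2 * Real.sqrt (2 / ((m : ℝ) + 2)) + hsCls.d (k' m) (φ m g) (θ m g)
    linarith
  have hαlim : ∀ g, Tendsto (fun m => α m g) atTop (𝓝 0) := by
    intro g
    have := (hlim0.const_mul 2).add (hθ g)
    rw [mul_zero, add_zero] at this
    exact this
  let θ' : ∀ m, G →* Matrix.unitaryGroup (Fin (k' m)) ℂ := fun m => θ m
  have hclose : ∀ m g, fn ((ψ m g).1 * Jm (j m) - Jm (j m) * (θ' m g).1) ≤
      α m g * Real.sqrt (k' m) := by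
    intro m g
    have e1 : (ψ m g).1 * Jm (j m) - Jm (j m) * (θ' m g).1 =
        ((ψ m g).1 * Jm (j m) - Jm (j m) * (φ m g).1) + Jm (j m) * ((φ m g).1 - (θ' m g).1) := by
      rw [Matrix.mul_sub]; abel
    rw [e1]
    refine (fn_add_le _ _).trans ?_
    have e2 : fn (Jm (j m) * ((φ m g).1 - (θ' m g).1)) = fn ((φ m g).1 - (θ' m g).1) := by
      unfold fn; rw [fro_mul_left _ (hJ m)]
    rw [e2]
    have e3 : fn ((φ m g).1 - (θ' m g).1) ≤
        hsCls.d (k' m) (φ m g) (θ m g) * Real.sqrt (Fintype.card (Fin (k' m))) :=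
      fn_of_d (le_refl _)
    rw [Fintype.card_fin] at e3
    have e4 := hφ' m g
    show _ ≤ (2 * Real.sqrt (2 / ((m : ℝ) + 2)) + hsCls.d (k' m) (φ m g) (θ m g)) *
      Real.sqrt (k' m)
    rw [add_mul]
    linarith
  let β : ℕ → ℝ := fun m => ∑ n : N, α m n
  have hβ0 : ∀ m, 0 ≤ β m := fun m => Finset.sum_nonneg fun n _ => hα0 m n
  have hβlim : Tendsto β atTop (𝓝 0) := by
    have := tendsto_finsetSum (Finset.univ : Finset N) (fun n _ => hαlim (n : G))
    simpa using this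
  have hαβ : ∀ m (n : N), α m n ≤ β m := fun m n =>
    Finset.single_le_sum (f := fun n : N => α m n) (fun n _ => hα0 m n) (Finset.mem_univ n)
  -- decomposition
  have hlabθ := fun m => exists_lab N (θ' m)
  choose W p hp using hlabθ
  have hzz : ∀ m (n : N), ∑ y, ‖t m n - p m y n‖ ^ 2 ≤ β m ^ 2 * k' m := by
    intro m n
    have h1 := zz_fn N (ψ m) (θ' m) (Jm (j m)) n (β m * Real.sqrt (k' m)) (fun n' =>
      (hclose m n').trans (mul_le_mul_of_nonneg_right (hαβ m n') (Real.sqrt_nonneg _)))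
    have h2 : zz N (ψ m) n * Jm (j m) - Jm (j m) * zz N (θ' m) n =
        Jm (j m) * ((t m n) • (1 : Matrix (Fin (k' m)) (Fin (k' m)) ℂ) - zz N (θ' m) n) := by
      rw [hlab m n, Matrix.mul_sub, Matrix.mul_smul, Matrix.mul_one]
      congr 1
      ext x y
      rw [Matrix.diagonal_mul, Matrix.smul_apply, smul_eq_mul]
    have h3 : fro ((t m n) • (1 : Matrix (Fin (k' m)) (Fin (k' m)) ℂ) - zz N (θ' m) n) =
        ∑ y, ‖t m n - p m y n‖ ^ 2 := by
      have h4 : ((t m n) • (1 : Matrix (Fin (k' m)) (Fin (k' m)) ℂ) - zz N (θ' m) n) * (W m).1 =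
          (W m).1 * diagonal (fun y => t m n - p m y n) := by
        rw [Matrix.sub_mul, Matrix.smul_mul, Matrix.one_mul,
          zz_inter N (θ' m) (cjR (W m) (θ' m)) (W m).1 (fun g => (cjR_inter (W m) (θ' m) g).symm),
          hp m n]
        ext x y
        rw [Matrix.sub_apply, Matrix.smul_apply, Matrix.mul_diagonal, Matrix.mul_diagonal,
          smul_eq_mul]
        ring
      rw [← fro_mul_right (W m).1 (mul_uh (W m)), h4, fro_mul_left _ (uh_mul (W m))]
      unfold fro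
      refine Finset.sum_congr rfl fun y _ => ?_
      rw [Finset.sum_eq_single y]
      · rw [Matrix.diagonal_apply_eq]
      · intro z _ hz
        rw [Matrix.diagonal_apply_ne _ (Ne.symm hz), norm_zero]; norm_num
      · intro h; exact absurd (Finset.mem_univ y) h
    rw [h2] at h1
    have h5 : fn (Jm (j m) * ((t m n) • (1 : Matrix (Fin (k' m)) (Fin (k' m)) ℂ) -
        zz N (θ' m) n)) ^ 2 ≤ (β m * Real.sqrt (k' m)) ^ 2 :=
      pow_le_pow_left₀ (fn_nonneg _) h1 2
    rw [fn_sq, fro_mul_left _ (hJ m), h3, mul_pow, Real.sq_sqrt (Nat.cast_nonneg _)] at h5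
    exact h5
  have hbadcount : ∀ m, ((Finset.univ.filter (fun y => p m y ≠ t m)).card : ℝ) * c0 ≤
      Fintype.card N * (β m ^ 2 * k' m) := by
    intro m
    have h1 : ((Finset.univ.filter (fun y => p m y ≠ t m)).card : ℝ) * c0 ≤
        ∑ y ∈ Finset.univ.filter (fun y => p m y ≠ t m), ∑ n, ‖t m n - p m y n‖ ^ 2 := by
      rw [← nsmul_eq_mul, ← Finset.sum_const]
      refine Finset.sum_le_sum fun y hy => ?_
      have hy' := (Finset.mem_filter.mp hy).2
      exact hgap _ ((hp m).mem N y) _ ((hlab m).mem N (j m y)) hy'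
    have h2 : ∑ y ∈ Finset.univ.filter (fun y => p m y ≠ t m), ∑ n, ‖t m n - p m y n‖ ^ 2 ≤
        ∑ y, ∑ n, ‖t m n - p m y n‖ ^ 2 :=
      Finset.sum_le_sum_of_subset_of_nonneg (Finset.filter_subset _ _)
        (fun _ _ _ => by positivity)
    have h3 : ∑ y, ∑ n, ‖t m n - p m y n‖ ^ 2 = ∑ n, ∑ y, ‖t m n - p m y n‖ ^ 2 :=
      Finset.sum_comm
    rw [h3] at h2
    refine h1.trans (h2.trans ?_)
    refine (Finset.sum_le_sum fun n _ => hzz m n).trans ?_
    rw [Finset.sum_const, Finset.card_univ, nsmul_eq_mul]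
  -- choose a large index
  have hev1 : ∀ᶠ m : ℕ in atTop, 1 / ((m : ℝ) + 2) + Fintype.card N * β m ^ 2 / c0 ≤ ε := by
    have h1 : Tendsto (fun m : ℕ => 1 / ((m : ℝ) + 2) + Fintype.card N * β m ^ 2 / c0) atTop
        (𝓝 0) := by
      have h2 : Tendsto (fun m : ℕ => 1 / ((m : ℝ) + 2)) atTop (𝓝 0) := by
        refine Tendsto.div_atTop tendsto_const_nhds ?_
        exact tendsto_atTop_add_const_right _ _ tendsto_natCast_atTop_atTop
      have h3 := ((hβlim.pow 2).const_mul (Fintype.card N : ℝ)).div_const c0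
      have h4 := h2.add h3
      simpa using h4
    exact (h1.eventually (gt_mem_nhds hε)).mono fun m hm => le_of_lt hm
  have hev2 : ∀ᶠ m : ℕ in atTop, ∀ g ∈ F, α m g ^ 2 ≤ ε := by
    rw [Filter.eventually_all_finset]
    intro g _
    have h1 : Tendsto (fun m : ℕ => α m g ^ 2) atTop (𝓝 0) := by
      simpa using (hαlim g).pow 2
    exact (h1.eventually (gt_mem_nhds hε)).mono fun m hm => le_of_lt hm
  obtain ⟨m, hm1, hm2'⟩ := (hev1.and hev2).exists
  -- the new representation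
  let θ'' := blk (cjR (W m) (θ' m)) (p m) (fun g x y hxy => (hp m).off N g x y hxy) (t m)
  let J' : Matrix (X m) {y // p m y = t m} ℂ :=
    Jm (j m) * ((W m).1 * Jm (Subtype.val : {y // p m y = t m} → Fin (k' m)))
  have hJ'i : J'ᴴ * J' = 1 := by
    show (Jm (j m) * ((W m).1 * Jm (Subtype.val : {y // p m y = t m} → Fin (k' m))))ᴴ *
      (Jm (j m) * ((W m).1 * Jm (Subtype.val : {y // p m y = t m} → Fin (k' m)))) = 1
    rw [conjTranspose_mul, Matrix.mul_assoc, ← Matrix.mul_assoc (Jm (j m))ᴴ, hJ, Matrix.one_mul,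
      conjTranspose_mul, Matrix.mul_assoc, ← Matrix.mul_assoc ((W m).1)ᴴ, uh_mul, Matrix.one_mul,
      Jm_isometry _ Subtype.val_injective]
  have hcount : (k' m : ℝ) = Fintype.card {y // p m y = t m} +
      (Finset.univ.filter (fun y => p m y ≠ t m)).card := by
    rw [Fintype.card_subtype]
    have := Finset.card_filter_add_card_filter_not (s := (Finset.univ : Finset (Fin (k' m))))
      (fun y => p m y = t m)
    rw [Finset.card_univ, Fintype.card_fin] at this
    exact_mod_cast this.symm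
  have hKk : (k' m : ℝ) ≤ Fintype.card (X m) := by
    rw [hk']
    have : (0 : ℝ) ≤ r m := Nat.cast_nonneg _
    linarith
  obtain ⟨g, hgF, hg⟩ := hbad m {y // p m y = t m} inferInstance inferInstance θ'' J' hJ'i
    ((hp m).blk N (t m)) (by
      have h1 : (Fintype.card {y // p m y = t m} : ℝ) ≤ k' m := by
        rw [hcount]
        have : (0 : ℝ) ≤ (Finset.univ.filter (fun y => p m y ≠ t m)).card := Nat.cast_nonneg _
        linarith
      have h2 : Fintype.card {y // p m y = t m} ≤ k' m := by exact_mod_cast h1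
      have h3 := hrK' m
      show Fintype.card {y // p m y = t m} + r m ≤ Fintype.card (X m)
      have h4 : k' m = Fintype.card (X m) - r m := rfl
      omega)
    (by
      have h1 := hbadcount m
      have h2 : ((Finset.univ.filter (fun y => p m y ≠ t m)).card : ℝ) ≤
          Fintype.card N * β m ^ 2 / c0 * Fintype.card (X m) := by
        rw [div_mul_eq_mul_div, le_div_iff₀ hc0]
        refine h1.trans ?_
        rw [mul_assoc]
        exact mul_le_mul_of_nonneg_left
          (mul_le_mul_of_nonneg_left hKk (by positivity)) (Nat.cast_nonneg _)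
      have h3 := hr m
      have h4 : (1 / ((m : ℝ) + 2) + Fintype.card N * β m ^ 2 / c0) * Fintype.card (X m) ≤
          ε * Fintype.card (X m) := mul_le_mul_of_nonneg_right hm1 (Nat.cast_nonneg _)
      rw [add_mul] at h4
      have h5 := hk' m
      linarith)
  refine absurd ?_ (not_le.mpr hg)
  have e1 : (ψ m g).1 * J' - J' * (θ'' g).1 =
      (((ψ m g).1 * Jm (j m) - Jm (j m) * (θ' m g).1) * (W m).1) *
        Jm (Subtype.val : {y // p m y = t m} → Fin (k' m)) := by
    show (ψ m g).1 * (Jm (j m) * ((W m).1 * Jm (Subtype.val : {y // p m y = t m} → Fin (k' m)))) -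
      Jm (j m) * ((W m).1 * Jm (Subtype.val : {y // p m y = t m} → Fin (k' m))) * (θ'' g).1 = _
    have e2 : (W m).1 * Jm (Subtype.val : {y // p m y = t m} → Fin (k' m)) * (θ'' g).1 =
        (θ' m g).1 * ((W m).1 * Jm (Subtype.val : {y // p m y = t m} → Fin (k' m))) := by
      rw [Matrix.mul_assoc, ← blk_inter, ← Matrix.mul_assoc, cjR_inter, Matrix.mul_assoc]
    rw [Matrix.mul_assoc (Jm (j m)), e2]
    simp only [Matrix.sub_mul, Matrix.mul_assoc]
  rw [e1, mul_Jm]
  refine (fro_submatrix_le _ _ Subtype.val_injective).trans ?_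
  rw [fro_mul_right _ (mul_uh (W m)), ← fn_sq]
  refine (pow_le_pow_left₀ (fn_nonneg _) (hclose m g) 2).trans ?_
  rw [mul_pow, Real.sq_sqrt (Nat.cast_nonneg _)]
  exact mul_le_mul (hm2' g hgF) hKk (Nat.cast_nonneg _) hε.le

end Pool.Agent.H698R3.Amalg
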