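import Pool.Agent.H698R3.HsH
import Pool.Agent.H698R3.AmPerm2

set_option autoImplicit false

/-! Types of unitary representations with respect to a finite normal subgroup. -/

namespace Pool.Agent.H698R3.Amalg

open Matrix

section

variable {G : Type} [Group G] (N : Subgroup G) [N.Normal]

/-- the group of automorphisms of `N` induced by `G` -/
def QN : Subgroup (MulAut N) := (MulAut.conjNormal : G →* MulAut N).range

instance finiteMulAut [Finite N] : Finite (MulAut N) :=
  Finite.of_injective (fun f : MulAut N => (f : N → N)) (fun f g h => by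
    ext x
    exact congrArg Subtype.val (congrFun h x))

noncomputable instance fintypeQN [Finite N] : Fintype (QN N) := Fintype.ofFinite _

variable [Finite N]

/-- number of automorphisms, inverted -/
noncomputable def sc : ℂ := ((Fintype.card (QN N) : ℝ) : ℂ)⁻¹

theorem cardQN_pos : (0 : ℝ) < Fintype.card (QN N) := by exact_mod_cast Fintype.card_pos

theorem sc_mul : sc N * (Fintype.card (QN N) : ℂ) = 1 := by
  unfold sc
  have := cardQN_pos N
  push_cast
  exact inv_mul_cancel₀ (by exact_mod_cast this.ne')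

theorem sc_norm : ‖sc N‖ = (Fintype.card (QN N) : ℝ)⁻¹ := by
  unfold sc
  rw [norm_inv, Complex.norm_real, Real.norm_of_nonneg (cardQN_pos N).le]

variable {X Y : Type} [Fintype X] [DecidableEq X] [Fintype Y] [DecidableEq Y]

/-- the averaged operators -/
noncomputable def zz (ψ : G →* Matrix.unitaryGroup X ℂ) (n : N) : Matrix X X ℂ :=
  sc N • ∑ q : QN N, (ψ ((q.1 n : N) : G)).1

theorem conj_coe (ψ : G →* Matrix.unitaryGroup X ℂ) (g : G) (n : N) :
    (ψ ((MulAut.conjNormal g n : N) : G)).1 = (ψ g).1 * (ψ (n : G)).1 * ((ψ g).1)ᴴ := by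
  rw [MulAut.conjNormal_apply, rep_mul, rep_mul, rep_inv]

theorem zz_comm (ψ : G →* Matrix.unitaryGroup X ℂ) (n : N) (g : G) :
    (ψ g).1 * zz N ψ n = zz N ψ n * (ψ g).1 := by
  have h1 : (ψ g).1 * zz N ψ n * ((ψ g).1)ᴴ = zz N ψ n := by
    unfold zz
    rw [Matrix.mul_smul, Matrix.smul_mul, Matrix.mul_sum, Matrix.sum_mul]
    congr 1
    refine Fintype.sum_equiv (Equiv.mulLeft (⟨MulAut.conjNormal g, g, rfl⟩ : QN N)) _ _
      fun q => ?_
    rw [Equiv.coe_mulLeft]
    exact (conj_coe N ψ g (q.1 n)).symm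
  calc (ψ g).1 * zz N ψ n = (ψ g).1 * zz N ψ n * (((ψ g).1)ᴴ * (ψ g).1) := by
        rw [uh_mul, Matrix.mul_one]
    _ = (ψ g).1 * zz N ψ n * ((ψ g).1)ᴴ * (ψ g).1 := by simp only [Matrix.mul_assoc]
    _ = zz N ψ n * (ψ g).1 := by rw [h1]

theorem zz_adj (ψ : G →* Matrix.unitaryGroup X ℂ) (n : N) :
    (zz N ψ n)ᴴ = zz N ψ n⁻¹ := by
  unfold zz
  rw [conjTranspose_smul, conjTranspose_sum]
  have h1 : star (sc N) = sc N := by
    unfold sc
    rw [Complex.star_def, map_inv₀, Complex.conj_ofReal]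
  rw [h1]
  congr 1
  refine Finset.sum_congr rfl fun q _ => ?_
  rw [← rep_inv]
  congr 2
  rw [map_inv (q.1 : MulAut N) n]
  rfl

theorem zz_zz_comm (ψ : G →* Matrix.unitaryGroup X ℂ) (n m : N) :
    zz N ψ n * zz N ψ m = zz N ψ m * zz N ψ n := by
  have h : zz N ψ n = sc N • ∑ q : QN N, (ψ ((q.1 n : N) : G)).1 := rfl
  rw [h, Matrix.smul_mul, Matrix.sum_mul, Matrix.mul_smul, Matrix.mul_sum]
  congr 1
  exact Finset.sum_congr rfl fun q _ => zz_comm N ψ m _

theorem zz_inter (ψ : G →* Matrix.unitaryGroup X ℂ) (θ : G →* Matrix.unitaryGroup Y ℂ)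
    (J : Matrix X Y ℂ) (e : ∀ g, (ψ g).1 * J = J * (θ g).1) (n : N) :
    zz N ψ n * J = J * zz N θ n := by
  unfold zz
  rw [Matrix.smul_mul, Matrix.mul_smul, Matrix.sum_mul, Matrix.mul_sum]
  congr 1
  exact Finset.sum_congr rfl fun q _ => e _

theorem zz_trace (ψ : G →* Matrix.unitaryGroup X ℂ) (n : N) :
    trace (zz N ψ n) = trace (ψ (n : G)).1 := by
  unfold zz
  rw [trace_smul, trace_sum]
  have h1 : ∀ q ∈ (Finset.univ : Finset (QN N)), trace (ψ ((q.1 n : N) : G)).1 =
      trace (ψ (n : G)).1 := by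
    rintro ⟨_, g, rfl⟩ _
    rw [conj_coe, Matrix.trace_mul_comm, ← Matrix.mul_assoc, uh_mul, Matrix.one_mul]
  rw [Finset.sum_congr rfl h1, Finset.sum_const, Finset.card_univ, ← Nat.cast_smul_eq_nsmul ℂ,
    smul_smul, sc_mul, one_smul]

theorem zz_fn (ψ : G →* Matrix.unitaryGroup X ℂ) (θ : G →* Matrix.unitaryGroup Y ℂ)
    (J : Matrix X Y ℂ) (n : N) (c : ℝ)
    (hc : ∀ m : N, fn ((ψ (m : G)).1 * J - J * (θ (m : G)).1) ≤ c) :
    fn (zz N ψ n * J - J * zz N θ n) ≤ c := by
  have h1 : zz N ψ n * J - J * zz N θ n =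
      sc N • ∑ q : QN N, ((ψ ((q.1 n : N) : G)).1 * J - J * (θ ((q.1 n : N) : G)).1) := by
    unfold zz
    rw [Matrix.smul_mul, Matrix.mul_smul, Matrix.sum_mul, Matrix.mul_sum, ← smul_sub,
      Finset.sum_sub_distrib]
  rw [h1, fn_smul, sc_norm, inv_mul_le_iff₀ (cardQN_pos N)]
  refine (fn_sum_le _ _).trans ((Finset.sum_le_sum fun q _ => hc _).trans ?_)
  rw [Finset.sum_const, Finset.card_univ, nsmul_eq_mul]

/-- labelled representations: all averaged operators are diagonal -/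
def IsLab (ψ : G →* Matrix.unitaryGroup X ℂ) (p : X → N → ℂ) : Prop :=
  ∀ n, zz N ψ n = diagonal (fun x => p x n)

theorem exists_lab (ψ : G →* Matrix.unitaryGroup X ℂ) :
    ∃ (W : Matrix.unitaryGroup X ℂ) (p : X → N → ℂ), IsLab N (cjR W ψ) p := by
  let A : N × Bool → Matrix X X ℂ := fun j =>
    if j.2 then zz N ψ j.1 + (zz N ψ j.1)ᴴ else Complex.I • (zz N ψ j.1 - (zz N ψ j.1)ᴴ)
  have hA1 : ∀ n, A (n, true) = zz N ψ n + (zz N ψ n)ᴴ := fun n => rfl
  have hA2 : ∀ n, A (n, false) = Complex.I • (zz N ψ n - (zz N ψ n)ᴴ) := fun n => rfl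
  have hcz : ∀ n m, Commute (zz N ψ n) (zz N ψ m) := fun n m => zz_zz_comm N ψ n m
  have hcom : ∀ (M : Matrix X X ℂ), (∀ n, Commute M (zz N ψ n)) → ∀ j, Commute M (A j) := by
    rintro M hM ⟨n, b⟩
    have h1 : Commute M ((zz N ψ n)ᴴ) := by rw [zz_adj]; exact hM _
    cases b
    · rw [hA2]; exact ((hM n).sub_right h1).smul_right _
    · rw [hA1]; exact (hM n).add_right h1
  obtain ⟨W, p, hW⟩ := simdiag A
    (by
      rintro ⟨n, b⟩
      cases b
      · show (A (n, false))ᴴ = A (n, false)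
        rw [hA2, conjTranspose_smul, conjTranspose_sub, conjTranspose_conjTranspose,
          Complex.star_def, Complex.conj_I, ← neg_sub (zz N ψ n), smul_neg, neg_smul, neg_neg]
      · show (A (n, true))ᴴ = A (n, true)
        rw [hA1, conjTranspose_add, conjTranspose_conjTranspose, add_comm])
    (by
      intro i j
      refine hcom (A i) (fun n => ?_) j
      exact (hcom (zz N ψ n) (fun m => hcz n m) i).symm)
  refine ⟨W, fun x n => (p x (n, true) - Complex.I * p x (n, false)) / 2, fun n => ?_⟩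
  have h1 : zz N ψ n = (1 / 2 : ℂ) • (A (n, true) - Complex.I • A (n, false)) := by
    rw [hA1, hA2, smul_smul, Complex.I_mul_I, neg_smul, one_smul, sub_neg_eq_add,
      add_add_sub_cancel, ← two_smul ℂ, smul_smul]
    norm_num
  have h2 : zz N ψ n * W.1 = W.1 * zz N (cjR W ψ) n :=
    zz_inter N ψ (cjR W ψ) W.1 (fun g => (cjR_inter W ψ g).symm) n
  have h3 : zz N ψ n * W.1 =
      W.1 * diagonal (fun x => (p x (n, true) - Complex.I * p x (n, false)) / 2) := by
    rw [h1, Matrix.smul_mul, Matrix.sub_mul, Matrix.smul_mul, hW, hW]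
    ext x y
    simp only [Matrix.smul_apply, Matrix.sub_apply, Matrix.mul_diagonal, smul_eq_mul]
    ring
  rw [h2] at h3
  calc zz N (cjR W ψ) n = (W.1)ᴴ * (W.1 * zz N (cjR W ψ) n) := by
        rw [← Matrix.mul_assoc, uh_mul, Matrix.one_mul]
    _ = _ := by rw [h3, ← Matrix.mul_assoc, uh_mul, Matrix.one_mul]

theorem IsLab.off {ψ : G →* Matrix.unitaryGroup X ℂ} {p : X → N → ℂ} (h : IsLab N ψ p) (g : G)
    (x y : X) (hxy : p x ≠ p y) : (ψ g).1 x y = 0 := by
  obtain ⟨n, hn⟩ := Function.ne_iff.mp hxy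
  refine zero_of_commute (ι := Unit) _ (fun x => p x n) ?_ x y hn
  rw [← h n]
  exact zz_comm N ψ n g

/-- averaged elements of the group algebra -/
noncomputable def av (n : N) : MonoidAlgebra ℂ N :=
  sc N • ∑ q : QN N, MonoidAlgebra.of ℂ N (q.1 n)

/-- the finite set of possible types -/
noncomputable def Ty : Finset (N → ℂ) :=
  (Set.Finite.pi' (fun n : N => (minpoly ℂ (av N n)).roots.toFinset.finite_toSet)).toFinset

theorem mem_Ty (v : N → ℂ) (h : ∀ n, v n ∈ (minpoly ℂ (av N n)).roots.toFinset) : v ∈ Ty N := by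
  unfold Ty
  rw [Set.Finite.mem_toFinset]
  exact h

theorem aeval_diag (d : X → ℂ) (P : Polynomial ℂ) (x : X) :
    (Polynomial.aeval (diagonal d) P) x x = P.eval (d x) := by
  have h1 : (diagonal d : Matrix X X ℂ) = Matrix.diagonalAlgHom ℂ d := rfl
  rw [h1, Polynomial.aeval_algHom_apply]
  show diagonal (Polynomial.aeval d P) x x = _
  rw [Matrix.diagonal_apply_eq]
  have h2 := Polynomial.aeval_algHom_apply (Pi.evalAlgHom ℂ (fun _ : X => ℂ) x) d P
  have h3 : (Pi.evalAlgHom ℂ (fun _ : X => ℂ) x) (Polynomial.aeval d P) =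
    (Polynomial.aeval d P) x := rfl
  rw [← h3, ← h2]
  rfl

theorem IsLab.mem {ψ : G →* Matrix.unitaryGroup X ℂ} {p : X → N → ℂ} (h : IsLab N ψ p) (x : X) :
    p x ∈ Ty N := by
  classical
  apply mem_Ty
  intro n
  let Φ0 : N →* Matrix X X ℂ :=
    { toFun := fun n => (ψ (n : G)).1
      map_one' := by rw [Subgroup.coe_one, rep_one]
      map_mul' := fun a b => by rw [Subgroup.coe_mul, rep_mul] }
  let Φ : MonoidAlgebra ℂ N →ₐ[ℂ] Matrix X X ℂ := MonoidAlgebra.lift ℂ (Matrix X X ℂ) N Φ0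
  have hΦ : Φ (av N n) = zz N ψ n := by
    unfold av zz
    rw [map_smul, map_sum]
    congr 1
    refine Finset.sum_congr rfl fun q _ => ?_
    exact MonoidAlgebra.lift_of _ _
  have hint : IsIntegral ℂ (av N n) := by
    have : Module.Finite ℂ (MonoidAlgebra ℂ N) :=
      Module.Finite.of_basis (MonoidAlgebra.basis N ℂ)
    exact Algebra.IsIntegral.isIntegral _
  have h1 : Polynomial.aeval (zz N ψ n) (minpoly ℂ (av N n)) = 0 := by
    rw [← hΦ, Polynomial.aeval_algHom_apply, minpoly.aeval, map_zero]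
  rw [h n] at h1
  have h2 := aeval_diag (fun x => p x n) (minpoly ℂ (av N n)) x
  rw [h1, Matrix.zero_apply] at h2
  rw [Multiset.mem_toFinset, Polynomial.mem_roots (minpoly.ne_zero hint)]
  exact h2.symm

/-- joint eigenspace -/
noncomputable def Ee (ψ : G →* Matrix.unitaryGroup X ℂ) (t : N → ℂ) : Submodule ℂ (X → ℂ) where
  carrier := {v | ∀ n, (zz N ψ n) *ᵥ v = t n • v}
  add_mem' := by
    intro a b ha hb n
    rw [mulVec_add, ha n, hb n, smul_add]
  zero_mem' := by
    intro n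
    rw [mulVec_zero, smul_zero]
  smul_mem' := by
    intro c a ha n
    rw [mulVec_smul, ha n, smul_comm]

theorem Ee_le (ψ : G →* Matrix.unitaryGroup X ℂ) (θ : G →* Matrix.unitaryGroup Y ℂ)
    (J : Matrix X Y ℂ) (hJ : Jᴴ * J = 1) (e : ∀ g, (ψ g).1 * J = J * (θ g).1) (t : N → ℂ) :
    Module.finrank ℂ (Ee N θ t) ≤ Module.finrank ℂ (Ee N ψ t) := by
  have hinj : Function.Injective J.mulVecLin := by
    intro v w h
    have h1 : J *ᵥ v = J *ᵥ w := h
    have h2 := congrArg (fun u => Jᴴ *ᵥ u) h1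
    simpa [mulVec_mulVec, hJ] using h2
  have hmap : ∀ v ∈ Ee N θ t, J.mulVecLin v ∈ Ee N ψ t := by
    intro v hv n
    show zz N ψ n *ᵥ (J *ᵥ v) = t n • (J *ᵥ v)
    rw [mulVec_mulVec, zz_inter N ψ θ J e, ← mulVec_mulVec, hv n, mulVec_smul]
  exact LinearMap.finrank_le_finrank_of_injective (f := J.mulVecLin.restrict hmap)
    (fun a b h => Subtype.ext (hinj (Subtype.ext_iff.mp h)))

theorem Ee_lab {ψ : G →* Matrix.unitaryGroup X ℂ} {p : X → N → ℂ} (h : IsLab N ψ p)
    (t : N → ℂ) [DecidablePred fun x => p x = t] :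
    Module.finrank ℂ (Ee N ψ t) = Fintype.card {x // p x = t} := by
  let L : ({x // p x = t} → ℂ) →ₗ[ℂ] (X → ℂ) :=
    { toFun := fun v x => if hx : p x = t then v ⟨x, hx⟩ else 0
      map_add' := fun v w => by
        funext x
        by_cases hx : p x = t
        · simp [hx]
        · simp [hx]
      map_smul' := fun c v => by
        funext x
        by_cases hx : p x = t
        · simp [hx]
        · simp [hx] }
  have hL : ∀ v (x : {x // p x = t}), L v x.1 = v x := by
    intro v x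
    show (if hx : p x.1 = t then v ⟨x.1, hx⟩ else 0) = v x
    rw [dif_pos x.2]
  have hLinj : Function.Injective L := by
    intro v w hvw
    funext x
    rw [← hL v x, ← hL w x, hvw]
  have hmem : ∀ v : X → ℂ, v ∈ Ee N ψ t ↔ ∀ x, p x ≠ t → v x = 0 := by
    intro v
    constructor
    · intro hv x hx
      obtain ⟨n, hn⟩ := Function.ne_iff.mp hx
      have h1 := congrFun (hv n) x
      rw [h n, Matrix.mulVec_diagonal, Pi.smul_apply, smul_eq_mul] at h1
      have h2 : (p x n - t n) * v x = 0 := by linear_combination h1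
      rcases mul_eq_zero.mp h2 with h3 | h3
      · exact absurd (sub_eq_zero.mp h3) hn
      · exact h3
    · intro hv n
      funext x
      rw [h n, Matrix.mulVec_diagonal, Pi.smul_apply, smul_eq_mul]
      by_cases hx : p x = t
      · rw [hx]
      · rw [hv x hx, mul_zero, mul_zero]
  have hrange : LinearMap.range L = Ee N ψ t := by
    ext v
    rw [hmem, LinearMap.mem_range]
    constructor
    · rintro ⟨w, rfl⟩ x hx
      show (if hx : p x = t then w ⟨x, hx⟩ else 0) = 0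
      rw [dif_neg hx]
    · intro hv
      refine ⟨fun x => v x.1, ?_⟩
      funext x
      show (if hx : p x = t then v x else 0) = v x
      by_cases hx : p x = t
      · rw [dif_pos hx]
      · rw [dif_neg hx, hv x hx]
  rw [← hrange, LinearMap.finrank_range_of_inj hLinj, Module.finrank_fintype_fun_eq_card]

/-- the dimension of the part of type `t` -/
noncomputable def sH (ψ : G →* Matrix.unitaryGroup X ℂ) (t : N → ℂ) : ℕ :=
  Module.finrank ℂ (Ee N ψ t)

theorem sH_equiv (ψ : G →* Matrix.unitaryGroup X ℂ) (θ : G →* Matrix.unitaryGroup Y ℂ)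
    (J : Matrix X Y ℂ) (hJ : Jᴴ * J = 1) (hJ' : J * Jᴴ = 1)
    (e : ∀ g, (ψ g).1 * J = J * (θ g).1) (t : N → ℂ) : sH N θ t = sH N ψ t := by
  refine le_antisymm (Ee_le N ψ θ J hJ e t) (Ee_le N θ ψ Jᴴ ?_ ?_ t)
  · rw [conjTranspose_conjTranspose, hJ']
  · intro g
    calc (θ g).1 * Jᴴ = Jᴴ * (J * (θ g).1) * Jᴴ := by
          rw [← Matrix.mul_assoc Jᴴ, hJ, Matrix.one_mul]
      _ = Jᴴ * (ψ g).1 * (J * Jᴴ) := by rw [← e]; simp only [Matrix.mul_assoc]
      _ = Jᴴ * (ψ g).1 := by rw [hJ', Matrix.mul_one]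

theorem sH_cj (W : Matrix.unitaryGroup X ℂ) (ψ : G →* Matrix.unitaryGroup X ℂ) (t : N → ℂ) :
    sH N (cjR W ψ) t = sH N ψ t :=
  sH_equiv N ψ (cjR W ψ) W.1 (uh_mul W) (mul_uh W) (fun g => (cjR_inter W ψ g).symm) t

theorem IsLab.blk {ψ : G →* Matrix.unitaryGroup X ℂ} {p : X → N → ℂ} (h : IsLab N ψ p)
    (t : N → ℂ) [DecidableEq (N → ℂ)] :
    IsLab N (blk ψ p (fun g x y hxy => h.off N g x y hxy) t) (fun _ => t) := by
  intro n
  have h1 := zz_inter N ψ (Amalg.blk ψ p (fun g x y hxy => h.off N g x y hxy) t)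
    (Jm (Subtype.val : {x // p x = t} → X)) (blk_inter ψ p _ t) n
  rw [h n] at h1
  have h2 := congrArg (fun M => (Jm (Subtype.val : {x // p x = t} → X))ᴴ * M) h1
  rw [← Matrix.mul_assoc _ (Jm (Subtype.val : {x // p x = t} → X)) (zz N _ n),
    Jm_isometry _ Subtype.val_injective, Matrix.one_mul] at h2
  rw [← h2, mul_Jm]
  ext x y
  rw [Matrix.mul_apply, Finset.sum_eq_single x.1]
  · rw [Matrix.conjTranspose_apply, Jm_apply, if_pos rfl, star_one, one_mul,
      Matrix.submatrix_apply, Matrix.diagonal_apply, Matrix.diagonal_apply]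
    simp only [id]
    by_cases hxy : x = y
    · subst hxy; rw [if_pos rfl, if_pos rfl, x.2]
    · rw [if_neg hxy, if_neg (fun h' => hxy (Subtype.ext h'))]
  · intro z _ hz
    rw [Matrix.conjTranspose_apply, Jm_apply, if_neg hz, star_zero, zero_mul]
  · intro h'; exact absurd (Finset.mem_univ _) h'

theorem IsLab.tr {ψ : G →* Matrix.unitaryGroup X ℂ} {p : X → N → ℂ} (h : IsLab N ψ p)
    (e : X ≃ Y) : IsLab N (trR e ψ) (fun y => p (e.symm y)) := by
  intro n
  have h1 : zz N (trR e ψ) n = (zz N ψ n).submatrix e.symm e.symm := by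
    unfold zz
    ext x y
    rw [Matrix.smul_apply, Matrix.submatrix_apply, Matrix.smul_apply, Matrix.sum_apply,
      Matrix.sum_apply]
    rfl
  rw [h1, h n]
  ext x y
  rw [Matrix.submatrix_apply, Matrix.diagonal_apply, Matrix.diagonal_apply]
  simp only [EmbeddingLike.apply_eq_iff_eq]

theorem IsLab.ds {ψ : G →* Matrix.unitaryGroup X ℂ} {p : X → N → ℂ} (h : IsLab N ψ p)
    {θ : G →* Matrix.unitaryGroup Y ℂ} {q : Y → N → ℂ} (h' : IsLab N θ q) :
    IsLab N (dsR ψ θ) (Sum.elim p q) := by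
  intro n
  have h1 : zz N (dsR ψ θ) n = fromBlocks (zz N ψ n) 0 0 (zz N θ n) := by
    unfold zz
    ext x y
    rw [Matrix.smul_apply, Matrix.sum_apply]
    cases x <;> cases y <;> simp [dsR_coe, Matrix.sum_apply]
  rw [h1, h n, h' n]
  ext x y
  cases x <;> cases y <;> simp [Matrix.diagonal_apply]

theorem IsLab.sg {ι : Type} [Fintype ι] [DecidableEq ι] {X : ι → Type} [∀ i, Fintype (X i)]
    [∀ i, DecidableEq (X i)] {a : ∀ i, G →* Matrix.unitaryGroup (X i) ℂ}
    {p : ∀ i, X i → N → ℂ} (h : ∀ i, IsLab N (a i) (p i)) :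
    IsLab N (sgR a) (fun x => p x.1 x.2) := by
  intro n
  have h1 : zz N (sgR a) n = blockDiagonal' (fun i => zz N (a i) n) := by
    unfold zz
    ext x y
    rw [Matrix.smul_apply, Matrix.sum_apply, blockDiagonal'_apply]
    by_cases hxy : x.1 = y.1
    · rw [dif_pos hxy, Matrix.smul_apply, Matrix.sum_apply]
      congr 1
      refine Finset.sum_congr rfl fun q _ => ?_
      rw [sgR_coe, blockDiagonal'_apply, dif_pos hxy]
    · rw [dif_neg hxy, Finset.sum_eq_zero, smul_zero]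
      intro q _
      rw [sgR_coe, blockDiagonal'_apply, dif_neg hxy]
  rw [h1]
  have h2 : (fun i => zz N (a i) n) = fun i => diagonal (fun x => p i x n) := by
    funext i; exact h i n
  rw [h2, blockDiagonal'_diagonal]

/-- the dimensions of the representations of type `t` -/
def SizH (t : N → ℂ) : AddSubmonoid ℕ where
  carrier := {m | ∃ ψ : G →* Matrix.unitaryGroup (Fin m) ℂ, IsLab N ψ (fun _ => t)}
  zero_mem' := ⟨mkRep (fun _ => 1) rfl (by simp) (by simp), fun n => by
    ext x; exact x.elim0⟩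
  add_mem' := by
    rintro a b ⟨ψ, hψ⟩ ⟨ψ', hψ'⟩
    refine ⟨trR finSumFinEquiv (dsR ψ ψ'), ?_⟩
    have h1 := (hψ.ds N hψ').tr N finSumFinEquiv
    have h2 : (fun y : Fin (a + b) => (Sum.elim (fun _ => t) (fun _ => t) :
        Fin a ⊕ Fin b → N → ℂ) (finSumFinEquiv.symm y)) = fun _ => t := by
      funext y
      generalize finSumFinEquiv.symm y = z
      cases z <;> rfl
    rwa [h2] at h1

theorem mem_SizH {t : N → ℂ} (ψ : G →* Matrix.unitaryGroup X ℂ) (h : IsLab N ψ (fun _ => t)) :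
    Fintype.card X ∈ SizH N t :=
  ⟨trR (Fintype.equivFin X) ψ, h.tr N _⟩

end

end Pool.Agent.H698R3.Amalg
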