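import Pool.Agent.H698R3.StabWitness

set_option autoImplicit false

/-! Locally finite, residually finite groups are LERF and amenable. -/

namespace Pool.Agent.H698R3.Stab

open Filter Topology

section
variable {G : Type} [Group G] (Gn : ℕ → Subgroup G) (hmono : Monotone Gn)
  (hex : ∀ g : G, ∃ n, g ∈ Gn n)

include hmono hex in
theorem lerf_of_exhaustion
    (hfin : ∀ n, ∃ (Q : Type) (_ : Group Q) (_ : Finite Q) (ρ : G →* Q),
      ∀ g ∈ Gn n, ρ g = 1 → g = 1) : LERF G := by
  intro H hH g hg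
  obtain ⟨S, hS⟩ := hH
  -- everything lives in one of the finite subgroups
  obtain ⟨n, hn1, hn2⟩ : ∃ n, g ∈ Gn n ∧ ∀ s ∈ S, s ∈ Gn n := by
    obtain ⟨n0, hn0⟩ := hex g
    have : ∃ m, ∀ s ∈ S, s ∈ Gn m := by
      classical
      clear hS
      induction S using Finset.induction_on with
      | empty => exact ⟨0, by simp⟩
      | insert a S _ ih =>
        obtain ⟨m, hm⟩ := ih
        obtain ⟨k, hk⟩ := hex a
        refine ⟨max m k, ?_⟩
        intro s hs
        rw [Finset.mem_insert] at hs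
        rcases hs with rfl | hs
        · exact hmono (le_max_right m k) hk
        · exact hmono (le_max_left m k) (hm s hs)
    obtain ⟨m, hm⟩ := this
    exact ⟨max n0 m, hmono (le_max_left _ _) hn0, fun s hs => hmono (le_max_right _ _) (hm s hs)⟩
  have hHle : H ≤ Gn n := by
    rw [← hS, Subgroup.closure_le]
    exact hn2
  obtain ⟨Q, _, _, ρ, hρ⟩ := hfin n
  refine ⟨H ⊔ ρ.ker, ?_, le_sup_left, ?_⟩
  · have h1 : ρ.ker.FiniteIndex := inferInstance
    exact Subgroup.finiteIndex_of_le (le_sup_right : ρ.ker ≤ H ⊔ ρ.ker)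
  · intro hmem
    rw [Subgroup.mem_sup_of_normal_right] at hmem
    obtain ⟨y, hy, z, hz, hyz⟩ := hmem
    have hz' : z = y⁻¹ * g := by rw [← hyz]; group
    have h2 : z ∈ Gn n := by
      rw [hz']
      exact (Gn n).mul_mem ((Gn n).inv_mem (hHle hy)) hn1
    have h3 : z = 1 := hρ z h2 (MonoidHom.mem_ker.mp hz)
    rw [h3, mul_one] at hyz
    exact hg (hyz ▸ hy)

include hmono hex in
theorem amenable_of_exhaustion (hfin : ∀ n, Finite (Gn n)) : Amenable G := by
  classical
  -- densities
  let F : ∀ n, Finset G := fun n => (Set.toFinite (Gn n : Set G)).toFinset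
  have hF : ∀ n g, g ∈ F n ↔ g ∈ Gn n := by
    intro n g
    simp [F]
  let r : Set G → ℕ → ℝ := fun A n => (((F n).filter (fun x => x ∈ A)).card : ℝ) / ((F n).card : ℝ)
  have hpos : ∀ n, 0 < ((F n).card : ℝ) := by
    intro n
    have : (F n).Nonempty := ⟨1, (hF n 1).mpr (Gn n).one_mem⟩
    exact_mod_cast this.card_pos
  have hr0 : ∀ A n, 0 ≤ r A n := fun A n => by positivity
  have hr1 : ∀ A n, r A n ≤ 1 := by
    intro A n
    rw [div_le_one (hpos n)]
    exact_mod_cast Finset.card_filter_le _ _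
  have hlim : ∀ A : Set G, ∃ a ∈ Set.Icc (0 : ℝ) 1, Tendsto (r A) (hyperfilter ℕ) (𝓝 a) := by
    intro A
    have hc : IsCompact (Set.Icc (0 : ℝ) 1) := isCompact_Icc
    obtain ⟨a, ha, hle⟩ := hc.ultrafilter_le_nhds ((hyperfilter ℕ).map (r A)) (by
      rw [Filter.le_principal_iff]
      show r A ⁻¹' (Set.Icc (0 : ℝ) 1) ∈ (hyperfilter ℕ : Filter ℕ)
      exact Filter.univ_mem' (fun n => ⟨hr0 A n, hr1 A n⟩))
    exact ⟨a, ha, hle⟩
  choose μ hμ1 hμ2 using hlim
  refine ⟨μ, fun A => (hμ1 A).1, ?_, ?_, ?_⟩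
  · refine tendsto_nhds_unique (hμ2 Set.univ) ?_
    refine tendsto_const_nhds.congr ?_
    intro n
    show 1 = r Set.univ n
    simp only [r, Set.mem_univ, Finset.filter_true]
    rw [div_self (hpos n).ne']
  · intro A B hAB
    refine tendsto_nhds_unique (hμ2 (A ∪ B)) ?_
    refine ((hμ2 A).add (hμ2 B)).congr ?_
    intro n
    show r A n + r B n = r (A ∪ B) n
    simp only [r]
    rw [← add_div]
    congr 1
    norm_cast
    rw [← Finset.card_union_of_disjoint]
    · congr 1
      ext x
      simp only [Finset.mem_union, Finset.mem_filter, Set.mem_union]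
      tauto
    · rw [Finset.disjoint_filter]
      intro x _ hxA hxB
      exact Set.disjoint_left.mp hAB hxA hxB
  · intro g A
    refine tendsto_nhds_unique (hμ2 _) ?_
    refine (hμ2 A).congr' ?_
    obtain ⟨n0, hn0⟩ := hex g
    have : ∀ᶠ n in atTop, r A n = r ((fun x => g * x) '' A) n := by
      filter_upwards [eventually_ge_atTop n0] with n hn
      have hg : g ∈ Gn n := hmono hn hn0
      simp only [r]
      congr 1
      norm_cast
      refine Finset.card_bij (fun x _ => g * x) ?_ ?_ ?_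
      · intro x hx
        rw [Finset.mem_filter] at hx ⊢
        exact ⟨(hF n _).mpr ((Gn n).mul_mem hg ((hF n x).mp hx.1)), ⟨x, hx.2, rfl⟩⟩
      · intro x _ y _ h
        exact mul_left_cancel h
      · intro y hy
        rw [Finset.mem_filter] at hy
        obtain ⟨hy1, x, hx, rfl⟩ := hy
        refine ⟨x, ?_, rfl⟩
        rw [Finset.mem_filter]
        refine ⟨(hF n x).mpr ?_, hx⟩
        have := (Gn n).mul_mem ((Gn n).inv_mem hg) ((hF n _).mp hy1)
        simpa using this
    exact (Nat.hyperfilter_le_atTop : (hyperfilter ℕ : Filter ℕ) ≤ atTop) this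

end

end Pool.Agent.H698R3.Stab
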