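import Pool.Agent.H698R3.LocFin
import Pool.Agent.H698R3.CE

set_option autoImplicit false

/-! A countable, locally finite, residually finite group that is not permutation stable. -/

namespace Pool.Agent.H698R3.Stab

open Filter Topology

abbrev F2 : Type := ZMod 2
abbrev VV : Type := F2 × (ℕ →₀ F2) × (ℕ →₀ F2) × (ℕ →₀ F2)
abbrev ZZ : Type := F2 × (ℕ →₀ F2)

/-- sum of all coordinates -/
noncomputable def sg : (ℕ →₀ F2) →+ F2 := Finsupp.liftAddHom (fun _ => AddMonoidHom.id F2)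

theorem sg_single (j : ℕ) (a : F2) : sg (Finsupp.single j a) = a := by
  simp [sg]

theorem sg_eq_sum (f : ℕ →₀ F2) (n : ℕ) (h : ∀ j, n ≤ j → f j = 0) :
    sg f = ∑ i : Fin n, f i := by
  have hsub : f.support ⊆ Finset.range n := by
    intro j hj
    rw [Finsupp.mem_support_iff] at hj
    rw [Finset.mem_range]
    by_contra hcon
    exact hj (h j (not_lt.mp hcon))
  have h1 : sg f = f.sum (fun _ a => a) := by
    simp only [sg, Finsupp.liftAddHom_apply]
    rfl
  rw [h1, Finsupp.sum_of_support_subset f hsub _ (fun _ _ => rfl), Finset.sum_range]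

/-- the cocycle -/
noncomputable def bb : VV →+ VV →+ ZZ :=
  AddMonoidHom.mk' (fun v => AddMonoidHom.mk'
    (fun w => (sg (v.2.2.1 * w.2.2.2), v.1 • w.2.1 - v.2.2.1 * w.2.2.2))
    (by
      intro w w'
      apply Prod.ext
      · simp only [Prod.snd_add, Prod.fst_add, mul_add, map_add]
      · simp only [Prod.snd_add, Prod.fst_add, mul_add, smul_add]; abel))
    (by
      intro v v'
      ext w
      · simp only [AddMonoidHom.mk'_apply, AddMonoidHom.add_apply, Prod.snd_add, Prod.fst_add,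
          add_mul, map_add]
      · simp only [AddMonoidHom.mk'_apply, AddMonoidHom.add_apply, Prod.snd_add, Prod.fst_add,
          add_mul, add_smul, Finsupp.sub_apply, Finsupp.add_apply]; abel)

theorem bb_apply (v w : VV) :
    bb v w = (sg (v.2.2.1 * w.2.2.2), v.1 • w.2.1 - v.2.2.1 * w.2.2.2) := rfl

/-- the group -/
abbrev GG : Type := CE bb

/-- truncation -/
def tr (n : ℕ) : (ℕ →₀ F2) →+ (Fin n → F2) where
  toFun f i := f i
  map_zero' := rfl
  map_add' _ _ := rfl

abbrev VF (n : ℕ) : Type := F2 × (Fin n → F2) × (Fin n → F2) × (Fin n → F2) × F2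
abbrev ZF (n : ℕ) : Type := (Fin n → F2) × F2

def bF (n : ℕ) : VF n →+ VF n →+ ZF n :=
  AddMonoidHom.mk' (fun v => AddMonoidHom.mk'
    (fun w => (v.1 • w.2.1 - v.2.2.1 * w.2.2.2.1, v.1 * w.2.2.2.2))
    (by
      intro w w'
      apply Prod.ext
      · simp only [Prod.snd_add, Prod.fst_add, mul_add, smul_add]; abel
      · simp only [Prod.snd_add, mul_add]))
    (by
      intro v v'
      apply AddMonoidHom.ext
      intro w
      apply Prod.ext
      · simp only [AddMonoidHom.mk'_apply, AddMonoidHom.add_apply, Prod.snd_add, Prod.fst_add,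
          add_mul, add_smul]; abel
      · simp only [AddMonoidHom.mk'_apply, AddMonoidHom.add_apply, Prod.snd_add, Prod.fst_add,
          add_mul])

theorem bF_apply (n : ℕ) (v w : VF n) :
    bF n v w = (v.1 • w.2.1 - v.2.2.1 * w.2.2.2.1, v.1 * w.2.2.2.2) := rfl

noncomputable def PF (n : ℕ) : VV →+ VF n :=
  AddMonoidHom.mk' (fun v => (v.1, tr n v.2.1, tr n v.2.2.1, tr n v.2.2.2, sg v.2.1)) (by
    intro v w
    simp [map_add])

noncomputable def QF (n : ℕ) : ZZ →+ ZF n :=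
  AddMonoidHom.mk' (fun z => (tr n z.2, z.1 + sg z.2)) (by
    intro v w
    apply Prod.ext
    · simp [map_add]
    · simp only [map_add, Prod.snd_add, Prod.fst_add]; abel)

theorem sg_smul (a : F2) (f : ℕ →₀ F2) : sg (a • f) = a * sg f := by
  have h : ∀ n : ℕ, (∀ j, n ≤ j → f j = 0) → sg (a • f) = a * sg f := by
    intro n hn
    rw [sg_eq_sum f n hn, sg_eq_sum (a • f) n (by
      intro j hj
      simp [hn j hj])]
    rw [Finset.mul_sum]
    rfl
  obtain ⟨n, hn⟩ : ∃ n, f.support ⊆ Finset.range n := by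
    refine ⟨f.support.sup id + 1, ?_⟩
    intro j hj
    rw [Finset.mem_range]
    exact Nat.lt_succ_of_le (Finset.le_sup (f := id) hj)
  refine h n ?_
  intro j hj
  by_contra hcon
  have := hn (Finsupp.mem_support_iff.mpr hcon)
  rw [Finset.mem_range] at this
  omega

theorem compatF (n : ℕ) (v w : VV) : QF n (bb v w) = bF n (PF n v) (PF n w) := by
  rw [bb_apply, bF_apply]
  apply Prod.ext
  · show tr n (v.1 • w.2.1 - v.2.2.1 * w.2.2.2) = v.1 • tr n w.2.1 - tr n v.2.2.1 * tr n w.2.2.2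
    rw [map_sub]
    rfl
  · show sg (v.2.2.1 * w.2.2.2) + sg (v.1 • w.2.1 - v.2.2.1 * w.2.2.2) = v.1 * sg w.2.1
    rw [map_sub, sg_smul]
    abel

/-- finite quotients -/
noncomputable def rho (n : ℕ) : GG →* CE (bF n) := CE.map bb (bF n) (PF n) (QF n) (compatF n)

/-- finitely supported elements -/
def An (n : ℕ) : AddSubgroup VV where
  carrier := {v | ∀ j, n ≤ j → v.2.1 j = 0 ∧ v.2.2.1 j = 0 ∧ v.2.2.2 j = 0}
  add_mem' := by
    intro a b ha hb j hj
    obtain ⟨h1, h2, h3⟩ := ha j hj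
    obtain ⟨h4, h5, h6⟩ := hb j hj
    simp [h1, h2, h3, h4, h5, h6]
  zero_mem' := by intro j _; simp
  neg_mem' := by
    intro a ha j hj
    obtain ⟨h1, h2, h3⟩ := ha j hj
    simp [h1, h2, h3]

def Bn (n : ℕ) : AddSubgroup ZZ where
  carrier := {z | ∀ j, n ≤ j → z.2 j = 0}
  add_mem' := by
    intro a b ha hb j hj
    simp [ha j hj, hb j hj]
  zero_mem' := by intro j _; simp
  neg_mem' := by
    intro a ha j hj
    simp [ha j hj]

theorem hAB (n : ℕ) : ∀ v ∈ An n, ∀ w ∈ An n, bb v w ∈ Bn n := by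
  intro v hv w hw j hj
  obtain ⟨h1, h2, h3⟩ := hv j hj
  obtain ⟨h4, h5, h6⟩ := hw j hj
  rw [bb_apply]
  simp [h2, h4, h6]

/-- the exhausting sequence of finite subgroups -/
noncomputable def Gsub (n : ℕ) : Subgroup GG := CE.sub bb (An n) (Bn n) (hAB n)

theorem Gsub_mono : Monotone Gsub := by
  intro m n hmn g hg
  exact ⟨fun j hj => hg.1 j (hmn.trans hj), fun j hj => hg.2 j (hmn.trans hj)⟩

theorem exists_bound (f : ℕ →₀ F2) : ∃ n, ∀ j, n ≤ j → f j = 0 := by
  refine ⟨f.support.sup id + 1, ?_⟩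
  intro j hj
  by_contra hcon
  have := Finset.le_sup (f := id) (Finsupp.mem_support_iff.mpr hcon)
  simp only [id] at this
  omega

theorem Gsub_exhaust (g : GG) : ∃ n, g ∈ Gsub n := by
  obtain ⟨n1, h1⟩ := exists_bound g.v.2.1
  obtain ⟨n2, h2⟩ := exists_bound g.v.2.2.1
  obtain ⟨n3, h3⟩ := exists_bound g.v.2.2.2
  obtain ⟨n4, h4⟩ := exists_bound g.z.2
  refine ⟨max (max n1 n2) (max n3 n4), fun j hj => ⟨h1 j ?_, h2 j ?_, h3 j ?_⟩, fun j hj => h4 j ?_⟩
  all_goals simp only [max_le_iff] at hj; omega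

theorem rho_inj (n : ℕ) (g : GG) (hg : g ∈ Gsub n) (h : rho n g = 1) : g = 1 := by
  have h1 : PF n g.v = 0 := congrArg CE.v h
  have h2 : QF n g.z = 0 := congrArg CE.z h
  have e1 : g.v.1 = 0 := congrArg (fun t : VF n => t.1) h1
  have e2 : tr n g.v.2.1 = 0 := congrArg (fun t : VF n => t.2.1) h1
  have e3 : tr n g.v.2.2.1 = 0 := congrArg (fun t : VF n => t.2.2.1) h1
  have e4 : tr n g.v.2.2.2 = 0 := congrArg (fun t : VF n => t.2.2.2.1) h1
  have e5 : tr n g.z.2 = 0 := congrArg (fun t : ZF n => t.1) h2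
  have e6 : g.z.1 + sg g.z.2 = 0 := congrArg (fun t : ZF n => t.2) h2
  have key : ∀ f : ℕ →₀ F2, tr n f = 0 → (∀ j, n ≤ j → f j = 0) → f = 0 := by
    intro f hf hj
    ext j
    by_cases hjn : j < n
    · exact congrFun hf ⟨j, hjn⟩
    · exact hj j (not_lt.mp hjn)
  have f1 := key _ e2 (fun j hj => (hg.1 j hj).1)
  have f2 := key _ e3 (fun j hj => (hg.1 j hj).2.1)
  have f3 := key _ e4 (fun j hj => (hg.1 j hj).2.2)
  have f4 := key _ e5 (fun j hj => hg.2 j hj)
  rw [f4, map_zero, add_zero] at e6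
  apply CE.ext
  · exact Prod.ext e1 (Prod.ext f1 (Prod.ext f2 f3))
  · exact Prod.ext e6 f4

theorem GG_lerf : LERF GG :=
  lerf_of_exhaustion Gsub Gsub_mono Gsub_exhaust
    (fun n => ⟨CE (bF n), inferInstance, inferInstance, rho n, rho_inj n⟩)

theorem GG_amenable : Amenable GG := by
  refine amenable_of_exhaustion Gsub Gsub_mono Gsub_exhaust (fun n => ?_)
  refine Finite.of_injective (fun g : Gsub n => rho n g.1) ?_
  intro g h hgh
  have h1 : rho n (g.1⁻¹ * h.1) = 1 := by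
    rw [map_mul, map_inv]
    have : rho n g.1 = rho n h.1 := hgh
    rw [this, inv_mul_cancel]
  have h2 := rho_inj n _ ((Gsub n).mul_mem ((Gsub n).inv_mem g.2) h.2) h1
  exact Subtype.ext (inv_mul_eq_one.mp h2)

end Pool.Agent.H698R3.Stab
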