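import Mathlib

set_option autoImplicit false

/-! Two groups of order 273 whose operations are words in each other. -/

namespace Pool.Agent.H698R3.Proj

/-- A character of `ZMod 3` with values in the ring `ZMod n`. -/
class IsChar {n : ℕ} (ρ : ZMod 3 → ZMod n) : Prop where
  zero : ρ 0 = 1
  add : ∀ i j, ρ (i + j) = ρ i * ρ j

/-- The affine group `ZMod n ⋊ ZMod 3` for the character `ρ`. -/
@[ext] structure Aff {n : ℕ} (ρ : ZMod 3 → ZMod n) where
  v : ZMod n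
  i : ZMod 3

namespace Aff

variable {n : ℕ} (ρ : ZMod 3 → ZMod n)

instance : DecidableEq (Aff ρ) := fun x y =>
  if h : x.v = y.v ∧ x.i = y.i then isTrue (Aff.ext h.1 h.2)
  else isFalse (fun e => h (by rw [e]; exact ⟨rfl, rfl⟩))

instance : Mul (Aff ρ) := ⟨fun x y => ⟨x.v + ρ x.i * y.v, x.i + y.i⟩⟩
instance : One (Aff ρ) := ⟨⟨0, 0⟩⟩
instance : Inv (Aff ρ) := ⟨fun x => ⟨-(ρ (-x.i) * x.v), -x.i⟩⟩

theorem mul_def (x y : Aff ρ) : x * y = ⟨x.v + ρ x.i * y.v, x.i + y.i⟩ := rfl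
theorem one_def : (1 : Aff ρ) = ⟨0, 0⟩ := rfl
theorem inv_def (x : Aff ρ) : x⁻¹ = ⟨-(ρ (-x.i) * x.v), -x.i⟩ := rfl

instance [IsChar ρ] : Group (Aff ρ) :=
  Group.ofLeftAxioms
    (by
      intro x y z
      simp only [mul_def]
      ext
      · simp only [IsChar.add (ρ := ρ)]; ring
      · simp only; ring)
    (by
      intro x
      simp only [mul_def, one_def]
      ext
      · simp [IsChar.zero (ρ := ρ)]
      · simp)
    (by
      intro x
      simp only [mul_def, one_def, inv_def]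
      ext
      · simp
      · simp)

end Aff

/-- the character for the prime 7 -/
def ρ7 : ZMod 3 → ZMod 7 := fun i => (![1, 2, 4] : Fin 3 → ZMod 7) i

/-- the two characters for the prime 13 -/
def ρ13 (u : Bool) : ZMod 3 → ZMod 13 := fun i =>
  cond u ((![1, 9, 3] : Fin 3 → ZMod 13) i) ((![1, 3, 9] : Fin 3 → ZMod 13) i)

/-- the twisting factor -/
def tw (u : Bool) : ZMod 3 → ZMod 13 := fun i =>
  cond u ((![1, 10, 4] : Fin 3 → ZMod 13) i) ((![1, 4, 10] : Fin 3 → ZMod 13) i)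

instance : IsChar ρ7 := ⟨by decide, by decide⟩
instance (u : Bool) : IsChar (ρ13 u) := ⟨by revert u; decide, by revert u; decide⟩

/-- The word that expresses one group operation by the other one. -/
def word {G : Type} [Group G] (x y : G) : G :=
  x * y * ((x⁻¹ * y⁻¹ * x * y) ^ 10 *
    (y ^ 2 * (x⁻¹ * y⁻¹ * x * y) * (y ^ 2)⁻¹) ^ 12 *
    (x * (x⁻¹ * y⁻¹ * x * y) * x⁻¹) ^ 12 *
    (x * y * (x⁻¹ * y⁻¹ * x * y) * (x * y)⁻¹) ^ 6 *
    (x ^ 2 * y * (x⁻¹ * y⁻¹ * x * y) * (x ^ 2 * y)⁻¹) ^ 7 *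
    (x ^ 2 * y ^ 2 * (x⁻¹ * y⁻¹ * x * y) * (x ^ 2 * y ^ 2)⁻¹) ^ 6) ^ 14

theorem map_word {G K : Type} [Group G] [Group K] (f : G →* K) (x y : G) :
    f (word x y) = word (f x) (f y) := by
  simp only [word, map_mul, map_pow, map_inv]

theorem word_mem {G : Type} [Group G] (S : Subgroup G) {x y : G} (hx : x ∈ S) (hy : y ∈ S) :
    word x y ∈ S := by
  unfold word
  have hc : x⁻¹ * y⁻¹ * x * y ∈ S :=
    S.mul_mem (S.mul_mem (S.mul_mem (S.inv_mem hx) (S.inv_mem hy)) hx) hy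
  have hconj : ∀ g : G, g ∈ S → ∀ k : ℕ, (g * (x⁻¹ * y⁻¹ * x * y) * g⁻¹) ^ k ∈ S := by
    intro g hg k
    exact S.pow_mem (S.mul_mem (S.mul_mem hg hc) (S.inv_mem hg)) k
  refine S.mul_mem (S.mul_mem hx hy) (S.pow_mem ?_ _)
  refine S.mul_mem (S.mul_mem (S.mul_mem (S.mul_mem (S.mul_mem (S.pow_mem hc _) ?_) ?_) ?_) ?_) ?_
  · exact hconj _ (S.pow_mem hy _) _
  · exact hconj _ hx _
  · exact hconj _ (S.mul_mem hx hy) _
  · exact hconj _ (S.mul_mem (S.pow_mem hx _) hy) _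
  · exact hconj _ (S.mul_mem (S.pow_mem hx _) (S.pow_mem hy _)) _

/-- powers of elements of the normal subgroup -/
theorem Aff.mk_zero_pow {n : ℕ} (ρ : ZMod 3 → ZMod n) [IsChar ρ] (v : ZMod n) (k : ℕ) :
    (⟨v, 0⟩ : Aff ρ) ^ k = ⟨k * v, 0⟩ := by
  induction k with
  | zero => simp [Aff.one_def]
  | succ k ih =>
    rw [pow_succ, ih, Aff.mul_def]
    ext
    · simp only [IsChar.zero (ρ := ρ)]; push_cast; ring
    · simp

end Pool.Agent.H698R3.Proj
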