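import Pool.Agent.H698R3.ProjWord

set_option autoImplicit false

namespace Pool.Agent.H698R3.Proj

/-- A bijection between two groups such that each multiplication is a word in the other one. -/
structure WordEquiv (G H : Type) [Group G] [Group H] where
  e : G ≃ H
  fwd : ∀ x y : G, e.symm (e x * e y) = word x y
  bwd : ∀ x y : H, e (e.symm x * e.symm y) = word x y
  map_one : e 1 = 1
  map_inv : ∀ x : G, e x⁻¹ = (e x)⁻¹

namespace WordEquiv

variable {G H : Type} [Group G] [Group H] (w : WordEquiv G H)

/-- the image of a subgroup -/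
def img (S : Subgroup G) : Subgroup H where
  carrier := {h | w.e.symm h ∈ S}
  mul_mem' := by
    intro a b ha hb
    have := w.fwd (w.e.symm a) (w.e.symm b)
    rw [Equiv.apply_symm_apply, Equiv.apply_symm_apply] at this
    show w.e.symm (a * b) ∈ S
    rw [this]
    exact word_mem S ha hb
  one_mem' := by
    show w.e.symm 1 ∈ S
    rw [← w.map_one, Equiv.symm_apply_apply]
    exact S.one_mem
  inv_mem' := by
    intro a ha
    show w.e.symm a⁻¹ ∈ S
    have h := w.map_inv (w.e.symm a)
    rw [Equiv.apply_symm_apply] at h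
    rw [← h, Equiv.symm_apply_apply]
    exact S.inv_mem ha

/-- the preimage of a subgroup -/
def pre (T : Subgroup H) : Subgroup G where
  carrier := {g | w.e g ∈ T}
  mul_mem' := by
    intro a b ha hb
    have := w.bwd (w.e a) (w.e b)
    rw [Equiv.symm_apply_apply, Equiv.symm_apply_apply] at this
    show w.e (a * b) ∈ T
    rw [this]
    exact word_mem T ha hb
  one_mem' := by
    show w.e 1 ∈ T
    rw [w.map_one]
    exact T.one_mem
  inv_mem' := by
    intro a ha
    show w.e a⁻¹ ∈ T
    rw [w.map_inv]
    exact T.inv_mem ha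

/-- the induced isomorphism of subgroup lattices -/
def lattice : Subgroup G ≃o Subgroup H where
  toFun := w.img
  invFun := w.pre
  left_inv := by
    intro S
    ext x
    show w.e.symm (w.e x) ∈ S ↔ x ∈ S
    rw [Equiv.symm_apply_apply]
  right_inv := by
    intro S
    ext x
    show w.e (w.e.symm x) ∈ S ↔ x ∈ S
    rw [Equiv.apply_symm_apply]
  map_rel_iff' := by
    intro S T
    constructor
    · intro h x hx
      have h1 : w.e x ∈ w.img S := by
        show w.e.symm (w.e x) ∈ S
        rw [Equiv.symm_apply_apply]; exact hx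
      have h2 : w.e.symm (w.e x) ∈ T := h h1
      rwa [Equiv.symm_apply_apply] at h2
    · intro h x hx
      exact h hx

theorem mem_lattice (S : Subgroup G) (h : H) : h ∈ w.lattice S ↔ w.e.symm h ∈ S := Iff.rfl

/-- finite powers -/
def pi (ι : Type) : WordEquiv (ι → G) (ι → H) where
  e := Equiv.piCongrRight (fun _ => w.e)
  fwd := by
    intro x y
    funext i
    have h1 : (word x y) i = word (x i) (y i) := map_word (Pi.evalMonoidHom (fun _ : ι => G) i) x y
    rw [h1, ← w.fwd]
    rfl
  bwd := by
    intro x y
    funext i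
    have h1 : (word x y) i = word (x i) (y i) := map_word (Pi.evalMonoidHom (fun _ : ι => H) i) x y
    rw [h1, ← w.bwd]
    rfl
  map_one := by
    funext i
    exact w.map_one
  map_inv := by
    intro x
    funext i
    exact w.map_inv (x i)

theorem e_eq_one_iff (x : G) : w.e x = 1 ↔ x = 1 := by
  rw [← w.map_one]
  exact w.e.apply_eq_iff_eq

end WordEquiv

section coords

variable {G : Type} [Group G] {ι : Type} [DecidableEq ι]

theorem mem_range_mulSingle (i : ι) (x : ι → G) :
    x ∈ (MonoidHom.mulSingle (fun _ : ι => G) i).range ↔ ∀ j, j ≠ i → x j = 1 := by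
  constructor
  · rintro ⟨y, rfl⟩ j hj
    show (Pi.mulSingle i y : ι → G) j = 1
    exact Pi.mulSingle_eq_of_ne (M := fun _ : ι => G) hj y
  · intro h
    refine ⟨x i, ?_⟩
    funext j
    by_cases hj : j = i
    · subst hj
      exact Pi.mulSingle_eq_same (M := fun _ : ι => G) j (x j)
    · rw [h j hj]
      show (Pi.mulSingle i (x i) : ι → G) j = 1
      exact Pi.mulSingle_eq_of_ne hj _

theorem normal_range_mulSingle (i : ι) :
    ((MonoidHom.mulSingle (fun _ : ι => G) i).range).Normal := by
  constructor
  intro n hn g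
  rw [mem_range_mulSingle] at hn ⊢
  intro j hj
  simp [hn j hj]

theorem indep_range_mulSingle :
    iSupIndep (fun i : ι => (MonoidHom.mulSingle (fun _ : ι => G) i).range) := by
  intro i
  rw [Subgroup.disjoint_def]
  intro x hx hy
  rw [mem_range_mulSingle] at hx
  have h2 : (⨆ j, ⨆ (_ : j ≠ i), (MonoidHom.mulSingle (fun _ : ι => G) j).range)
      ≤ (Pi.evalMonoidHom (fun _ : ι => G) i).ker := by
    refine iSup_le fun j => iSup_le fun hj => ?_
    intro z hz
    rw [mem_range_mulSingle] at hz
    exact hz i (Ne.symm hj)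
  have h3 := h2 hy
  funext j
  by_cases hj : j = i
  · subst hj; exact h3
  · exact hx j hj

theorem iSup_range_mulSingle (n : ℕ) :
    (⨆ i : Fin n, (MonoidHom.mulSingle (fun _ : Fin n => G) i).range) = ⊤ := by
  rw [eq_top_iff]
  intro x _
  rw [← Finset.noncommProd_mulSingle x]
  refine Subgroup.noncommProd_mem _ _ ?_
  intro i _
  exact Subgroup.mem_iSup_of_mem i ⟨x i, rfl⟩

end coords

/-- coordinate subgroups are mapped to coordinate subgroups -/
theorem WordEquiv.lattice_coord {G H : Type} [Group G] [Group H] (w : WordEquiv G H) {ι : Type}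
    [DecidableEq ι] (i : ι) :
    (w.pi ι).lattice (MonoidHom.mulSingle (fun _ : ι => G) i).range =
      (MonoidHom.mulSingle (fun _ : ι => H) i).range := by
  ext x
  rw [WordEquiv.mem_lattice, mem_range_mulSingle, mem_range_mulSingle]
  refine forall_congr' fun j => forall_congr' fun _ => ?_
  show w.e.symm (x j) = 1 ↔ x j = 1
  rw [← w.e_eq_one_iff, Equiv.apply_symm_apply]

end Pool.Agent.H698R3.Proj
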