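import Pool.Agent.H698R3.ProjLattice

set_option autoImplicit false

namespace Pool.Agent.H698R3.Proj

/-- The group `C₉₁ ⋊ C₃` as a fibre product of `C₇ ⋊ C₃` and `C₁₃ ⋊ C₃`;
the Boolean selects the action on `C₁₃`. -/
def Gr (u : Bool) : Subgroup (Aff ρ7 × Aff (ρ13 u)) where
  carrier := {p | p.1.i = p.2.i}
  mul_mem' := by
    intro a b ha hb
    show (a.1 * b.1).i = (a.2 * b.2).i
    rw [Aff.mul_def, Aff.mul_def]
    show a.1.i + b.1.i = a.2.i + b.2.i
    rw [show a.1.i = a.2.i from ha, show b.1.i = b.2.i from hb]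
  one_mem' := rfl
  inv_mem' := by
    intro a ha
    show (a.1⁻¹).i = (a.2⁻¹).i
    rw [Aff.inv_def, Aff.inv_def]
    show -a.1.i = -a.2.i
    rw [show a.1.i = a.2.i from ha]

/-- the map on the `13`-component -/
def twist (u : Bool) (x : Aff (ρ13 u)) : Aff (ρ13 (!u)) := ⟨tw u x.i * x.v, x.i⟩

theorem tw_mul_tw (u : Bool) (i : ZMod 3) : tw (!u) i * tw u i = 1 := by
  revert u i; decide

theorem tw_mul_tw' (u : Bool) (i : ZMod 3) : tw u i * tw (!u) i = 1 := by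
  revert u i; decide

/-- the bijection between the two groups -/
def tEquiv : Gr false ≃ Gr true where
  toFun x := ⟨(x.1.1, ⟨tw false x.1.2.i * x.1.2.v, x.1.2.i⟩), x.2⟩
  invFun x := ⟨(x.1.1, ⟨tw true x.1.2.i * x.1.2.v, x.1.2.i⟩), x.2⟩
  left_inv := by
    intro x
    apply Subtype.ext
    apply Prod.ext
    · rfl
    · apply Aff.ext
      · show tw true x.1.2.i * (tw false x.1.2.i * x.1.2.v) = x.1.2.v
        rw [← mul_assoc, show tw true x.1.2.i * tw false x.1.2.i = 1 from tw_mul_tw false _, one_mul]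
      · rfl
  right_inv := by
    intro x
    apply Subtype.ext
    apply Prod.ext
    · rfl
    · apply Aff.ext
      · show tw false x.1.2.i * (tw true x.1.2.i * x.1.2.v) = x.1.2.v
        rw [← mul_assoc, show tw false x.1.2.i * tw true x.1.2.i = 1 from tw_mul_tw' false _, one_mul]
      · rfl

theorem word_fst (u : Bool) (x y : Gr u) : (word x y).1.1 = x.1.1 * y.1.1 := by
  have h := map_word ((MonoidHom.fst (Aff ρ7) (Aff (ρ13 u))).comp (Gr u).subtype) x y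
  rw [word7] at h
  exact h

theorem word_snd (u : Bool) (x y : Gr u) : (word x y).1.2 =
    ⟨tw (!u) (x.1.2.i + y.1.2.i) *
      (tw u x.1.2.i * x.1.2.v + ρ13 (!u) x.1.2.i * (tw u y.1.2.i * y.1.2.v)),
      x.1.2.i + y.1.2.i⟩ := by
  have h := map_word ((MonoidHom.snd (Aff ρ7) (Aff (ρ13 u))).comp (Gr u).subtype) x y
  rw [word13] at h
  exact h

theorem tw_inv (u : Bool) (v : ZMod 13) (i : ZMod 3) :
    tw u (-i) * (-(ρ13 u (-i) * v)) = -(ρ13 (!u) (-i) * (tw u i * v)) := by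
  revert u v i; decide

/-- The two groups of order 273 are word equivalent. -/
def wEquiv : WordEquiv (Gr false) (Gr true) where
  e := tEquiv
  fwd := by
    intro x y
    apply Subtype.ext
    apply Prod.ext
    · rw [word_fst]; rfl
    · rw [word_snd]; rfl
  bwd := by
    intro x y
    apply Subtype.ext
    apply Prod.ext
    · rw [word_fst]; rfl
    · rw [word_snd]; rfl
  map_one := by
    apply Subtype.ext
    apply Prod.ext
    · rfl
    · apply Aff.ext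
      · show tw false 0 * 0 = (0 : ZMod 13)
        rw [mul_zero]
      · rfl
  map_inv := by
    intro x
    apply Subtype.ext
    apply Prod.ext
    · rfl
    · apply Aff.ext
      · exact tw_inv false x.1.2.v x.1.2.i
      · rfl

/-- exponents of the quotient component -/
theorem Aff.pow_i {n : ℕ} (ρ : ZMod 3 → ZMod n) [IsChar ρ] (x : Aff ρ) (k : ℕ) :
    (x ^ k).i = k * x.i := by
  induction k with
  | zero => simp [Aff.one_def]
  | succ k ih =>
    rw [pow_succ, Aff.mul_def]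
    show (x ^ k).i + x.i = _
    rw [ih]; push_cast; ring

theorem Aff.eq_mk {n : ℕ} (ρ : ZMod 3 → ZMod n) (x : Aff ρ) (h : x.i = 0) : x = ⟨x.v, 0⟩ := by
  apply Aff.ext
  · rfl
  · exact h

/-- The two groups are not isomorphic. -/
theorem not_iso : ¬ Nonempty (Gr true ≃* Gr false) := by
  rintro ⟨ψ⟩
  -- generators of the first group
  let A : Gr true := ⟨(⟨1, 0⟩, ⟨0, 0⟩), rfl⟩
  let B : Gr true := ⟨(⟨0, 0⟩, ⟨1, 0⟩), rfl⟩
  let X : Gr true := ⟨(⟨0, 1⟩, ⟨0, 1⟩), rfl⟩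
  have hA7 : A ^ 7 = 1 := by
    apply Subtype.ext
    apply Prod.ext
    · show (⟨1, 0⟩ : Aff ρ7) ^ 7 = 1
      rw [Aff.mk_zero_pow]; decide
    · show (⟨0, 0⟩ : Aff (ρ13 true)) ^ 7 = 1
      rw [Aff.mk_zero_pow]; decide
  have hB13 : B ^ 13 = 1 := by
    apply Subtype.ext
    apply Prod.ext
    · show (⟨0, 0⟩ : Aff ρ7) ^ 13 = 1
      rw [Aff.mk_zero_pow]; decide
    · show (⟨1, 0⟩ : Aff (ρ13 true)) ^ 13 = 1
      rw [Aff.mk_zero_pow]; decide
  have hXA : X * A * X⁻¹ = A ^ 2 := by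
    apply Subtype.ext
    apply Prod.ext
    · show (⟨0, 1⟩ : Aff ρ7) * ⟨1, 0⟩ * (⟨0, 1⟩ : Aff ρ7)⁻¹ = (⟨1, 0⟩ : Aff ρ7) ^ 2
      rw [Aff.mk_zero_pow]; decide
    · show (⟨0, 1⟩ : Aff (ρ13 true)) * ⟨0, 0⟩ * (⟨0, 1⟩ : Aff (ρ13 true))⁻¹
        = (⟨0, 0⟩ : Aff (ρ13 true)) ^ 2
      rw [Aff.mk_zero_pow]; decide
  have hXB : X * B * X⁻¹ = B ^ 9 := by
    apply Subtype.ext
    apply Prod.ext
    · show (⟨0, 1⟩ : Aff ρ7) * ⟨0, 0⟩ * (⟨0, 1⟩ : Aff ρ7)⁻¹ = (⟨0, 0⟩ : Aff ρ7) ^ 9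
      rw [Aff.mk_zero_pow]; decide
    · show (⟨0, 1⟩ : Aff (ρ13 true)) * ⟨1, 0⟩ * (⟨0, 1⟩ : Aff (ρ13 true))⁻¹
        = (⟨1, 0⟩ : Aff (ρ13 true)) ^ 9
      rw [Aff.mk_zero_pow]; decide
  have hA1 : A ≠ 1 := by
    intro h
    have := congrArg (fun z : Gr true => z.1.1.v) h
    exact absurd this (by show (1 : ZMod 7) ≠ 0; decide)
  have hB1 : B ≠ 1 := by
    intro h
    have := congrArg (fun z : Gr true => z.1.2.v) h
    exact absurd this (by show (1 : ZMod 13) ≠ 0; decide)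
  -- the images
  obtain ⟨A', hA'⟩ : ∃ A', A' = ψ A := ⟨_, rfl⟩
  obtain ⟨B', hB'⟩ : ∃ B', B' = ψ B := ⟨_, rfl⟩
  obtain ⟨X', hX'⟩ : ∃ X', X' = ψ X := ⟨_, rfl⟩
  have kA : A' ^ 7 = 1 := by rw [hA', ← map_pow, hA7, map_one]
  have kB : B' ^ 13 = 1 := by rw [hB', ← map_pow, hB13, map_one]
  have kXA : X' * A' * X'⁻¹ = A' ^ 2 := by
    rw [hA', hX', ← map_inv, ← map_mul, ← map_mul, hXA, map_pow]
  have kXB : X' * B' * X'⁻¹ = B' ^ 9 := by
    rw [hB', hX', ← map_inv, ← map_mul, ← map_mul, hXB, map_pow]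
  have nA : A' ≠ 1 := by rw [hA']; simpa using hA1
  have nB : B' ≠ 1 := by rw [hB']; simpa using hB1
  clear hA' hB' hX'
  obtain ⟨⟨a1, a2⟩, ha⟩ := A'
  obtain ⟨⟨b1, b2⟩, hb⟩ := B'
  obtain ⟨⟨x1, x2⟩, hx⟩ := X'
  have ha' : a1.i = a2.i := ha
  have hb' : b1.i = b2.i := hb
  have hx' : x1.i = x2.i := hx
  have ka1 : a1 ^ 7 = 1 := congrArg (fun z : Gr false => z.1.1) kA
  have ka2 : a2 ^ 7 = 1 := congrArg (fun z : Gr false => z.1.2) kA
  have kb1 : b1 ^ 13 = 1 := congrArg (fun z : Gr false => z.1.1) kB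
  have kb2 : b2 ^ 13 = 1 := congrArg (fun z : Gr false => z.1.2) kB
  have kx1 : x1 * a1 * x1⁻¹ = a1 ^ 2 := congrArg (fun z : Gr false => z.1.1) kXA
  have kx2 : x2 * b2 * x2⁻¹ = b2 ^ 9 := congrArg (fun z : Gr false => z.1.2) kXB
  have ia1 : a1.i = 0 := by
    have h := congrArg Aff.i ka1
    rw [Aff.pow_i, Aff.one_def] at h
    revert h; generalize a1.i = i; revert i; decide
  have ib1 : b1.i = 0 := by
    have h := congrArg Aff.i kb1
    rw [Aff.pow_i, Aff.one_def] at h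
    revert h; generalize b1.i = i; revert i; decide
  have ia2 : a2.i = 0 := ha'.symm.trans ia1
  have ib2 : b2.i = 0 := hb'.symm.trans ib1
  rw [Aff.eq_mk _ a2 ia2, Aff.mk_zero_pow, Aff.one_def] at ka2
  have va2 : a2.v = 0 := by
    have h := congrArg Aff.v ka2
    revert h; generalize a2.v = i; revert i; decide
  rw [Aff.eq_mk _ b1 ib1, Aff.mk_zero_pow, Aff.one_def] at kb1
  have vb1 : b1.v = 0 := by
    have h := congrArg Aff.v kb1
    revert h; generalize b1.v = i; revert i; decide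
  have va1 : a1.v ≠ 0 := by
    intro h
    apply nA
    apply Subtype.ext
    apply Prod.ext
    · exact Aff.ext h ia1
    · exact Aff.ext va2 ia2
  have vb2 : b2.v ≠ 0 := by
    intro h
    apply nB
    apply Subtype.ext
    apply Prod.ext
    · exact Aff.ext vb1 ib1
    · exact Aff.ext h ib2
  rw [Aff.eq_mk _ a1 ia1, Aff.conj_mk_zero, Aff.mk_zero_pow] at kx1
  rw [Aff.eq_mk _ b2 ib2, Aff.conj_mk_zero, Aff.mk_zero_pow] at kx2
  have e1 := congrArg Aff.v kx1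
  have e2 := congrArg Aff.v kx2
  rw [hx'] at e1
  revert e1 e2 va1 vb2
  generalize x2.i = i
  generalize a1.v = v
  generalize b2.v = w
  intro va1 vb2 e1 e2
  have h1 : ∀ (i : ZMod 3) (v : ZMod 7), v ≠ 0 → ρ7 i * v = (2 : ℕ) * v → i = 1 := by decide
  have h2 : ∀ (w : ZMod 13), w ≠ 0 → ρ13 false 1 * w ≠ (9 : ℕ) * w := by decide
  have hi := h1 i v va1 e1
  subst hi
  exact h2 w vb2 e2

end Pool.Agent.H698R3.Proj
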