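import Pool.Agent.H698R3.ProjBase

set_option autoImplicit false

namespace Pool.Agent.H698R3.Proj

variable {n : ℕ} (ρ : ZMod 3 → ZMod n) [IsChar ρ]

theorem Aff.mk_zero_mul (v w : ZMod n) : (⟨v, 0⟩ : Aff ρ) * ⟨w, 0⟩ = ⟨v + w, 0⟩ := by
  rw [Aff.mul_def]
  ext
  · simp [IsChar.zero (ρ := ρ)]
  · simp

theorem IsChar.mul_neg (i : ZMod 3) : ρ i * ρ (-i) = 1 := by
  rw [← IsChar.add (ρ := ρ), add_neg_cancel, IsChar.zero (ρ := ρ)]

theorem Aff.conj_mk_zero (g : Aff ρ) (v : ZMod n) :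
    g * ⟨v, 0⟩ * g⁻¹ = ⟨ρ g.i * v, 0⟩ := by
  rw [Aff.mul_def, Aff.mul_def, Aff.inv_def]
  ext
  · have h := IsChar.mul_neg ρ g.i
    simp only [add_zero]
    linear_combination (-g.v) * h
  · simp

theorem Aff.comm_eq (x y : Aff ρ) :
    x⁻¹ * y⁻¹ * x * y =
      ⟨ρ (-x.i) * ρ (-y.i) * ((1 - ρ y.i) * x.v + (ρ x.i - 1) * y.v), 0⟩ := by
  have hx := IsChar.mul_neg ρ x.i
  have hy := IsChar.mul_neg ρ y.i
  rw [Aff.mul_def, Aff.mul_def, Aff.mul_def, Aff.inv_def, Aff.inv_def]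
  ext
  · simp only [IsChar.add (ρ := ρ)]
    linear_combination (ρ (-x.i) * x.v) * hy
  · simp only
    ring

theorem Aff.word_eq (x y : Aff ρ) :
    word x y = ⟨x.v + ρ x.i * y.v + ρ (x.i + y.i) *
      (14 * ((10 + 12 * ρ y.i ^ 2 + 12 * ρ x.i + 6 * (ρ x.i * ρ y.i) + 7 * (ρ x.i ^ 2 * ρ y.i)
        + 6 * (ρ x.i ^ 2 * ρ y.i ^ 2)) *
        (ρ (-x.i) * ρ (-y.i) * ((1 - ρ y.i) * x.v + (ρ x.i - 1) * y.v)))), x.i + y.i⟩ := by
  have h2 : ∀ g : Aff ρ, ρ (g ^ 2).i = ρ g.i ^ 2 := by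
    intro g
    rw [pow_two, Aff.mul_def]
    simp only [IsChar.add (ρ := ρ)]
    ring
  have hm : ∀ g h : Aff ρ, ρ (g * h).i = ρ g.i * ρ h.i := by
    intro g h
    rw [Aff.mul_def]
    simp only [IsChar.add (ρ := ρ)]
  unfold word
  rw [Aff.comm_eq]
  simp only [Aff.conj_mk_zero, Aff.mk_zero_pow, Aff.mk_zero_mul, h2, hm]
  rw [Aff.mul_def, Aff.mul_def]
  ext
  · simp only
    push_cast
    ring
  · simp

theorem word7 (x y : Aff ρ7) : word x y = x * y := by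
  rw [Aff.word_eq, Aff.mul_def]
  ext
  · have h14 : (14 : ZMod 7) = 0 := by decide
    simp only [h14]
    ring
  · rfl

theorem word13 (u : Bool) (x y : Aff (ρ13 u)) :
    word x y = ⟨tw (!u) (x.i + y.i) *
      (tw u x.i * x.v + ρ13 (!u) x.i * (tw u y.i * y.v)), x.i + y.i⟩ := by
  rw [Aff.word_eq]
  obtain ⟨a, i⟩ := x
  obtain ⟨b, j⟩ := y
  ext
  · simp only
    revert u a b i j
    decide
  · rfl

end Pool.Agent.H698R3.Proj
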