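import Pool.Agent.H698R3.StabDefs

set_option autoImplicit false

namespace Pool.Agent.H698R3.Stab

open Filter Topology

/-- Left multiplication by a nontrivial element moves every point. -/
theorem hammingDist_mulLeft {E : Type} [Group E] [Fintype E] [DecidableEq E] (e : E) (he : e ≠ 1) :
    hammingDist (Equiv.mulLeft e) 1 = 1 := by
  unfold hammingDist
  have h : (Finset.univ.filter (fun x : E => (Equiv.mulLeft e) x ≠ (1 : Equiv.Perm E) x)) =
      Finset.univ := by
    apply Finset.filter_true_of_mem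
    intro x _
    simpa using he
  rw [h, Finset.card_univ]
  have : (Fintype.card E : ℝ) ≠ 0 := by
    have := Fintype.card_pos_iff.mpr (⟨1⟩ : Nonempty E)
    positivity
  field_simp

section
variable {G : Type} [Group G] {E : ℕ → Type} [∀ n, Group (E n)]
  (τ : ∀ n, G → E n) (hτ : ∀ g h : G, ∀ᶠ n in atTop, τ n (g * h) = τ n g * τ n h)

include hτ in
theorem eventually_one : ∀ᶠ n in atTop, τ n 1 = 1 := by
  filter_upwards [hτ 1 1] with n hn
  rw [mul_one] at hn
  exact (mul_eq_left.mp hn.symm)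

include hτ in
theorem eventually_inv (g : G) : ∀ᶠ n in atTop, τ n g⁻¹ = (τ n g)⁻¹ := by
  filter_upwards [hτ g⁻¹ g, eventually_one τ hτ] with n hn h1
  rw [inv_mul_cancel, h1] at hn
  exact eq_inv_of_mul_eq_one_left hn.symm

include hτ in
theorem eventually_lift {S : Type} (π : FreeGroup S →* G) (w : FreeGroup S) :
    ∀ᶠ n in atTop, (FreeGroup.lift (fun s => Equiv.mulLeft (τ n (π (FreeGroup.of s)))) w :
      Equiv.Perm (E n)) = Equiv.mulLeft (τ n (π w)) := by
  induction w using FreeGroup.induction_on with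
  | C1 =>
    filter_upwards [eventually_one τ hτ] with n hn
    rw [map_one, map_one, hn]
    ext x; simp
  | of s =>
    filter_upwards with n
    rw [FreeGroup.lift_apply_of]
  | inv_of s ih =>
    filter_upwards [ih, eventually_inv τ hτ (π (FreeGroup.of s))] with n h1 h2
    rw [map_inv, h1, map_inv, h2]
    ext x; simp
  | mul x y hx hy =>
    filter_upwards [hx, hy, hτ (π x) (π y)] with n h1 h2 h3
    rw [map_mul, h1, h2, map_mul, h3]
    ext z; simp

end

theorem tendsto_close {S : Type} {X : ℕ → Type} [∀ n, Fintype (X n)] [∀ n, DecidableEq (X n)]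
    (φ ψ : ∀ n, FreeGroup S →* Equiv.Perm (X n))
    (h : ∀ s : S, Tendsto (fun n => hammingDist (φ n (FreeGroup.of s)) (ψ n (FreeGroup.of s)))
        atTop (𝓝 0)) (w : FreeGroup S) :
    Tendsto (fun n => hammingDist (φ n w) (ψ n w)) atTop (𝓝 0) := by
  induction w using FreeGroup.induction_on with
  | C1 => simp [hammingDist_self]
  | of s => exact h s
  | inv_of s ih =>
    simpa [map_inv, hammingDist_inv_inv] using ih
  | mul x y hx hy =>
    refine squeeze_zero (fun n => hammingDist_nonneg _ _) (fun n => ?_) (by simpa using hx.add hy)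
    rw [map_mul, map_mul]
    exact hammingDist_mul_mul _ _ _ _

/-- A criterion for the failure of permutation stability: `c` is, in every finite quotient, a
commutator `[z, v]`, but asymptotically multiplicative maps to finite groups kill `z` and
not `c`. -/
theorem not_stable_of_witness {G : Type} [Group G] (z c : G)
    (hfin : ∀ (Q : Type) [Group Q] [Finite Q] (ρ : G →* Q), ∃ v : G, ρ c = ρ (z⁻¹ * v⁻¹ * z * v))
    (E : ℕ → Type) [∀ n, Group (E n)] [∀ n, Finite (E n)]
    (τ : ∀ n, G → E n) (hτ : ∀ g h : G, ∀ᶠ n in atTop, τ n (g * h) = τ n g * τ n h)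
    (hz : ∀ᶠ n in atTop, τ n z = 1) (hc : ∀ᶠ n in atTop, τ n c ≠ 1)
    {S : Type} (π : FreeGroup S →* G) (hπ : Function.Surjective π) :
    ¬ StablePresentation π := by
  classical
  intro hst
  let _ : ∀ n, Fintype (E n) := fun n => Fintype.ofFinite _
  obtain ⟨ψ, hψ1, hψ2⟩ := hst E
    (fun n => FreeGroup.lift (fun s => Equiv.mulLeft (τ n (π (FreeGroup.of s)))))
    (by
      intro w hw
      refine tendsto_const_nhds.congr' ?_
      filter_upwards [eventually_lift τ hτ π w, eventually_one τ hτ] with n h1 h2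
      rw [h1, MonoidHom.mem_ker.mp hw, h2]
      have : (Equiv.mulLeft (1 : E n)) = (1 : Equiv.Perm (E n)) := by ext x; simp
      rw [this, hammingDist_self])
  have hall := tendsto_close _ ψ hψ2
  obtain ⟨wz, hwz⟩ := hπ z
  obtain ⟨wc, hwc⟩ := hπ c
  -- `ψ n wz` is close to the identity
  have h1 : Tendsto (fun n => hammingDist (ψ n wz) 1) atTop (𝓝 0) := by
    refine (hall wz).congr' ?_
    filter_upwards [eventually_lift τ hτ π wz, hz] with n h1 h2
    rw [h1, hwz, h2]
    have : (Equiv.mulLeft (1 : E n)) = (1 : Equiv.Perm (E n)) := by ext x; simp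
    rw [this, hammingDist_comm]
  -- `ψ n wc` is far from the identity
  have h2 : ∀ᶠ n in atTop, 1 / 2 < hammingDist (ψ n wc) 1 := by
    have h3 : ∀ᶠ n in atTop, hammingDist ((FreeGroup.lift (fun s =>
        Equiv.mulLeft (τ n (π (FreeGroup.of s)))) wc : Equiv.Perm (E n))) (ψ n wc) < 1 / 2 :=
      (hall wc).eventually (gt_mem_nhds (by norm_num))
    filter_upwards [h3, eventually_lift τ hτ π wc, hc] with n h3 h4 h5
    rw [h4, hwc] at h3
    have h6 := hammingDist_triangle (Equiv.mulLeft (τ n c)) (ψ n wc) 1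
    rw [hammingDist_mulLeft _ h5] at h6
    linarith
  have h3 : ∀ᶠ n in atTop, hammingDist (ψ n wz) 1 < 1 / 4 :=
    h1.eventually (gt_mem_nhds (by norm_num))
  obtain ⟨n, h4, h5⟩ := (h2.and h3).exists
  -- factor `ψ n` through `G`
  let ψ' : G →* Equiv.Perm (E n) := MonoidHom.liftOfSurjective π hπ ⟨ψ n, hψ1 n⟩
  have hψ' : ∀ w, ψ' (π w) = ψ n w := by
    intro w
    exact MonoidHom.liftOfRightInverse_comp_apply π _ (Function.rightInverse_surjInv hπ)
      ⟨ψ n, hψ1 n⟩ w
  have : Finite (Equiv.Perm (E n)) := inferInstance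
  obtain ⟨v, hv⟩ := hfin (Equiv.Perm (E n)) ψ'
  obtain ⟨wv, hwv⟩ := hπ v
  have h6 : ψ n wc = (ψ n wz)⁻¹ * ((ψ n wv)⁻¹ * ψ n wz * ((ψ n wv)⁻¹)⁻¹) := by
    rw [← hψ' wc, hwc, hv, map_mul, map_mul, map_mul, map_inv, map_inv, ← hwz, ← hwv, hψ', hψ']
    group
  have h7 : hammingDist (ψ n wc) 1 ≤ hammingDist (ψ n wz) 1 + hammingDist (ψ n wz) 1 := by
    rw [h6]
    refine (hammingDist_mul_le _ _).trans ?_
    rw [hammingDist_inv, hammingDist_conj]
  linarith

end Pool.Agent.H698R3.Stab
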